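import Mathlib

/-!
# Statements of the pieces of the proof of `MP_ec260d_nt.AlmostAllValues`

For almost every complex `a` the real and imaginary parts of all `a`-points of the Riemann zeta
function are algebraically independent over the rational numbers.  Every `def ... : Prop` is proved
in a file of its own.
-/

set_option autoImplicit false

open Complex Filter Topology Set

namespace Pool.Agent.K4H52.AP

/-- the period `2 π i / log 2` of `2 ^ (-s)` -/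
noncomputable def τ : ℂ := 2 * Real.pi * I / Real.log 2

/-- P1. On the far left vertical lines through odd negative integers zeta is large. -/
def Wall : Prop := ∀ M : ℝ, ∃ k₀ : ℕ, ∀ k : ℕ, k₀ ≤ k → ∀ y : ℝ,
  M < ‖riemannZeta (-(2 * (k : ℂ) + 1) + (y : ℂ) * I)‖

/-- P2a. Almost periodicity: arbitrarily high horizontal segments from `σ₀ + i T` to `5 + i T` on
which the derivative is bounded below (uniformly in `T`), with a large value at the left end. -/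
def Peaks : Prop := ∀ M : ℝ, ∃ σ₀ c : ℝ, 1 < σ₀ ∧ σ₀ < 4 ∧ 0 < c ∧ ∀ T₀ : ℝ, ∃ T : ℝ, T₀ ≤ T ∧
  M < ‖riemannZeta ((σ₀ : ℂ) + (T : ℂ) * I)‖ ∧
  ∀ σ : ℝ, σ₀ ≤ σ → σ ≤ 5 → c ≤ ‖deriv riemannZeta ((σ : ℂ) + (T : ℂ) * I)‖

/-- P2b. The derivative does not vanish for `Re s ≥ 4`. -/
def RightDeriv : Prop := ∀ R : ℝ, ∃ c : ℝ, 0 < c ∧ ∀ s : ℂ, 4 ≤ s.re → s.re ≤ R →
  c ≤ ‖deriv riemannZeta s‖

/-- P3. Maximum principle to the right of a path `ψ` (no winding numbers in the statement): `z₀` is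
to the right of the path at its height, and `‖G‖ ≤ S` on the path, on the horizontal segments from
the two ends of the path to the line `Re = X`, and on the segment of this line between them. -/
def PathBound : Prop := ∀ (G : ℂ → ℂ) (c : ℂ) (ρ S X : ℝ) (ψ : ℝ → ℂ) (t₁ t₂ : ℝ) (z₀ : ℂ),
  DifferentiableOn ℂ G (Metric.ball c ρ) → t₁ ≤ t₂ → (∀ t ∈ Icc t₁ t₂, AnalyticAt ℝ ψ t) →
  (∀ t ∈ Icc t₁ t₂, ψ t ∈ Metric.ball c ρ ∧ (ψ t).re < X ∧ ‖G (ψ t)‖ ≤ S) →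
  z₀ ∈ Metric.ball c ρ → z₀.re < X → (ψ t₁).im < z₀.im → z₀.im < (ψ t₂).im →
  (∀ t ∈ Icc t₁ t₂, (ψ t).im = z₀.im → (ψ t).re < z₀.re) →
  (∀ x ∈ Icc (ψ t₁).re X, (x : ℂ) + ((ψ t₁).im : ℂ) * I ∈ Metric.ball c ρ ∧
    ‖G ((x : ℂ) + ((ψ t₁).im : ℂ) * I)‖ ≤ S) →
  (∀ x ∈ Icc (ψ t₂).re X, (x : ℂ) + ((ψ t₂).im : ℂ) * I ∈ Metric.ball c ρ ∧
    ‖G ((x : ℂ) + ((ψ t₂).im : ℂ) * I)‖ ≤ S) →
  (∀ y ∈ Icc (ψ t₁).im (ψ t₂).im, (X : ℂ) + (y : ℂ) * I ∈ Metric.ball c ρ ∧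
    ‖G ((X : ℂ) + (y : ℂ) * I)‖ ≤ S) →
  ‖G z₀‖ ≤ S

/-- The asymptotic path theorem (from P1, P2, P3): a path to infinity on which zeta is convergent
ends in the far right. -/
def AsymptoticPath : Prop := ∀ (ψ : ℝ → ℂ) (l : Filter ℝ) (a : ℂ) (t₀ : ℝ),
  (l = atTop ∨ ∃ T, t₀ < T ∧ l = 𝓝[<] T) →
  (∀ t, t₀ ≤ t → (∀ T, l = 𝓝[<] T → t < T) → AnalyticAt ℝ ψ t) →
  Tendsto (fun t => riemannZeta (ψ t)) l (𝓝 a) → Tendsto (fun t => ‖ψ t‖) l atTop →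
  Tendsto (fun t => (ψ t).re) l atTop

/-- A system of distinct inverse branches of zeta on an open set `U`. -/
structure Branches {ι : Type} (U : Set ℂ) (s : ι → ℂ → ℂ) : Prop where
  diff : ∀ i, DifferentiableOn ℂ (s i) U
  ne_one : ∀ i, ∀ a ∈ U, s i a ≠ 1
  zeta : ∀ i, ∀ a ∈ U, riemannZeta (s i a) = a
  inj : ∀ a ∈ U, Function.Injective (fun i => s i a)

/-- Theorem A: distinct inverse branches of zeta are algebraically independent over `ℂ`. -/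
def ThmA : Prop := ∀ (m : ℕ) (U : Set ℂ) (s : Fin m → ℂ → ℂ) (Q : MvPolynomial (Fin m) ℂ),
  IsOpen U → U.Nonempty → Branches U s → (∀ a ∈ U, MvPolynomial.eval (fun i => s i a) Q = 0) →
  Q = 0

/-- Theorem B, the final result. -/
def ThmB : Prop := ∀ᵐ a : ℂ, AlgebraicIndependent ℚ
  (fun p : {s : ℂ // s ≠ 1 ∧ riemannZeta s = a} × Bool => if p.2 then (p.1 : ℂ).re else (p.1 : ℂ).im)

/-- P4. -/
def MeasurePart : Prop := ThmA → ThmB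

/-- P5. The coordinate `Λ` on a right half-plane, and its inverse `J`. -/
structure Tract (X : ℝ) (Λ J : ℂ → ℂ) : Prop where
  five : 5 ≤ X
  dΛ : DifferentiableOn ℂ Λ {z | X < z.re}
  dJ : DifferentiableOn ℂ J {z | X < z.re}
  Λ_eq : ∀ z : ℂ, X < z.re → (2 : ℂ) ^ (-Λ z) = riemannZeta z - 1
  Λ_close : ∀ z : ℂ, X < z.re → ‖Λ z - z‖ ≤ 1 / 4
  J_close : ∀ w : ℂ, X < w.re → ‖J w - w‖ ≤ 1 / 4
  ΛJ : ∀ w : ℂ, X + 1 < w.re → Λ (J w) = w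
  JΛ : ∀ z : ℂ, X + 1 < z.re → J (Λ z) = z
  J_lim : ∀ ε : ℝ, 0 < ε → ∃ Y : ℝ, ∀ w : ℂ, Y < w.re → ‖J w - w‖ ≤ ε

def TractExists : Prop := ∃ (X : ℝ) (Λ J : ℂ → ℂ), Tract X Λ J

/-- P6. Branches of the inverse of zeta which stay bounded at the value one: they are functions of
`w`, with period `τ k`, where `ζ = 1 + 2 ^ (-w)`. -/
def EndBranch : Prop := ∀ (w ψ : ℝ → ℂ) (p : ℂ) (t₀ : ℝ), p ≠ 1 → riemannZeta p = 1 →
  ContinuousOn w (Ici t₀) → ContinuousOn ψ (Ici t₀) → Tendsto (fun t => (w t).re) atTop atTop →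
  Tendsto ψ atTop (𝓝 p) → (∀ t, t₀ ≤ t → riemannZeta (ψ t) = 1 + (2 : ℂ) ^ (-w t)) →
  ∃ (k : ℕ) (Y t₁ : ℝ) (R : ℂ → ℂ), 1 ≤ k ∧ DifferentiableOn ℂ R {z | Y < z.re} ∧
    (∀ z : ℂ, Y < z.re → R (z + τ * k) = R z ∧ R z ≠ 1 ∧ riemannZeta (R z) = 1 + (2 : ℂ) ^ (-z)) ∧
    ∀ t, t₁ ≤ t → Y < (w t).re ∧ ψ t = R (w t)

/-- P7. Kronecker: the shifts `s ↦ ζ (s + τ L)`, `L` a large multiple of `N`, approximate the
function `ζ` with the phase of the Euler factor at `p` rotated by `η`. -/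
def Shifts : Prop := ∀ (p : ℕ), p.Prime → p ≠ 2 → ∀ (η : ℂ), ‖η‖ = 1 → ∀ (N : ℕ), 1 ≤ N →
  ∀ (σ₀ ε : ℝ), 1 < σ₀ → 0 < ε → ∀ L₀ : ℕ, ∃ L : ℕ, L₀ ≤ L ∧ N ∣ L ∧ ∀ s : ℂ, σ₀ ≤ s.re →
    ‖riemannZeta (s + τ * L) -
      riemannZeta s * ((1 - (p : ℂ) ^ (-s)) / (1 - η * (p : ℂ) ^ (-s)))‖ ≤ ε

/-- P8. The points `(J (w + τ (n i + N l)))_i`, `l` an integer, are Zariski dense, if `Re w` is
large. -/
def Dense : Prop := ∀ (X : ℝ) (Λ J : ℂ → ℂ), Tract X Λ J → ∀ (r : ℕ) (n : Fin r → ℤ),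
  Function.Injective n → ∀ N : ℕ, 1 ≤ N → ∃ Y : ℝ, X ≤ Y ∧ ∀ w : ℂ, Y < w.re →
    ∀ H : MvPolynomial (Fin r) ℂ,
    (∀ l : ℤ, MvPolynomial.eval (fun i => J (w + τ * ((n i : ℂ) + N * l))) H = 0) → H = 0

end Pool.Agent.K4H52.AP
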