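import Mathlib
import Pool.Agent.K4H52.AP.Spec

set_option autoImplicit false

open Complex Filter Topology Set

namespace Pool.Agent.K4H52.AP

theorem an_zeta {s : ℂ} (h : s ≠ 1) : AnalyticAt ℂ riemannZeta s :=
  analyticOn_riemannZeta s h

theorem conn_compl : IsPreconnected ({1}ᶜ : Set ℂ) :=
  (isConnected_compl_singleton_of_one_lt_rank (by simp) 1).isPreconnected

theorem countable_zeros {f : ℂ → ℂ} (hf : AnalyticOnNhd ℂ f {1}ᶜ) {z₁ : ℂ} (h1 : z₁ ≠ 1)
    (h : f z₁ ≠ 0) : {z : ℂ | z ≠ 1 ∧ f z = 0}.Countable := by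
  have key : ∀ x ∈ {z : ℂ | z ≠ 1 ∧ f z = 0}, ∃ U ∈ 𝓝 x, U ∩ {z : ℂ | z ≠ 1 ∧ f z = 0} ⊆ {x} := by
    rintro x ⟨hx1, hx2⟩
    rcases (hf x hx1).eventually_eq_zero_or_eventually_ne_zero with h2 | h2
    · exfalso
      exact h (hf.eqOn_zero_of_preconnected_of_eventuallyEq_zero conn_compl hx1 h2 h1)
    · rw [eventually_nhdsWithin_iff] at h2
      refine ⟨_, h2, ?_⟩
      rintro y ⟨hy1, -, hy3⟩
      by_contra hne
      exact hy1 hne hy3
  have hd : DiscreteTopology {z : ℂ | z ≠ 1 ∧ f z = 0} := by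
    rw [discreteTopology_subtype_iff]
    intro x hx
    obtain ⟨U, hU, hU2⟩ := key x hx
    rw [inf_principal_eq_bot]
    rw [mem_nhdsWithin_iff_exists_mem_nhds_inter]
    refine ⟨U, hU, ?_⟩
    rintro y ⟨hy1, hy2⟩ hy3
    exact hy2 (hU2 ⟨hy1, hy3⟩)
  have := TopologicalSpace.separableSpace_iff_countable.1
    (inferInstance : TopologicalSpace.SeparableSpace {z : ℂ | z ≠ 1 ∧ f z = 0})
  exact Set.countable_coe_iff.1 this

/-- zeta near the pole -/
theorem pole_large (M : ℝ) : ∀ᶠ s in 𝓝[≠] (1 : ℂ), M < ‖riemannZeta s‖ := by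
  have h1 := riemannZeta_residue_one
  have h2 : ∀ᶠ s in 𝓝[≠] (1 : ℂ), (1 / 2 : ℝ) < ‖(s - 1) * riemannZeta s‖ := by
    have := h1.norm
    rw [norm_one] at this
    exact this.eventually_const_lt (by norm_num)
  have h3 : ∀ᶠ s in 𝓝[≠] (1 : ℂ), ‖s - 1‖ < 1 / (2 * (|M| + 1)) := by
    have : ∀ᶠ s in 𝓝 (1 : ℂ), ‖s - 1‖ < 1 / (2 * (|M| + 1)) := by
      have h4 : Metric.ball (1 : ℂ) (1 / (2 * (|M| + 1))) ∈ 𝓝 (1 : ℂ) :=
        Metric.ball_mem_nhds _ (by positivity)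
      filter_upwards [h4] with s hs
      rwa [mem_ball_iff_norm] at hs
    exact this.filter_mono nhdsWithin_le_nhds
  filter_upwards [h2, h3] with s hs2 hs3
  rw [norm_mul] at hs2
  have h5 : (0 : ℝ) < |M| + 1 := by positivity
  by_contra hcon
  push Not at hcon
  have h6 : ‖riemannZeta s‖ ≤ |M| + 1 := hcon.trans ((le_abs_self M).trans (by linarith))
  have h7 : ‖s - 1‖ * ‖riemannZeta s‖ ≤ 1 / (2 * (|M| + 1)) * (|M| + 1) := by gcongr
  have h8 : 1 / (2 * (|M| + 1)) * (|M| + 1) = 1 / 2 := by field_simp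
  linarith

/-- zeta has large values -/
theorem exists_large (M : ℝ) : ∃ s : ℂ, s ≠ 1 ∧ M < ‖riemannZeta s‖ := by
  obtain ⟨s, hs1, hs2⟩ := ((pole_large M).and self_mem_nhdsWithin).exists
  exact ⟨s, hs2, hs1⟩

theorem countable_fiber (v : ℂ) : {z : ℂ | z ≠ 1 ∧ riemannZeta z = v}.Countable := by
  obtain ⟨s, hs1, hs2⟩ := exists_large ‖v‖
  have h := countable_zeros (f := fun z => riemannZeta z - v)
    (analyticOn_riemannZeta.sub analyticOnNhd_const) hs1 (by
      intro h0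
      rw [sub_eq_zero.1 h0] at hs2
      exact lt_irrefl _ hs2)
  refine h.mono ?_
  rintro z ⟨h1, h2⟩
  exact ⟨h1, by simp [h2]⟩

theorem deriv_an : AnalyticOnNhd ℂ (deriv riemannZeta) {1}ᶜ := analyticOn_riemannZeta.deriv

theorem exists_deriv_ne : ∃ s : ℂ, s ≠ 1 ∧ deriv riemannZeta s ≠ 0 := by
  by_contra hcon
  push Not at hcon
  obtain ⟨s, hs1, hs2⟩ := exists_large ‖riemannZeta 0‖
  have h1 : ∀ z ∈ ({1}ᶜ : Set ℂ), HasDerivAt riemannZeta 0 z := by
    intro z hz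
    have := (an_zeta hz).differentiableAt.hasDerivAt
    rwa [hcon z hz] at this
  have h2 : IsOpen ({1}ᶜ : Set ℂ) := isOpen_compl_singleton
  have h3 := h2.is_const_of_deriv_eq_zero conn_compl
    (fun z hz => (an_zeta hz).differentiableAt.differentiableWithinAt)
    (fun z hz => (h1 z hz).deriv) (x := s) (y := 0) hs1 (by simp)
  rw [h3] at hs2
  exact lt_irrefl _ hs2

theorem countable_crit : {z : ℂ | z ≠ 1 ∧ deriv riemannZeta z = 0}.Countable := by
  obtain ⟨s, hs1, hs2⟩ := exists_deriv_ne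
  exact countable_zeros deriv_an hs1 hs2

/-- the points which the moving point has to avoid -/
def Bad : Set ℂ := {z | z = 1 ∨ riemannZeta z = 1 ∨
  ∃ c : ℂ, c ≠ 1 ∧ deriv riemannZeta c = 0 ∧ riemannZeta c = riemannZeta z}

theorem countable_bad : Bad.Countable := by
  have h1 : Bad ⊆ {1} ∪ {z : ℂ | z ≠ 1 ∧ riemannZeta z = 1} ∪
      ⋃ c ∈ {z : ℂ | z ≠ 1 ∧ deriv riemannZeta z = 0},
        {z : ℂ | z ≠ 1 ∧ riemannZeta z = riemannZeta c} := by
    intro z hz
    by_cases h0 : z = 1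
    · exact Or.inl (Or.inl h0)
    rcases hz with h | h | ⟨c, hc1, hc2, hc3⟩
    · exact absurd h h0
    · exact Or.inl (Or.inr ⟨h0, h⟩)
    · refine Or.inr ?_
      simp only [mem_iUnion]
      exact ⟨c, ⟨hc1, hc2⟩, h0, hc3.symm⟩
  refine Set.Countable.mono h1 (((countable_singleton _).union (countable_fiber 1)).union ?_)
  exact countable_crit.biUnion fun c _ => countable_fiber _

theorem countable_heights : (Complex.im '' Bad).Countable := countable_bad.image _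

/-- local inverse of zeta -/
theorem local_inverse {p : ℂ} (h1 : p ≠ 1) (h2 : deriv riemannZeta p ≠ 0) :
    ∃ g : ℂ → ℂ, AnalyticAt ℂ g (riemannZeta p) ∧ g (riemannZeta p) = p ∧
      (∀ᶠ s in 𝓝 p, g (riemannZeta s) = s) ∧
      ∀ᶠ a in 𝓝 (riemannZeta p), riemannZeta (g a) = a := by
  refine ⟨_, (an_zeta h1).analyticAt_localInverse h2, ?_, ?_, ?_⟩
  · exact HasStrictFDerivAt.localInverse_apply_image ..
  · exact HasStrictDerivAt.eventually_left_inverse ..
  · exact HasStrictDerivAt.eventually_right_inverse ..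

/-- regular points -/
def Reg : Set ℂ := {s | s ≠ 1 ∧ deriv riemannZeta s ≠ 0}

theorem uniq {S : Set ℝ} (hS : IsPreconnected S) {ψ φ : ℝ → ℂ} (hψ : ContinuousOn ψ S)
    (hφ : ContinuousOn φ S) (rψ : ∀ t ∈ S, ψ t ∈ Reg) (rφ : ∀ t ∈ S, φ t ∈ Reg)
    (he : ∀ t ∈ S, riemannZeta (ψ t) = riemannZeta (φ t)) {t₀ : ℝ} (h0 : t₀ ∈ S)
    (h : ψ t₀ = φ t₀) : ∀ t ∈ S, ψ t = φ t := by
  have hpc : PreconnectedSpace S := isPreconnected_iff_preconnectedSpace.1 hS
  let f : Reg → ℂ := fun s => riemannZeta s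
  let g₁ : S → Reg := fun t => ⟨ψ t, rψ t t.2⟩
  let g₂ : S → Reg := fun t => ⟨φ t, rφ t t.2⟩
  have hg₁ : Continuous g₁ := (continuousOn_iff_continuous_domRestrict.1 hψ).subtype_mk _
  have hg₂ : Continuous g₂ := (continuousOn_iff_continuous_domRestrict.1 hφ).subtype_mk _
  have hinj : IsLocallyInjective f := by
    rw [isLocallyInjective_iff_nhds]
    intro s
    obtain ⟨g, -, -, h3, -⟩ := local_inverse s.2.1 s.2.2
    refine ⟨{x : Reg | g (riemannZeta x) = x}, ?_, ?_⟩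
    · exact (continuous_subtype_val.tendsto s).eventually h3
    · intro x hx y hy hxy
      apply Subtype.ext
      have h4 : riemannZeta (x : ℂ) = riemannZeta (y : ℂ) := hxy
      have h5 : g (riemannZeta x) = x := hx
      have h6 : g (riemannZeta y) = y := hy
      rw [← h5, ← h6, h4]
  have := IsSeparatedMap.eq_of_comp_eq (T2Space.isSeparatedMap f) hinj hg₁ hg₂
    (by
      funext t
      exact he t t.2) ⟨t₀, h0⟩ (Subtype.ext h)
  intro t ht
  have h7 := congrFun this ⟨t, ht⟩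
  exact congrArg Subtype.val h7

end Pool.Agent.K4H52.AP
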