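import Pool.Agent.K4H52.AP.Spec

/-!
# The end of the proof of the measure part

`BadVal m P` is the set of the values `a` with `m` different simple `a`-points whose real and imaginary
parts satisfy the relation `P`.
-/

set_option autoImplicit false

open Complex Filter Topology Set

namespace Pool.Agent.K4H52.AP

/-- the values with `m` different simple points which satisfy the relation `P` -/
def BadVal (m : ℕ) (P : MvPolynomial (Fin m × Bool) ℚ) : Set ℂ :=
  {a | ∃ s : Fin m → ℂ, Function.Injective s ∧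
    (∀ i, s i ≠ 1 ∧ riemannZeta (s i) = a ∧ deriv riemannZeta (s i) ≠ 0) ∧
    (MvPolynomial.aeval (fun p : Fin m × Bool => if p.2 then (s p.1).re else (s p.1).im) P : ℝ) = 0}

/-- the critical values of zeta -/
def Crit : Set ℂ := {a | ∃ s, s ≠ 1 ∧ riemannZeta s = a ∧ deriv riemannZeta s = 0}

theorem zeta_analyticOnNhd : AnalyticOnNhd ℂ riemannZeta {1}ᶜ :=
  DifferentiableOn.analyticOnNhd
    (fun _ hs => (differentiableAt_riemannZeta hs).differentiableWithinAt) isOpen_compl_singleton

theorem compl_one_preconnected : IsPreconnected ({1}ᶜ : Set ℂ) :=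
  (isConnected_compl_singleton_of_one_lt_rank (by simp) (1 : ℂ)).isPreconnected

theorem zeta_deriv_discrete (z : ℂ) (hz : z ≠ 1) :
    ∀ᶠ w in 𝓝[≠] z, deriv riemannZeta w ≠ 0 := by
  have hz' : z ∈ ({1}ᶜ : Set ℂ) := hz
  have hd : AnalyticOnNhd ℂ (deriv riemannZeta) {1}ᶜ := zeta_analyticOnNhd.deriv
  rcases (hd z hz').eventually_eq_zero_or_eventually_ne_zero with h | h
  · exfalso
    have h0 := hd.eqOn_zero_of_preconnected_of_eventuallyEq_zero compl_one_preconnected hz' h
    have hc := isOpen_compl_singleton.is_const_of_deriv_eq_zero compl_one_preconnected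
      (fun s hs => (differentiableAt_riemannZeta hs).differentiableWithinAt) h0
      (show (0 : ℂ) ∈ ({1}ᶜ : Set ℂ) by simp)
      (show (-2 * ((0 : ℕ) + 1) : ℂ) ∈ ({1}ᶜ : Set ℂ) by
        simp only [mem_compl_iff, mem_singleton_iff]
        intro h
        have := congrArg Complex.re h
        norm_num at this)
    rw [riemannZeta_zero, riemannZeta_neg_two_mul_nat_add_one] at hc
    norm_num at hc
  · exact h

theorem crit_countable : Crit.Countable := by
  have hZ : ({s : ℂ | s ≠ 1 ∧ deriv riemannZeta s = 0} : Set ℂ).Countable := by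
    have hdisc : DiscreteTopology ({s : ℂ | s ≠ 1 ∧ deriv riemannZeta s = 0} : Set ℂ) := by
      rw [discreteTopology_subtype_iff]
      intro x hx
      rw [← disjoint_iff, Filter.disjoint_principal_right]
      filter_upwards [zeta_deriv_discrete x hx.1] with w hw
      intro h
      exact hw h.2
    exact Set.countable_coe_iff.1 (countable_of_Lindelof_of_discrete)
  refine (hZ.image riemannZeta).mono ?_
  rintro a ⟨s, hs1, hsa, hs0⟩
  exact ⟨s, ⟨hs1, hs0⟩, hsa⟩

theorem assembly_relation {a : ℂ} (ha : a ∉ Crit)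
    (p : MvPolynomial ({s : ℂ // s ≠ 1 ∧ riemannZeta s = a} × Bool) ℚ) (hp : p ≠ 0)
    (h0 : MvPolynomial.aeval (fun p : {s : ℂ // s ≠ 1 ∧ riemannZeta s = a} × Bool =>
      if p.2 then (p.1 : ℂ).re else (p.1 : ℂ).im) p = 0) :
    ∃ (m : ℕ) (P : MvPolynomial (Fin m × Bool) ℚ), P ≠ 0 ∧ a ∈ BadVal m P := by
  classical
  set F : Finset {s : ℂ // s ≠ 1 ∧ riemannZeta s = a} := p.vars.image Prod.fst with hF
  let e : Fin F.card ≃ F := F.equivFin.symm
  let f : Fin F.card × Bool → {s : ℂ // s ≠ 1 ∧ riemannZeta s = a} × Bool :=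
    fun q => ((e q.1 : {s : ℂ // s ≠ 1 ∧ riemannZeta s = a}), q.2)
  have hf : Function.Injective f := by
    rintro ⟨i, b⟩ ⟨j, c⟩ h
    simp only [f, Prod.mk.injEq] at h
    obtain ⟨h1, h2⟩ := h
    have : i = j := e.injective (Subtype.ext h1)
    rw [this, h2]
  have hrange : (p.vars : Set ({s : ℂ // s ≠ 1 ∧ riemannZeta s = a} × Bool)) ⊆ Set.range f := by
    intro q hq
    have hq' : q.1 ∈ F := by
      rw [hF, Finset.mem_image]
      exact ⟨q, hq, rfl⟩
    refine ⟨(e.symm ⟨q.1, hq'⟩, q.2), ?_⟩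
    simp [f]
  obtain ⟨P, hP⟩ := MvPolynomial.exists_rename_eq_of_vars_subset_range p f hf hrange
  refine ⟨F.card, P, ?_, fun i => ((e i : {s : ℂ // s ≠ 1 ∧ riemannZeta s = a}) : ℂ), ?_, ?_, ?_⟩
  · rintro rfl
    apply hp
    rw [← hP, map_zero]
  · intro i j h
    exact e.injective (Subtype.ext (Subtype.ext h))
  · intro i
    refine ⟨(e i : {s : ℂ // s ≠ 1 ∧ riemannZeta s = a}).2.1,
      (e i : {s : ℂ // s ≠ 1 ∧ riemannZeta s = a}).2.2, ?_⟩
    intro hd
    exact ha ⟨_, (e i : {s : ℂ // s ≠ 1 ∧ riemannZeta s = a}).2.1,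
      (e i : {s : ℂ // s ≠ 1 ∧ riemannZeta s = a}).2.2, hd⟩
  · rw [← hP, MvPolynomial.aeval_rename] at h0
    exact h0

theorem assembly (h : ∀ (m : ℕ) (P : MvPolynomial (Fin m × Bool) ℚ), P ≠ 0 →
    MeasureTheory.volume (BadVal m P) = 0) : ThmB := by
  have hcrit : ∀ᵐ a : ℂ, a ∉ Crit := by
    have := crit_countable.measure_zero (μ := (MeasureTheory.volume : MeasureTheory.Measure ℂ))
    rw [MeasureTheory.measure_eq_zero_iff_ae_notMem] at this
    exact this
  have hbad : ∀ᵐ a : ℂ, ∀ (m : ℕ) (P : MvPolynomial (Fin m × Bool) ℚ), P ≠ 0 → a ∉ BadVal m P := by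
    rw [MeasureTheory.ae_all_iff]
    intro m
    have : Countable (MvPolynomial (Fin m × Bool) ℚ) := by
      have h1 := MvPolynomial.cardinalMk_le_max (σ := Fin m × Bool) (R := ℚ)
      rw [← Cardinal.mk_le_aleph0_iff]
      refine h1.trans (max_le (max_le ?_ ?_) le_rfl)
      · exact Cardinal.mk_le_aleph0
      · exact Cardinal.mk_le_aleph0
    rw [MeasureTheory.ae_all_iff]
    intro P
    by_cases hP : P = 0
    · exact Eventually.of_forall fun a h' => absurd hP h'
    · have := h m P hP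
      rw [MeasureTheory.measure_eq_zero_iff_ae_notMem] at this
      filter_upwards [this] with a ha _
      exact ha
  filter_upwards [hcrit, hbad] with a ha hb
  rw [algebraicIndependent_iff]
  intro p hp
  by_contra hne
  obtain ⟨m, P, hP, haP⟩ := assembly_relation ha p hne hp
  exact hb m P hP haP

end Pool.Agent.K4H52.AP
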