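import Mathlib
import Pool.Agent.K4H52.AP.Lift
import Pool.Agent.K4H52.AP.MeasureEnd

/-!
# From the independence of the branches to all but countably many values
-/

set_option autoImplicit false

open Complex Filter Topology Set

namespace Pool.Agent.K4H52.AP

/-- systems of `m` different simple points with the same value which satisfy the relation `Q` -/
def RelPts {m : ℕ} (Q : MvPolynomial (Fin m) ℂ) (i₀ : Fin m) : Set (Fin m → ℂ) :=
  {s | Function.Injective s ∧ (∀ i, s i ∈ Reg ∧ riemannZeta (s i) = riemannZeta (s i₀)) ∧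
    MvPolynomial.eval s Q = 0}

theorem relPts_isolated (hA : ThmA) {m : ℕ} {Q : MvPolynomial (Fin m) ℂ} (hQ : Q ≠ 0)
    (i₀ : Fin m) : ∀ x ∈ RelPts Q i₀, ∃ U ∈ 𝓝 x, U ∩ RelPts Q i₀ ⊆ {x} := by
  rintro x ⟨hinj, hx, hx0⟩
  choose g hga hgx hgl hgr using fun i => local_inverse (hx i).1.1 (hx i).1.2
  set a₀ := riemannZeta (x i₀) with ha₀
  have hζ : ∀ i, riemannZeta (x i) = a₀ := fun i => (hx i).2
  simp only [hζ] at hga hgx hgr
  have hf : AnalyticAt ℂ (fun a => MvPolynomial.eval (fun i => g i a) Q) a₀ :=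
    AnalyticAt.aeval_mvPolynomial (f := fun a i => g i a) hga Q
  rcases hf.eventually_eq_zero_or_eventually_ne_zero with h | h
  · exfalso
    apply hQ
    have h1 : ∀ᶠ a in 𝓝 a₀, ∀ i, AnalyticAt ℂ (g i) a := by
      rw [eventually_all]
      exact fun i => (hga i).eventually_analyticAt
    have h2 : ∀ᶠ a in 𝓝 a₀, ∀ i, riemannZeta (g i a) = a := by
      rw [eventually_all]
      exact hgr
    have h3 : ∀ᶠ a in 𝓝 a₀, ∀ i, g i a ≠ 1 := by
      rw [eventually_all]
      intro i
      exact (hga i).continuousAt.eventually_ne (by rw [hgx i]; exact (hx i).1.1)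
    have h4 : ∀ᶠ a in 𝓝 a₀, ∀ i j, i ≠ j → g i a ≠ g j a := by
      rw [eventually_all]
      intro i
      rw [eventually_all]
      intro j
      by_cases hij : i = j
      · exact Eventually.of_forall fun a h => absurd hij h
      · have hsub : ContinuousAt (fun a => g i a - g j a) a₀ :=
          (hga i).continuousAt.sub (hga j).continuousAt
        have h6 : (fun a => g i a - g j a) a₀ ≠ 0 := by
          simp only [hgx]
          exact sub_ne_zero.2 (fun h => hij (hinj h))
        filter_upwards [hsub.eventually_ne h6] with a ha _ h5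
        exact ha (sub_eq_zero.2 h5)
    obtain ⟨ε, hε, hball⟩ := Metric.eventually_nhds_iff_ball.1 (h.and (h1.and (h2.and (h3.and h4))))
    refine hA m (Metric.ball a₀ ε) g Q Metric.isOpen_ball ⟨a₀, Metric.mem_ball_self hε⟩ ?_
      (fun a ha => (hball a ha).1)
    exact {
      diff := fun i a ha => ((hball a ha).2.1 i).differentiableAt.differentiableWithinAt
      ne_one := fun i a ha => (hball a ha).2.2.2.1 i
      zeta := fun i a ha => (hball a ha).2.2.1 i
      inj := by
        intro a ha i j hij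
        by_contra hne
        exact (hball a ha).2.2.2.2 i j hne hij }
  · rw [eventually_nhdsWithin_iff] at h
    have h1 : ∀ᶠ y : Fin m → ℂ in 𝓝 x, ∀ i, g i (riemannZeta (y i)) = y i := by
      rw [eventually_all]
      intro i
      exact ((continuous_apply i).tendsto x).eventually (hgl i)
    have h2 : ∀ᶠ y : Fin m → ℂ in 𝓝 x, riemannZeta (y i₀) ∈ ({a₀}ᶜ : Set ℂ) →
        MvPolynomial.eval (fun i => g i (riemannZeta (y i₀))) Q ≠ 0 := by
      have hc : Tendsto (fun y : Fin m → ℂ => riemannZeta (y i₀)) (𝓝 x) (𝓝 a₀) :=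
        (an_zeta (hx i₀).1.1).continuousAt.tendsto.comp ((continuous_apply i₀).tendsto x)
      exact hc.eventually h
    refine ⟨_, h1.and h2, ?_⟩
    rintro y ⟨⟨hy1, hy2⟩, hyi, hyr, hy0⟩
    have h3 : ∀ i, g i (riemannZeta (y i₀)) = y i := by
      intro i
      rw [← (hyr i).2]
      exact hy1 i
    have h4 : riemannZeta (y i₀) = a₀ := by
      by_contra hne
      apply hy2 hne
      rw [← hy0]
      congr 2
      funext i
      exact h3 i
    rw [mem_singleton_iff]
    funext i
    rw [← h3 i, h4, hgx i]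

theorem countable_of_isolated {X : Type} [TopologicalSpace X] [SecondCountableTopology X]
    {Z : Set X} (key : ∀ x ∈ Z, ∃ U ∈ 𝓝 x, U ∩ Z ⊆ {x}) : Z.Countable := by
  have hd : DiscreteTopology Z := by
    rw [discreteTopology_subtype_iff]
    intro x hx
    obtain ⟨U, hU, hU2⟩ := key x hx
    rw [inf_principal_eq_bot]
    rw [mem_nhdsWithin_iff_exists_mem_nhds_inter]
    refine ⟨U, hU, ?_⟩
    rintro y ⟨hy1, hy2⟩ hy3
    exact hy2 (hU2 ⟨hy1, hy3⟩)
  have := TopologicalSpace.separableSpace_iff_countable.1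
    (inferInstance : TopologicalSpace.SeparableSpace Z)
  exact Set.countable_coe_iff.1 this

/-- the values with `m` different simple points which satisfy the relation `Q` -/
def RelVal {m : ℕ} (Q : MvPolynomial (Fin m) ℂ) : Set ℂ :=
  {a | ∃ s : Fin m → ℂ, Function.Injective s ∧
    (∀ i, s i ≠ 1 ∧ riemannZeta (s i) = a ∧ deriv riemannZeta (s i) ≠ 0) ∧
    MvPolynomial.eval s Q = 0}

theorem relVal_countable (hA : ThmA) {m : ℕ} {Q : MvPolynomial (Fin m) ℂ} (hQ : Q ≠ 0) :
    (RelVal Q).Countable := by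
  rcases Nat.eq_zero_or_pos m with rfl | hm
  · have : RelVal Q = ∅ := by
      rw [Set.eq_empty_iff_forall_notMem]
      rintro a ⟨s, -, -, h⟩
      apply hQ
      rw [MvPolynomial.eq_C_of_isEmpty Q, MvPolynomial.eval_C] at h
      rw [MvPolynomial.eq_C_of_isEmpty Q, h, map_zero]
    rw [this]
    exact Set.countable_empty
  · have h1 := countable_of_isolated (relPts_isolated hA hQ ⟨0, hm⟩)
    refine (h1.image fun s => riemannZeta (s ⟨0, hm⟩)).mono ?_
    rintro a ⟨s, hs1, hs2, hs3⟩
    exact ⟨s, ⟨hs1, fun i => ⟨⟨(hs2 i).1, (hs2 i).2.2⟩, by rw [(hs2 i).2.1, (hs2 _).2.1]⟩, hs3⟩,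
      (hs2 _).2.1⟩

theorem countable_mvPolynomial {K : Type} [Field K] [Countable K] (m : ℕ) :
    Countable (MvPolynomial (Fin m) K) := by
  have h1 := MvPolynomial.cardinalMk_le_max (σ := Fin m) (R := K)
  rw [← Cardinal.mk_le_aleph0_iff]
  refine h1.trans (max_le (max_le ?_ ?_) le_rfl)
  · exact Cardinal.mk_le_aleph0
  · exact Cardinal.mk_le_aleph0

/-- Outside a countable set of values, the points are algebraically independent. -/
theorem countable_exceptions (hA : ThmA) (K : Subfield ℂ) (hK : (K : Set ℂ).Countable) :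
    {a : ℂ | ¬ AlgebraicIndependent K
      (fun s : {s : ℂ // s ≠ 1 ∧ riemannZeta s = a} => (s : ℂ))}.Countable := by
  classical
  have hKc : Countable K := hK.to_subtype
  have hmc : ∀ m : ℕ, Countable (MvPolynomial (Fin m) K) := fun m => countable_mvPolynomial m
  have h1 : (⋃ (m : ℕ), ⋃ P ∈ {P : MvPolynomial (Fin m) K | P ≠ 0},
      RelVal (MvPolynomial.map (algebraMap K ℂ) P)).Countable := by
    refine Set.countable_iUnion fun m => ?_
    refine (Set.to_countable _).biUnion fun P hP => ?_
    apply relVal_countable hA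
    intro h
    apply hP
    apply MvPolynomial.map_injective (algebraMap K ℂ) (algebraMap K ℂ).injective
    rw [h, map_zero]
  refine (crit_countable.union h1).mono ?_
  intro a ha
  by_cases hac : a ∈ Crit
  · exact Or.inl hac
  refine Or.inr ?_
  rw [mem_setOf_eq, algebraicIndependent_iff] at ha
  push Not at ha
  obtain ⟨p, hp0, hp⟩ := ha
  set F : Finset {s : ℂ // s ≠ 1 ∧ riemannZeta s = a} := p.vars with hF
  let e : Fin F.card ≃ F := F.equivFin.symm
  let f : Fin F.card → {s : ℂ // s ≠ 1 ∧ riemannZeta s = a} := fun q => e q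
  have hf : Function.Injective f := fun i j h => e.injective (Subtype.ext h)
  have hrange : (p.vars : Set {s : ℂ // s ≠ 1 ∧ riemannZeta s = a}) ⊆ Set.range f := by
    intro q hq
    refine ⟨e.symm ⟨q, hq⟩, ?_⟩
    simp [f]
  obtain ⟨P, hP⟩ := MvPolynomial.exists_rename_eq_of_vars_subset_range p f hf hrange
  simp only [mem_iUnion]
  refine ⟨F.card, P, ?_, fun i => (f i : ℂ), ?_, ?_, ?_⟩
  · rintro rfl
    apply hp
    rw [← hP, map_zero]
  · intro i j h
    exact hf (Subtype.ext h)
  · intro i
    refine ⟨(f i).2.1, (f i).2.2, ?_⟩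
    intro hd
    exact hac ⟨_, (f i).2.1, (f i).2.2, hd⟩
  · rw [← hP, MvPolynomial.aeval_rename] at hp0
    rw [MvPolynomial.eval_map]
    exact hp0

end Pool.Agent.K4H52.AP
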