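import Mathlib
import Pool.Agent.K4H52.AP.Countable

/-!
# Real values: real and imaginary parts
-/

set_option autoImplicit false

open Complex Filter Topology Set ComplexConjugate

namespace Pool.Agent.K4H52.AP

/-- the points with the real value `a` in the upper half-plane -/
abbrev Upper (a : ℝ) : Type := {s : ℂ // 0 < s.im ∧ riemannZeta s = a}

/-- the real points with the value `a` -/
abbrev RealPts (a : ℝ) : Type := {x : ℝ // x ≠ 1 ∧ riemannZeta x = a}

/-- all points with the value `a` -/
abbrev Pts (a : ℂ) : Type := {s : ℂ // s ≠ 1 ∧ riemannZeta s = a}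

def up {a : ℝ} (s : Upper a) : Pts a :=
  ⟨s, by
    intro h
    have := s.2.1
    rw [h] at this
    simp at this, s.2.2⟩

def down {a : ℝ} (s : Upper a) : Pts a :=
  ⟨conj (s : ℂ), by
    intro h
    have := s.2.1
    have h2 : (s : ℂ) = 1 := by
      have := congrArg conj h
      simpa using this
    rw [h2] at this
    simp at this, by
    rw [riemannZeta_conj, s.2.2]
    simp⟩

def onReal {a : ℝ} (x : RealPts a) : Pts a :=
  ⟨(x : ℝ), by
    intro h
    exact x.2.1 (by exact_mod_cast h), x.2.2⟩

/-- the real numbers attached to the points with the real value `a` -/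
noncomputable def fam (a : ℝ) : Upper a × Bool ⊕ RealPts a → ℝ :=
  Sum.elim (fun p => if p.2 then (p.1 : ℂ).re else (p.1 : ℂ).im) (fun x => (x : ℝ))

section
variable {a : ℝ} {L : Subfield ℂ} (hI : I ∈ L)

noncomputable def gsub : Upper a × Bool ⊕ RealPts a → MvPolynomial (Pts a) L :=
  Sum.elim (fun p => if p.2 then
      MvPolynomial.C (1 / 2) * (MvPolynomial.X (up p.1) + MvPolynomial.X (down p.1))
    else MvPolynomial.C (1 / (2 * ⟨I, hI⟩)) * (MvPolynomial.X (up p.1) - MvPolynomial.X (down p.1)))
    (fun x => MvPolynomial.X (onReal x))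

noncomputable def hsub : Pts a → MvPolynomial (Upper a × Bool ⊕ RealPts a) L := fun s =>
  if h1 : 0 < (s : ℂ).im then
    MvPolynomial.X (Sum.inl (⟨s, h1, s.2.2⟩, true)) +
      MvPolynomial.C ⟨I, hI⟩ * MvPolynomial.X (Sum.inl (⟨s, h1, s.2.2⟩, false))
  else if h2 : (s : ℂ).im < 0 then
    MvPolynomial.X (Sum.inl (⟨conj (s : ℂ), by simpa using h2, by
      rw [riemannZeta_conj, s.2.2]
      simp⟩, true)) -
      MvPolynomial.C ⟨I, hI⟩ * MvPolynomial.X (Sum.inl (⟨conj (s : ℂ), by simpa using h2, by
        rw [riemannZeta_conj, s.2.2]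
        simp⟩, false))
  else MvPolynomial.X (Sum.inr ⟨(s : ℂ).re, by
    have h3 : ((s : ℂ).re : ℂ) = s := by
      apply Complex.ext
      · simp
      · simp only [ofReal_im]
        push Not at h1 h2
        exact le_antisymm h2 h1
    refine ⟨?_, ?_⟩
    · intro h4
      apply s.2.1
      rw [← h3, h4]
      simp
    · rw [h3]
      exact s.2.2⟩)

theorem hsub_up (s : Upper a) : hsub (L := L) hI (up s) =
    MvPolynomial.X (Sum.inl (s, true)) + MvPolynomial.C ⟨I, hI⟩ * MvPolynomial.X (Sum.inl (s, false)) := by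
  unfold hsub
  rw [dif_pos (show 0 < ((up s : Pts a) : ℂ).im from s.2.1)]
  rfl

theorem hsub_down (s : Upper a) : hsub (L := L) hI (down s) =
    MvPolynomial.X (Sum.inl (s, true)) - MvPolynomial.C ⟨I, hI⟩ * MvPolynomial.X (Sum.inl (s, false)) := by
  unfold hsub
  have h : ((down s : Pts a) : ℂ).im < 0 := by
    have := s.2.1
    simp only [down, conj_im]
    linarith
  rw [dif_neg (not_lt.2 h.le), dif_pos h]
  have h2 : (conj ((down s : Pts a) : ℂ)) = (s : ℂ) := by simp [down]
  have key : ∀ u : Upper a, u = s → (MvPolynomial.X (Sum.inl (u, true)) -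
      MvPolynomial.C ⟨I, hI⟩ * MvPolynomial.X (Sum.inl (u, false)) :
        MvPolynomial (Upper a × Bool ⊕ RealPts a) L) =
      MvPolynomial.X (Sum.inl (s, true)) - MvPolynomial.C ⟨I, hI⟩ * MvPolynomial.X (Sum.inl (s, false)) := by
    rintro u rfl
    rfl
  exact key _ (Subtype.ext h2)

theorem hsub_real (x : RealPts a) : hsub (L := L) hI (onReal x) = MvPolynomial.X (Sum.inr x) := by
  unfold hsub
  have h : ((onReal x : Pts a) : ℂ).im = 0 := by simp [onReal]
  rw [dif_neg (by rw [h]; exact lt_irrefl _), dif_neg (by rw [h]; exact lt_irrefl _)]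
  congr 2

end

theorem indep_real {a : ℝ} {K : Subfield ℝ} {L : Subfield ℂ} (hI : I ∈ L)
    (hKL : ∀ x ∈ K, (x : ℂ) ∈ L)
    (h : AlgebraicIndependent L (fun s : Pts a => (s : ℂ))) : AlgebraicIndependent K (fam a) := by
  let κ : K →+* L :=
    { toFun := fun x => ⟨((x : ℝ) : ℂ), hKL x x.2⟩
      map_one' := by ext; simp
      map_mul' := fun x y => by ext; simp
      map_zero' := by ext; simp
      map_add' := fun x y => by ext; simp }
  let φ : MvPolynomial (Upper a × Bool ⊕ RealPts a) K →+* MvPolynomial (Pts a) L :=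
    MvPolynomial.eval₂Hom (MvPolynomial.C.comp κ) (gsub hI)
  let θ : MvPolynomial (Pts a) L →+* MvPolynomial (Upper a × Bool ⊕ RealPts a) L :=
    MvPolynomial.eval₂Hom MvPolynomial.C (hsub hI)
  have h1 : θ.comp φ = MvPolynomial.map κ := by
    apply MvPolynomial.ringHom_ext
    · intro r
      simp [θ, φ]
    · rintro (⟨s, b⟩ | x)
      · cases b
        · simp only [RingHom.comp_apply, φ, MvPolynomial.eval₂Hom_X', gsub, Sum.elim_inl,
            Bool.false_eq_true, if_false, map_mul, map_sub, θ, MvPolynomial.eval₂Hom_C,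
            hsub_up, hsub_down, MvPolynomial.map_X]
          have h0 : (⟨I, hI⟩ : L) ≠ 0 := by
            intro h
            exact I_ne_zero (congrArg Subtype.val h)
          have h6 : (MvPolynomial.C (1 / (2 * (⟨I, hI⟩ : L))) :
              MvPolynomial (Upper a × Bool ⊕ RealPts a) L) * (2 * MvPolynomial.C ⟨I, hI⟩) = 1 := by
            have : (2 : MvPolynomial (Upper a × Bool ⊕ RealPts a) L) = MvPolynomial.C 2 :=
              (map_ofNat MvPolynomial.C 2).symm
            rw [this, ← MvPolynomial.C_mul, ← MvPolynomial.C_mul, ← MvPolynomial.C_1]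
            congr 1
            field_simp
          linear_combination (MvPolynomial.X (Sum.inl (s, false)) :
            MvPolynomial (Upper a × Bool ⊕ RealPts a) L) * h6
        · simp only [RingHom.comp_apply, φ, MvPolynomial.eval₂Hom_X', gsub, Sum.elim_inl,
            if_true, map_mul, map_add, θ, MvPolynomial.eval₂Hom_C,
            hsub_up, hsub_down, MvPolynomial.map_X]
          have h6 : (MvPolynomial.C (1 / 2) :
              MvPolynomial (Upper a × Bool ⊕ RealPts a) L) * 2 = 1 := by
            have : (2 : MvPolynomial (Upper a × Bool ⊕ RealPts a) L) = MvPolynomial.C 2 :=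
              (map_ofNat MvPolynomial.C 2).symm
            rw [this, ← MvPolynomial.C_mul, ← MvPolynomial.C_1]
            congr 1
            norm_num
          linear_combination (MvPolynomial.X (Sum.inl (s, true)) :
            MvPolynomial (Upper a × Bool ⊕ RealPts a) L) * h6
      · simp [θ, φ, gsub, hsub_real]
  have h2 : (MvPolynomial.aeval (fun s : Pts a => (s : ℂ)) :
      MvPolynomial (Pts a) L →ₐ[L] ℂ).toRingHom.comp φ =
      Complex.ofRealHom.comp (MvPolynomial.aeval (fam a) :
        MvPolynomial (Upper a × Bool ⊕ RealPts a) K →ₐ[K] ℝ).toRingHom := by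
    apply MvPolynomial.ringHom_ext
    · intro r
      simp only [φ, RingHom.comp_apply, MvPolynomial.eval₂Hom_C]
      change MvPolynomial.aeval _ (MvPolynomial.C (κ r)) =
        Complex.ofRealHom (MvPolynomial.aeval (fam a) (MvPolynomial.C r))
      rw [MvPolynomial.aeval_C, MvPolynomial.aeval_C]
      rfl
    · rintro (⟨s, b⟩ | x)
      · cases b
        · simp [φ, gsub, fam]
          have h7 : (algebraMap L ℂ) ⟨I, hI⟩ = I := rfl
          have h8 : (algebraMap L ℂ) 2 = 2 := map_ofNat _ 2
          rw [h7, h8, Complex.im_eq_sub_conj]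
          change I⁻¹ * 2⁻¹ * ((s : ℂ) - conj (s : ℂ)) = _
          rw [div_eq_mul_inv, mul_inv]
          ring
        · simp [φ, gsub, fam]
          have h8 : (algebraMap L ℂ) 2 = 2 := map_ofNat _ 2
          rw [h8, Complex.re_eq_add_conj]
          change 2⁻¹ * ((s : ℂ) + conj (s : ℂ)) = _
          rw [div_eq_mul_inv]
          ring
      · simp [φ, gsub, fam, onReal]
  rw [algebraicIndependent_iff] at h ⊢
  intro p hp
  have h3 : φ p = 0 := by
    apply h
    have h4 : MvPolynomial.aeval (fun s : Pts a => (s : ℂ)) (φ p) =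
      Complex.ofRealHom (MvPolynomial.aeval (fam a) p) := RingHom.congr_fun h2 p
    rw [h4, hp, map_zero]
  have h5 : MvPolynomial.map κ p = 0 := by
    rw [← h1, RingHom.comp_apply, h3, map_zero]
  exact MvPolynomial.map_injective κ κ.injective (by rw [h5, map_zero])

theorem countable_real (hA : ThmA) (K : Subfield ℝ) (hK : (K : Set ℝ).Countable) :
    {a : ℝ | ¬ AlgebraicIndependent K (fam a)}.Countable := by
  let L : Subfield ℂ := Subfield.closure ((fun x : ℝ => (x : ℂ)) '' K ∪ {I})
  have hI : I ∈ L := Subfield.subset_closure (Or.inr rfl)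
  have hKL : ∀ x ∈ K, (x : ℂ) ∈ L := fun x hx => Subfield.subset_closure (Or.inl ⟨x, hx, rfl⟩)
  have hL : (L : Set ℂ).Countable := by
    have h1 := Subfield.cardinalMk_closure_le_max ((fun x : ℝ => (x : ℂ)) '' K ∪ {I})
    have h2 : ((fun x : ℝ => (x : ℂ)) '' K ∪ {I}).Countable :=
      (hK.image _).union (countable_singleton _)
    rw [← Cardinal.le_aleph0_iff_set_countable] at h2 ⊢
    exact h1.trans (max_le h2 le_rfl)
  refine ((countable_exceptions hA L hL).preimage Complex.ofReal_injective).mono ?_
  intro a ha hcon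
  exact ha (indep_real hI hKL hcon)

end Pool.Agent.K4H52.AP
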