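import Mathlib
import Pool.Agent.K4H52.AP.MeasureR
import Pool.Agent.K4H52.AP.RealValues

/-!
# Almost every value, over countable fields of real numbers
-/

set_option autoImplicit false

open Complex Filter Topology Set

namespace Pool.Agent.K4H52.AP

theorem almost_all (hA : ThmA) (K : Subfield ℝ) (hK : (K : Set ℝ).Countable) :
    ∀ᵐ a : ℂ, AlgebraicIndependent K
      (fun p : {s : ℂ // s ≠ 1 ∧ riemannZeta s = a} × Bool =>
        if p.2 then (p.1 : ℂ).re else (p.1 : ℂ).im) := by
  classical
  have hKc : Countable K := hK.to_subtype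
  have hcrit : ∀ᵐ a : ℂ, a ∉ Crit := by
    have := crit_countable.measure_zero (μ := (MeasureTheory.volume : MeasureTheory.Measure ℂ))
    rw [MeasureTheory.measure_eq_zero_iff_ae_notMem] at this
    exact this
  have hbad : ∀ᵐ a : ℂ, ∀ (m : ℕ) (P : MvPolynomial (Fin m × Bool) K), P ≠ 0 →
      a ∉ MR.BadVal m (MvPolynomial.map (algebraMap K ℝ) P) := by
    rw [MeasureTheory.ae_all_iff]
    intro m
    have : Countable (MvPolynomial (Fin m × Bool) K) := by
      have h1 := MvPolynomial.cardinalMk_le_max (σ := Fin m × Bool) (R := K)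
      rw [← Cardinal.mk_le_aleph0_iff]
      refine h1.trans (max_le (max_le ?_ ?_) le_rfl)
      · exact Cardinal.mk_le_aleph0
      · exact Cardinal.mk_le_aleph0
    rw [MeasureTheory.ae_all_iff]
    intro P
    by_cases hP : P = 0
    · exact Eventually.of_forall fun a h' => absurd hP h'
    · have hP' : MvPolynomial.map (algebraMap K ℝ) P ≠ 0 := by
        intro h
        apply hP
        apply MvPolynomial.map_injective (algebraMap K ℝ) (algebraMap K ℝ).injective
        rw [h, map_zero]
      have := MR.bad_null hA hP'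
      rw [MeasureTheory.measure_eq_zero_iff_ae_notMem] at this
      filter_upwards [this] with a ha _
      exact ha
  filter_upwards [hcrit, hbad] with a hac hb
  rw [algebraicIndependent_iff]
  intro p h0
  by_contra hp
  set F : Finset {s : ℂ // s ≠ 1 ∧ riemannZeta s = a} := p.vars.image Prod.fst with hF
  let e : Fin F.card ≃ F := F.equivFin.symm
  let f : Fin F.card × Bool → {s : ℂ // s ≠ 1 ∧ riemannZeta s = a} × Bool :=
    fun q => ((e q.1 : {s : ℂ // s ≠ 1 ∧ riemannZeta s = a}), q.2)
  have hf : Function.Injective f := by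
    rintro ⟨i, b⟩ ⟨j, c⟩ h
    simp only [f, Prod.mk.injEq] at h
    obtain ⟨h1, h2⟩ := h
    have : i = j := e.injective (Subtype.ext h1)
    rw [this, h2]
  have hrange : (p.vars : Set ({s : ℂ // s ≠ 1 ∧ riemannZeta s = a} × Bool)) ⊆ Set.range f := by
    intro q hq
    have hq' : q.1 ∈ F := by
      rw [hF, Finset.mem_image]
      exact ⟨q, hq, rfl⟩
    refine ⟨(e.symm ⟨q.1, hq'⟩, q.2), ?_⟩
    simp [f]
  obtain ⟨P, hP⟩ := MvPolynomial.exists_rename_eq_of_vars_subset_range p f hf hrange
  refine hb F.card P ?_ ⟨fun i => ((e i : {s : ℂ // s ≠ 1 ∧ riemannZeta s = a}) : ℂ), ?_, ?_, ?_⟩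
  · rintro rfl
    apply hp
    rw [← hP, map_zero]
  · intro i j h
    exact e.injective (Subtype.ext (Subtype.ext h))
  · intro i
    refine ⟨(e i : {s : ℂ // s ≠ 1 ∧ riemannZeta s = a}).2.1,
      (e i : {s : ℂ // s ≠ 1 ∧ riemannZeta s = a}).2.2, ?_⟩
    intro hd
    exact hac ⟨_, (e i : {s : ℂ // s ≠ 1 ∧ riemannZeta s = a}).2.1,
      (e i : {s : ℂ // s ≠ 1 ∧ riemannZeta s = a}).2.2, hd⟩
  · rw [← hP, MvPolynomial.aeval_rename] at h0
    rw [MvPolynomial.aeval_map_algebraMap]
    exact h0

end Pool.Agent.K4H52.AP
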