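import Pool.Agent.K4H52.AP.Spec

/-!
# P6: branches of the inverse of zeta which stay bounded at the value one

`k`-th root normal form of an analytic function at a zero, and its local inverse.
-/

set_option autoImplicit false

open Complex Filter Topology Set

namespace Pool.Agent.K4H52.AP

/-- An analytic function with an isolated zero at `p` is the `k`-th power of an analytic
function with a simple zero, `k ≥ 1`. -/
theorem exists_root_normal_form {f : ℂ → ℂ} {p : ℂ} (hf : AnalyticAt ℂ f p) (h0 : f p = 0)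
    (hne : ¬ ∀ᶠ z in 𝓝 p, f z = 0) :
    ∃ (k : ℕ) (χ : ℂ → ℂ), 1 ≤ k ∧ AnalyticAt ℂ χ p ∧ χ p = 0 ∧ deriv χ p ≠ 0 ∧
      ∀ᶠ z in 𝓝 p, f z = χ z ^ k := by
  obtain ⟨k, g, hg, hg0, hfg⟩ := hf.exists_eventuallyEq_pow_smul_nonzero_iff.2 hne
  have hk : 1 ≤ k := by
    rcases Nat.eq_zero_or_pos k with h | h
    · subst h
      have := hfg.self_of_nhds
      simp [h0] at this
      exact absurd this.symm hg0
    · exact h
  obtain ⟨c, hc⟩ := IsAlgClosed.exists_pow_nat_eq (g p) (n := k) (by omega)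
  have hc0 : c ≠ 0 := by
    rintro rfl
    rw [zero_pow (by omega)] at hc
    exact hg0 hc.symm
  have hslit : g p / g p ∈ slitPlane := by
    rw [div_self hg0]; exact one_mem_slitPlane
  have hq : AnalyticAt ℂ (fun z => g z / g p) p := hg.div_const
  have hlog : AnalyticAt ℂ (fun z => Complex.log (g z / g p)) p := hq.clog hslit
  have hexp : AnalyticAt ℂ (fun z => Complex.exp (Complex.log (g z / g p) / k)) p :=
    (hlog.div_const).cexp
  set h : ℂ → ℂ := fun z => c * Complex.exp (Complex.log (g z / g p) / k) with hh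
  have hha : AnalyticAt ℂ h p := analyticAt_const.mul hexp
  have hhp : h p = c := by simp [hh, div_self hg0]
  have hkC : (k : ℂ) ≠ 0 := by exact_mod_cast (by omega : k ≠ 0)
  refine ⟨k, fun z => (z - p) * h z, hk, (analyticAt_id.sub analyticAt_const).mul hha, by simp,
    ?_, ?_⟩
  · have hd : HasDerivAt (fun z => (z - p) * h z) (1 * h p + (p - p) * deriv h p) p :=
      ((hasDerivAt_id p).sub_const p).mul hha.differentiableAt.hasDerivAt
    rw [hd.deriv]
    simpa [hhp] using hc0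
  · have hnz : ∀ᶠ z in 𝓝 p, g z ≠ 0 := hg.continuousAt.eventually_ne hg0
    filter_upwards [hfg, hnz] with z hz hz0
    rw [hz, smul_eq_mul, mul_pow]
    congr 1
    rw [hh]
    simp only
    rw [mul_pow, ← Complex.exp_nat_mul, mul_div_cancel₀ _ hkC,
      Complex.exp_log (div_ne_zero hz0 hg0), hc]
    field_simp

/-- `ζ - 1` is not identically zero near any point `p ≠ 1`. -/
theorem zeta_sub_one_not_eventually_zero {p : ℂ} (hp : p ≠ 1) :
    ¬ ∀ᶠ z in 𝓝 p, riemannZeta z - 1 = 0 := by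
  intro h
  have hA : AnalyticOnNhd ℂ (fun z => riemannZeta z - 1) ({1}ᶜ : Set ℂ) :=
    fun z hz => (differentiableOn_riemannZeta.analyticAt
      (isOpen_compl_singleton.mem_nhds hz)).sub analyticAt_const
  have hpre : IsPreconnected ({1}ᶜ : Set ℂ) :=
    (isConnected_compl_singleton_of_one_lt_rank (by simp) 1).isPreconnected
  have h0 := hA.eqOn_zero_of_preconnected_of_eventuallyEq_zero hpre hp h
    (show (0 : ℂ) ∈ ({1}ᶜ : Set ℂ) by simp)
  simp only [riemannZeta_zero, Pi.zero_apply] at h0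
  norm_num at h0

/-- The two exponential identities for `2 ^ (- z / k)`. -/
theorem two_cpow_div_pow (k : ℕ) (hk : 1 ≤ k) (z : ℂ) :
    ((2 : ℂ) ^ (-(z / k))) ^ k = (2 : ℂ) ^ (-z) := by
  have hkC : (k : ℂ) ≠ 0 := by exact_mod_cast (by omega : k ≠ 0)
  rw [← Complex.cpow_nat_mul]
  congr 1
  field_simp

theorem two_cpow_neg_tau : (2 : ℂ) ^ (-τ) = 1 := by
  have hl : (Real.log 2 : ℂ) ≠ 0 := by
    exact_mod_cast (Real.log_pos (by norm_num : (1 : ℝ) < 2)).ne'
  rw [Complex.cpow_def_of_ne_zero (by norm_num), τ]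
  have h2 : Complex.log 2 = (Real.log 2 : ℂ) := by
    rw [show (2 : ℂ) = ((2 : ℝ) : ℂ) by norm_num, ← Complex.ofReal_log (by norm_num)]
  rw [h2]
  have : (Real.log 2 : ℂ) * -(2 * Real.pi * I / Real.log 2) = -(2 * Real.pi * I) := by
    field_simp
  rw [this, Complex.exp_neg, Complex.exp_two_pi_mul_I, inv_one]

theorem norm_two_cpow (z : ℂ) : ‖(2 : ℂ) ^ z‖ = (2 : ℝ) ^ z.re := by
  have := Complex.norm_cpow_eq_rpow_re_of_pos (x := 2) (by norm_num) z
  simpa using this

theorem endBranch : EndBranch := by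
  intro w ψ p t₀ hp hζp hw hψ hwre hψp heq
  have hAn : AnalyticAt ℂ (fun z => riemannZeta z - 1) p :=
    (differentiableOn_riemannZeta.analyticAt
      (isOpen_compl_singleton.mem_nhds hp)).sub analyticAt_const
  obtain ⟨k, χ, hk, hχ, hχ0, hχ', hfχ⟩ := exists_root_normal_form hAn (by simp [hζp])
    (zeta_sub_one_not_eventually_zero hp)
  have hkC : (k : ℂ) ≠ 0 := by exact_mod_cast (by omega : k ≠ 0)
  have hkR : (0 : ℝ) < k := by exact_mod_cast (by omega : 0 < k)
  set r : ℂ → ℂ := hχ.hasStrictDerivAt.localInverse _ _ _ hχ' with hr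
  have hra : AnalyticAt ℂ r 0 := by
    have := hχ.analyticAt_localInverse hχ'
    rwa [hχ0] at this
  have hr0 : r 0 = p := by
    have : r (χ p) = p := HasStrictFDerivAt.localInverse_apply_image ..
    rwa [hχ0] at this
  have hleft : ∀ᶠ z in 𝓝 p, r (χ z) = z := hχ.hasStrictDerivAt.eventually_left_inverse hχ'
  have hright : ∀ᶠ u in 𝓝 0, χ (r u) = u := by
    have := hχ.hasStrictDerivAt.eventually_right_inverse hχ'
    rwa [hχ0] at this
  -- the small disc
  have hrt : Tendsto r (𝓝 0) (𝓝 p) := by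
    have := hra.continuousAt.tendsto
    rwa [hr0] at this
  have hball : ∀ᶠ u in 𝓝 (0 : ℂ), DifferentiableAt ℂ r u ∧ r u ≠ 1 ∧
      riemannZeta (r u) - 1 = u ^ k := by
    filter_upwards [hra.eventually_analyticAt, hrt.eventually_ne hp, hright,
      hrt.eventually hfχ] with u h1 h2 h3 h4
    exact ⟨h1.differentiableAt, h2, by rw [h4, h3]⟩
  obtain ⟨δ, hδ, hδu⟩ := Metric.eventually_nhds_iff.1 hball
  -- the time after which everything is near `p`
  have hχc : ∀ᶠ z in 𝓝 p, ContinuousAt χ z :=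
    hχ.eventually_analyticAt.mono fun z hz => hz.continuousAt
  have hev : ∀ᶠ t in atTop, (r (χ (ψ t)) = ψ t ∧ riemannZeta (ψ t) - 1 = χ (ψ t) ^ k ∧
      ContinuousAt χ (ψ t)) :=
    (hψp.eventually hleft).and ((hψp.eventually hfχ).and (hψp.eventually hχc))
  obtain ⟨t₂, ht₂⟩ := eventually_atTop.1 (hev.and (eventually_ge_atTop t₀))
  -- the quotient is a constant root of unity
  set v : ℝ → ℂ := fun t => (2 : ℂ) ^ (-(w t / k)) with hv
  have hv0 : ∀ t, v t ≠ 0 := fun t => by
    rw [hv]; simp [Complex.cpow_eq_zero_iff]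
  have hvc : ContinuousOn v (Ici t₂) := by
    have h1 : ContinuousOn (fun t => -(w t / k)) (Ici t₂) :=
      ((hw.mono (Ici_subset_Ici.2 (ht₂ t₂ le_rfl).2)).div_const _).neg
    exact h1.const_cpow (Or.inl (by norm_num))
  have hqc : ContinuousOn (fun t => χ (ψ t) / v t) (Ici t₂) := by
    refine ContinuousOn.div ?_ hvc (fun t _ => hv0 t)
    intro t ht
    exact ((ht₂ t ht).1.2.2).comp_continuousWithinAt
      ((hψ.mono (Ici_subset_Ici.2 (ht₂ t₂ le_rfl).2)) t ht)
  have hqk : ∀ t ∈ Ici t₂, (χ (ψ t) / v t) ∈ {z : ℂ | z ^ k = 1} := by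
    intro t ht
    have h1 := (ht₂ t ht).1.2.1
    have h2 := heq t ((ht₂ t ht).2)
    have h3 : v t ^ k = (2 : ℂ) ^ (-w t) := two_cpow_div_pow k hk (w t)
    show (χ (ψ t) / v t) ^ k = 1
    rw [div_pow, h3, ← h1, h2, add_sub_cancel_left]
    exact div_self (by simp [Complex.cpow_eq_zero_iff])
  have hfin : ({z : ℂ | z ^ k = 1}).Finite := by
    have : {z : ℂ | z ^ k = 1} ⊆ ((Polynomial.nthRoots k (1 : ℂ)).toFinset : Set ℂ) := by
      intro z hz
      simp only [Finset.mem_coe, Multiset.mem_toFinset]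
      exact (Polynomial.mem_nthRoots (by omega)).2 hz
    exact (Finset.finite_toSet _).subset this
  have hdisc : IsDiscrete {z : ℂ | z ^ k = 1} := hfin.isDiscrete
  obtain ⟨c, hc⟩ : ∃ c : ℂ, c = χ (ψ t₂) / v t₂ := ⟨_, rfl⟩
  have hcc : ∀ t ∈ Ici t₂, χ (ψ t) = c * v t := by
    intro t ht
    have := isPreconnected_Ici.constant_of_mapsTo hdisc hqc hqk ht self_mem_Ici
    rw [← hc] at this
    rw [← this, div_mul_cancel₀ _ (hv0 t)]
  have hck : c ^ k = 1 := by rw [hc]; exact hqk t₂ self_mem_Ici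
  have hcn : ‖c‖ = 1 := by
    have : ‖c‖ ^ k = 1 := by rw [← norm_pow, hck, norm_one]
    exact (pow_eq_one_iff_of_nonneg (norm_nonneg _) (by omega)).1 this
  -- the half-plane
  obtain ⟨Y, hY⟩ : ∃ Y : ℝ, ∀ z : ℂ, Y < z.re → ‖c * (2 : ℂ) ^ (-(z / k))‖ < δ := by
    refine ⟨-(k * Real.logb 2 δ), fun z hz => ?_⟩
    rw [norm_mul, hcn, one_mul, norm_two_cpow]
    have h1 : (-(z / k)).re = -(z.re / k) := by
      rw [Complex.neg_re]
      congr 1
      rw [show (z / k : ℂ) = z / ((k : ℝ) : ℂ) by push_cast; rfl, Complex.div_ofReal_re]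
    rw [h1, ← Real.lt_logb_iff_rpow_lt (by norm_num) hδ]
    have h2 : -(z.re / k) < Real.logb 2 δ ↔ -z.re < Real.logb 2 δ * k := by
      rw [← neg_div, div_lt_iff₀ hkR]
    rw [h2]
    nlinarith
  obtain ⟨t₃, ht₃⟩ := eventually_atTop.1 (hwre.eventually_gt_atTop Y)
  refine ⟨k, Y, max t₂ t₃, fun z => r (c * (2 : ℂ) ^ (-(z / k))), hk, ?_, ?_, ?_⟩
  · intro z hz
    have h1 := (hδu (y := c * (2 : ℂ) ^ (-(z / k))) (by simpa using hY z hz)).1
    have h2 : DifferentiableAt ℂ (fun z : ℂ => c * (2 : ℂ) ^ (-(z / k))) z := by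
      refine (DifferentiableAt.const_cpow ?_ (Or.inl (by norm_num))).const_mul c
      exact (differentiableAt_id.div_const _).neg
    exact (DifferentiableAt.comp z h1 h2).differentiableWithinAt
  · intro z hz
    have h1 := hδu (y := c * (2 : ℂ) ^ (-(z / k))) (by simpa using hY z hz)
    refine ⟨?_, h1.2.1, ?_⟩
    · show r (c * (2 : ℂ) ^ (-((z + τ * k) / k))) = r (c * (2 : ℂ) ^ (-(z / k)))
      have : -((z + τ * k) / k) = -(z / k) + (-τ) := by field_simp; ring
      rw [this, Complex.cpow_add _ _ (by norm_num), two_cpow_neg_tau, mul_one]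
    · have h2 := h1.2.2
      rw [mul_pow, hck, one_mul, two_cpow_div_pow k hk z] at h2
      show riemannZeta (r (c * (2 : ℂ) ^ (-(z / k)))) = _
      linear_combination h2
  · intro t ht
    have hta : t₂ ≤ t := (le_max_left _ _).trans ht
    have htb : t₃ ≤ t := (le_max_right _ _).trans ht
    refine ⟨ht₃ t htb, ?_⟩
    show ψ t = r (c * (2 : ℂ) ^ (-(w t / k)))
    have h1 := hcc t hta
    rw [← (ht₂ t hta).1.1, h1]

end Pool.Agent.K4H52.AP
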