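import Mathlib
import Pool.Agent.K4H52.AP.Lift

/-!
# Statements of the sub-pieces of P9 (`AsymptoticPath`) and P10 (`ThmA`)
-/

set_option autoImplicit false

open Complex Filter Topology Set

namespace Pool.Agent.K4H52.AP

/-- `D` is an interval (`Ici t₀` or `Ico t₀ T`) and `l` the filter of its tails. -/
structure Tail (D : Set ℝ) (l : Filter ℝ) : Prop where
  ne : D.Nonempty
  conn : D.OrdConnected
  basis : l.HasBasis (fun t₁ => t₁ ∈ D) (fun t₁ => {t | t ∈ D ∧ t₁ ≤ t})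

/-- A real analytic path to infinity on which zeta converges to `a`. -/
structure PathInf (D : Set ℝ) (l : Filter ℝ) (ψ : ℝ → ℂ) (a : ℂ) : Prop where
  tail : Tail D l
  an : ∀ t ∈ D, AnalyticAt ℝ ψ t
  lim : Tendsto (fun t => riemannZeta (ψ t)) l (𝓝 a)
  inf : Tendsto (fun t => ‖ψ t‖) l atTop

/-- P9S.  -/
def Stuck : Prop := ∀ (D : Set ℝ) (l : Filter ℝ) (ψ : ℝ → ℂ) (a : ℂ), PathInf D l ψ a →
  ∀ σ₀ c : ℝ, 1 < σ₀ → 0 < c → ∀ᶠ t in l, ¬ (σ₀ ≤ (ψ t).re ∧ c ≤ ‖deriv riemannZeta (ψ t)‖)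

/-- P9A (from `Wall`, `RightDeriv`, `Stuck`). -/
def StripOrRight : Prop := ∀ (D : Set ℝ) (l : Filter ℝ) (ψ : ℝ → ℂ) (a : ℂ), PathInf D l ψ a →
  Tendsto (fun t => (ψ t).re) l atTop ∨
  ((∃ K : ℝ, ∀ᶠ t in l, -K < (ψ t).re ∧ (ψ t).re < 4) ∧
    (Tendsto (fun t => (ψ t).im) l atTop ∨ Tendsto (fun t => (ψ t).im) l atBot))

/-- P9B (from `Peaks`, `PathBound`, `Stuck`). -/
def NoStrip : Prop := ∀ (D : Set ℝ) (l : Filter ℝ) (ψ : ℝ → ℂ) (a : ℂ) (K : ℝ),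
  PathInf D l ψ a → (∀ᶠ t in l, -K < (ψ t).re ∧ (ψ t).re < 4) →
  ¬ Tendsto (fun t => (ψ t).im) l atTop

/-- P9C, the asymptotic path theorem again (from `StripOrRight`, `NoStrip`). -/
def AsymPath : Prop := ∀ (D : Set ℝ) (l : Filter ℝ) (ψ : ℝ → ℂ) (a : ℂ), PathInf D l ψ a →
  Tendsto (fun t => (ψ t).re) l atTop

theorem tail_Ici (t₀ : ℝ) : Tail (Ici t₀) atTop where
  ne := ⟨t₀, self_mem_Ici⟩
  conn := ordConnected_Ici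
  basis := by
    constructor
    intro s
    rw [mem_atTop_sets]
    constructor
    · rintro ⟨a, ha⟩
      exact ⟨max a t₀, mem_Ici.2 (le_max_right _ _), fun b hb => ha b ((le_max_left _ _).trans hb.2)⟩
    · rintro ⟨a, ha, h⟩
      exact ⟨a, fun b hb => h ⟨mem_Ici.2 ((mem_Ici.1 ha).trans hb), hb⟩⟩

theorem tail_Ico {t₀ T : ℝ} (h : t₀ < T) : Tail (Ico t₀ T) (𝓝[<] T) where
  ne := ⟨t₀, le_rfl, h⟩
  conn := ordConnected_Ico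
  basis := by
    constructor
    intro s
    rw [mem_nhdsLT_iff_exists_Ico_subset]
    constructor
    · rintro ⟨a, ha, h2⟩
      refine ⟨max a t₀, ⟨le_max_right _ _, max_lt ha h⟩, ?_⟩
      rintro b ⟨hb1, hb2⟩
      exact h2 ⟨(le_max_left _ _).trans hb2, hb1.2⟩
    · rintro ⟨a, ha, h2⟩
      exact ⟨a, ha.2, fun b hb => h2 ⟨⟨ha.1.trans hb.1, hb.2⟩, hb.1⟩⟩

theorem Tail.neBot {D : Set ℝ} {l : Filter ℝ} (h : Tail D l) : l.NeBot := by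
  rw [h.basis.neBot_iff]
  intro t ht
  exact ⟨t, ht, le_rfl⟩

theorem Tail.mem {D : Set ℝ} {l : Filter ℝ} (h : Tail D l) : D ∈ l := by
  obtain ⟨t, ht⟩ := h.ne
  exact mem_of_superset (h.basis.mem_of_mem ht) (fun x hx => hx.1)

/-- P10A. -/
def Conv : Prop := ∀ (D : Set ℝ) (l : Filter ℝ) (ψ : ℝ → ℂ) (v : ℂ), Tail D l →
  ContinuousOn ψ D → (∀ t ∈ D, ψ t ≠ 1) → Tendsto (fun t => riemannZeta (ψ t)) l (𝓝 v) →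
  Tendsto (fun t => ‖ψ t‖) l atTop ∨ ∃ p, p ≠ 1 ∧ riemannZeta p = v ∧ Tendsto ψ l (𝓝 p)

/-- P10B (from `Conv`, `AsymPath`): lifts of a horizontal half-line. -/
def LiftExists : Prop := ∀ z₀ p : ℂ, (∀ t : ℝ, 0 ≤ t → z₀ + t ∉ Bad) → p ≠ 1 →
  riemannZeta p = riemannZeta z₀ → ∃ ψ : ℝ → ℂ, ψ 0 = p ∧ ContinuousOn ψ (Ici 0) ∧
  (∀ t : ℝ, 0 < t → AnalyticAt ℝ ψ t) ∧
  ∀ t : ℝ, 0 ≤ t → ψ t ≠ 1 ∧ riemannZeta (ψ t) = riemannZeta (z₀ + t)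

/-- P10C (from `Conv`, `AsymPath`, `EndBranch`): the end of a lift. -/
def LiftEnd : Prop := ∀ (X : ℝ) (Λ J : ℂ → ℂ), Tract X Λ J → ∀ (z₀ : ℂ) (ψ : ℝ → ℂ),
  ContinuousOn ψ (Ici 0) → (∀ t : ℝ, 0 < t → AnalyticAt ℝ ψ t) →
  (∀ t : ℝ, 0 ≤ t → ψ t ≠ 1 ∧ riemannZeta (ψ t) = riemannZeta (z₀ + t)) →
  (∃ (n : ℤ) (t₁ : ℝ), ∀ t : ℝ, t₁ ≤ t → ψ t = J (Λ (z₀ + t) + τ * n)) ∨
  (∃ (k : ℕ) (Y t₁ : ℝ) (R : ℂ → ℂ), 1 ≤ k ∧ DifferentiableOn ℂ R {z | Y < z.re} ∧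
    (∀ z : ℂ, Y < z.re → R (z + τ * k) = R z ∧ R z ≠ 1 ∧ riemannZeta (R z) = 1 + (2 : ℂ) ^ (-z)) ∧
    ∀ t : ℝ, t₁ ≤ t → Y < (Λ (z₀ + t)).re ∧ ψ t = R (Λ (z₀ + t)))

/-- Theorem A for `m` branches. -/
def ThmAat (m : ℕ) : Prop := ∀ (U : Set ℂ) (s : Fin m → ℂ → ℂ) (Q : MvPolynomial (Fin m) ℂ),
  IsOpen U → U.Nonempty → Branches U s → (∀ a ∈ U, MvPolynomial.eval (fun i => s i a) Q = 0) →
  Q = 0

/-- P10D (from `Dense`): the algebraic relation along a horizontal half-line `z₀ + t`, `t` large,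
between `J (w + τ n i)` and `R j w`, `w = Λ (z₀ + t)`. -/
def Final : Prop := ∀ (X : ℝ) (Λ J : ℂ → ℂ), Tract X Λ J →
  ∀ (r q : ℕ) (n : Fin r → ℤ), Function.Injective n → ThmAat q →
  ∀ (k : Fin q → ℕ) (Y : ℝ) (R : Fin q → ℂ → ℂ), (∀ j, 1 ≤ k j) →
  (∀ j, DifferentiableOn ℂ (R j) {z | Y < z.re}) →
  (∀ j, ∀ z : ℂ, Y < z.re → R j (z + τ * k j) = R j z ∧ R j z ≠ 1 ∧
    riemannZeta (R j z) = 1 + (2 : ℂ) ^ (-z)) →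
  ∀ (z₀ : ℂ) (t₁ : ℝ) (Q : MvPolynomial (Fin r ⊕ Fin q) ℂ),
  (∀ t : ℝ, t₁ ≤ t → Function.Injective (fun j => R j (Λ (z₀ + t)))) →
  (∀ t : ℝ, t₁ ≤ t → MvPolynomial.eval (Sum.elim (fun i => J (Λ (z₀ + t) + τ * n i))
    (fun j => R j (Λ (z₀ + t)))) Q = 0) → Q = 0

end Pool.Agent.K4H52.AP
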