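import Mathlib
import Pool.Agent.K4H52.AP.Spec2

/-!
# The values `J (w + τ n)` are independent of the functions of `w` with a period `τ N`
-/

set_option autoImplicit false

open Complex Filter Topology Set

namespace Pool.Agent.K4H52.AP

theorem τ_re : τ.re = 0 := by
  unfold τ
  have : (2 * (Real.pi : ℂ) * I / (Real.log 2 : ℂ)) = ((2 * Real.pi / Real.log 2 : ℝ) : ℂ) * I := by
    push_cast
    ring
  rw [this, Complex.re_ofReal_mul, Complex.I_re, mul_zero]

theorem τ_mul_int_re (n : ℤ) : (τ * (n : ℂ)).re = 0 := by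
  rw [Complex.mul_re, τ_re]
  simp

theorem eval_sum {r : ℕ} {κ : Type} (Q : MvPolynomial (Fin r ⊕ κ) ℂ) (x : Fin r → ℂ)
    (y : κ → ℂ) : MvPolynomial.eval (Sum.elim x y) Q =
      MvPolynomial.eval x (MvPolynomial.map (MvPolynomial.eval y)
        (MvPolynomial.sumAlgEquiv ℂ (Fin r) κ Q)) := by
  have h : MvPolynomial.eval (Sum.elim x y) = ((MvPolynomial.eval x).comp
      (MvPolynomial.map (MvPolynomial.eval y))).comp
        ((MvPolynomial.sumAlgEquiv ℂ (Fin r) κ).toAlgHom.toRingHom) := by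
    apply MvPolynomial.ringHom_ext
    · intro c
      simp
    · rintro (i | j)
      · simp
      · simp
  exact RingHom.congr_fun h Q

theorem period_int {R : ℂ → ℂ} {Y : ℝ} {N : ℕ}
    (hper : ∀ z : ℂ, Y < z.re → R (z + τ * N) = R z) (l : ℤ) :
    ∀ z : ℂ, Y < z.re → R (z + τ * (N * l : ℂ)) = R z := by
  have hre : ∀ (z : ℂ) (m : ℤ), (z + τ * ((N : ℂ) * m)).re = z.re := by
    intro z m
    have := τ_mul_int_re (N * m)
    rw [Complex.add_re]
    push_cast at this
    rw [this, add_zero]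
  induction l using Int.induction_on with
  | zero =>
    intro z _
    simp
  | succ i ih =>
    intro z hz
    have h1 : z + τ * ((N : ℂ) * ((i : ℤ) + 1 : ℤ)) = (z + τ * ((N : ℂ) * (i : ℤ))) + τ * N := by
      push_cast
      ring
    rw [h1, hper _ (by rw [hre]; exact hz), ih z hz]
  | pred i ih =>
    intro z hz
    have h1 : z + τ * ((N : ℂ) * (-(i : ℤ) : ℤ)) =
        (z + τ * ((N : ℂ) * (-(i : ℤ) - 1 : ℤ))) + τ * N := by
      push_cast
      ring
    rw [← ih z hz, h1, hper _ (by rw [hre]; exact hz)]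

theorem finalGen (hD : Dense) {X : ℝ} {Λ J : ℂ → ℂ} (hT : Tract X Λ J) {r : ℕ} {n : Fin r → ℤ}
    (hn : Function.Injective n) {κ : Type} {N : ℕ} (hN : 1 ≤ N) {Y : ℝ} {R : κ → ℂ → ℂ}
    (hR : ∀ j, DifferentiableOn ℂ (R j) {z | Y < z.re})
    (hper : ∀ j, ∀ z : ℂ, Y < z.re → R j (z + τ * N) = R j z)
    {z₀ : ℂ} {t₁ : ℝ} {Q : MvPolynomial (Fin r ⊕ κ) ℂ}
    (hQ : ∀ t : ℝ, t₁ ≤ t → MvPolynomial.eval (Sum.elim (fun i => J (Λ (z₀ + t) + τ * n i))
      (fun j => R j (Λ (z₀ + t)))) Q = 0) :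
    ∃ Y₁ : ℝ, Y ≤ Y₁ ∧ ∀ w : ℂ, Y₁ < w.re → ∀ d : Fin r →₀ ℕ,
      MvPolynomial.eval (fun j => R j w)
        (MvPolynomial.coeff d (MvPolynomial.sumAlgEquiv ℂ (Fin r) κ Q)) = 0 := by
  set Y₂ := max X Y with hY₂
  have hre : ∀ (w : ℂ) (m : ℤ), (w + τ * (m : ℂ)).re = w.re := by
    intro w m
    rw [Complex.add_re, τ_mul_int_re, add_zero]
  set F : ℂ → ℂ := fun w => MvPolynomial.eval (Sum.elim (fun i => J (w + τ * n i))
      (fun j => R j w)) Q with hF
  have hopen : IsOpen {w : ℂ | Y₂ < w.re} := isOpen_lt continuous_const Complex.continuous_re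
  have hFd : AnalyticOnNhd ℂ F {w : ℂ | Y₂ < w.re} := by
    intro w hw
    have hw' : Y₂ < w.re := hw
    refine AnalyticAt.aeval_mvPolynomial (f := fun w => Sum.elim (fun i => J (w + τ * n i))
      (fun j => R j w)) ?_ Q
    rintro (i | j)
    · have h1 : AnalyticAt ℂ J (w + τ * n i) := by
        refine hT.dJ.analyticAt ((isOpen_lt continuous_const Complex.continuous_re).mem_nhds ?_)
        rw [mem_setOf_eq, hre]
        exact (le_max_left _ _).trans_lt hw'
      have h2 : AnalyticAt ℂ (fun w : ℂ => w + τ * n i) w := by fun_prop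
      exact AnalyticAt.comp (f := fun w : ℂ => w + τ * n i) h1 h2
    · exact (hR j).analyticAt ((isOpen_lt continuous_const Complex.continuous_re).mem_nhds
        ((le_max_right _ _).trans_lt hw'))
  -- the curve
  obtain ⟨t₂, ht₂, ht₂'⟩ : ∃ t₂ : ℝ, t₁ ≤ t₂ ∧ Y₂ + X + 2 + |X| + |Y₂| < z₀.re + t₂ :=
    ⟨max t₁ (Y₂ + X + 3 + |X| + |Y₂| - z₀.re), le_max_left _ _, by
      have := le_max_right t₁ (Y₂ + X + 3 + |X| + |Y₂| - z₀.re)
      linarith⟩
  have hX : 5 ≤ X := hT.five
  have hbig : ∀ t : ℝ, t₂ ≤ t → X + 1 < (z₀ + (t : ℂ)).re ∧ Y₂ < (Λ (z₀ + t)).re := by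
    intro t ht
    have h0 : (z₀ + (t : ℂ)).re = z₀.re + t := by simp
    have h1 := neg_abs_le Y₂
    have h2 : X + 1 < (z₀ + (t : ℂ)).re := by
      rw [h0]
      have := le_abs_self X
      linarith [neg_abs_le X]
    refine ⟨h2, ?_⟩
    have h3 := hT.Λ_close (z₀ + t) (by linarith)
    have h4 := (Complex.abs_re_le_norm _).trans h3
    rw [Complex.sub_re] at h4
    have h5 := (abs_le.1 h4).1
    have h6 : Y₂ + 1 < (z₀ + (t : ℂ)).re := by
      rw [h0]
      linarith [abs_nonneg X, abs_nonneg Y₂]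
    linarith
  have hzero : EqOn F 0 {w : ℂ | Y₂ < w.re} := by
    have hconv : IsPreconnected {w : ℂ | Y₂ < w.re} := (convex_halfSpace_re_gt Y₂).isPreconnected
    refine hFd.eqOn_zero_of_preconnected_of_frequently_eq_zero hconv (z₀ := Λ (z₀ + t₂))
      (hbig t₂ le_rfl).2 ?_
    have hten : Tendsto (fun t : ℝ => Λ (z₀ + t)) (𝓝[>] t₂) (𝓝[≠] (Λ (z₀ + t₂))) := by
      rw [tendsto_nhdsWithin_iff]
      constructor
      · have h1 : ContinuousAt Λ (z₀ + t₂) := by
          refine (hT.dΛ.differentiableAt ((isOpen_lt continuous_const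
            Complex.continuous_re).mem_nhds ?_)).continuousAt
          have := (hbig t₂ le_rfl).1
          rw [mem_setOf_eq]
          linarith
        have h2 : ContinuousAt (fun t : ℝ => z₀ + (t : ℂ)) t₂ := by fun_prop
        exact (ContinuousAt.comp (f := fun t : ℝ => z₀ + (t : ℂ)) h1 h2).tendsto.mono_left
          nhdsWithin_le_nhds
      · filter_upwards [self_mem_nhdsWithin] with t ht
        have ht' : t₂ < t := ht
        intro hcon
        have h3 : Λ (z₀ + t) = Λ (z₀ + t₂) := hcon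
        have h4 := congrArg J h3
        rw [hT.JΛ _ (hbig t ht'.le).1, hT.JΛ _ (hbig t₂ le_rfl).1] at h4
        have h5 : (t : ℂ) = t₂ := add_left_cancel h4
        exact ht'.ne' (by exact_mod_cast h5)
    refine hten.frequently ?_
    refine Eventually.frequently ?_
    filter_upwards [self_mem_nhdsWithin] with t ht
    exact hQ t (ht₂.trans (le_of_lt ht))
  obtain ⟨Y₃, hXY₃, hY₃⟩ := hD X Λ J hT r n hn N hN
  refine ⟨max Y₂ Y₃, (le_max_right X Y).trans (le_max_left _ _), ?_⟩
  intro w hw d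
  have hw2 : Y₂ < w.re := (le_max_left _ _).trans_lt hw
  have hw3 : Y₃ < w.re := (le_max_right _ _).trans_lt hw
  have hH := hY₃ w hw3 (MvPolynomial.map (MvPolynomial.eval (fun j => R j w))
    (MvPolynomial.sumAlgEquiv ℂ (Fin r) κ Q)) (by
    intro l
    rw [← eval_sum]
    have h1 : (w + τ * ((N : ℂ) * l)).re = w.re := by
      have := hre w (N * l)
      push_cast at this
      exact this
    have h2 := hzero (show w + τ * ((N : ℂ) * l) ∈ {w : ℂ | Y₂ < w.re} by
      rw [mem_setOf_eq, h1]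
      exact hw2)
    have h3 : F (w + τ * ((N : ℂ) * l)) = 0 := h2
    rw [← h3, hF]
    have h4 : (Sum.elim (fun i : Fin r => J (w + τ * ((n i : ℂ) + (N : ℂ) * l))) (fun j => R j w)) =
        Sum.elim (fun i => J (w + τ * ((N : ℂ) * l) + τ * n i))
          (fun j => R j (w + τ * ((N : ℂ) * l))) := by
      funext x
      rcases x with i | j
      · simp only [Sum.elim_inl]
        congr 1
        ring
      · simp only [Sum.elim_inr]
        exact (period_int (hper j) l w ((le_max_right _ _).trans_lt hw2)).symm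
    rw [h4])
  have h5 := congrArg (MvPolynomial.coeff d) hH
  rwa [MvPolynomial.coeff_map, MvPolynomial.coeff_zero] at h5

end Pool.Agent.K4H52.AP
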