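import Mathlib
import Pool.Agent.K4H52.AP.FinalGen
import Pool.Agent.K4H52.AP.EndBranch

/-!
# The final step, with the value itself as a further function
-/

set_option autoImplicit false

open Complex Filter Topology Set

namespace Pool.Agent.K4H52.AP

/-- Theorem A for `m` branches and the value itself. -/
def ThmA2at (m : ℕ) : Prop := ∀ (U : Set ℂ) (s : Fin m → ℂ → ℂ)
  (Q : MvPolynomial (Option (Fin m)) ℂ), IsOpen U → U.Nonempty → Branches U s →
  (∀ a ∈ U, MvPolynomial.eval (fun o : Option (Fin m) => o.elim a (fun i => s i a)) Q = 0) → Q = 0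

/-- the functions `R j` and the value `1 + 2 ^ (-w)` -/
noncomputable def RR {q : ℕ} (R : Fin q → ℂ → ℂ) (o : Option (Fin q)) (w : ℂ) : ℂ :=
  o.elim (1 + (2 : ℂ) ^ (-w)) (fun j => R j w)

theorem two_cpow_add_tau (N : ℕ) (z : ℂ) : (2 : ℂ) ^ (-(z + τ * N)) = (2 : ℂ) ^ (-z) := by
  have h1 : -(z + τ * N) = -z + (N : ℂ) * (-τ) := by ring
  rw [h1, Complex.cpow_add _ _ two_ne_zero, Complex.cpow_nat_mul, two_cpow_neg_tau, one_pow,
    mul_one]

theorem period_mul {R : ℂ → ℂ} {Y : ℝ} {k : ℕ}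
    (hper : ∀ z : ℂ, Y < z.re → R (z + τ * k) = R z) (l : ℕ) :
    ∀ z : ℂ, Y < z.re → R (z + τ * (k * l : ℕ)) = R z := by
  intro z hz
  have := period_int hper l z hz
  push_cast at this ⊢
  exact this

theorem cpow_log_branch {b : ℂ} {w₁ : ℂ} (hb : b ≠ 0) :
    (2 : ℂ) ^ (-(w₁ - Complex.log b / Real.log 2)) = (2 : ℂ) ^ (-w₁) * b := by
  have hl : (Real.log 2 : ℂ) ≠ 0 := by
    exact_mod_cast (Real.log_pos (by norm_num : (1 : ℝ) < 2)).ne'
  have h1 : -(w₁ - Complex.log b / Real.log 2) = -w₁ + Complex.log b / Real.log 2 := by ring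
  rw [h1, Complex.cpow_add _ _ two_ne_zero]
  congr 1
  rw [Complex.cpow_def_of_ne_zero two_ne_zero]
  have h2 : Complex.log 2 = (Real.log 2 : ℂ) := by
    rw [show (2 : ℂ) = ((2 : ℝ) : ℂ) by norm_num, ← Complex.ofReal_log (by norm_num)]
  rw [h2, mul_div_cancel₀ _ hl, Complex.exp_log hb]

theorem final2 (hD : Dense) {X : ℝ} {Λ J : ℂ → ℂ} (hT : Tract X Λ J) {r q : ℕ} {n : Fin r → ℤ}
    (hn : Function.Injective n) (hA : ThmA2at q) {k : Fin q → ℕ} {Y : ℝ} {R : Fin q → ℂ → ℂ}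
    (hk : ∀ j, 1 ≤ k j) (hR : ∀ j, DifferentiableOn ℂ (R j) {z | Y < z.re})
    (hper : ∀ j, ∀ z : ℂ, Y < z.re → R j (z + τ * k j) = R j z ∧ R j z ≠ 1 ∧
      riemannZeta (R j z) = 1 + (2 : ℂ) ^ (-z))
    {z₀ : ℂ} {t₁ : ℝ} {Q : MvPolynomial (Fin r ⊕ Option (Fin q)) ℂ}
    (hinj : ∀ t : ℝ, t₁ ≤ t → Function.Injective (fun j => R j (Λ (z₀ + t))))
    (hQ : ∀ t : ℝ, t₁ ≤ t → MvPolynomial.eval (Sum.elim (fun i => J (Λ (z₀ + t) + τ * n i))
      (fun o => RR R o (Λ (z₀ + t)))) Q = 0) : Q = 0 := by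
  set N : ℕ := ∏ j, k j with hN
  have hN1 : 1 ≤ N := Nat.one_le_iff_ne_zero.2 (Finset.prod_ne_zero_iff.2 fun j _ => by
    have := hk j
    omega)
  have hRR : ∀ o, DifferentiableOn ℂ (RR R o) {z | Y < z.re} := by
    rintro (_ | j)
    · have : Differentiable ℂ (fun w : ℂ => 1 + (2 : ℂ) ^ (-w)) := by
        have h0 : (2 : ℂ) ≠ 0 := two_ne_zero
        fun_prop (disch := simp)
      exact this.differentiableOn
    · exact hR j
  have hRRper : ∀ o, ∀ z : ℂ, Y < z.re → RR R o (z + τ * N) = RR R o z := by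
    rintro (_ | j) z hz
    · change 1 + (2 : ℂ) ^ (-(z + τ * N)) = 1 + (2 : ℂ) ^ (-z)
      rw [two_cpow_add_tau]
    · obtain ⟨l, hl⟩ : k j ∣ N := Finset.dvd_prod_of_mem _ (Finset.mem_univ j)
      change R j (z + τ * N) = R j z
      rw [hl]
      exact period_mul (fun z hz => (hper j z hz).1) l z hz
  obtain ⟨Y₁, hYY₁, hY₁⟩ := finalGen hD hT hn hN1 hRR hRRper hQ
  -- a point far to the right on the curve
  obtain ⟨t₂, ht₂, ht₂'⟩ : ∃ t₂ : ℝ, t₁ ≤ t₂ ∧ |X| + |Y₁| + 1 < z₀.re + t₂ :=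
    ⟨max t₁ (|X| + |Y₁| + 2 - z₀.re), le_max_left _ _, by
      have := le_max_right t₁ (|X| + |Y₁| + 2 - z₀.re)
      linarith⟩
  set w₁ := Λ (z₀ + t₂) with hw₁
  have hw₁re : Y₁ < w₁.re := by
    have h0 : (z₀ + (t₂ : ℂ)).re = z₀.re + t₂ := by simp
    have h3 := hT.Λ_close (z₀ + t₂) (by
      rw [h0]
      linarith [le_abs_self X, abs_nonneg Y₁])
    have h4 := (Complex.abs_re_le_norm _).trans h3
    rw [Complex.sub_re, h0] at h4
    have h5 := (abs_le.1 h4).1
    linarith [le_abs_self Y₁, abs_nonneg X]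
  set a₁ : ℂ := 1 + (2 : ℂ) ^ (-w₁) with ha₁
  have h2w : (2 : ℂ) ^ (-w₁) ≠ 0 := by
    rw [Complex.cpow_def_of_ne_zero two_ne_zero]
    exact Complex.exp_ne_zero _
  have ha₁1 : a₁ - 1 ≠ 0 := by
    rw [ha₁, add_sub_cancel_left]
    exact h2w
  set W : ℂ → ℂ := fun a => w₁ - Complex.log ((a - 1) / (a₁ - 1)) / Real.log 2 with hW
  have hWa₁ : W a₁ = w₁ := by
    simp only [hW]
    rw [div_self ha₁1, Complex.log_one, zero_div, sub_zero]
  have hWan : AnalyticAt ℂ W a₁ := by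
    have h1 : AnalyticAt ℂ (fun a : ℂ => (a - 1) / (a₁ - 1)) a₁ := by
      apply AnalyticAt.div (by fun_prop) analyticAt_const ha₁1
    have h2 : AnalyticAt ℂ (fun a : ℂ => Complex.log ((a - 1) / (a₁ - 1))) a₁ := by
      apply h1.clog
      rw [div_self ha₁1]
      exact Complex.one_mem_slitPlane
    exact analyticAt_const.sub (h2.div analyticAt_const (by
      exact_mod_cast (Real.log_pos (by norm_num : (1 : ℝ) < 2)).ne'))
  have hval : ∀ a : ℂ, a ≠ 1 → 1 + (2 : ℂ) ^ (-(W a)) = a := by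
    intro a ha
    have h1 : (a - 1) / (a₁ - 1) ≠ 0 := div_ne_zero (sub_ne_zero.2 ha) ha₁1
    simp only [hW]
    rw [cpow_log_branch h1]
    have h2 : (2 : ℂ) ^ (-w₁) = a₁ - 1 := by rw [ha₁, add_sub_cancel_left]
    rw [h2, mul_div_cancel₀ _ ha₁1]
    ring
  have e1 : ∀ᶠ a in 𝓝 a₁, AnalyticAt ℂ W a := hWan.eventually_analyticAt
  have e2 : ∀ᶠ a in 𝓝 a₁, a ≠ 1 := by
    have : a₁ ≠ 1 := fun h => ha₁1 (sub_eq_zero.2 h)
    exact eventually_ne_nhds this
  have e3 : ∀ᶠ a in 𝓝 a₁, Y₁ < (W a).re := by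
    have h1 : ContinuousAt (fun a => (W a).re) a₁ :=
      Complex.continuous_re.continuousAt.comp hWan.continuousAt
    apply h1.eventually_const_lt
    change Y₁ < (W a₁).re
    rw [hWa₁]
    exact hw₁re
  have e4 : ∀ᶠ a in 𝓝 a₁, ∀ i j, i ≠ j → R i (W a) ≠ R j (W a) := by
    rw [eventually_all]
    intro i
    rw [eventually_all]
    intro j
    by_cases hij : i = j
    · exact Eventually.of_forall fun a h => absurd hij h
    · have hRc : ∀ j, ContinuousAt (fun a => R j (W a)) a₁ := by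
        intro j
        have h1 : ContinuousAt (R j) (W a₁) := by
          rw [hWa₁]
          exact ((hR j).differentiableAt ((isOpen_lt continuous_const
            Complex.continuous_re).mem_nhds (hYY₁.trans_lt hw₁re))).continuousAt
        exact ContinuousAt.comp (f := W) h1 hWan.continuousAt
      have hsub : ContinuousAt (fun a => R i (W a) - R j (W a)) a₁ := (hRc i).sub (hRc j)
      have h6 : (fun a => R i (W a) - R j (W a)) a₁ ≠ 0 := by
        simp only [hWa₁]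
        refine sub_ne_zero.2 (fun h => hij (hinj t₂ ht₂ ?_))
        exact h
      filter_upwards [hsub.eventually_ne h6] with a ha _ h5
      exact ha (sub_eq_zero.2 h5)
  obtain ⟨ε, hε, hball⟩ := Metric.eventually_nhds_iff_ball.1 (e1.and (e2.and (e3.and e4)))
  have hB : Branches (Metric.ball a₁ ε) (fun j a => R j (W a)) := {
    diff := by
      intro j a ha
      obtain ⟨h1, -, h3, -⟩ := hball a ha
      have h4 : DifferentiableAt ℂ (R j) (W a) :=
        (hR j).differentiableAt ((isOpen_lt continuous_const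
            Complex.continuous_re).mem_nhds (hYY₁.trans_lt h3))
      exact (h4.comp a h1.differentiableAt).differentiableWithinAt
    ne_one := by
      intro j a ha
      obtain ⟨-, -, h3, -⟩ := hball a ha
      exact (hper j (W a) (hYY₁.trans_lt h3)).2.1
    zeta := by
      intro j a ha
      obtain ⟨-, h2, h3, -⟩ := hball a ha
      rw [(hper j (W a) (hYY₁.trans_lt h3)).2.2]
      exact hval a h2
    inj := by
      intro a ha i j hij
      by_contra hne
      exact (hball a ha).2.2.2 i j hne hij }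
  have hcoeff : ∀ d : Fin r →₀ ℕ,
      MvPolynomial.coeff d (MvPolynomial.sumAlgEquiv ℂ (Fin r) (Option (Fin q)) Q) = 0 := by
    intro d
    refine hA (Metric.ball a₁ ε) (fun j a => R j (W a)) _ Metric.isOpen_ball
      ⟨a₁, Metric.mem_ball_self hε⟩ hB ?_
    intro a ha
    obtain ⟨-, h2, h3, -⟩ := hball a ha
    rw [← hY₁ (W a) h3 d]
    congr 2
    funext o
    rcases o with _ | j
    · exact (hval a h2).symm
    · rfl
  have h1 : MvPolynomial.sumAlgEquiv ℂ (Fin r) (Option (Fin q)) Q = 0 := by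
    ext1 d
    rw [hcoeff d, MvPolynomial.coeff_zero]
  exact (map_eq_zero_iff _ (MvPolynomial.sumAlgEquiv ℂ (Fin r) (Option (Fin q))).injective).1 h1

end Pool.Agent.K4H52.AP
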