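import Mathlib
import Pool.Agent.K4H52.AP.Countable
import Pool.Agent.K4H52.AP.Final2

/-!
# All but countably many values: the value and all its points
-/

set_option autoImplicit false

open Complex Filter Topology Set

namespace Pool.Agent.K4H52.AP

/-- systems of a value and `m` different simple points which satisfy the relation `Q` -/
def RelPts2 {m : ℕ} (Q : MvPolynomial (Option (Fin m)) ℂ) : Set (ℂ × (Fin m → ℂ)) :=
  {p | Function.Injective p.2 ∧ (∀ i, p.2 i ∈ Reg ∧ riemannZeta (p.2 i) = p.1) ∧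
    MvPolynomial.eval (fun o : Option (Fin m) => o.elim p.1 p.2) Q = 0}

/-- a system of local inverse branches of zeta through different simple points -/
theorem exists_system {m : ℕ} {a₀ : ℂ} {x : Fin m → ℂ} (hinj : Function.Injective x)
    (hx : ∀ i, x i ∈ Reg ∧ riemannZeta (x i) = a₀) :
    ∃ g : Fin m → ℂ → ℂ, (∀ i, AnalyticAt ℂ (g i) a₀) ∧ (∀ i, g i a₀ = x i) ∧
      (∀ i, ∀ᶠ s in 𝓝 (x i), g i (riemannZeta s) = s) ∧
      ∀ᶠ ε in 𝓝[>] (0 : ℝ), Branches (Metric.ball a₀ ε) g := by
  choose g hga hgx hgl hgr using fun i => local_inverse (hx i).1.1 (hx i).1.2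
  have hζ : ∀ i, riemannZeta (x i) = a₀ := fun i => (hx i).2
  simp only [hζ] at hga hgx hgr
  refine ⟨g, hga, hgx, hgl, ?_⟩
  have h1 : ∀ᶠ a in 𝓝 a₀, ∀ i, AnalyticAt ℂ (g i) a := by
    rw [eventually_all]
    exact fun i => (hga i).eventually_analyticAt
  have h2 : ∀ᶠ a in 𝓝 a₀, ∀ i, riemannZeta (g i a) = a := by
    rw [eventually_all]
    exact hgr
  have h3 : ∀ᶠ a in 𝓝 a₀, ∀ i, g i a ≠ 1 := by
    rw [eventually_all]
    intro i
    exact (hga i).continuousAt.eventually_ne (by rw [hgx i]; exact (hx i).1.1)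
  have h4 : ∀ᶠ a in 𝓝 a₀, ∀ i j, i ≠ j → g i a ≠ g j a := by
    rw [eventually_all]
    intro i
    rw [eventually_all]
    intro j
    by_cases hij : i = j
    · exact Eventually.of_forall fun a h => absurd hij h
    · have hsub : ContinuousAt (fun a => g i a - g j a) a₀ :=
        (hga i).continuousAt.sub (hga j).continuousAt
      have h6 : (fun a => g i a - g j a) a₀ ≠ 0 := by
        simp only [hgx]
        exact sub_ne_zero.2 (fun h => hij (hinj h))
      filter_upwards [hsub.eventually_ne h6] with a ha _ h5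
      exact ha (sub_eq_zero.2 h5)
  obtain ⟨ε₀, hε₀, hball⟩ := Metric.eventually_nhds_iff_ball.1 (h1.and (h2.and (h3.and h4)))
  have h7 : Ioo 0 ε₀ ∈ 𝓝[>] (0 : ℝ) := Ioo_mem_nhdsGT hε₀
  filter_upwards [h7] with ε hε
  have hsub : Metric.ball a₀ ε ⊆ Metric.ball a₀ ε₀ := Metric.ball_subset_ball hε.2.le
  exact {
    diff := fun i a ha => ((hball a (hsub ha)).1 i).differentiableAt.differentiableWithinAt
    ne_one := fun i a ha => (hball a (hsub ha)).2.2.1 i
    zeta := fun i a ha => (hball a (hsub ha)).2.1 i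
    inj := by
      intro a ha i j hij
      by_contra hne
      exact (hball a (hsub ha)).2.2.2 i j hne hij }

theorem relPts2_isolated {m : ℕ} (hA : ThmA2at m) {Q : MvPolynomial (Option (Fin m)) ℂ}
    (hQ : Q ≠ 0) : ∀ x ∈ RelPts2 Q, ∃ U ∈ 𝓝 x, U ∩ RelPts2 Q ⊆ {x} := by
  rintro ⟨a₀, x⟩ ⟨hinj, hx, hx0⟩
  obtain ⟨g, hga, hgx, hgl, hB⟩ := exists_system hinj hx
  have hf : AnalyticAt ℂ (fun a => MvPolynomial.eval
      (fun o : Option (Fin m) => o.elim a (fun i => g i a)) Q) a₀ := by
    refine AnalyticAt.aeval_mvPolynomial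
      (f := fun (a : ℂ) (o : Option (Fin m)) => o.elim a (fun i => g i a)) ?_ Q
    rintro (_ | i)
    · exact analyticAt_id
    · exact hga i
  rcases hf.eventually_eq_zero_or_eventually_ne_zero with h | h
  · exfalso
    apply hQ
    obtain ⟨ε₁, hε₁, hball⟩ := Metric.eventually_nhds_iff_ball.1 h
    have h7 : Ioo 0 ε₁ ∈ 𝓝[>] (0 : ℝ) := Ioo_mem_nhdsGT hε₁
    obtain ⟨ε, hBε, hε⟩ := (hB.and h7).exists
    exact hA (Metric.ball a₀ ε) g Q Metric.isOpen_ball ⟨a₀, Metric.mem_ball_self hε.1⟩ hBε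
      (fun a ha => hball a (Metric.ball_subset_ball hε.2.le ha))
  · rw [eventually_nhdsWithin_iff] at h
    have h1 : ∀ᶠ y : ℂ × (Fin m → ℂ) in 𝓝 (a₀, x), ∀ i, g i (riemannZeta (y.2 i)) = y.2 i := by
      rw [eventually_all]
      intro i
      have hc : Continuous (fun y : ℂ × (Fin m → ℂ) => y.2 i) := by fun_prop
      exact (hc.tendsto (a₀, x)).eventually (hgl i)
    have h2 := (continuous_fst.tendsto (a₀, x)).eventually h
    refine ⟨_, h1.and h2, ?_⟩
    rintro y ⟨⟨hy1, hy2⟩, hyi, hyr, hy0⟩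
    have h3 : ∀ i, g i y.1 = y.2 i := by
      intro i
      rw [← (hyr i).2]
      exact hy1 i
    have h4 : y.1 = a₀ := by
      by_contra hne
      apply hy2 hne
      rw [← hy0]
      congr 2
      funext o
      rcases o with _ | i
      · rfl
      · exact h3 i
    rw [mem_singleton_iff]
    refine Prod.ext h4 ?_
    funext i
    rw [← h3 i, h4]
    exact hgx i

theorem countable_mvPolynomial' {K : Type} [Field K] [Countable K] (ι : Type) [Countable ι] :
    Countable (MvPolynomial ι K) := by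
  have h1 := MvPolynomial.cardinalMk_le_max (σ := ι) (R := K)
  rw [← Cardinal.mk_le_aleph0_iff]
  refine h1.trans (max_le (max_le ?_ ?_) le_rfl)
  · exact Cardinal.mk_le_aleph0
  · exact Cardinal.mk_le_aleph0

/-- Outside a countable set of values, the value and its points are algebraically independent. -/
theorem countable_exceptions2 (hA : ∀ m, ThmA2at m) (K : Subfield ℂ) (hK : (K : Set ℂ).Countable) :
    {a : ℂ | ¬ AlgebraicIndependent K
      (fun o : Option {s : ℂ // s ≠ 1 ∧ riemannZeta s = a} =>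
        (o.elim a (fun s => (s : ℂ)) : ℂ))}.Countable := by
  classical
  have hKc : Countable K := hK.to_subtype
  have hmc : ∀ m : ℕ, Countable (MvPolynomial (Option (Fin m)) K) :=
    fun m => countable_mvPolynomial' _
  have h1 : (⋃ (m : ℕ), ⋃ P ∈ {P : MvPolynomial (Option (Fin m)) K | P ≠ 0},
      Prod.fst '' RelPts2 (MvPolynomial.map (algebraMap K ℂ) P)).Countable := by
    refine Set.countable_iUnion fun m => ?_
    refine (Set.to_countable _).biUnion fun P hP => ?_
    refine (countable_of_isolated (relPts2_isolated (hA m) ?_)).image _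
    intro h
    apply hP
    apply MvPolynomial.map_injective (algebraMap K ℂ) (algebraMap K ℂ).injective
    rw [h, map_zero]
  refine (crit_countable.union h1).mono ?_
  intro a ha
  by_cases hac : a ∈ Crit
  · exact Or.inl hac
  refine Or.inr ?_
  rw [mem_setOf_eq, algebraicIndependent_iff] at ha
  push Not at ha
  obtain ⟨p, hp0, hp⟩ := ha
  set F : Finset {s : ℂ // s ≠ 1 ∧ riemannZeta s = a} :=
    p.vars.preimage some ((Option.some_injective _).injOn) with hF
  let e : Fin F.card ≃ F := F.equivFin.symm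
  let f₀ : Fin F.card → {s : ℂ // s ≠ 1 ∧ riemannZeta s = a} := fun q => e q
  have hf₀ : Function.Injective f₀ := fun i j h => e.injective (Subtype.ext h)
  let f : Option (Fin F.card) → Option {s : ℂ // s ≠ 1 ∧ riemannZeta s = a} := Option.map f₀
  have hf : Function.Injective f := Option.map_injective hf₀
  have hrange : (p.vars : Set (Option {s : ℂ // s ≠ 1 ∧ riemannZeta s = a})) ⊆ Set.range f := by
    rintro (_ | q) hq
    · exact ⟨none, rfl⟩
    · have hq' : q ∈ F := by
        rw [hF, Finset.mem_preimage]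
        exact hq
      refine ⟨some (e.symm ⟨q, hq'⟩), ?_⟩
      simp [f, f₀]
  obtain ⟨P, hP⟩ := MvPolynomial.exists_rename_eq_of_vars_subset_range p f hf hrange
  simp only [mem_iUnion]
  refine ⟨F.card, P, ?_, ⟨a, fun i => (f₀ i : ℂ)⟩, ⟨?_, ?_, ?_⟩, rfl⟩
  · rintro rfl
    apply hp
    rw [← hP, map_zero]
  · intro i j h
    exact hf₀ (Subtype.ext h)
  · intro i
    refine ⟨⟨(f₀ i).2.1, ?_⟩, (f₀ i).2.2⟩
    intro hd
    exact hac ⟨_, (f₀ i).2.1, (f₀ i).2.2, hd⟩
  · rw [← hP, MvPolynomial.aeval_rename] at hp0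
    rw [MvPolynomial.eval_map]
    have h5 : (fun o : Option {s : ℂ // s ≠ 1 ∧ riemannZeta s = a} =>
        (o.elim a (fun s => (s : ℂ)) : ℂ)) ∘ f = fun o : Option (Fin F.card) =>
          (o.elim a (fun i => (f₀ i : ℂ)) : ℂ) := by
      funext o
      rcases o with _ | i
      · rfl
      · rfl
    rw [h5] at hp0
    exact hp0

end Pool.Agent.K4H52.AP
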