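import Pool.Agent.K4H52.AP.MeasureR
import Pool.Agent.K4H52.AP.Final2

/-!
# The measure part with real coefficients and the value itself (the proof of `Measure.lean`, by
helper90)
-/

set_option autoImplicit false

open Complex Filter Topology Set MeasureTheory ComplexConjugate

namespace Pool.Agent.K4H52.AP.MS

open Pool.Agent.K4H52.AP
open Pool.Agent.K4H52.AP.MR (ident bidisc diffOn_aeval contOn_aeval local_system)

/-- the value of `P` at the points whose real and imaginary parts are `(x + y) / 2` and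
`(x - y) / 2 i` -/
noncomputable def FF {ι : Type} (P : MvPolynomial (ι × Bool) ℝ) (x y : ι → ℂ) : ℂ :=
  MvPolynomial.aeval (fun p : ι × Bool =>
    if p.2 then (x p.1 + y p.1) / 2 else (x p.1 - y p.1) / (2 * I)) P

theorem FF_real {ι : Type} (P : MvPolynomial (ι × Bool) ℝ) (x : ι → ℂ) :
    FF P x (fun i => conj (x i)) =
      ((MvPolynomial.aeval (fun p : ι × Bool =>
        if p.2 then (x p.1).re else (x p.1).im) P : ℝ) : ℂ) := by
  have h : ((MvPolynomial.aeval (fun p : ι × Bool =>
        if p.2 then (x p.1).re else (x p.1).im) P : ℝ) : ℂ) =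
      MvPolynomial.aeval (fun p : ι × Bool =>
        (((if p.2 then (x p.1).re else (x p.1).im : ℝ)) : ℂ)) P := by
    rw [← Complex.coe_algebraMap]
    exact (MvPolynomial.aeval_algebraMap_apply ℂ
      (fun p : ι × Bool => if p.2 then (x p.1).re else (x p.1).im) P).symm
  rw [h, FF]
  congr 2
  funext p
  by_cases hp : p.2
  · simp only [hp, if_true]
    rw [Complex.re_eq_add_conj]
  · simp only [hp, Bool.false_eq_true, if_false]
    rw [Complex.im_eq_sub_conj]

/-- if `FF P` vanishes identically then `P = 0` -/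
theorem eq_zero_of_FF {ι : Type} {P : MvPolynomial (ι × Bool) ℝ}
    (h : ∀ x y : ι → ℂ, FF P x y = 0) : P = 0 := by
  apply MvPolynomial.map_injective (algebraMap ℝ ℂ) (algebraMap ℝ ℂ).injective
  rw [map_zero]
  apply MvPolynomial.funext
  intro z
  rw [MvPolynomial.eval_map, map_zero]
  have h1 := h (fun i => z (i, true) + I * z (i, false)) (fun i => z (i, true) - I * z (i, false))
  rw [FF, MvPolynomial.aeval_def] at h1
  rw [← h1]
  congr 1
  funext p
  obtain ⟨i, b⟩ := p
  cases b
  · simp only [Bool.false_eq_true, if_false]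
    field_simp
    ring
  · simp only [if_true]
    ring

theorem FF_zero_of {ι : Type} {P : MvPolynomial (ι × Bool) ℝ} {a₀ : ℂ} {ε : ℝ}
    {g : ι → ℂ → ℂ} (hA : ∀ Q : MvPolynomial ι ℂ,
      (∀ a ∈ Metric.ball a₀ ε, MvPolynomial.eval (fun i => g i a) Q = 0) → Q = 0)
    (h : ∀ α ∈ Metric.ball a₀ ε, ∀ β ∈ Metric.ball a₀ ε,
      FF P (fun i => g i α) (fun i => conj (g i β)) = 0) : P = 0 := by
  -- first variable
  have h1 : ∀ x : ι → ℂ, ∀ β ∈ Metric.ball a₀ ε, FF P x (fun i => conj (g i β)) = 0 := by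
    intro x β hβ
    set Q : MvPolynomial ι ℂ := MvPolynomial.aeval (fun p : ι × Bool =>
      if p.2 then (MvPolynomial.X p.1 + MvPolynomial.C (conj (g p.1 β))) * MvPolynomial.C (1 / 2)
      else (MvPolynomial.X p.1 - MvPolynomial.C (conj (g p.1 β))) * MvPolynomial.C (1 / (2 * I))) P
      with hQ
    have key : ∀ z : ι → ℂ, MvPolynomial.eval z Q = FF P z (fun i => conj (g i β)) := by
      intro z
      have : MvPolynomial.eval z Q = (MvPolynomial.aeval z : MvPolynomial ι ℂ →ₐ[ℂ] ℂ) Q :=
        (congrFun (congrArg DFunLike.coe (MvPolynomial.coe_aeval_eq_eval z)) Q).symm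
      rw [this, hQ, ← AlgHom.coe_restrictScalars' ℝ, ← AlgHom.comp_apply, FF]
      congr 1
      apply MvPolynomial.algHom_ext
      intro p
      obtain ⟨i, b⟩ := p
      cases b
      · simp [AlgHom.comp_apply, div_eq_mul_inv]
      · simp [AlgHom.comp_apply, div_eq_mul_inv]
    have hz : Q = 0 := by
      refine hA Q ?_
      intro α hα
      rw [key]
      exact h α hα β hβ
    rw [← key, hz, map_zero]
  -- second variable
  have h2 : ∀ x y : ι → ℂ, FF P x y = 0 := by
    intro x y
    set Q : MvPolynomial ι ℂ := MvPolynomial.aeval (fun p : ι × Bool =>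
      if p.2 then (MvPolynomial.C (x p.1) + MvPolynomial.X p.1) * MvPolynomial.C (1 / 2)
      else (MvPolynomial.C (x p.1) - MvPolynomial.X p.1) * MvPolynomial.C (1 / (2 * I))) P
      with hQ
    have key : ∀ z : ι → ℂ, MvPolynomial.eval z Q = FF P x z := by
      intro z
      have : MvPolynomial.eval z Q = (MvPolynomial.aeval z : MvPolynomial ι ℂ →ₐ[ℂ] ℂ) Q :=
        (congrFun (congrArg DFunLike.coe (MvPolynomial.coe_aeval_eq_eval z)) Q).symm
      rw [this, hQ, ← AlgHom.coe_restrictScalars' ℝ, ← AlgHom.comp_apply, FF]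
      congr 1
      apply MvPolynomial.algHom_ext
      intro p
      obtain ⟨i, b⟩ := p
      cases b
      · simp [AlgHom.comp_apply, div_eq_mul_inv]
      · simp [AlgHom.comp_apply, div_eq_mul_inv]
    have hz : MvPolynomial.map (starRingEnd ℂ) Q = 0 := by
      refine hA _ ?_
      intro α hα
      have h3 : MvPolynomial.eval (fun i => g i α) (MvPolynomial.map (starRingEnd ℂ) Q) =
          conj (MvPolynomial.eval (fun i => conj (g i α)) Q) := by
        have h4 := MvPolynomial.map_eval (starRingEnd ℂ) (fun i => conj (g i α)) Q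
        rw [h4]
        congr 2
        funext i
        simp
      rw [h3, key, h1 x α hα, map_zero]
    have hz' : Q = 0 := by
      apply MvPolynomial.map_injective (starRingEnd ℂ) (RingHom.injective _)
      rw [hz, map_zero]
    rw [← key, hz', map_zero]
  exact eq_zero_of_FF h2

/-- Local form: the set of parameters `a` in a small disc at which a fixed nonzero polynomial
vanishes at the real and imaginary parts of the branches is a null set. -/
theorem local_null {ι : Type} {P : MvPolynomial (ι × Bool) ℝ} (hP : P ≠ 0)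
    {a₀ : ℂ} {r : ℝ} (hr : 0 < r) {g : ι → ℂ → ℂ}
    (hdiff : ∀ i, DifferentiableOn ℂ (g i) (Metric.ball a₀ r))
    (hA : ∀ Q : MvPolynomial ι ℂ,
      (∀ a ∈ Metric.ball a₀ (r / 4), MvPolynomial.eval (fun i => g i a) Q = 0) → Q = 0) :
    volume {a : ℂ | a ∈ Metric.ball a₀ (r / 4) ∧ (MvPolynomial.aeval (fun p : ι × Bool =>
      if p.2 then (g p.1 a).re else (g p.1 a).im) P : ℝ) = 0} = 0 := by
  set δ : ℝ := r / 4 with hδ
  have hδ0 : 0 < δ := by positivity
  have hsub : Metric.ball a₀ δ ⊆ Metric.ball a₀ r := Metric.ball_subset_ball (by linarith)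
  set f : ℂ → ℝ := fun a => (MvPolynomial.aeval (fun p : ι × Bool =>
      if p.2 then (g p.1 a).re else (g p.1 a).im) P : ℝ) with hf
  set W : Set ℂ := {a : ℂ | a ∈ Metric.ball a₀ δ ∧ f a = 0} with hW
  have hcont : ContinuousOn f (Metric.ball a₀ δ) := by
    refine contOn_aeval P ?_
    rintro ⟨i, b⟩
    have hc : ContinuousOn (g i) (Metric.ball a₀ δ) := (hdiff i).continuousOn.mono hsub
    cases b
    · simp only [Bool.false_eq_true, if_false]
      exact Complex.continuous_im.comp_continuousOn hc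
    · simp only [if_true]
      exact Complex.continuous_re.comp_continuousOn hc
  have hWm : MeasurableSet W := by
    have h1 : W = Metric.ball a₀ δ \ (Metric.ball a₀ δ ∩ f ⁻¹' {0}ᶜ) := by
      ext a
      constructor
      · rintro ⟨h1, h2⟩
        exact ⟨h1, fun h3 => h3.2 h2⟩
      · rintro ⟨h1, h2⟩
        refine ⟨h1, ?_⟩
        by_contra h3
        exact h2 ⟨h1, h3⟩
    rw [h1]
    exact Metric.isOpen_ball.measurableSet.diff
      (hcont.isOpen_inter_preimage Metric.isOpen_ball isOpen_compl_singleton).measurableSet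
  by_contra hne
  -- transfer to the real plane
  set Z : Set (ℝ × ℝ) := Complex.measurableEquivRealProd.symm ⁻¹' W with hZ
  have hZm : MeasurableSet Z := Complex.measurableEquivRealProd.symm.measurable hWm
  have hZv : volume Z ≠ 0 := by
    have h1 := Complex.volume_preserving_equiv_real_prod.symm.measure_preimage_equiv W
    rw [hZ, h1]
    exact hne
  set u₀ : ℂ := (a₀.re : ℂ) with hu₀
  set v₀ : ℂ := (a₀.im : ℂ) with hv₀
  have ha₀ : a₀ = u₀ + I * v₀ := by
    rw [hu₀, hv₀, mul_comm]
    exact (Complex.re_add_im a₀).symm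
  have hca₀ : conj a₀ = u₀ - I * v₀ := by
    rw [ha₀]
    simp only [map_add, map_mul, Complex.conj_I, hu₀, hv₀, Complex.conj_ofReal]
    ring
  set G : ι → ℂ → ℂ := fun i => conj ∘ g i ∘ conj with hG
  have hgd : ∀ i, ∀ w ∈ Metric.ball a₀ r, DifferentiableAt ℂ (g i) w := fun i w hw =>
    (hdiff i).differentiableAt (Metric.isOpen_ball.mem_nhds hw)
  have hGd : ∀ i, ∀ w ∈ Metric.ball (conj a₀) r, DifferentiableAt ℂ (G i) w := by
    intro i w hw
    have h1 : conj w ∈ Metric.ball a₀ r := by
      rw [Metric.mem_ball] at hw ⊢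
      rwa [← Complex.dist_conj_conj, Complex.conj_conj]
    have h2 := (hgd i _ h1).conj_conj
    rwa [Complex.conj_conj] at h2
  have hadd : ∀ u ∈ Metric.ball u₀ δ, ∀ v ∈ Metric.ball v₀ δ, u + I * v ∈ Metric.ball a₀ r := by
    intro u hu v hv
    rw [Metric.mem_ball, dist_eq_norm] at hu hv ⊢
    have h1 : u + I * v - a₀ = (u - u₀) + I * (v - v₀) := by rw [ha₀]; ring
    rw [h1]
    calc ‖(u - u₀) + I * (v - v₀)‖ ≤ ‖u - u₀‖ + ‖I * (v - v₀)‖ := norm_add_le _ _
      _ = ‖u - u₀‖ + ‖v - v₀‖ := by rw [norm_mul, Complex.norm_I, one_mul]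
      _ < r := by rw [hδ] at hu hv; linarith
  have hsubm : ∀ u ∈ Metric.ball u₀ δ, ∀ v ∈ Metric.ball v₀ δ,
      u - I * v ∈ Metric.ball (conj a₀) r := by
    intro u hu v hv
    rw [Metric.mem_ball, dist_eq_norm] at hu hv ⊢
    have h1 : u - I * v - conj a₀ = (u - u₀) - I * (v - v₀) := by rw [hca₀]; ring
    rw [h1]
    calc ‖(u - u₀) - I * (v - v₀)‖ ≤ ‖u - u₀‖ + ‖I * (v - v₀)‖ := norm_sub_le _ _
      _ = ‖u - u₀‖ + ‖v - v₀‖ := by rw [norm_mul, Complex.norm_I, one_mul]
      _ < r := by rw [hδ] at hu hv; linarith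
  have hzero := bidisc (F := fun u v => FF P (fun i => g i (u + I * v)) (fun i => G i (u - I * v)))
    (c := u₀) (d := v₀) (δ := δ) ?_ ?_ hZm hZv ?_
  · -- the conclusion
    apply hP
    refine FF_zero_of (g := g) (a₀ := a₀) hA ?_
    · intro α hα β hβ
      rw [Metric.mem_ball, dist_eq_norm] at hα hβ
      have hβ' : ‖conj β - conj a₀‖ < δ := by
        rw [← map_sub, Complex.norm_conj]
        exact hβ
      have h1 := hzero ((α + conj β) / 2) ?_ ((α - conj β) / (2 * I)) ?_
      · have h2 : (α + conj β) / 2 + I * ((α - conj β) / (2 * I)) = α := by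
          field_simp
          ring
        have h3 : (α + conj β) / 2 - I * ((α - conj β) / (2 * I)) = conj β := by
          field_simp
          ring
        simp only [h2, h3, hG, Function.comp_apply, Complex.conj_conj] at h1
        exact h1
      · rw [Metric.mem_ball, dist_eq_norm]
        have h2 : (α + conj β) / 2 - u₀ = ((α - a₀) + (conj β - conj a₀)) / 2 := by
          rw [hca₀, ha₀]
          ring
        rw [h2, norm_div]
        have h3 := norm_add_le (α - a₀) (conj β - conj a₀)
        have h4 : ‖(2 : ℂ)‖ = 2 := by simp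
        rw [h4]
        linarith
      · rw [Metric.mem_ball, dist_eq_norm]
        have h2 : (α - conj β) / (2 * I) - v₀ = ((α - a₀) - (conj β - conj a₀)) / (2 * I) := by
          rw [hca₀, ha₀]
          field_simp
          ring
        rw [h2, norm_div]
        have h3 := norm_sub_le (α - a₀) (conj β - conj a₀)
        have h4 : ‖(2 : ℂ) * I‖ = 2 := by simp
        rw [h4]
        linarith
  · -- differentiability in u
    intro v hv
    refine diffOn_aeval P ?_
    rintro ⟨i, b⟩ u hu
    have h1 : DifferentiableAt ℂ (fun u => g i (u + I * v)) u :=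
      (hgd i _ (hadd u hu v hv)).comp u (by fun_prop)
    have h2 : DifferentiableAt ℂ (fun u => G i (u - I * v)) u :=
      DifferentiableAt.comp (g := G i) (f := fun u => u - I * v) u
        (hGd i _ (hsubm u hu v hv)) (by fun_prop)
    cases b
    · simp only [Bool.false_eq_true, if_false]
      exact ((h1.sub h2).div_const _).differentiableWithinAt
    · simp only [if_true]
      exact ((h1.add h2).div_const _).differentiableWithinAt
  · -- differentiability in v
    intro u hu
    refine diffOn_aeval P ?_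
    rintro ⟨i, b⟩ v hv
    have h1 : DifferentiableAt ℂ (fun v => g i (u + I * v)) v :=
      (hgd i _ (hadd u hu v hv)).comp v (by fun_prop)
    have h2 : DifferentiableAt ℂ (fun v => G i (u - I * v)) v :=
      DifferentiableAt.comp (g := G i) (f := fun v => u - I * v) v
        (hGd i _ (hsubm u hu v hv)) (by fun_prop)
    cases b
    · simp only [Bool.false_eq_true, if_false]
      exact ((h1.sub h2).div_const _).differentiableWithinAt
    · simp only [if_true]
      exact ((h1.add h2).div_const _).differentiableWithinAt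
  · -- zero on Z
    rintro ⟨x, y⟩ hp
    have hp1 : (⟨x, y⟩ : ℂ) ∈ Metric.ball a₀ δ := hp.1
    have hp2 : f ⟨x, y⟩ = 0 := hp.2
    rw [Metric.mem_ball, dist_eq_norm] at hp1
    have hre' := Complex.abs_re_le_norm ((⟨x, y⟩ : ℂ) - a₀)
    have him' := Complex.abs_im_le_norm ((⟨x, y⟩ : ℂ) - a₀)
    rw [Complex.sub_re] at hre'
    rw [Complex.sub_im] at him'
    have hre : |x - a₀.re| < δ := lt_of_le_of_lt hre' hp1
    have him : |y - a₀.im| < δ := lt_of_le_of_lt him' hp1
    refine ⟨?_, ?_, ?_⟩
    · rw [Metric.mem_ball, dist_eq_norm, hu₀, ← Complex.ofReal_sub, Complex.norm_real]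
      exact hre
    · rw [Metric.mem_ball, dist_eq_norm, hv₀, ← Complex.ofReal_sub, Complex.norm_real]
      exact him
    · have h1 : ((x : ℂ) + I * (y : ℂ)) = ⟨x, y⟩ := by
        apply Complex.ext <;> simp
      have h2 : conj ((x : ℂ) - I * (y : ℂ)) = ⟨x, y⟩ := by
        apply Complex.ext <;> simp
      simp only [hG, Function.comp_apply]
      rw [h1, h2, FF_real]
      simp only [hf] at hp2
      rw [hp2]
      simp

/-- the values with `m` different simple points such that the value and the points satisfy the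
real relation `P` -/
def BadVal (m : ℕ) (P : MvPolynomial (Option (Fin m) × Bool) ℝ) : Set ℂ :=
  {a | ∃ s : Fin m → ℂ, Function.Injective s ∧
    (∀ i, s i ≠ 1 ∧ riemannZeta (s i) = a ∧ deriv riemannZeta (s i) ≠ 0) ∧
    (MvPolynomial.aeval (fun p : Option (Fin m) × Bool =>
      if p.2 then (p.1.elim a s).re else (p.1.elim a s).im) P : ℝ) = 0}

theorem bad_null {m : ℕ} (hA : ThmA2at m) {P : MvPolynomial (Option (Fin m) × Bool) ℝ}
    (hP : P ≠ 0) : volume (BadVal m P) = 0 := by
  set T : Set (ℂ × (Fin m → ℂ)) := {p | Function.Injective p.2 ∧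
    (∀ i, p.2 i ≠ 1 ∧ riemannZeta (p.2 i) = p.1 ∧ deriv riemannZeta (p.2 i) ≠ 0) ∧
    (MvPolynomial.aeval (fun q : Option (Fin m) × Bool =>
      if q.2 then (q.1.elim p.1 p.2).re else (q.1.elim p.1 p.2).im) P : ℝ) = 0} with hT
  have hloc : ∀ p ∈ T, ∃ N ∈ 𝓝[T] p, volume (Prod.fst '' (N ∩ T)) = 0 := by
    rintro ⟨a₀, s⟩ ⟨hinj, hs, -⟩
    obtain ⟨r, g, hr, hB, hev⟩ := local_system hinj hs
    refine ⟨{p | p.1 ∈ Metric.ball a₀ (r / 4) ∧
      ((∀ i, riemannZeta (p.2 i) = p.1) → ∀ i, p.2 i = g i p.1)}, mem_nhdsWithin_of_mem_nhds ?_, ?_⟩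
    · refine Filter.inter_mem ?_ hev
      have h1 : Metric.ball a₀ (r / 4) ∈ 𝓝 a₀ := Metric.ball_mem_nhds a₀ (by positivity)
      exact continuous_fst.continuousAt (x := (a₀, s)) h1
    · have hsub : Metric.ball a₀ (r / 4) ⊆ Metric.ball a₀ r :=
        Metric.ball_subset_ball (by linarith)
      refine measure_mono_null ?_ (local_null hP (a₀ := a₀) hr
        (g := fun (o : Option (Fin m)) (a : ℂ) => o.elim a (fun i => g i a)) ?_ ?_)
      · rintro a ⟨⟨a', s'⟩, ⟨⟨h1, h2⟩, h3, h4, h5⟩, rfl⟩
        refine ⟨h1, ?_⟩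
        have h6 : ∀ i, s' i = g i a' := h2 fun i => (h4 i).2.1
        have h7 : s' = fun i => g i a' := funext h6
        change (MvPolynomial.aeval (fun q : Option (Fin m) × Bool =>
          if q.2 then (q.1.elim a' s').re else (q.1.elim a' s').im) P : ℝ) = 0 at h5
        rw [h7] at h5
        exact h5
      · rintro (_ | i)
        · exact differentiableOn_id
        · exact hB.diff i
      · intro Q hQ
        refine hA (Metric.ball a₀ (r / 4)) g Q Metric.isOpen_ball
          ⟨a₀, Metric.mem_ball_self (by positivity)⟩ ?_ hQ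
        exact ⟨fun i => (hB.diff i).mono hsub, fun i a ha => hB.ne_one i a (hsub ha),
          fun i a ha => hB.zeta i a (hsub ha), fun a ha => hB.inj a (hsub ha)⟩
  choose! N hN1 hN2 using hloc
  obtain ⟨t, hts, htc, hcov⟩ := TopologicalSpace.countable_cover_nhdsWithin hN1
  have hsub : BadVal m P ⊆ ⋃ x ∈ t, Prod.fst '' (N x ∩ T) := by
    rintro a ⟨s, hinj, hs, hz⟩
    have hmem : (a, s) ∈ T := ⟨hinj, hs, hz⟩
    have h1 := hcov hmem
    simp only [mem_iUnion] at h1 ⊢
    obtain ⟨x, hx, hx'⟩ := h1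
    exact ⟨x, hx, ⟨(a, s), ⟨hx', hmem⟩, rfl⟩⟩
  refine measure_mono_null hsub ?_
  exact (measure_biUnion_null_iff htc).mpr fun x hx => hN2 x (hts hx)

end Pool.Agent.K4H52.AP.MS
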