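import Mathlib
import Pool.Agent.K4H52.AP.MeasureS
import Pool.Agent.K4H52.AP.Countable2

/-!
# Almost every value, over countable fields of real numbers, with the value itself
-/

set_option autoImplicit false

open Complex Filter Topology Set

namespace Pool.Agent.K4H52.AP

theorem almost_all2 (hA : ∀ m, ThmA2at m) (K : Subfield ℝ) (hK : (K : Set ℝ).Countable) :
    ∀ᵐ a : ℂ, AlgebraicIndependent K
      (fun p : Option {s : ℂ // s ≠ 1 ∧ riemannZeta s = a} × Bool =>
        if p.2 then (p.1.elim a (fun s => (s : ℂ)) : ℂ).re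
        else (p.1.elim a (fun s => (s : ℂ)) : ℂ).im) := by
  classical
  have hKc : Countable K := hK.to_subtype
  have hcrit : ∀ᵐ a : ℂ, a ∉ Crit := by
    have := crit_countable.measure_zero (μ := (MeasureTheory.volume : MeasureTheory.Measure ℂ))
    rw [MeasureTheory.measure_eq_zero_iff_ae_notMem] at this
    exact this
  have hbad : ∀ᵐ a : ℂ, ∀ (m : ℕ) (P : MvPolynomial (Option (Fin m) × Bool) K), P ≠ 0 →
      a ∉ MS.BadVal m (MvPolynomial.map (algebraMap K ℝ) P) := by
    rw [MeasureTheory.ae_all_iff]
    intro m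
    have : Countable (MvPolynomial (Option (Fin m) × Bool) K) := countable_mvPolynomial' _
    rw [MeasureTheory.ae_all_iff]
    intro P
    by_cases hP : P = 0
    · exact Eventually.of_forall fun a h' => absurd hP h'
    · have hP' : MvPolynomial.map (algebraMap K ℝ) P ≠ 0 := by
        intro h
        apply hP
        apply MvPolynomial.map_injective (algebraMap K ℝ) (algebraMap K ℝ).injective
        rw [h, map_zero]
      have := MS.bad_null (hA m) hP'
      rw [MeasureTheory.measure_eq_zero_iff_ae_notMem] at this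
      filter_upwards [this] with a ha _
      exact ha
  filter_upwards [hcrit, hbad] with a hac hb
  rw [algebraicIndependent_iff]
  intro p h0
  by_contra hp
  set F : Finset {s : ℂ // s ≠ 1 ∧ riemannZeta s = a} :=
    (p.vars.image Prod.fst).preimage some ((Option.some_injective _).injOn) with hF
  let e : Fin F.card ≃ F := F.equivFin.symm
  let f₀ : Fin F.card → {s : ℂ // s ≠ 1 ∧ riemannZeta s = a} := fun q => e q
  have hf₀ : Function.Injective f₀ := fun i j h => e.injective (Subtype.ext h)
  let f : Option (Fin F.card) × Bool → Option {s : ℂ // s ≠ 1 ∧ riemannZeta s = a} × Bool :=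
    Prod.map (Option.map f₀) id
  have hf : Function.Injective f := (Option.map_injective hf₀).prodMap Function.injective_id
  have hrange : (p.vars : Set (Option {s : ℂ // s ≠ 1 ∧ riemannZeta s = a} × Bool)) ⊆
      Set.range f := by
    rintro ⟨_ | q, b⟩ hq
    · exact ⟨(none, b), rfl⟩
    · have hq' : q ∈ F := by
        rw [hF, Finset.mem_preimage, Finset.mem_image]
        exact ⟨_, hq, rfl⟩
      refine ⟨(some (e.symm ⟨q, hq'⟩), b), ?_⟩
      simp [f, f₀]
  obtain ⟨P, hP⟩ := MvPolynomial.exists_rename_eq_of_vars_subset_range p f hf hrange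
  refine hb F.card P ?_ ⟨fun i => (f₀ i : ℂ), ?_, ?_, ?_⟩
  · rintro rfl
    apply hp
    rw [← hP, map_zero]
  · intro i j h
    exact hf₀ (Subtype.ext h)
  · intro i
    refine ⟨(f₀ i).2.1, (f₀ i).2.2, ?_⟩
    intro hd
    exact hac ⟨_, (f₀ i).2.1, (f₀ i).2.2, hd⟩
  · rw [← hP, MvPolynomial.aeval_rename] at h0
    rw [MvPolynomial.aeval_map_algebraMap]
    refine Eq.trans ?_ h0
    congr 2
    funext x
    rcases x with ⟨_ | i, b⟩
    · rfl
    · rfl

end Pool.Agent.K4H52.AP
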