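import Mathlib
import Pool.Agent.K4H52.AP.Spec2

set_option autoImplicit false

open Complex Filter Topology Set

namespace Pool.Agent.K4H52.AP

theorem asymPath (h1 : StripOrRight) (h2 : NoStrip) : AsymPath := by
  intro D l ψ a hp
  rcases h1 D l ψ a hp with h | ⟨⟨K, hK⟩, h | h⟩
  · exact h
  · exact absurd h (h2 D l ψ a K hp hK)
  · exfalso
    have hc : ∀ t, AnalyticAt ℝ ψ t → AnalyticAt ℝ (fun t => (starRingEnd ℂ) (ψ t)) t := by
      intro t ht
      exact (Complex.conjCLE.toContinuousLinearMap.analyticAt _).comp ht
    have hp' : PathInf D l (fun t => (starRingEnd ℂ) (ψ t)) ((starRingEnd ℂ) a) := {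
      tail := hp.tail
      an := fun t ht => hc t (hp.an t ht)
      lim := by
        have h3 := (Complex.continuous_conj.tendsto a).comp hp.lim
        refine h3.congr ?_
        intro t
        exact (riemannZeta_conj (ψ t)).symm
      inf := by
        simpa using hp.inf }
    refine h2 D l _ _ K hp' ?_ ?_
    · simpa using hK
    · exact (tendsto_neg_atBot_atTop.comp h).congr fun t => by simp

end Pool.Agent.K4H52.AP
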