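import Mathlib
import Pool.Agent.K4H52.AP.Spec2

/-!
# Convergence or divergence of paths on which zeta converges
-/

set_option autoImplicit false

open Complex Filter Topology Set

namespace Pool.Agent.K4H52.AP

theorem Tail.isPreconnected {D : Set ℝ} {l : Filter ℝ} (hT : Tail D l) (t₁ : ℝ) :
    IsPreconnected {t | t ∈ D ∧ t₁ ≤ t} :=
  (hT.conn.inter ordConnected_Ici).isPreconnected

/-- a path which does not meet the sphere stays inside -/
theorem tail_dist {D : Set ℝ} {l : Filter ℝ} {ψ : ℝ → ℂ} (hT : Tail D l) (hc : ContinuousOn ψ D)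
    {p : ℂ} {r : ℝ} (h1 : ∀ᶠ t in l, dist (ψ t) p ≠ r) (h2 : ∃ᶠ t in l, dist (ψ t) p < r) :
    ∀ᶠ t in l, dist (ψ t) p < r := by
  obtain ⟨t₁, ht₁, hS⟩ := hT.basis.mem_iff.1 h1
  have hSl := hT.basis.mem_of_mem ht₁
  obtain ⟨t₂, h3, h4⟩ := (h2.and_eventually hSl).exists
  filter_upwards [hSl] with t ht
  by_contra hcon
  push Not at hcon
  have hcont : ContinuousOn (fun t => dist (ψ t) p) {t | t ∈ D ∧ t₁ ≤ t} := by
    have h0 : ContinuousOn ψ {t | t ∈ D ∧ t₁ ≤ t} := hc.mono (fun t ht => ht.1)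
    exact (continuous_id.dist continuous_const).comp_continuousOn h0
  obtain ⟨t₃, h5, h6⟩ := (hT.isPreconnected t₁).intermediate_value h4 ht hcont ⟨h3.le, hcon⟩
  exact hS h5 h6

theorem zeta_isolated {p v : ℂ} (hp : p ≠ 1) :
    ∀ᶠ s in 𝓝[≠] p, riemannZeta s ≠ v := by
  have han : AnalyticAt ℂ (fun s => riemannZeta s - v) p := (an_zeta hp).sub analyticAt_const
  rcases han.eventually_eq_zero_or_eventually_ne_zero with h | h
  · exfalso
    obtain ⟨s, hs1, hs2⟩ := exists_large ‖v‖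
    have hf : AnalyticOnNhd ℂ (fun s => riemannZeta s - v) {1}ᶜ :=
      analyticOn_riemannZeta.sub analyticOnNhd_const
    have h3 := hf.eqOn_zero_of_preconnected_of_eventuallyEq_zero conn_compl hp h hs1
    have h4 : riemannZeta s = v := sub_eq_zero.1 h3
    rw [h4] at hs2
    exact lt_irrefl _ hs2
  · filter_upwards [h] with s hs h2
    exact hs (by simp [h2])

theorem conv : Conv := by
  intro D l ψ v hT hc hne hlim
  by_cases hinf : Tendsto (fun t => ‖ψ t‖) l atTop
  · exact Or.inl hinf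
  right
  rw [tendsto_atTop] at hinf
  push Not at hinf
  obtain ⟨R, hR⟩ := hinf
  have hfr : ∃ᶠ t in l, ψ t ∈ Metric.closedBall (0 : ℂ) R := by
    have h1 : ∃ᶠ t in l, ¬ R ≤ ‖ψ t‖ := not_eventually.1 (by simpa using hR)
    refine h1.mono fun t ht => ?_
    rw [mem_closedBall_zero_iff]
    exact (not_le.1 ht).le
  obtain ⟨p, -, hp⟩ := (isCompact_closedBall (0 : ℂ) R).exists_mapClusterPt_of_frequently hfr
  have hpf : ∀ s ∈ 𝓝 p, ∃ᶠ t in l, ψ t ∈ s := mapClusterPt_iff_frequently.1 hp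
  have hp1 : p ≠ 1 := by
    rintro rfl
    have h1 := pole_large (‖v‖ + 1)
    rw [eventually_nhdsWithin_iff] at h1
    have h2 := hpf _ h1
    have h3 : ∀ᶠ t in l, ‖riemannZeta (ψ t)‖ < ‖v‖ + 1 :=
      hlim.norm.eventually_lt_const (by linarith)
    obtain ⟨t, ⟨h4, h5⟩, h6⟩ := ((h2.and_eventually h3).and_eventually hT.mem).exists
    exact absurd (h4 (hne t h6)) (not_lt.2 h5.le)
  have hcp : ContinuousAt riemannZeta p := (an_zeta hp1).continuousAt
  have hv : riemannZeta p = v := by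
    by_contra hcon
    obtain ⟨U, V, hU, hV, hpU, hvV, hUV⟩ := t2_separation hcon
    have h1 := hpf _ (hcp (hU.mem_nhds hpU))
    have h2 : ∀ᶠ t in l, riemannZeta (ψ t) ∈ V := hlim (hV.mem_nhds hvV)
    obtain ⟨t, h3, h4⟩ := (h1.and_eventually h2).exists
    exact Set.disjoint_left.1 hUV h3 h4
  refine ⟨p, hp1, hv, ?_⟩
  have h1 : ∀ᶠ s in 𝓝 p, s ≠ p → riemannZeta s ≠ v := by
    have := zeta_isolated (v := v) hp1
    rwa [eventually_nhdsWithin_iff] at this
  have h2 : ∀ᶠ s in 𝓝 p, s ≠ 1 := isOpen_ne.mem_nhds hp1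
  obtain ⟨δ, hδ, hball⟩ := Metric.mem_nhds_iff.1 (h1.and h2)
  rw [Metric.tendsto_nhds]
  intro ε hε
  set r : ℝ := min (δ / 2) (ε / 2) with hr
  have hr0 : 0 < r := by positivity
  have hrδ : r < δ := (min_le_left _ _).trans_lt (by linarith)
  have hrε : r < ε := (min_le_right _ _).trans_lt (by linarith)
  have hsph : ∀ s ∈ Metric.sphere p r, riemannZeta s ≠ v ∧ s ≠ 1 := by
    intro s hs
    rw [Metric.mem_sphere] at hs
    have h3 : s ∈ Metric.ball p δ := by
      rw [Metric.mem_ball, hs]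
      exact hrδ
    have h4 := hball h3
    refine ⟨h4.1 ?_, h4.2⟩
    rintro rfl
    rw [dist_self] at hs
    exact hr0.ne hs
  have hcont : ContinuousOn (fun s => ‖riemannZeta s - v‖) (Metric.sphere p r) := by
    intro s hs
    have := (an_zeta (hsph s hs).2).continuousAt
    exact ((this.sub continuousAt_const).norm).continuousWithinAt
  obtain ⟨s₀, hs₀, hmin⟩ := (isCompact_sphere p r).exists_isMinOn
    (NormedSpace.sphere_nonempty.2 hr0.le) hcont
  have hpos : 0 < ‖riemannZeta s₀ - v‖ := norm_pos_iff.2 (sub_ne_zero.2 (hsph s₀ hs₀).1)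
  have h5 : ∀ᶠ t in l, ‖riemannZeta (ψ t) - v‖ < ‖riemannZeta s₀ - v‖ := by
    have h6 : Tendsto (fun t => ‖riemannZeta (ψ t) - v‖) l (𝓝 0) := by
      have := (hlim.sub (tendsto_const_nhds (x := v))).norm
      simpa using this
    exact h6.eventually_lt_const hpos
  have h7 : ∀ᶠ t in l, dist (ψ t) p ≠ r := by
    filter_upwards [h5] with t ht hd
    exact absurd (hmin (Metric.mem_sphere.2 hd)) (not_le.2 ht)
  have h8 : ∃ᶠ t in l, dist (ψ t) p < r := hpf _ (Metric.ball_mem_nhds p hr0)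
  filter_upwards [tail_dist hT hc h7 h8] with t ht
  exact ht.trans hrε

end Pool.Agent.K4H52.AP
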