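import Mathlib

/-!
# Polynomial part of P8

Partial derivatives of polynomials in `r` complex variables, induction over partial derivatives, and
the leading form of a polynomial for translations along the diagonal.
-/

set_option autoImplicit false

open MvPolynomial Filter Topology

namespace Pool.Agent.K4H52.AP.Dns

variable {r : ℕ}

/-- the gradient of a polynomial as a linear form -/
noncomputable def grad (H : MvPolynomial (Fin r) ℂ) (y : Fin r → ℂ) : (Fin r → ℂ) →L[ℂ] ℂ :=
  ∑ i, (eval y (pderiv i H)) • (ContinuousLinearMap.proj i : (Fin r → ℂ) →L[ℂ] ℂ)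

theorem grad_apply (H : MvPolynomial (Fin r) ℂ) (y v : Fin r → ℂ) :
    grad H y v = ∑ i, eval y (pderiv i H) * v i := by
  simp [grad, ContinuousLinearMap.sum_apply]

theorem hasFDerivAt_eval (H : MvPolynomial (Fin r) ℂ) (y : Fin r → ℂ) :
    HasFDerivAt (fun z : Fin r → ℂ => eval z H) (grad H y) y := by
  induction H using MvPolynomial.induction_on with
  | C a =>
    have h1 : (fun z : Fin r → ℂ => eval z (C a)) = fun _ => a := by
      funext z; simp
    have h2 : grad (C a) y = 0 := by
      ext v; rw [grad_apply]; simp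
    rw [h1, h2]
    exact hasFDerivAt_const a y
  | add p q hp hq =>
    have h1 := hp.add hq
    have h2 : grad (p + q) y = grad p y + grad q y := by
      ext v
      rw [ContinuousLinearMap.add_apply, grad_apply, grad_apply, grad_apply,
        ← Finset.sum_add_distrib]
      refine Finset.sum_congr rfl fun i _ => ?_
      rw [map_add, map_add, add_mul]
    have h3 : (fun z : Fin r → ℂ => eval z (p + q)) =
        ((fun z => (eval z) p) + fun z => (eval z) q) := by
      funext z; simp
    rw [h2, h3]
    exact h1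
  | mul_X p j hp =>
    have h1 : HasFDerivAt (fun z : Fin r → ℂ => z j)
        (ContinuousLinearMap.proj j : (Fin r → ℂ) →L[ℂ] ℂ) y := hasFDerivAt_apply j y
    have h2 := hp.mul h1
    have e : grad (p * X j) y =
        eval y p • (ContinuousLinearMap.proj j : (Fin r → ℂ) →L[ℂ] ℂ) +
        y j • grad p y := by
      ext v
      rw [ContinuousLinearMap.add_apply, ContinuousLinearMap.smul_apply,
        ContinuousLinearMap.smul_apply, grad_apply, grad_apply, ContinuousLinearMap.proj_apply,
        smul_eq_mul, smul_eq_mul, Finset.mul_sum, ← Finset.sum_erase_add _ _ (Finset.mem_univ j),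
        ← Finset.sum_erase_add _ (fun i => y j * (eval y (pderiv i p) * v i))
          (Finset.mem_univ j)]
      have : ∑ x ∈ Finset.univ.erase j, (eval y (pderiv x (p * X j))) * v x =
          ∑ x ∈ Finset.univ.erase j, y j * (eval y (pderiv x p) * v x) := by
        refine Finset.sum_congr rfl fun x hx => ?_
        rw [pderiv_mul, pderiv_X_of_ne (Finset.ne_of_mem_erase hx).symm, mul_zero, add_zero,
          map_mul, eval_X]
        ring
      rw [this, pderiv_mul, pderiv_X_self, mul_one, map_add, map_mul, eval_X]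
      ring
    have h3 : (fun z : Fin r → ℂ => eval z (p * X j)) =
        ((fun z => (eval z) p) * fun z => z j) := by
      funext z; simp
    rw [e, h3]
    exact h2

/-- induction over partial derivatives -/
theorem induct (good : MvPolynomial (Fin r) ℂ → Prop) (y : Fin r → ℂ)
    (h1 : ∀ H, good H → ∀ i, good (pderiv i H)) (h2 : ∀ H, good H → eval y H = 0) :
    ∀ d : ℕ, ∀ H, good H → (∀ m : Fin r →₀ ℕ, d ≤ m.degree → coeff m H = 0) → H = 0 := by
  intro d
  induction d with
  | zero =>
    intro H _ h
    ext m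
    simpa using h m (Nat.zero_le _)
  | succ d ih =>
    intro H hH h
    have hz : ∀ i, pderiv i H = 0 := by
      intro i
      refine ih _ (h1 H hH i) fun m hm => ?_
      rw [coeff_pderiv, h, zero_mul]
      rw [map_add, Finsupp.degree_single]
      omega
    have hc : ∀ m : Fin r →₀ ℕ, m ≠ 0 → coeff m H = 0 := by
      intro m hm
      obtain ⟨i, hi⟩ : ∃ i, m i ≠ 0 := by
        by_contra hcon
        push Not at hcon
        exact hm (Finsupp.ext hcon)
      have h3 := coeff_pderiv (i := i) H (m - Finsupp.single i 1)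
      have h4 : m - Finsupp.single i 1 + Finsupp.single i 1 = m := by
        refine tsub_add_cancel_of_le ?_
        rw [Finsupp.single_le_iff]
        omega
      rw [hz i, coeff_zero, h4] at h3
      rcases mul_eq_zero.mp h3.symm with h5 | h5
      · exact h5
      · exfalso
        have h6 : ∀ a : ℕ, ((a : ℂ) + 1) ≠ 0 := fun a => by exact_mod_cast Nat.succ_ne_zero a
        exact h6 _ h5
    have hC : H = C (coeff 0 H) := by
      ext m
      rw [coeff_C]
      split_ifs with hm
      · rw [← hm]
      · exact hc m (fun h => hm h.symm)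
    have h0 := h2 H hH
    rw [hC, eval_C] at h0
    rw [hC, h0, map_zero]

theorem induct' (good : MvPolynomial (Fin r) ℂ → Prop) (y : Fin r → ℂ)
    (h1 : ∀ H, good H → ∀ i, good (pderiv i H)) (h2 : ∀ H, good H → eval y H = 0)
    (H : MvPolynomial (Fin r) ℂ) (hH : good H) : H = 0 := by
  refine induct good y h1 h2 (H.totalDegree + 1) H hH fun m hm => ?_
  refine coeff_eq_zero_of_totalDegree_lt ?_
  have : m.degree = ∑ i ∈ m.support, m i := rfl
  omega

/-- translation along the diagonal as a homomorphism -/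
noncomputable def shiftHom (r : ℕ) : MvPolynomial (Fin r) ℂ →ₐ[ℂ] Polynomial (MvPolynomial (Fin r) ℂ) :=
  aeval (fun i => Polynomial.C (X i) + Polynomial.X)

theorem shiftHom_eval (H : MvPolynomial (Fin r) ℂ) (y : Fin r → ℂ) (s : ℂ) :
    ((shiftHom r H).map (eval y)).eval s = eval (fun i => y i + s) H := by
  induction H using MvPolynomial.induction_on with
  | C a =>
    have : shiftHom r (C a) = Polynomial.C (C a) := by
      rw [shiftHom, ← algebraMap_eq, AlgHom.commutes]
      rfl
    rw [this]
    simp
  | add p q hp hq => simp only [map_add, Polynomial.map_add, Polynomial.eval_add, hp, hq]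
  | mul_X p j hp =>
    simp only [map_mul, Polynomial.map_mul, Polynomial.eval_mul, hp]
    simp [shiftHom]

/-- The leading form for translations along the diagonal. -/
theorem lead {H : MvPolynomial (Fin r) ℂ} (hH : H ≠ 0) :
    ∃ G : MvPolynomial (Fin r) ℂ, G ≠ 0 ∧ ∃ D : ℕ,
      ∀ (y : ℕ → Fin r → ℂ) (Y : Fin r → ℂ) (s : ℕ → ℂ), Tendsto y atTop (𝓝 Y) →
        Tendsto (fun k => ‖s k‖) atTop atTop →
        Tendsto (fun k => eval (fun i => y k i + s k) H / s k ^ D) atTop (𝓝 (eval Y G)) := by
  set q := shiftHom r H with hq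
  have hq0 : q ≠ 0 := by
    intro h0
    apply hH
    apply MvPolynomial.funext
    intro x
    have := shiftHom_eval H x 0
    rw [← hq, h0] at this
    simpa using this.symm
  refine ⟨q.leadingCoeff, Polynomial.leadingCoeff_ne_zero.mpr hq0, q.natDegree, ?_⟩
  intro y Y s hy hs
  have hexp : ∀ k, eval (fun i => y k i + s k) H =
      ∑ d ∈ Finset.range (q.natDegree + 1), eval (y k) (q.coeff d) * s k ^ d := by
    intro k
    rw [← shiftHom_eval, ← hq, Polynomial.eval_eq_sum_range'
      (n := q.natDegree + 1) (lt_of_le_of_lt Polynomial.natDegree_map_le (Nat.lt_succ_self _))]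
    simp only [Polynomial.coeff_map]
  have hs0 : ∀ᶠ k in atTop, s k ≠ 0 := by
    filter_upwards [hs.eventually_gt_atTop 0] with k hk
    exact norm_pos_iff.mp hk
  have hinv : Tendsto (fun k => (s k)⁻¹) atTop (𝓝 0) := by
    rw [tendsto_zero_iff_norm_tendsto_zero]
    simp only [norm_inv]
    exact hs.inv_tendsto_atTop
  have hcont : ∀ P : MvPolynomial (Fin r) ℂ,
      Tendsto (fun k => eval (y k) P) atTop (𝓝 (eval Y P)) := fun P =>
    ((MvPolynomial.continuous_eval P).tendsto Y).comp hy
  have hlim : Tendsto (fun k => ∑ d ∈ Finset.range (q.natDegree + 1),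
      eval (y k) (q.coeff d) * ((s k)⁻¹) ^ (q.natDegree - d)) atTop
      (𝓝 (∑ d ∈ Finset.range (q.natDegree + 1),
        eval Y (q.coeff d) * (0 : ℂ) ^ (q.natDegree - d))) :=
    tendsto_finsetSum _ fun d _ => (hcont _).mul (hinv.pow _)
  have e1 : ∑ d ∈ Finset.range (q.natDegree + 1),
        eval Y (q.coeff d) * (0 : ℂ) ^ (q.natDegree - d) = eval Y q.leadingCoeff := by
    rw [Finset.sum_range_succ, Finset.sum_eq_zero, zero_add]
    · simp
    · intro d hd
      rw [Finset.mem_range] at hd
      rw [zero_pow (by omega), mul_zero]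
  rw [e1] at hlim
  refine hlim.congr' ?_
  filter_upwards [hs0] with k hk
  rw [hexp, Finset.sum_div]
  refine Finset.sum_congr rfl fun d hd => ?_
  rw [Finset.mem_range] at hd
  rw [mul_div_assoc]
  congr 1
  rw [inv_pow, eq_div_iff (pow_ne_zero _ hk), inv_mul_eq_iff_eq_mul₀ (pow_ne_zero _ hk), ← pow_add]
  congr 1
  omega

/-- the leading form is translation invariant -/
theorem lead_inv {H G : MvPolynomial (Fin r) ℂ} {D : ℕ}
    (h : ∀ (y : ℕ → Fin r → ℂ) (Y : Fin r → ℂ) (s : ℕ → ℂ), Tendsto y atTop (𝓝 Y) →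
        Tendsto (fun k => ‖s k‖) atTop atTop →
        Tendsto (fun k => eval (fun i => y k i + s k) H / s k ^ D) atTop (𝓝 (eval Y G)))
    (Y : Fin r → ℂ) (c : ℂ) : eval (fun i => Y i + c) G = eval Y G := by
  have hn : Tendsto (fun k : ℕ => ‖((k : ℕ) : ℂ)‖) atTop atTop := by
    simp only [Complex.norm_natCast]
    exact tendsto_natCast_atTop_atTop
  have h1 := h (fun _ => fun i => Y i + c) _ (fun k => (k : ℂ)) tendsto_const_nhds hn
  have hn2 : Tendsto (fun k : ℕ => ‖((k : ℕ) : ℂ) + c‖) atTop atTop := by
    refine tendsto_atTop_mono (f := fun k : ℕ => ‖((k : ℕ) : ℂ)‖ + (-‖c‖)) (fun k => ?_) ?_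
    · have := norm_add_le ((k : ℂ) + c) (-c)
      rw [norm_neg, add_neg_cancel_right] at this
      linarith
    · exact tendsto_atTop_add_const_right _ _ hn
  have h2 := h (fun _ => Y) _ (fun k => (k : ℂ) + c) tendsto_const_nhds hn2
  have hratio : Tendsto (fun k : ℕ => (((k : ℂ) + c) / (k : ℂ)) ^ D) atTop (𝓝 (1 ^ D)) := by
    refine Tendsto.pow ?_ D
    have h3 : Tendsto (fun k : ℕ => 1 + c * ((k : ℂ))⁻¹) atTop (𝓝 (1 + c * 0)) := by
      refine tendsto_const_nhds.add (tendsto_const_nhds.mul ?_)
      rw [tendsto_zero_iff_norm_tendsto_zero]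
      simp only [norm_inv]
      exact hn.inv_tendsto_atTop
    rw [mul_zero, add_zero] at h3
    refine h3.congr' ?_
    filter_upwards [eventually_gt_atTop 0] with k hk
    have : (k : ℂ) ≠ 0 := by exact_mod_cast hk.ne'
    field_simp
  have h3 := h2.mul hratio
  rw [one_pow, mul_one] at h3
  refine tendsto_nhds_unique h1 (h3.congr' ?_)
  have h4 : ∀ᶠ k : ℕ in atTop, (k : ℂ) + c ≠ 0 := by
    filter_upwards [hn2.eventually_gt_atTop 0] with k hk
    exact norm_pos_iff.mp hk
  filter_upwards [eventually_gt_atTop 0, h4] with k hk hk2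
  have h5 : (k : ℂ) ≠ 0 := by exact_mod_cast hk.ne'
  rw [div_pow, div_mul_div_comm, mul_comm (((k : ℂ) + c) ^ D), mul_div_mul_right _ _ (pow_ne_zero _ hk2)]
  have e5 : (fun i => Y i + ((k : ℂ) + c)) = fun i => Y i + c + (k : ℂ) := by
    funext i; ring
  rw [e5]

/-- the partial derivatives of a translation invariant polynomial are translation invariant -/
theorem pderiv_inv {H : MvPolynomial (Fin r) ℂ}
    (h : ∀ (Y : Fin r → ℂ) (c : ℂ), eval (fun i => Y i + c) H = eval Y H) (j : Fin r)
    (Y : Fin r → ℂ) (c : ℂ) : eval (fun i => Y i + c) (pderiv j H) = eval Y (pderiv j H) := by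
  have h1 := hasFDerivAt_eval H (fun i => Y i + c)
  have h2 : HasFDerivAt (fun z : Fin r → ℂ => (fun i => z i + c : Fin r → ℂ))
      (ContinuousLinearMap.id ℂ (Fin r → ℂ)) Y := by
    have := (hasFDerivAt_id (𝕜 := ℂ) Y).add_const (fun _ => c)
    exact this
  have h3 := HasFDerivAt.comp Y h1 h2
  have h4 : ((fun z : Fin r → ℂ => eval z H) ∘ fun z : Fin r → ℂ => (fun i => z i + c : Fin r → ℂ)) =
      fun z => eval z H := by
    funext z
    exact h z c
  rw [h4] at h3
  have h5 := h3.unique (hasFDerivAt_eval H Y)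
  have h6 := congrArg (fun f => f (Pi.single j 1)) h5
  have h7 : (ContinuousLinearMap.comp (grad H fun i => Y i + c)
    (ContinuousLinearMap.id ℂ (Fin r → ℂ))) (Pi.single j 1) =
      (grad H fun i => Y i + c) (Pi.single j 1) := rfl
  simp only [h7, grad_apply] at h6
  simpa [Pi.single_apply] using h6

end Pool.Agent.K4H52.AP.Dns
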