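import Mathlib
import Pool.Agent.K4H52.AP.Spec

/-!
# Linear independence part of P8
-/

set_option autoImplicit false

open Filter Topology Complex

namespace Pool.Agent.K4H52.AP.Dns

theorem laurent {r : ℕ} (n : Fin r → ℤ) (hn : Function.Injective n) (c : Fin r → ℂ) (S : Set ℂ)
    (hS : S.Infinite) (h0 : ∀ u ∈ S, u ≠ 0) (h : ∀ u ∈ S, ∑ i, c i * u ^ (n i) = 0) : c = 0 := by
  obtain ⟨M, hM⟩ : ∃ M : ℕ, ∀ i, 0 ≤ n i + M := by
    refine ⟨∑ i, (n i).natAbs, fun i => ?_⟩
    have : (n i).natAbs ≤ ∑ i, (n i).natAbs :=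
      Finset.single_le_sum (f := fun i => (n i).natAbs) (fun _ _ => Nat.zero_le _)
        (Finset.mem_univ i)
    omega
  set Q : Polynomial ℂ := ∑ i, Polynomial.C (c i) * Polynomial.X ^ ((n i + M).toNat) with hQ
  have hroot : ∀ u ∈ S, Q.IsRoot u := by
    intro u hu
    rw [Polynomial.IsRoot, hQ, Polynomial.eval_finsetSum]
    have : ∀ i, Polynomial.eval u (Polynomial.C (c i) * Polynomial.X ^ ((n i + M).toNat)) =
        u ^ M * (c i * u ^ (n i)) := by
      intro i
      rw [Polynomial.eval_mul, Polynomial.eval_C, Polynomial.eval_pow, Polynomial.eval_X,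
        ← zpow_natCast u ((n i + M).toNat), Int.toNat_of_nonneg (hM i), zpow_add₀ (h0 u hu),
        zpow_natCast]
      ring
    rw [Finset.sum_congr rfl fun i _ => this i, ← Finset.mul_sum, h u hu, mul_zero]
  have hQ0 : Q = 0 := Polynomial.eq_zero_of_infinite_isRoot Q (hS.mono hroot)
  funext j
  have hj : Q.coeff ((n j + M).toNat) = c j := by
    rw [hQ, Polynomial.finsetSum_coeff]
    rw [Finset.sum_eq_single j]
    · rw [Polynomial.coeff_C_mul, Polynomial.coeff_X_pow_self, mul_one]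
    · intro i _ hij
      rw [Polynomial.coeff_C_mul, Polynomial.coeff_X_pow, if_neg, mul_zero]
      intro heq
      apply hij
      apply hn
      have h1 := hM i
      have h2 := hM j
      omega
    · intro h; exact absurd (Finset.mem_univ j) h
  rw [hQ0, Polynomial.coeff_zero] at hj
  exact hj.symm

theorem log2_ne : (Real.log 2 : ℂ) ≠ 0 := by
  exact_mod_cast (Real.log_pos (by norm_num)).ne'

theorem up_inj {p q : ℕ} (hp : p.Prime) (hq : q.Prime) (hp2 : p ≠ 2) (hq2 : q ≠ 2)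
    (h : (p : ℂ) ^ (-τ) = (q : ℂ) ^ (-τ)) : p = q := by
  have hp0 : (p : ℂ) ≠ 0 := by exact_mod_cast hp.ne_zero
  have hq0 : (q : ℂ) ≠ 0 := by exact_mod_cast hq.ne_zero
  rw [Complex.cpow_def_of_ne_zero hp0, Complex.cpow_def_of_ne_zero hq0,
    Complex.exp_eq_exp_iff_exists_int] at h
  obtain ⟨k, hk⟩ := h
  have h1 : (Real.log q : ℂ) = (Real.log p : ℂ) + k * (Real.log 2 : ℂ) := by
    have e1 : Complex.log (p : ℂ) = (Real.log p : ℂ) := by
      rw [← Complex.natCast_log]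
    have e2 : Complex.log (q : ℂ) = (Real.log q : ℂ) := by
      rw [← Complex.natCast_log]
    rw [e1, e2, τ] at hk
    have h2 := log2_ne
    have h3 : (2 * (Real.pi : ℂ) * I) ≠ 0 := Complex.two_pi_I_ne_zero
    field_simp at hk
    linear_combination hk
  have h2 : Real.log q = Real.log p + k * Real.log 2 := by exact_mod_cast h1
  have key : ∀ {a b : ℕ}, a.Prime → b.Prime → b ≠ 2 → ∀ m : ℕ,
      Real.log b = Real.log a + m * Real.log 2 → a = b := by
    intro a b ha hb hb2 m hm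
    have h3 : Real.log b = Real.log ((a : ℝ) * 2 ^ m) := by
      rw [Real.log_mul (by exact_mod_cast ha.ne_zero) (by positivity), Real.log_pow, hm]
    have h4 : (b : ℝ) = (a : ℝ) * 2 ^ m := by
      refine Real.log_injOn_pos ?_ ?_ h3
      · exact Set.mem_Ioi.mpr (by exact_mod_cast hb.pos)
      · have : (0 : ℝ) < a := by exact_mod_cast ha.pos
        exact Set.mem_Ioi.mpr (by positivity)
    have h5 : b = a * 2 ^ m := by exact_mod_cast h4
    rcases Nat.eq_zero_or_pos m with h6 | h6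
    · rw [h5, h6, pow_zero, mul_one]
    · exfalso
      have : 2 ∣ b := by
        rw [h5]
        exact Dvd.dvd.mul_left (dvd_pow_self 2 h6.ne') a
      exact hb2 ((Nat.prime_dvd_prime_iff_eq Nat.prime_two hb).mp this).symm
  rcases le_total 0 k with hk0 | hk0
  · refine key hp hq hq2 k.toNat ?_
    rw [h2]
    congr 2
    exact_mod_cast (Int.toNat_of_nonneg hk0).symm
  · refine (key hq hp hp2 (-k).toNat ?_).symm
    have : (((-k).toNat : ℕ) : ℝ) = -(k : ℝ) := by
      have h3 := Int.toNat_of_nonneg (neg_nonneg.mpr hk0)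
      exact_mod_cast h3
    rw [this]
    linarith

theorem up_infinite : (((fun p : ℕ => (p : ℂ) ^ (-τ)) '' {p : ℕ | p.Prime ∧ p ≠ 2})).Infinite := by
  refine Set.Infinite.image ?_ ?_
  · intro p hp q hq h
    exact up_inj hp.1 hq.1 hp.2 hq.2 h
  · have : {p : ℕ | p.Prime ∧ p ≠ 2} = {p : ℕ | p.Prime} \ {2} := by
      ext p; simp
    rw [this]
    exact Nat.infinite_setOfPred_prime.sdiff (Set.finite_singleton 2)

theorem up_zpow (p : ℕ) (m : ℤ) : ((p : ℂ) ^ (-τ)) ^ m = (p : ℂ) ^ (-(τ * m)) := by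
  rw [← Complex.cpow_int_mul]
  congr 1
  ring

theorem τ_re (m : ℤ) : (τ * m).re = 0 := by
  have : τ * m = ((2 * Real.pi / Real.log 2 * m : ℝ) : ℂ) * I := by
    rw [τ]; push_cast; ring
  rw [this, Complex.re_ofReal_mul, Complex.I_re, mul_zero]

theorem norm_pow_lt_one {p : ℕ} (hp : 2 ≤ p) {s : ℂ} (hs : 0 < s.re) : ‖(p : ℂ) ^ (-s)‖ < 1 := by
  rw [Complex.norm_natCast_cpow_of_pos (by omega)]
  refine Real.rpow_lt_one_of_one_lt_of_neg (by exact_mod_cast (by omega : 1 < p)) ?_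
  simpa using hs

theorem one_sub_ne {p : ℕ} (hp : 2 ≤ p) {s : ℂ} (hs : 0 < s.re) {η : ℂ} (hη : ‖η‖ = 1) :
    1 - η * (p : ℂ) ^ (-s) ≠ 0 := by
  intro h
  have h1 := norm_pow_lt_one hp hs
  have h2 : η * (p : ℂ) ^ (-s) = 1 := by linear_combination -h
  have h3 : ‖η * (p : ℂ) ^ (-s)‖ = 1 := by rw [h2, norm_one]
  rw [norm_mul, hη, one_mul] at h3
  linarith

/-- the coefficient functions are linearly independent far to the right -/
theorem indep {X : ℝ} {Λ J : ℂ → ℂ} (hT : Tract X Λ J) {r : ℕ} (n : Fin r → ℤ)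
    (hn : Function.Injective n) :
    ∃ Y : ℝ, ∀ w : ℂ, Y < w.re → ∀ c : Fin r → ℂ,
      (∀ p : ℕ, p.Prime → p ≠ 2 → ∑ i, c i * ((p : ℂ) ^ (-(J (w + τ * n i))) /
        (1 - (p : ℂ) ^ (-(J (w + τ * n i))))) = 0) → c = 0 := by
  by_contra hcon
  push Not at hcon
  choose w hw c hc hc0 using fun k : ℕ => hcon k
  set d : ℕ → Fin r → ℂ := fun k => ((‖c k‖⁻¹ : ℝ) : ℂ) • c k with hd
  have hd1 : ∀ k, ‖d k‖ = 1 := by
    intro k
    have h1 : ‖c k‖ ≠ 0 := norm_ne_zero_iff.mpr (hc0 k)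
    rw [hd]
    simp only [norm_smul, Complex.norm_real, norm_inv, norm_norm]
    exact inv_mul_cancel₀ h1
  have hdrel : ∀ (k p : ℕ), p.Prime → p ≠ 2 → ∑ i, d k i * ((p : ℂ) ^ (-(J (w k + τ * n i))) /
        (1 - (p : ℂ) ^ (-(J (w k + τ * n i))))) = 0 := by
    intro k p hp hp2
    have h1 := hc k p hp hp2
    simp only [hd, Pi.smul_apply, smul_eq_mul, mul_assoc]
    rw [← Finset.mul_sum, h1, mul_zero]
  obtain ⟨e, he, φ, hφ, hlim⟩ := (isCompact_sphere (0 : Fin r → ℂ) 1).tendsto_subseq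
    (x := d) (fun k => by simpa using hd1 k)
  have he0 : e ≠ 0 := by
    intro h
    rw [h] at he
    simp at he
  apply he0
  refine laurent n hn e _ up_infinite ?_ ?_
  · rintro u ⟨p, hp, rfl⟩
    have hp0 : (p : ℂ) ≠ 0 := by exact_mod_cast hp.1.ne_zero
    exact (Complex.cpow_ne_zero_iff_of_exponent_ne_zero (by
      rw [neg_ne_zero, τ]
      exact div_ne_zero Complex.two_pi_I_ne_zero log2_ne)).mpr hp0
  · rintro u ⟨p, hp, rfl⟩
    have hp0 : (p : ℂ) ≠ 0 := by exact_mod_cast hp.1.ne_zero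
    have hp1 : 1 < p := hp.1.one_lt
    have hre : Tendsto (fun k => (w (φ k)).re) atTop atTop := by
      refine tendsto_atTop_mono (fun k => ?_) tendsto_natCast_atTop_atTop
      have h1 : (φ k : ℝ) < (w (φ k)).re := hw (φ k)
      have h2 : (k : ℝ) ≤ φ k := by exact_mod_cast hφ.id_le k
      linarith
    -- the difference between `J z` and `z` tends to zero
    have hdiff : ∀ i, Tendsto (fun k => J (w (φ k) + τ * n i) - (w (φ k) + τ * n i)) atTop
        (𝓝 0) := by
      intro i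
      rw [Metric.tendsto_nhds]
      intro ε hε
      obtain ⟨Y, hY⟩ := hT.J_lim (ε / 2) (by linarith)
      filter_upwards [hre.eventually_gt_atTop Y] with k hk
      rw [dist_zero_right]
      have h1 := hY (w (φ k) + τ * n i) (by rw [Complex.add_re, τ_re, add_zero]; exact hk)
      linarith
    have hpow1 : ∀ i, Tendsto (fun k => (p : ℂ) ^ (-(J (w (φ k) + τ * n i) -
        (w (φ k) + τ * n i)))) atTop (𝓝 1) := by
      intro i
      have h1 : ContinuousAt (fun s : ℂ => (p : ℂ) ^ s) (-0) :=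
        continuousAt_const_cpow hp0
      have h2 := h1.tendsto.comp ((hdiff i).neg)
      simpa [Function.comp_def] using h2
    have hpow0 : Tendsto (fun k => (p : ℂ) ^ (-(w (φ k)))) atTop (𝓝 0) := by
      rw [tendsto_zero_iff_norm_tendsto_zero]
      have h1 : ∀ k, ‖(p : ℂ) ^ (-(w (φ k)))‖ = ((p : ℝ)⁻¹) ^ ((w (φ k)).re) := by
        intro k
        rw [Complex.norm_natCast_cpow_of_pos (by omega), Complex.neg_re,
          Real.rpow_neg (by positivity), Real.inv_rpow (by positivity)]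
      simp only [h1]
      refine (tendsto_rpow_atTop_of_base_lt_one _ ?_ ?_).comp hre
      · have : (0 : ℝ) < (p : ℝ)⁻¹ := by positivity
        linarith
      · exact inv_lt_one_of_one_lt₀ (by exact_mod_cast hp1)
    have hterm : ∀ i, Tendsto (fun k => (p : ℂ) ^ (w (φ k)) * ((p : ℂ) ^ (-(J (w (φ k) + τ * n i))) /
        (1 - (p : ℂ) ^ (-(J (w (φ k) + τ * n i)))))) atTop (𝓝 (((p : ℂ) ^ (-τ)) ^ (n i))) := by
      intro i
      have hsplit : ∀ k, (p : ℂ) ^ (-(J (w (φ k) + τ * n i))) = (p : ℂ) ^ (-(J (w (φ k) + τ * n i) -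
        (w (φ k) + τ * n i))) * (p : ℂ) ^ (-(w (φ k))) * ((p : ℂ) ^ (-τ)) ^ (n i) := by
        intro k
        rw [up_zpow, ← Complex.cpow_add _ _ hp0, ← Complex.cpow_add _ _ hp0]
        congr 1
        ring
      have h0 : Tendsto (fun k => (p : ℂ) ^ (-(J (w (φ k) + τ * n i)))) atTop (𝓝 0) := by
        simp only [hsplit]
        have := ((hpow1 i).mul hpow0).mul_const (((p : ℂ) ^ (-τ)) ^ (n i))
        simpa using this
      have h1 : Tendsto (fun k => (p : ℂ) ^ (-(J (w (φ k) + τ * n i) -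
        (w (φ k) + τ * n i))) * ((p : ℂ) ^ (-τ)) ^ (n i) /
        (1 - (p : ℂ) ^ (-(J (w (φ k) + τ * n i))))) atTop
        (𝓝 (1 * ((p : ℂ) ^ (-τ)) ^ (n i) / (1 - 0))) := by
        refine Tendsto.div ((hpow1 i).mul_const _) (tendsto_const_nhds.sub h0) (by norm_num)
      rw [sub_zero, div_one, one_mul] at h1
      refine h1.congr fun k => ?_
      have h2 : (p : ℂ) ^ (w (φ k)) * (p : ℂ) ^ (-(w (φ k))) = 1 := by
        rw [← Complex.cpow_add _ _ hp0, add_neg_cancel, Complex.cpow_zero]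
      have h3 : (p : ℂ) ^ (w (φ k)) * (p : ℂ) ^ (-(J (w (φ k) + τ * n i))) =
          (p : ℂ) ^ (-(J (w (φ k) + τ * n i) - (w (φ k) + τ * n i))) *
            ((p : ℂ) ^ (-τ)) ^ (n i) := by
        rw [hsplit k]
        linear_combination ((p : ℂ) ^ (-(J (w (φ k) + τ * n i) - (w (φ k) + τ * n i))) *
            ((p : ℂ) ^ (-τ)) ^ (n i)) * h2
      rw [← mul_div_assoc, h3]
    have hsum : Tendsto (fun k => ∑ i, d (φ k) i * ((p : ℂ) ^ (w (φ k)) *
        ((p : ℂ) ^ (-(J (w (φ k) + τ * n i))) /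
        (1 - (p : ℂ) ^ (-(J (w (φ k) + τ * n i))))))) atTop
        (𝓝 (∑ i, e i * ((p : ℂ) ^ (-τ)) ^ (n i))) := by
      refine tendsto_finsetSum _ fun i _ => ?_
      exact ((continuous_apply i).continuousAt.tendsto.comp hlim).mul (hterm i)
    have hzero : ∀ k, ∑ i, d (φ k) i * ((p : ℂ) ^ (w (φ k)) *
        ((p : ℂ) ^ (-(J (w (φ k) + τ * n i))) /
        (1 - (p : ℂ) ^ (-(J (w (φ k) + τ * n i)))))) = 0 := by
      intro k
      have h1 := hdrel (φ k) p hp.1 hp.2
      have h2 : ∀ i, d (φ k) i * ((p : ℂ) ^ (w (φ k)) *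
        ((p : ℂ) ^ (-(J (w (φ k) + τ * n i))) /
        (1 - (p : ℂ) ^ (-(J (w (φ k) + τ * n i)))))) = (p : ℂ) ^ (w (φ k)) * (d (φ k) i *
        ((p : ℂ) ^ (-(J (w (φ k) + τ * n i))) /
        (1 - (p : ℂ) ^ (-(J (w (φ k) + τ * n i)))))) := fun i => by ring
      rw [Finset.sum_congr rfl fun i _ => h2 i, ← Finset.mul_sum, h1, mul_zero]
    simp only [hzero] at hsum
    exact (tendsto_nhds_unique tendsto_const_nhds hsum).symm

end Pool.Agent.K4H52.AP.Dns
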