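import Mathlib
import Pool.Agent.K4H52.AP.Spec
import Pool.Agent.K4H52.AP.Dns2

/-!
# Limit points of the shifted points (part of P8)
-/

set_option autoImplicit false

open Filter Topology Complex

namespace Pool.Agent.K4H52.AP.Dns

theorem two_cpow_τ (w : ℂ) (m : ℤ) : (2 : ℂ) ^ (-(w + τ * m)) = (2 : ℂ) ^ (-w) := by
  have h2 : (2 : ℂ) ≠ 0 := two_ne_zero
  rw [neg_add, Complex.cpow_add _ _ h2]
  have : (2 : ℂ) ^ (-(τ * m)) = 1 := by
    rw [Complex.cpow_def_of_ne_zero h2, Complex.exp_eq_one_iff]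
    refine ⟨-m, ?_⟩
    have h3 := log2_ne
    have e1 : Complex.log (2 : ℂ) = (Real.log 2 : ℂ) := by
      have := Complex.natCast_log (n := 2)
      push_cast at this
      exact this.symm
    rw [e1, τ]
    push_cast
    field_simp
  rw [this, mul_one]

theorem norm_τ : 1 < ‖τ‖ := by
  have h1 : ‖τ‖ = 2 * Real.pi / Real.log 2 := by
    have : τ = ((2 * Real.pi / Real.log 2 : ℝ) : ℂ) * I := by
      rw [τ]; push_cast; ring
    have hpos : 0 ≤ 2 * Real.pi / Real.log 2 := by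
      have := Real.log_pos (show (1 : ℝ) < 2 by norm_num)
      positivity
    rw [this, norm_mul, Complex.norm_I, mul_one, Complex.norm_real, Real.norm_eq_abs,
      abs_of_nonneg hpos]
  have h2 := Real.log_pos (show (1 : ℝ) < 2 by norm_num)
  have h3 : Real.log 2 < 1 := by
    have := Real.log_two_lt_d9
    linarith
  have h4 := Real.pi_gt_three
  rw [h1, lt_div_iff₀ h2]
  linarith

theorem J_re {X : ℝ} {Λ J : ℂ → ℂ} (hT : Tract X Λ J) {z : ℂ} (hz : X < z.re) :
    z.re - 1 / 4 ≤ (J z).re := by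
  have h1 := hT.J_close z hz
  have h2 := Complex.abs_re_le_norm (J z - z)
  rw [Complex.sub_re] at h2
  have h3 := (abs_le.mp (h2.trans h1)).1
  linarith

theorem zeta_J {X : ℝ} {Λ J : ℂ → ℂ} (hT : Tract X Λ J) {z : ℂ} (hz : X + 1 < z.re) :
    riemannZeta (J z) = 1 + (2 : ℂ) ^ (-z) := by
  have h1 := J_re hT (z := z) (by linarith)
  have h2 := hT.Λ_eq (J z) (by linarith)
  rw [hT.ΛJ z hz] at h2
  rw [h2]; ring

theorem unique {X : ℝ} {Λ J : ℂ → ℂ} (hT : Tract X Λ J) {w : ℂ} (hw : X + 2 < w.re) (m : ℤ)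
    {z : ℂ} (hz : ‖z - (w + τ * m)‖ ≤ 1 / 4) (hzeta : riemannZeta z = 1 + (2 : ℂ) ^ (-w)) :
    z = J (w + τ * m) := by
  have h2 : (2 : ℂ) ≠ 0 := two_ne_zero
  have hre : w.re - 1 / 4 ≤ z.re := by
    have h2 := Complex.abs_re_le_norm (z - (w + τ * m))
    rw [Complex.sub_re, Complex.add_re, τ_re] at h2
    have h3 := (abs_le.mp (h2.trans hz)).1
    linarith
  have h3 := hT.Λ_eq z (by linarith)
  rw [hzeta, add_sub_cancel_left, Complex.cpow_def_of_ne_zero h2, Complex.cpow_def_of_ne_zero h2,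
    Complex.exp_eq_exp_iff_exists_int] at h3
  obtain ⟨k, hk⟩ := h3
  have e1 : Complex.log (2 : ℂ) = (Real.log 2 : ℂ) := by
    have := Complex.natCast_log (n := 2)
    push_cast at this
    exact this.symm
  have h4 : Λ z = w + τ * ((-k : ℤ) : ℂ) := by
    have h5 := log2_ne
    rw [e1] at hk
    rw [τ]
    push_cast
    field_simp
    linear_combination -hk
  have h5 := hT.Λ_close z (by linarith)
  have h6 : ‖τ * (((-k - m : ℤ)) : ℂ)‖ ≤ 1 / 2 := by
    have : τ * (((-k - m : ℤ)) : ℂ) = (Λ z - z) + (z - (w + τ * m)) := by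
      rw [h4]; push_cast; ring
    rw [this]
    calc _ ≤ _ := norm_add_le _ _
      _ ≤ 1 / 4 + 1 / 4 := add_le_add h5 hz
      _ = 1 / 2 := by norm_num
  have h7 : -k = m := by
    by_contra hne
    have h8 : (1 : ℝ) ≤ |((-k - m : ℤ) : ℝ)| := by
      have : (1 : ℤ) ≤ |(-k - m)| := Int.one_le_abs (sub_ne_zero.mpr hne)
      exact_mod_cast this
    rw [norm_mul, Complex.norm_intCast] at h6
    have h9 := norm_τ
    nlinarith
  rw [h7] at h4
  rw [← h4]
  exact (hT.JΛ z (by linarith)).symm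

theorem ne_one_of_re {z : ℂ} (hz : 1 < z.re) : z ≠ 1 := by
  rintro rfl
  simp at hz

theorem continuousAt_cpow_neg {p : ℕ} (hp : 2 ≤ p) (z : ℂ) :
    ContinuousAt (fun s : ℂ => (p : ℂ) ^ (-s)) z := by
  have hp0 : (p : ℂ) ≠ 0 := by exact_mod_cast (by omega : p ≠ 0)
  exact ContinuousAt.const_cpow continuousAt_neg (Or.inl hp0)

/-- limit points of the shifted points -/
theorem limit_points (hS : Shifts) {X : ℝ} {Λ J : ℂ → ℂ} (hT : Tract X Λ J) {r : ℕ}
    (n : Fin r → ℤ) {N : ℕ} (hN : 1 ≤ N) {p : ℕ} (hp : p.Prime) (hp2 : p ≠ 2) {η : ℂ}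
    (hη : ‖η‖ = 1) {w : ℂ} (hw : X + 2 < w.re) (l : ℤ) :
    ∃ (L : ℕ → ℤ) (Z : Fin r → ℂ), Tendsto L atTop atTop ∧
      Tendsto (fun k => fun i => J (w + τ * ((n i : ℂ) + N * ((l + L k : ℤ) : ℂ))) -
        τ * (N * (L k : ℂ))) atTop (𝓝 Z) ∧
      ∀ i, ‖Z i - (w + τ * ((n i + N * l : ℤ) : ℂ))‖ ≤ 1 / 4 ∧
        riemannZeta (Z i) * (1 - (p : ℂ) ^ (-Z i)) =
          (1 + (2 : ℂ) ^ (-w)) * (1 - η * (p : ℂ) ^ (-Z i)) := by
  have h5 := hT.five
  choose L' hL1 hL2 hL3 using fun k : ℕ => hS p hp hp2 η hη N hN 2 (1 / ((k : ℝ) + 1)) (by norm_num)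
    (by positivity) (N * k)
  choose m hm using hL2
  have hmk : ∀ k, k ≤ m k := by
    intro k
    have h1 := hL1 k
    rw [hm k] at h1
    exact Nat.le_of_mul_le_mul_left h1 (by omega)
  set B : ℕ → Fin r → ℂ := fun k => fun i => J (w + τ * ((n i : ℂ) + N * ((l + (m k : ℤ) : ℤ) : ℂ))) -
        τ * (N * ((m k : ℤ) : ℂ)) with hB
  have hzre : ∀ j : ℤ, (w + τ * (j : ℂ)).re = w.re := fun j => by
    rw [Complex.add_re, τ_re, add_zero]
  have hindex : ∀ k i, w + τ * ((n i : ℂ) + N * ((l + (m k : ℤ) : ℤ) : ℂ)) =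
      w + τ * ((n i + N * (l + m k) : ℤ) : ℂ) := by
    intro k i; push_cast; ring
  have hBball : ∀ k i, ‖B k i - (w + τ * ((n i + N * l : ℤ) : ℂ))‖ ≤ 1 / 4 := by
    intro k i
    have h1 := hT.J_close (w + τ * ((n i + N * (l + m k) : ℤ) : ℂ)) (by rw [hzre]; linarith)
    have h2 : B k i - (w + τ * ((n i + N * l : ℤ) : ℂ)) =
        J (w + τ * ((n i + N * (l + m k) : ℤ) : ℂ)) - (w + τ * ((n i + N * (l + m k) : ℤ) : ℂ)) := by
      simp only [hB]
      rw [hindex]
      push_cast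
      ring
    rw [h2]
    exact h1
  have hreball : ∀ (i : Fin r) (z : ℂ), ‖z - (w + τ * ((n i + N * l : ℤ) : ℂ))‖ ≤ 1 / 4 → 2 < z.re := by
    intro i z hz
    have h2 := Complex.abs_re_le_norm (z - (w + τ * ((n i + N * l : ℤ) : ℂ)))
    rw [Complex.sub_re, hzre] at h2
    have h3 := (abs_le.mp (h2.trans hz)).1
    linarith
  have hBF : ∀ k i, ‖(1 + (2 : ℂ) ^ (-w)) - riemannZeta (B k i) *
      ((1 - (p : ℂ) ^ (-(B k i))) / (1 - η * (p : ℂ) ^ (-(B k i))))‖ ≤ 1 / ((k : ℝ) + 1) := by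
    intro k i
    have h1 := hL3 k (B k i) (hreball i _ (hBball k i)).le
    have h2 : B k i + τ * (L' k : ℂ) = J (w + τ * ((n i + N * (l + m k) : ℤ) : ℂ)) := by
      rw [hm k]
      simp only [hB]
      rw [hindex]
      push_cast
      ring
    rw [h2, zeta_J hT (by rw [hzre]; linarith), two_cpow_τ] at h1
    exact h1
  obtain ⟨Z, hZ, φ, hφ, hlim⟩ := (isCompact_univ_pi (X := fun _ : Fin r => ℂ)
    (s := fun i => Metric.closedBall (w + τ * ((n i + N * l : ℤ) : ℂ)) (1 / 4))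
    (fun i => isCompact_closedBall _ _)).tendsto_subseq (x := B)
    (fun k i _ => by rw [mem_closedBall_iff_norm]; exact hBball k i)
  refine ⟨fun k => (m (φ k) : ℤ), Z, ?_, hlim, fun i => ?_⟩
  · refine tendsto_atTop_mono (f := fun k : ℕ => (k : ℤ)) (fun k => ?_) tendsto_natCast_atTop_atTop
    exact_mod_cast (hφ.id_le k).trans (hmk _)
  · have hZi : ‖Z i - (w + τ * ((n i + N * l : ℤ) : ℂ))‖ ≤ 1 / 4 := by
      have := hZ i (Set.mem_univ i)
      rwa [mem_closedBall_iff_norm] at this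
    refine ⟨hZi, ?_⟩
    have hZre := hreball i _ hZi
    have hp2' : 2 ≤ p := hp.two_le
    have hne := one_sub_ne hp2' (s := Z i) (by linarith) hη
    have hcont : ContinuousAt (fun s : ℂ => riemannZeta s * ((1 - (p : ℂ) ^ (-s)) /
        (1 - η * (p : ℂ) ^ (-s)))) (Z i) := by
      refine ContinuousAt.mul (differentiableAt_riemannZeta (ne_one_of_re (by linarith))).continuousAt
        (ContinuousAt.div (continuousAt_const.sub (continuousAt_cpow_neg hp2' _))
          (continuousAt_const.sub (continuousAt_const.mul (continuousAt_cpow_neg hp2' _))) hne)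
    have hli : Tendsto (fun k => B (φ k) i) atTop (𝓝 (Z i)) :=
      (continuous_apply i).continuousAt.tendsto.comp hlim
    have h1 := hcont.tendsto.comp hli
    have h2 : Tendsto (fun k => riemannZeta (B (φ k) i) *
      ((1 - (p : ℂ) ^ (-(B (φ k) i))) / (1 - η * (p : ℂ) ^ (-(B (φ k) i))))) atTop
        (𝓝 (1 + (2 : ℂ) ^ (-w))) := by
      rw [tendsto_iff_norm_sub_tendsto_zero]
      have h3 : Tendsto (fun k : ℕ => 1 / ((φ k : ℝ) + 1)) atTop (𝓝 0) :=
        tendsto_one_div_add_atTop_nhds_zero_nat.comp hφ.tendsto_atTop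
      refine squeeze_zero (fun _ => norm_nonneg _) (fun k => ?_) h3
      rw [norm_sub_rev]
      exact hBF (φ k) i
    have h3 := tendsto_nhds_unique h1 h2
    rw [← h3, mul_assoc, div_mul_cancel₀ _ hne]

/-- the derivative of zeta does not vanish at the points `J z` -/
theorem zeta_deriv_ne {X : ℝ} {Λ J : ℂ → ℂ} (hT : Tract X Λ J) {z : ℂ} (hz : X + 1 < z.re) :
    deriv riemannZeta (J z) ≠ 0 := by
  have h5 := hT.five
  have hopen : IsOpen {s : ℂ | X < s.re} := isOpen_lt continuous_const Complex.continuous_re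
  have hopen1 : IsOpen {s : ℂ | X + 1 < s.re} := isOpen_lt continuous_const Complex.continuous_re
  have h1 : HasDerivAt J (deriv J z) z :=
    ((hT.dJ z (show X < z.re by linarith)).differentiableAt
      (hopen.mem_nhds (show X < z.re by linarith))).hasDerivAt
  have hJre := J_re hT (z := z) (by linarith)
  have h2 : HasDerivAt riemannZeta (deriv riemannZeta (J z)) (J z) :=
    (differentiableAt_riemannZeta (ne_one_of_re (by linarith))).hasDerivAt
  have h3 := h2.comp z h1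
  have h4 : HasDerivAt (fun s : ℂ => 1 + (2 : ℂ) ^ (-s)) ((2 : ℂ) ^ (-z) * Complex.log 2 * (-1)) z :=
    ((hasDerivAt_neg z).const_cpow (Or.inl two_ne_zero)).const_add 1
  have h6 : (riemannZeta ∘ J) =ᶠ[𝓝 z] fun s : ℂ => 1 + (2 : ℂ) ^ (-s) := by
    filter_upwards [hopen1.mem_nhds hz] with s hs
    exact zeta_J hT hs
  have h7 := h3.unique (h4.congr_of_eventuallyEq h6)
  intro h0
  rw [h0, zero_mul] at h7
  have h8 : (2 : ℂ) ^ (-z) ≠ 0 := by
    rw [Complex.cpow_def_of_ne_zero two_ne_zero]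
    exact Complex.exp_ne_zero _
  have h9 : Complex.log (2 : ℂ) ≠ 0 := by
    have e1 : Complex.log (2 : ℂ) = (Real.log 2 : ℂ) := by
      have := Complex.natCast_log (n := 2)
      push_cast at this
      exact this.symm
    rw [e1]; exact log2_ne
  have h10 : (2 : ℂ) ^ (-z) * Complex.log 2 * (-1) ≠ 0 :=
    mul_ne_zero (mul_ne_zero h8 h9) (by norm_num)
  exact h10 h7.symm

end Pool.Agent.K4H52.AP.Dns
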