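import Mathlib
import Pool.Agent.K4H52.AP.Spec
import Pool.Agent.K4H52.AP.Dns1
import Pool.Agent.K4H52.AP.Dns2
import Pool.Agent.K4H52.AP.Dns3

/-!
# P8: the points `(J (w + τ (n i + N l)))_i` are Zariski dense
-/

set_option autoImplicit false

open Filter Topology Complex

namespace Pool.Agent.K4H52.AP.Dns

/-- a sequence of rotations tending to one -/
theorem exists_eta : ∃ η : ℕ → ℂ, (∀ k, ‖η k‖ = 1) ∧ (∀ k, η k ≠ 1) ∧ Tendsto η atTop (𝓝 1) := by
  refine ⟨fun k => Complex.exp (((1 / ((k : ℝ) + 1) : ℝ) : ℂ) * I), fun k => ?_, fun k => ?_, ?_⟩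
  · exact Complex.norm_exp_ofReal_mul_I _
  · intro h
    rw [Complex.exp_eq_one_iff] at h
    obtain ⟨m, hm⟩ := h
    have h1 : (((1 / ((k : ℝ) + 1) : ℝ) : ℂ)) = ((m * (2 * Real.pi) : ℝ) : ℂ) := by
      have h2 := Complex.I_ne_zero
      have h3 : (((1 / ((k : ℝ) + 1) : ℝ) : ℂ)) * I = ((m * (2 * Real.pi) : ℝ) : ℂ) * I := by
        rw [hm]; push_cast; ring
      exact mul_right_cancel₀ h2 h3
    have h2 : (1 / ((k : ℝ) + 1) : ℝ) = m * (2 * Real.pi) := by exact_mod_cast h1
    have h3 : (0 : ℝ) < 1 / ((k : ℝ) + 1) := by positivity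
    have h4 : 1 / ((k : ℝ) + 1) ≤ 1 := by
      rw [div_le_one (by positivity)]
      have : (0 : ℝ) ≤ k := Nat.cast_nonneg k
      linarith
    have h5 := Real.pi_gt_three
    rcases le_or_gt m 0 with h6 | h6
    · have : (m : ℝ) ≤ 0 := by exact_mod_cast h6
      nlinarith
    · have : (1 : ℝ) ≤ m := by exact_mod_cast h6
      nlinarith
  · have h1 : Tendsto (fun k : ℕ => Complex.exp (((1 / ((k : ℝ) + 1) : ℝ) : ℂ) * I)) atTop
        (𝓝 (Complex.exp (((0 : ℝ) : ℂ) * I))) := by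
      refine (Complex.continuous_exp.tendsto _).comp ?_
      refine Tendsto.mul_const _ ?_
      exact (Complex.continuous_ofReal.tendsto _).comp tendsto_one_div_add_atTop_nhds_zero_nat
    simpa using h1

/-- The gradient of a translation invariant polynomial vanishing at all points is orthogonal to the
vector `v(p)`. -/
theorem deriv_rel (hS : Shifts) {X : ℝ} {Λ J : ℂ → ℂ} (hT : Tract X Λ J) {r : ℕ}
    (n : Fin r → ℤ) {N : ℕ} (hN : 1 ≤ N) {p : ℕ} (hp : p.Prime) (hp2 : p ≠ 2) {w : ℂ}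
    (hw : X + 2 < w.re) (G : MvPolynomial (Fin r) ℂ)
    (hinv : ∀ (Y : Fin r → ℂ) (c : ℂ), MvPolynomial.eval (fun i => Y i + c) G =
      MvPolynomial.eval Y G)
    (hvan : ∀ l : ℤ, MvPolynomial.eval (fun i => J (w + τ * ((n i : ℂ) + N * l))) G = 0) (l : ℤ) :
    grad G (fun i => J (w + τ * ((n i : ℂ) + N * l))) (fun i =>
      -((1 + (2 : ℂ) ^ (-w)) * ((p : ℂ) ^ (-(J (w + τ * ((n i : ℂ) + N * l)))) /
        (1 - (p : ℂ) ^ (-(J (w + τ * ((n i : ℂ) + N * l))))))) /
        deriv riemannZeta (J (w + τ * ((n i : ℂ) + N * l)))) = 0 := by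
  have h5 := hT.five
  have hp2' : 2 ≤ p := hp.two_le
  have hp0 : (p : ℂ) ≠ 0 := by exact_mod_cast hp.ne_zero
  have hzre : ∀ j : ℤ, (w + τ * (j : ℂ)).re = w.re := fun j => by
    rw [Complex.add_re, τ_re, add_zero]
  have hidx : ∀ i, w + τ * ((n i : ℂ) + N * l) = w + τ * ((n i + N * l : ℤ) : ℂ) := by
    intro i; push_cast; ring
  set P : Fin r → ℂ := fun i => J (w + τ * ((n i : ℂ) + N * l)) with hP
  have hPi : ∀ i, P i = J (w + τ * ((n i + N * l : ℤ) : ℂ)) := by
    intro i; simp only [hP]; rw [hidx]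
  have hPz : ∀ i, riemannZeta (P i) = 1 + (2 : ℂ) ^ (-w) := by
    intro i
    rw [hPi, zeta_J hT (by rw [hzre]; linarith), two_cpow_τ]
  have hPre : ∀ i, 2 < (P i).re := by
    intro i
    have := J_re hT (z := w + τ * ((n i + N * l : ℤ) : ℂ)) (by rw [hzre]; linarith)
    rw [hzre] at this
    rw [hPi]
    linarith
  obtain ⟨η, hη1, hηne, hηlim⟩ := exists_eta
  choose L Z hL hZ hZp using fun k => limit_points hS hT n hN hp hp2 (hη1 k) hw l
  -- the polynomial vanishes at the limit points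
  have hZG : ∀ k, MvPolynomial.eval (Z k) G = 0 := by
    intro k
    have h1 := ((MvPolynomial.continuous_eval G).tendsto (Z k)).comp (hZ k)
    refine tendsto_nhds_unique (h1.congr fun j => ?_) tendsto_const_nhds
    have h2 := hinv (fun i => J (w + τ * ((n i : ℂ) + N * ((l + L k j : ℤ) : ℂ))))
      (-(τ * (N * (L k j : ℂ))))
    rw [hvan] at h2
    simpa [sub_eq_add_neg] using h2
  have hreball : ∀ (i : Fin r) (z : ℂ), ‖z - (w + τ * ((n i + N * l : ℤ) : ℂ))‖ ≤ 1 / 4 →
      2 < z.re := by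
    intro i z hz
    have h2 := Complex.abs_re_le_norm (z - (w + τ * ((n i + N * l : ℤ) : ℂ)))
    rw [Complex.sub_re, hzre] at h2
    have h3 := (abs_le.mp (h2.trans hz)).1
    linarith
  obtain ⟨Q, hQ, φ, hφ, hlim⟩ := (isCompact_univ_pi (X := fun _ : Fin r => ℂ)
    (s := fun i => Metric.closedBall (w + τ * ((n i + N * l : ℤ) : ℂ)) (1 / 4))
    (fun i => isCompact_closedBall _ _)).tendsto_subseq (x := Z)
    (fun k i _ => by rw [mem_closedBall_iff_norm]; exact (hZp k i).1)
  have hηφ : Tendsto (fun k => η (φ k)) atTop (𝓝 1) := hηlim.comp hφ.tendsto_atTop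
  have hQP : Q = P := by
    funext i
    have hQi : ‖Q i - (w + τ * ((n i + N * l : ℤ) : ℂ))‖ ≤ 1 / 4 := by
      have := hQ i (Set.mem_univ i)
      rwa [mem_closedBall_iff_norm] at this
    have hli : Tendsto (fun k => Z (φ k) i) atTop (𝓝 (Q i)) :=
      (continuous_apply i).continuousAt.tendsto.comp hlim
    have hQre := hreball i _ hQi
    have hz : Tendsto (fun k => riemannZeta (Z (φ k) i)) atTop (𝓝 (riemannZeta (Q i))) :=
      (differentiableAt_riemannZeta (ne_one_of_re (by linarith))).continuousAt.tendsto.comp hli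
    have hc : Tendsto (fun k => (p : ℂ) ^ (-(Z (φ k) i))) atTop (𝓝 ((p : ℂ) ^ (-(Q i)))) :=
      (continuousAt_cpow_neg hp2' _).tendsto.comp hli
    have h1 : Tendsto (fun k => riemannZeta (Z (φ k) i) * (1 - (p : ℂ) ^ (-(Z (φ k) i)))) atTop
        (𝓝 (riemannZeta (Q i) * (1 - (p : ℂ) ^ (-(Q i))))) :=
      hz.mul (tendsto_const_nhds.sub hc)
    have h2 : Tendsto (fun k => (1 + (2 : ℂ) ^ (-w)) * (1 - η (φ k) * (p : ℂ) ^ (-(Z (φ k) i))))
        atTop (𝓝 ((1 + (2 : ℂ) ^ (-w)) * (1 - 1 * (p : ℂ) ^ (-(Q i))))) :=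
      tendsto_const_nhds.mul (tendsto_const_nhds.sub (hηφ.mul hc))
    have h3 := tendsto_nhds_unique (h1.congr fun k => (hZp (φ k) i).2) h2
    have hne := one_sub_ne hp2' (s := Q i) (by linarith) (η := 1) norm_one
    rw [one_mul] at h3 hne
    rw [hPi]
    exact unique hT hw _ hQi (mul_right_cancel₀ hne h3)
  rw [hQP] at hlim
  have hli : ∀ i, Tendsto (fun k => Z (φ k) i) atTop (𝓝 (P i)) := fun i =>
    (continuous_apply i).continuousAt.tendsto.comp hlim
  have hw1 : (1 + (2 : ℂ) ^ (-w)) ≠ 0 := by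
    intro h
    have h1 := norm_pow_lt_one (p := 2) le_rfl (s := w) (by linarith)
    have h2 : ((2 : ℕ) : ℂ) ^ (-w) = -1 := by
      push_cast
      linear_combination h
    rw [h2, norm_neg, norm_one] at h1
    exact lt_irrefl _ h1
  have hδ : ∀ k, η k - 1 ≠ 0 := fun k => sub_ne_zero.mpr (hηne k)
  have hpne : ∀ s : ℂ, (p : ℂ) ^ s ≠ 0 := by
    intro s
    rw [Complex.cpow_def_of_ne_zero hp0]
    exact Complex.exp_ne_zero _
  -- the difference of the zeta values
  have hdz : ∀ k i, riemannZeta (Z k i) - riemannZeta (P i) = (η k - 1) *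
      -((1 + (2 : ℂ) ^ (-w)) * ((p : ℂ) ^ (-(Z k i)) / (1 - (p : ℂ) ^ (-(Z k i))))) := by
    intro k i
    have h1 := (hZp k i).2
    have hre := hreball i _ (hZp k i).1
    have hne := one_sub_ne hp2' (s := Z k i) (by linarith) (η := 1) norm_one
    rw [one_mul] at hne
    rw [hPz]
    field_simp
    linear_combination h1
  have hZne : ∀ k i, Z k i ≠ P i := by
    intro k i h
    have h1 := hdz k i
    have hre := hreball i _ (hZp k i).1
    have hne := one_sub_ne hp2' (s := Z k i) (by linarith) (η := 1) norm_one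
    rw [one_mul] at hne
    rw [h, sub_self] at h1
    rw [h] at hne
    exact mul_ne_zero (hδ k) (neg_ne_zero.mpr (mul_ne_zero hw1 (div_ne_zero (hpne _) hne))) h1.symm
  -- the derivative of the limit points
  have hv : ∀ i, Tendsto (fun k => (η (φ k) - 1)⁻¹ * (Z (φ k) i - P i)) atTop
      (𝓝 (-((1 + (2 : ℂ) ^ (-w)) * ((p : ℂ) ^ (-(P i)) / (1 - (p : ℂ) ^ (-(P i))))) /
        deriv riemannZeta (P i))) := by
    intro i
    have hne := one_sub_ne hp2' (s := P i) (by linarith [hPre i]) (η := 1) norm_one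
    rw [one_mul] at hne
    have hder : HasDerivAt riemannZeta (deriv riemannZeta (P i)) (P i) :=
      (differentiableAt_riemannZeta (ne_one_of_re (by linarith [hPre i]))).hasDerivAt
    have hdne : deriv riemannZeta (P i) ≠ 0 := by
      rw [hPi]; exact zeta_deriv_ne hT (by rw [hzre]; linarith)
    have hslope := hasDerivAt_iff_tendsto_slope.mp hder
    have hli2 : Tendsto (fun k => Z (φ k) i) atTop (𝓝[≠] (P i)) :=
      tendsto_nhdsWithin_iff.mpr ⟨hli i, Eventually.of_forall fun k => hZne _ _⟩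
    have h1 := hslope.comp hli2
    have hc : Tendsto (fun k => (p : ℂ) ^ (-(Z (φ k) i))) atTop (𝓝 ((p : ℂ) ^ (-(P i)))) :=
      (continuousAt_cpow_neg hp2' _).tendsto.comp (hli i)
    have h2 : Tendsto (fun k => -((1 + (2 : ℂ) ^ (-w)) * ((p : ℂ) ^ (-(Z (φ k) i)) /
        (1 - (p : ℂ) ^ (-(Z (φ k) i)))))) atTop
        (𝓝 (-((1 + (2 : ℂ) ^ (-w)) * ((p : ℂ) ^ (-(P i)) / (1 - (p : ℂ) ^ (-(P i))))))) :=
      (tendsto_const_nhds.mul (hc.div (tendsto_const_nhds.sub hc) hne)).neg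
    refine (h2.div h1 hdne).congr fun k => ?_
    have h3 := hdz (φ k) i
    have h4 : Z (φ k) i - P i ≠ 0 := sub_ne_zero.mpr (hZne _ _)
    have h6 : riemannZeta (Z (φ k) i) - riemannZeta (P i) ≠ 0 := by
      rw [h3]
      have hre := hreball i _ (hZp (φ k) i).1
      have hne := one_sub_ne hp2' (s := Z (φ k) i) (by linarith) (η := 1) norm_one
      rw [one_mul] at hne
      exact mul_ne_zero (hδ _) (neg_ne_zero.mpr (mul_ne_zero hw1 (div_ne_zero (hpne _) hne)))
    have h7 : -((1 + (2 : ℂ) ^ (-w)) * ((p : ℂ) ^ (-(Z (φ k) i)) /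
        (1 - (p : ℂ) ^ (-(Z (φ k) i))))) =
        (η (φ k) - 1)⁻¹ * (riemannZeta (Z (φ k) i) - riemannZeta (P i)) := by
      rw [h3, inv_mul_cancel_left₀ (hδ _)]
    show -((1 + (2 : ℂ) ^ (-w)) * ((p : ℂ) ^ (-(Z (φ k) i)) /
        (1 - (p : ℂ) ^ (-(Z (φ k) i))))) / slope riemannZeta (P i) (Z (φ k) i) =
        (η (φ k) - 1)⁻¹ * (Z (φ k) i - P i)
    rw [h7, slope_def_field]
    have h8 := hδ (φ k)
    field_simp
  have hfd := (hasFDerivAt_eval G P).hasFDerivWithinAt (s := Set.univ)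
  have hlimit := hfd.lim (l := atTop) (c := fun k => (η (φ k) - 1)⁻¹) (d := fun k => Z (φ k) - P)
    (v := fun i => (-((1 + (2 : ℂ) ^ (-w)) * ((p : ℂ) ^ (-(P i)) / (1 - (p : ℂ) ^ (-(P i))))) /
        deriv riemannZeta (P i))) (by
      have := hlim.sub_const P
      rw [sub_self] at this
      exact this) (Eventually.of_forall fun _ => Set.mem_univ _)
    (tendsto_pi_nhds.mpr fun i => by simpa using hv i)
  have hPG : MvPolynomial.eval P G = 0 := hvan l
  refine tendsto_nhds_unique (hlimit.congr fun k => ?_) tendsto_const_nhds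
  rw [add_sub_cancel, hZG, hPG, sub_zero, smul_zero]

end Pool.Agent.K4H52.AP.Dns

namespace Pool.Agent.K4H52.AP

open Dns in
theorem dense_of_shifts (hS : Shifts) : Dense := by
  intro X Λ J hT r n hn N hN
  have h5 := hT.five
  obtain ⟨Y₀, hY₀⟩ := indep hT n hn
  refine ⟨max (X + 2) Y₀, le_trans (by linarith) (le_max_left _ _), fun w hw H hH => ?_⟩
  have hw1 : X + 2 < w.re := lt_of_le_of_lt (le_max_left _ _) hw
  have hw2 : Y₀ < w.re := lt_of_le_of_lt (le_max_right _ _) hw
  have hzre : ∀ j : ℤ, (w + τ * (j : ℂ)).re = w.re := fun j => by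
    rw [Complex.add_re, τ_re, add_zero]
  have hw0 : (1 + (2 : ℂ) ^ (-w)) ≠ 0 := by
    intro h
    have h1 := norm_pow_lt_one (p := 2) le_rfl (s := w) (by linarith)
    have h2 : ((2 : ℕ) : ℂ) ^ (-w) = -1 := by
      push_cast
      linear_combination h
    rw [h2, norm_neg, norm_one] at h1
    exact lt_irrefl _ h1
  -- partial derivatives
  have step : ∀ G : MvPolynomial (Fin r) ℂ,
      (∀ (Y : Fin r → ℂ) (c : ℂ), MvPolynomial.eval (fun i => Y i + c) G =
        MvPolynomial.eval Y G) →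
      (∀ l : ℤ, MvPolynomial.eval (fun i => J (w + τ * ((n i : ℂ) + N * l))) G = 0) →
      ∀ (j : Fin r) (l : ℤ), MvPolynomial.eval (fun i => J (w + τ * ((n i : ℂ) + N * l)))
        (MvPolynomial.pderiv j G) = 0 := by
    intro G hinv hvan j l
    set P : Fin r → ℂ := fun i => J (w + τ * ((n i : ℂ) + N * l)) with hP
    have hPi : ∀ i, P i = J (w + τ * ((n i + N * l : ℤ) : ℂ)) := by
      intro i; simp only [hP]; congr 1; push_cast; ring
    have hc := hY₀ (w + τ * ((N * l : ℤ) : ℂ)) (by rw [hzre]; exact hw2)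
      (fun i => MvPolynomial.eval P (MvPolynomial.pderiv i G) *
        (-(1 + (2 : ℂ) ^ (-w)) / deriv riemannZeta (P i))) (by
        intro p hp hp2
        have h1 := deriv_rel hS hT n hN hp hp2 hw1 G hinv hvan l
        rw [grad_apply] at h1
        refine Eq.trans ?_ h1
        refine Finset.sum_congr rfl fun i _ => ?_
        have h2 : J (w + τ * ((N * l : ℤ) : ℂ) + τ * (n i : ℂ)) = P i := by
          rw [hPi]; congr 1; push_cast; ring
        rw [h2]
        simp only [← hP]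
        show _ = MvPolynomial.eval P (MvPolynomial.pderiv i G) *
          (-((1 + (2 : ℂ) ^ (-w)) * ((p : ℂ) ^ (-(P i)) / (1 - (p : ℂ) ^ (-(P i))))) /
            deriv riemannZeta (P i))
        ring)
    have h1 := congrFun hc j
    have hdne : deriv riemannZeta (P j) ≠ 0 := by
      rw [hPi]; exact zeta_deriv_ne hT (by rw [hzre]; linarith)
    have h2 : (-(1 + (2 : ℂ) ^ (-w)) / deriv riemannZeta (P j)) ≠ 0 :=
      div_ne_zero (neg_ne_zero.mpr hw0) hdne
    exact (mul_eq_zero.mp h1).resolve_right h2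
  by_contra hne
  obtain ⟨G, hG0, D, hG⟩ := lead hne
  have hinv := lead_inv hG
  have hvan : ∀ l : ℤ, MvPolynomial.eval (fun i => J (w + τ * ((n i : ℂ) + N * l))) G = 0 := by
    intro l
    obtain ⟨L, Z, hL, hZ, hZp⟩ := limit_points hS hT n hN Nat.prime_three (by norm_num)
      (η := 1) norm_one hw1 l
    have hZP : Z = fun i => J (w + τ * ((n i : ℂ) + N * l)) := by
      funext i
      have h1 := (hZp i).2
      have hre : 2 < (Z i).re := by
        have h2 := Complex.abs_re_le_norm (Z i - (w + τ * ((n i + N * l : ℤ) : ℂ)))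
        rw [Complex.sub_re, hzre] at h2
        have h3 := (abs_le.mp (h2.trans (hZp i).1)).1
        linarith
      have hne := one_sub_ne (p := 3) (by norm_num) (s := Z i) (by linarith) (η := 1) norm_one
      rw [one_mul] at h1 hne
      have h3 := unique hT hw1 _ (hZp i).1 (mul_right_cancel₀ hne h1)
      rw [h3]
      congr 1
      push_cast
      ring
    have hs : Tendsto (fun k => ‖τ * (N * (L k : ℂ))‖) atTop atTop := by
      have h1 : Tendsto (fun k => (L k : ℝ)) atTop atTop := tendsto_intCast_atTop_atTop.comp hL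
      refine tendsto_atTop_mono (fun k => ?_) h1
      rw [norm_mul, norm_mul, Complex.norm_natCast, Complex.norm_intCast]
      have h2 := norm_τ
      have h3 : (1 : ℝ) ≤ N := by exact_mod_cast hN
      have h4 : (0 : ℝ) ≤ |(L k : ℝ)| := abs_nonneg _
      have h6 := le_abs_self (L k : ℝ)
      calc (L k : ℝ) ≤ 1 * (1 * |(L k : ℝ)|) := by linarith
        _ ≤ ‖τ‖ * (N * |(L k : ℝ)|) :=
          mul_le_mul h2.le (mul_le_mul_of_nonneg_right h3 h4) (by linarith) (by linarith)
    have h1 := hG _ _ _ hZ hs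
    rw [hZP] at h1
    refine tendsto_nhds_unique (h1.congr fun k => ?_) tendsto_const_nhds
    have h2 : (fun i => J (w + τ * ((n i : ℂ) + N * ((l + L k : ℤ) : ℂ))) - τ * (N * (L k : ℂ)) +
        τ * (N * (L k : ℂ))) = fun i => J (w + τ * ((n i : ℂ) + N * ((l + L k : ℤ) : ℂ))) := by
      funext i; ring
    rw [h2, hH, zero_div]
  exact hG0 (induct' (fun G => (∀ (Y : Fin r → ℂ) (c : ℂ), MvPolynomial.eval (fun i => Y i + c) G =
        MvPolynomial.eval Y G) ∧
      (∀ l : ℤ, MvPolynomial.eval (fun i => J (w + τ * ((n i : ℂ) + N * l))) G = 0))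
    (fun i => J (w + τ * ((n i : ℂ) + N * (0 : ℤ))))
    (fun G hGd i => ⟨fun Y c => pderiv_inv hGd.1 i Y c, fun l => step G hGd.1 hGd.2 i l⟩)
    (fun G hGd => hGd.2 0) G ⟨hinv, hvan⟩)

end Pool.Agent.K4H52.AP
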