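import Pool.Agent.K4H52.AP.Spec2

/-!
# P10D: the algebraic relation along a horizontal half-line
-/

set_option autoImplicit false

open Complex Filter Topology Set

namespace Pool.Agent.K4H52.AP

namespace Fnl

theorem log_two_ne : (Real.log 2 : ℂ) ≠ 0 := by
  exact_mod_cast (Real.log_pos (by norm_num : (1 : ℝ) < 2)).ne'

theorem log_two_C : Complex.log 2 = (Real.log 2 : ℂ) := by
  rw [show (2 : ℂ) = ((2 : ℝ) : ℂ) by norm_num, ← Complex.ofReal_log (by norm_num)]

theorem tau_re : τ.re = 0 := by
  unfold τ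
  rw [Complex.div_ofReal_re]
  simp

theorem re_add_tau_int (w : ℂ) (m : ℤ) : (w + τ * m).re = w.re := by
  have h := tau_re
  simp [Complex.add_re, Complex.mul_re, h]

theorem diffOn_eval {κ : Type} (P : MvPolynomial κ ℂ) {h : κ → ℂ → ℂ} {S : Set ℂ}
    (hh : ∀ i, DifferentiableOn ℂ (h i) S) :
    DifferentiableOn ℂ (fun u => MvPolynomial.eval (fun i => h i u) P) S := by
  induction P using MvPolynomial.induction_on with
  | C a => simp
  | add p q hp hq =>
    refine (hp.add hq).congr fun u _ => ?_
    simp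
  | mul_X p i hp =>
    refine (hp.mul (hh i)).congr fun u _ => ?_
    simp

/-- periodicity in both directions -/
theorem per_int {Y : ℝ} {R : ℂ → ℂ} {k : ℕ} (h : ∀ z : ℂ, Y < z.re → R (z + τ * k) = R z)
    (z : ℂ) (hz : Y < z.re) (m : ℤ) : R (z + τ * ((k : ℂ) * m)) = R z := by
  have hnat : ∀ (m : ℕ) (z : ℂ), Y < z.re → R (z + τ * ((k : ℂ) * m)) = R z := by
    intro m
    induction m with
    | zero => intro z _; simp
    | succ m ih =>
      intro z hz
      have h1 : z + τ * ((k : ℂ) * ((m + 1 : ℕ) : ℂ)) = (z + τ * ((k : ℂ) * m)) + τ * k := by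
        push_cast
        ring
      have h2 : (z + τ * ((k : ℂ) * m)).re = z.re := by
        have := re_add_tau_int z ((k : ℤ) * (m : ℤ))
        push_cast at this
        exact this
      rw [h1, h _ (by rw [h2]; exact hz), ih z hz]
  obtain ⟨m', hm | hm⟩ := m.eq_nat_or_neg
  · rw [hm]
    exact_mod_cast hnat m' z hz
  · have h2 : (z + τ * ((k : ℂ) * m)).re = z.re := by
      have := re_add_tau_int z ((k : ℤ) * m)
      push_cast at this
      exact this
    have h3 := hnat m' (z + τ * ((k : ℂ) * m)) (by rw [h2]; exact hz)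
    rw [← h3]
    congr 1
    rw [hm]
    push_cast
    ring

theorem eval_sum {r q : ℕ} (P : Fin r → ℂ) (S : Fin q → ℂ) (Q : MvPolynomial (Fin r ⊕ Fin q) ℂ) :
    MvPolynomial.eval P (MvPolynomial.map (MvPolynomial.eval S)
      (MvPolynomial.sumAlgEquiv ℂ (Fin r) (Fin q) Q)) = MvPolynomial.eval (Sum.elim P S) Q := by
  induction Q using MvPolynomial.induction_on with
  | C a => simp
  | add p q hp hq => simp only [map_add, hp, hq]
  | mul_X p i hp =>
    rw [map_mul, map_mul, map_mul, hp]
    rcases i with i | i <;> simp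

end Fnl

open Fnl in
theorem final (h : Dense) : Final := by
  intro X Λ J hT r q n hn hA k Y R hk hRd hR z₀ t₁ Q hinj hQ
  classical
  set N : ℕ := ∏ j, k j with hN
  have hN1 : 1 ≤ N := by
    rw [hN]
    exact Nat.one_le_iff_ne_zero.2 (Finset.prod_ne_zero_iff.2 fun j _ =>
      Nat.one_le_iff_ne_zero.1 (hk j))
  obtain ⟨Y2, hXY2, hY2⟩ := h X Λ J hT r n hn N hN1
  set Y1 : ℝ := max Y Y2 with hY1
  -- the function of `w`
  set F : ℂ → ℂ := fun w => MvPolynomial.eval
    (Sum.elim (fun i => J (w + τ * n i)) (fun j => R j w)) Q with hF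
  have hopen : IsOpen {z : ℂ | Y1 < z.re} := isOpen_lt continuous_const continuous_re
  have hFd : DifferentiableOn ℂ F {z : ℂ | Y1 < z.re} := by
    have h1 : ∀ i : Fin r ⊕ Fin q, DifferentiableOn ℂ
        ((Sum.elim (fun i w => J (w + τ * n i)) (fun j w => R j w) : Fin r ⊕ Fin q → ℂ → ℂ) i)
        {z : ℂ | Y1 < z.re} := by
      rintro (i | j)
      · show DifferentiableOn ℂ (fun w => J (w + τ * n i)) _
        refine hT.dJ.comp (by fun_prop) ?_
        intro w hw
        show X < (w + τ * n i).re
        rw [re_add_tau_int]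
        exact lt_of_le_of_lt (hXY2.trans (le_max_right _ _)) hw
      · refine (hRd j).mono fun w hw => ?_
        show Y < w.re
        exact lt_of_le_of_lt (le_max_left Y Y2) hw
    refine (diffOn_eval Q h1).congr fun w _ => ?_
    show MvPolynomial.eval _ Q = MvPolynomial.eval _ Q
    congr 2
    funext i
    rcases i with i | i <;> rfl
  have hFan : AnalyticOnNhd ℂ F {z : ℂ | Y1 < z.re} := hFd.analyticOnNhd hopen
  -- the moving point
  have hwre : ∀ t : ℝ, X < (z₀ + t).re → z₀.re + t - 1 / 4 ≤ (Λ (z₀ + t)).re := by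
    intro t ht
    have h4 := hT.Λ_close _ ht
    have h5 := (abs_le.1 ((abs_re_le_norm _).trans h4)).1
    simp only [sub_re, add_re, ofReal_re] at h5
    linarith
  set t2 : ℝ := max t₁ (Y1 + 3 - z₀.re) + 1 with ht2
  have ht21 : t₁ < t2 := by
    have := le_max_left t₁ (Y1 + 3 - z₀.re)
    linarith
  have ht22 : Y1 + 4 ≤ z₀.re + t2 := by
    have := le_max_right t₁ (Y1 + 3 - z₀.re)
    linarith
  have hXY1 : X ≤ Y1 := hXY2.trans (le_max_right _ _)
  have ht2X : X + 1 < (z₀ + t2).re := by
    simp only [add_re, ofReal_re]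
    linarith
  set w1 : ℂ := Λ (z₀ + t2) with hw1
  have hw1re : Y1 < w1.re := by
    have := hwre t2 (by linarith)
    rw [hw1]
    linarith
  -- `F` vanishes on the half plane
  have hF0 : ∀ w : ℂ, Y1 < w.re → F w = 0 := by
    have hpre : IsPreconnected {z : ℂ | Y1 < z.re} := (convex_halfSpace_re_gt Y1).isPreconnected
    have hfreq : ∃ᶠ w in 𝓝[≠] w1, F w = 0 := by
      have hXopen : IsOpen {z : ℂ | X < z.re} := isOpen_lt continuous_const continuous_re
      have hc : ContinuousAt (fun t : ℝ => Λ (z₀ + t)) t2 := by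
        have h5 : ContinuousAt Λ (z₀ + (t2 : ℂ)) :=
          (hT.dΛ.continuousOn.continuousAt (hXopen.mem_nhds (by
            show X < (z₀ + (t2 : ℂ)).re
            linarith)))
        exact ContinuousAt.comp (f := fun t : ℝ => z₀ + (t : ℂ)) (g := Λ) h5 (by fun_prop)
      have hX1open : IsOpen {t : ℝ | X + 1 < (z₀ + (t : ℂ)).re} := by
        refine isOpen_lt continuous_const ?_
        exact continuous_re.comp (by fun_prop)
      have hev : ∀ᶠ t : ℝ in 𝓝 t2, t₁ < t ∧ X + 1 < (z₀ + (t : ℂ)).re :=
        (lt_mem_nhds ht21).and (hX1open.mem_nhds ht2X)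
      have htend : Tendsto (fun t : ℝ => Λ (z₀ + t)) (𝓝[≠] t2) (𝓝[≠] w1) := by
        rw [tendsto_nhdsWithin_iff]
        refine ⟨hc.tendsto.mono_left nhdsWithin_le_nhds, ?_⟩
        filter_upwards [hev.filter_mono nhdsWithin_le_nhds, self_mem_nhdsWithin] with t ht htne
        intro heq
        apply htne
        have h6 := hT.JΛ _ ht.2
        have h7 := hT.JΛ _ ht2X
        have h8 : z₀ + (t : ℂ) = z₀ + (t2 : ℂ) := by
          rw [← h6, ← h7]
          exact congrArg J heq
        exact_mod_cast add_left_cancel h8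
      refine htend.frequently ?_
      refine Eventually.frequently ?_
      filter_upwards [hev.filter_mono nhdsWithin_le_nhds] with t ht
      exact hQ t ht.1.le
    intro w hw
    exact hFan.eqOn_zero_of_preconnected_of_frequently_eq_zero hpre hw1re hfreq hw
  -- the coefficients
  set Q' := MvPolynomial.sumAlgEquiv ℂ (Fin r) (Fin q) Q with hQ'
  have hH : ∀ w : ℂ, Y1 < w.re →
      MvPolynomial.map (MvPolynomial.eval (fun j => R j w)) Q' = 0 := by
    intro w hw
    refine hY2 w (lt_of_le_of_lt (le_max_right _ _) hw) _ fun l => ?_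
    have hre : (w + τ * ((N : ℂ) * l)).re = w.re := by
      have := re_add_tau_int w ((N : ℤ) * l)
      push_cast at this
      exact this
    have h1 := hF0 (w + τ * ((N : ℂ) * l)) (by rw [hre]; exact hw)
    rw [hF] at h1
    rw [hQ', eval_sum]
    have h2 : ∀ j, R j (w + τ * ((N : ℂ) * l)) = R j w := by
      intro j
      have hdvd : k j ∣ N := Finset.dvd_prod_of_mem _ (Finset.mem_univ j)
      obtain ⟨c, hc⟩ := hdvd
      have h3 := per_int (fun z hz => (hR j z hz).1) w
        (lt_of_le_of_lt (le_max_left _ _) hw) ((c : ℤ) * l)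
      rw [← h3]
      congr 1
      rw [hc]
      push_cast
      ring
    simp only [h2] at h1
    rw [← h1]
    congr 2
    funext i
    rcases i with i | i
    · simp only [Sum.elim_inl]
      congr 1
      ring
    · rfl
  have hQd : ∀ (d : Fin r →₀ ℕ) (w : ℂ), Y1 < w.re →
      MvPolynomial.eval (fun j => R j w) (MvPolynomial.coeff d Q') = 0 := by
    intro d w hw
    have h1 := congrArg (MvPolynomial.coeff d) (hH w hw)
    rwa [MvPolynomial.coeff_map, MvPolynomial.coeff_zero] at h1
  -- the system of branches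
  have hl := log_two_ne
  set b : ℂ := (2 : ℂ) ^ (-w1) with hb
  have hb0 : b ≠ 0 := by
    rw [hb, Ne, Complex.cpow_eq_zero_iff]
    push Not
    intro h0
    exact absurd h0 two_ne_zero
  set g : ℂ → ℂ := fun a => w1 - Complex.log ((a - 1) / b) / Real.log 2 with hg
  set a1 : ℂ := 1 + b with ha1
  have hq1 : (a1 - 1) / b = 1 := by
    rw [ha1, add_sub_cancel_left, div_self hb0]
  have hga1 : g a1 = w1 := by
    rw [hg]
    show w1 - Complex.log ((a1 - 1) / b) / Real.log 2 = w1
    rw [hq1]
    simp
  have hslit : ∀ᶠ a in 𝓝 a1, (a - 1) / b ∈ slitPlane := by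
    have hc : ContinuousAt (fun a : ℂ => (a - 1) / b) a1 := by fun_prop
    refine hc.eventually_mem (isOpen_slitPlane.mem_nhds ?_)
    rw [hq1]
    exact one_mem_slitPlane
  have hgc : ContinuousAt g a1 := by
    have hc : ContinuousAt (fun a : ℂ => Complex.log ((a - 1) / b)) a1 := by
      refine ContinuousAt.clog (by fun_prop) ?_
      rw [hq1]
      exact one_mem_slitPlane
    exact continuousAt_const.sub (hc.div_const _)
  have hgre : ∀ᶠ a in 𝓝 a1, Y1 < (g a).re := by
    refine hgc.eventually_mem (hopen.mem_nhds ?_)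
    rw [hga1]
    exact hw1re
  have hRc : ∀ j, ContinuousAt (fun a => R j (g a)) a1 := by
    intro j
    have hYopen : IsOpen {z : ℂ | Y < z.re} := isOpen_lt continuous_const continuous_re
    have h5 : ContinuousAt (R j) (g a1) := (hRd j).continuousOn.continuousAt (hYopen.mem_nhds (by
      rw [hga1]
      exact lt_of_le_of_lt (le_max_left _ _) hw1re))
    exact ContinuousAt.comp (f := g) (g := R j) h5 hgc
  have hginj : ∀ᶠ a in 𝓝 a1, ∀ i j, i ≠ j → R i (g a) ≠ R j (g a) := by
    rw [eventually_all]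
    intro i
    rw [eventually_all]
    intro j
    by_cases hij : i = j
    · exact Eventually.of_forall fun a h0 => absurd hij h0
    · have h6 : R i (g a1) ≠ R j (g a1) := by
        rw [hga1]
        intro h7
        exact hij (hinj t2 ht21.le h7)
      have h9 : ContinuousAt (fun a => R i (g a) - R j (g a)) a1 := (hRc i).sub (hRc j)
      have h10 : ∀ᶠ a in 𝓝 a1, R i (g a) - R j (g a) ≠ 0 := h9.eventually_ne (sub_ne_zero.2 h6)
      filter_upwards [h10] with a ha0 _
      have ha := sub_ne_zero.1 ha0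
      exact ha
  obtain ⟨U, hU, hUo, hUa⟩ := eventually_nhds_iff.1 (hslit.and (hgre.and hginj))
  have hbr : Branches U (fun j a => R j (g a)) := by
    refine ⟨?_, ?_, ?_, ?_⟩
    · intro j
      have hgd : DifferentiableOn ℂ g U := by
        intro a ha
        have h7 : DifferentiableAt ℂ (fun a : ℂ => Complex.log ((a - 1) / b)) a :=
          DifferentiableAt.clog (by fun_prop) (hU a ha).1
        exact ((differentiableAt_const _).sub (h7.div_const _)).differentiableWithinAt
      exact (hRd j).comp hgd fun a ha => lt_of_le_of_lt (le_max_left _ _) (hU a ha).2.1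
    · intro j a ha
      exact (hR j (g a) (lt_of_le_of_lt (le_max_left _ _) (hU a ha).2.1)).2.1
    · intro j a ha
      show riemannZeta (R j (g a)) = a
      rw [(hR j (g a) (lt_of_le_of_lt (le_max_left _ _) (hU a ha).2.1)).2.2]
      have hne : (a - 1) / b ≠ 0 := slitPlane_ne_zero (hU a ha).1
      have h8 : (2 : ℂ) ^ (-(g a)) = b * ((a - 1) / b) := by
        rw [hg]
        show (2 : ℂ) ^ (-(w1 - Complex.log ((a - 1) / b) / Real.log 2)) = _
        rw [show -(w1 - Complex.log ((a - 1) / b) / (Real.log 2 : ℂ)) =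
          -w1 + Complex.log ((a - 1) / b) / (Real.log 2 : ℂ) by ring,
          Complex.cpow_add _ _ (by norm_num : (2 : ℂ) ≠ 0), ← hb]
        congr 1
        rw [Complex.cpow_def_of_ne_zero (by norm_num), log_two_C, mul_div_cancel₀ _ hl,
          Complex.exp_log hne]
      rw [h8, mul_div_cancel₀ _ hb0]
      ring
    · intro a ha i j hij
      by_contra hne
      exact (hU a ha).2.2 i j hne hij
  have hQ'0 : Q' = 0 := by
    ext1 d
    rw [MvPolynomial.coeff_zero]
    refine hA U _ _ hUo ⟨a1, hUa⟩ hbr fun a ha => ?_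
    exact hQd d (g a) (hU a ha).2.1
  rw [hQ'] at hQ'0
  exact (map_eq_zero_iff _ (MvPolynomial.sumAlgEquiv ℂ (Fin r) (Fin q)).injective).1 hQ'0

end Pool.Agent.K4H52.AP
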