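import Pool.Agent.K4H52.AP.Spec2
import Pool.Agent.K4H52.AP.EndBranch

/-!
# P10C: the end of a lift of a horizontal half-line
-/

set_option autoImplicit false

open Complex Filter Topology Set

namespace Pool.Agent.K4H52.AP

theorem log_two_C : Complex.log 2 = (Real.log 2 : ℂ) := by
  rw [show (2 : ℂ) = ((2 : ℝ) : ℂ) by norm_num, ← Complex.ofReal_log (by norm_num)]

theorem log_two_ne : (Real.log 2 : ℂ) ≠ 0 := by
  exact_mod_cast (Real.log_pos (by norm_num : (1 : ℝ) < 2)).ne'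

theorem tau_ne : τ ≠ 0 := by
  unfold τ
  refine div_ne_zero ?_ log_two_ne
  exact mul_ne_zero (mul_ne_zero two_ne_zero (by exact_mod_cast Real.pi_ne_zero)) I_ne_zero

/-- two exponents of the same value differ by a multiple of `τ` -/
theorem two_cpow_eq {a b : ℂ} (h : (2 : ℂ) ^ (-a) = (2 : ℂ) ^ (-b)) : ∃ n : ℤ, a = b + τ * n := by
  rw [Complex.cpow_def_of_ne_zero (by norm_num), Complex.cpow_def_of_ne_zero (by norm_num),
    Complex.exp_eq_exp_iff_exists_int, log_two_C] at h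
  obtain ⟨n, hn⟩ := h
  refine ⟨-n, ?_⟩
  have hl := log_two_ne
  unfold τ
  push_cast
  field_simp
  linear_combination -hn

/-- a continuous function with values in a lattice line is constant -/
theorem const_of_lattice {D : Set ℝ} (hD : IsPreconnected D) {f : ℝ → ℂ} (hf : ContinuousOn f D)
    (h : ∀ t ∈ D, ∃ n : ℤ, f t = τ * n) {t₀ : ℝ} (h0 : t₀ ∈ D) :
    ∃ n : ℤ, ∀ t ∈ D, f t = τ * n := by
  choose! n hn using h
  have hτ := tau_ne
  have hc : ContinuousOn (fun t => ((n t : ℤ) : ℝ)) D := by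
    have h1 : ContinuousOn (fun t => (f t / τ).re) D :=
      continuous_re.comp_continuousOn (hf.div_const _)
    refine h1.congr fun t ht => ?_
    have : f t / τ = (n t : ℂ) := by
      rw [hn t ht, mul_div_cancel_left₀ _ hτ]
    show ((n t : ℤ) : ℝ) = (f t / τ).re
    rw [this]
    simp
  have hc' : ContinuousOn n D :=
    (Int.isClosedEmbedding_coe_real.isEmbedding.continuousOn_iff).2 hc
  refine ⟨n t₀, fun t ht => ?_⟩
  rw [hn t ht, hD.constant hc' ht h0]

theorem liftEnd (h1 : Conv) (h2 : AsymPath) (h3 : EndBranch) : LiftEnd := by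
  intro X Λ J hT z₀ ψ hψc hψa hψζ
  set T₀ : ℝ := max 0 (X + 1 - z₀.re) with hT₀
  have hre : ∀ t : ℝ, T₀ ≤ t → X < (z₀ + t).re := by
    intro t ht
    have : X + 1 - z₀.re ≤ t := (le_max_right _ _).trans ht
    simp only [add_re, ofReal_re]
    linarith
  have hT00 : 0 ≤ T₀ := le_max_left _ _
  -- the coordinate of the moving point
  have hwre : ∀ t : ℝ, T₀ ≤ t → z₀.re + t - 1 / 4 ≤ (Λ (z₀ + t)).re := by
    intro t ht
    have h4 := hT.Λ_close _ (hre t ht)
    have h5 := (abs_le.1 ((abs_re_le_norm _).trans h4)).1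
    simp only [sub_re, add_re, ofReal_re] at h5
    linarith
  have hwtop : Tendsto (fun t : ℝ => (Λ (z₀ + t)).re) atTop atTop := by
    have h4 : Tendsto (fun t : ℝ => z₀.re + t - 1 / 4) atTop atTop := by
      have := tendsto_atTop_add_const_left (atTop : Filter ℝ) (z₀.re - 1 / 4) tendsto_id
      refine this.congr fun t => ?_
      simp only [id]
      ring
    refine tendsto_atTop_mono' _ ?_ h4
    filter_upwards [eventually_ge_atTop T₀] with t ht using hwre t ht
  have hwc : ContinuousOn (fun t : ℝ => Λ (z₀ + t)) (Ici T₀) := by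
    refine hT.dΛ.continuousOn.comp ?_ fun t ht => hre t ht
    exact (continuous_const.add continuous_ofReal).continuousOn
  have hζ : ∀ t : ℝ, T₀ ≤ t → riemannZeta (ψ t) = 1 + (2 : ℂ) ^ (-Λ (z₀ + t)) := by
    intro t ht
    rw [(hψζ t (hT00.trans ht)).2, hT.Λ_eq _ (hre t ht)]
    ring
  have hlim : Tendsto (fun t => riemannZeta (ψ t)) atTop (𝓝 1) := by
    have h4 : Tendsto (fun t : ℝ => (2 : ℂ) ^ (-Λ (z₀ + t))) atTop (𝓝 0) := by
      rw [tendsto_zero_iff_norm_tendsto_zero]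
      have h5 : Tendsto (fun x : ℝ => (2 : ℝ) ^ (-x)) atTop (𝓝 0) := by
        have := tendsto_rpow_atBot_of_base_gt_one 2 (by norm_num : (1 : ℝ) < 2)
        exact this.comp tendsto_neg_atTop_atBot
      refine (h5.comp hwtop).congr fun t => ?_
      simp only [Function.comp]
      rw [norm_two_cpow, neg_re]
    have h6 : Tendsto (fun t : ℝ => 1 + (2 : ℂ) ^ (-Λ (z₀ + t))) atTop (𝓝 1) := by
      simpa using h4.const_add 1
    refine h6.congr' ?_
    filter_upwards [eventually_ge_atTop T₀] with t ht using (hζ t ht).symm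
  rcases h1 (Ici 0) atTop ψ 1 (tail_Ici 0) hψc (fun t ht => (hψζ t ht).1) hlim with h4 | h4
  · left
    have hP : PathInf (Ici 1) atTop ψ 1 :=
      ⟨tail_Ici 1, fun t ht => hψa t (zero_lt_one.trans_le ht), hlim, h4⟩
    have h5 := h2 _ _ _ _ hP
    obtain ⟨t₂, ht₂⟩ := eventually_atTop.1 (h5.eventually_gt_atTop (X + 1))
    set t₁ := max T₀ t₂ with ht₁
    have hsub : Ici t₁ ⊆ Ici T₀ := Ici_subset_Ici.2 (le_max_left _ _)
    have hψre : ∀ t : ℝ, t₁ ≤ t → X + 1 < (ψ t).re := fun t ht => ht₂ t ((le_max_right _ _).trans ht)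
    have hΛc : ContinuousOn (fun t : ℝ => Λ (ψ t)) (Ici t₁) := by
      refine hT.dΛ.continuousOn.comp ?_ fun t ht => ?_
      · exact hψc.mono (Ici_subset_Ici.2 (hT00.trans (le_max_left _ _)))
      · have := hψre t ht
        show X < (ψ t).re
        linarith
    have hn : ∀ t ∈ Ici t₁, ∃ n : ℤ, Λ (ψ t) - Λ (z₀ + t) = τ * n := by
      intro t ht
      have hX : X < (ψ t).re := by
        have := hψre t ht
        linarith
      have h6 : (2 : ℂ) ^ (-Λ (ψ t)) = (2 : ℂ) ^ (-Λ (z₀ + t)) := by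
        rw [hT.Λ_eq _ hX, hζ t (hsub ht)]
        ring
      obtain ⟨n, hn⟩ := two_cpow_eq h6
      exact ⟨n, by rw [hn]; ring⟩
    obtain ⟨n, hn⟩ := const_of_lattice isPreconnected_Ici (hΛc.sub (hwc.mono hsub)) hn self_mem_Ici
    refine ⟨n, t₁, fun t ht => ?_⟩
    have h7 : Λ (ψ t) - Λ (z₀ + t) = τ * n := hn t ht
    have h8 : Λ (z₀ + t) + τ * n = Λ (ψ t) := by
      rw [← h7]
      ring
    rw [h8]
    exact (hT.JΛ _ (hψre t ht)).symm
  · right
    obtain ⟨p, hp1, hp2, hp3⟩ := h4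
    obtain ⟨k, Y, t₁, R, hk, hR, hRz, hψR⟩ := h3 (fun t : ℝ => Λ (z₀ + t)) ψ p T₀ hp1 hp2 hwc
      (hψc.mono (Ici_subset_Ici.2 hT00)) hwtop hp3 hζ
    exact ⟨k, Y, t₁, R, hk, hR, hRz, hψR⟩

end Pool.Agent.K4H52.AP
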