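import Mathlib
import Pool.Agent.K4H52.AP.Spec

/-! # P5: the coordinate `Λ` with `ζ = 1 + 2 ^ (-Λ)` on a right half-plane, and its inverse -/

set_option autoImplicit false

open Complex Filter Topology Set

namespace Pool.Agent.K4H52.AP.TractProof

/-- `g z = 2 ^ z (ζ z - 1) - 1`. -/
noncomputable def g (z : ℂ) : ℂ := (2 : ℂ) ^ z * (riemannZeta z - 1) - 1

lemma g_eq {z : ℂ} (hz : 1 < z.re) :
    g z = (2 : ℂ) ^ z * ∑' n : ℕ, 1 / ((n + 3 : ℕ) : ℂ) ^ z := by
  have hs : Summable (fun n : ℕ => 1 / (n : ℂ) ^ z) := Complex.summable_one_div_nat_cpow.2 hz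
  have h1 := hs.sum_add_tsum_nat_add 3
  rw [← zeta_eq_tsum_one_div_nat_cpow hz] at h1
  have hz0 : z ≠ 0 := by
    rintro rfl
    norm_num at hz
  have h2 : ∑ i ∈ Finset.range 3, 1 / (i : ℂ) ^ z = 1 + 1 / (2 : ℂ) ^ z := by
    rw [Finset.sum_range_succ, Finset.sum_range_succ, Finset.sum_range_succ, Finset.sum_range_zero]
    simp [Complex.zero_cpow hz0]
  rw [h2] at h1
  unfold g
  rw [← h1]
  have h3 : (2 : ℂ) ^ z ≠ 0 := by
    rw [Ne, Complex.cpow_eq_zero_iff]
    simp
  field_simp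
  ring

lemma g_bound : ∃ C : ℝ, 0 ≤ C ∧ ∀ z : ℂ, 2 ≤ z.re → ‖g z‖ ≤ C * (2 / 3 : ℝ) ^ (z.re - 2) := by
  have hs : Summable (fun n : ℕ => (4 : ℝ) * (1 / ((n + 3 : ℕ) : ℝ) ^ 2)) := by
    refine Summable.mul_left 4 ?_
    exact (summable_nat_add_iff 3).2 (Real.summable_one_div_nat_pow.2 (by norm_num))
  refine ⟨∑' n : ℕ, (4 : ℝ) * (1 / ((n + 3 : ℕ) : ℝ) ^ 2), tsum_nonneg fun n => by positivity,
    fun z hz => ?_⟩
  rw [g_eq (by linarith), norm_mul, ← tsum_mul_right]
  have h2 : ‖(2 : ℂ) ^ z‖ = (2 : ℝ) ^ z.re := by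
    have := Complex.norm_cpow_eq_rpow_re_of_pos (x := 2) (by norm_num) z
    simpa using this
  have hterm : ∀ n : ℕ, ‖1 / ((n + 3 : ℕ) : ℂ) ^ z‖ = 1 / ((n + 3 : ℕ) : ℝ) ^ z.re := by
    intro n
    rw [norm_div, norm_one, Complex.norm_natCast_cpow_of_pos (by omega)]
  have hle : ∀ n : ℕ, (2 : ℝ) ^ z.re * (1 / ((n + 3 : ℕ) : ℝ) ^ z.re) ≤
      4 * (1 / ((n + 3 : ℕ) : ℝ) ^ 2) * (2 / 3 : ℝ) ^ (z.re - 2) := by
    intro n
    have hn : (0 : ℝ) < ((n + 3 : ℕ) : ℝ) := by positivity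
    have e1 : (2 : ℝ) ^ z.re * (1 / ((n + 3 : ℕ) : ℝ) ^ z.re) =
        (2 / ((n + 3 : ℕ) : ℝ)) ^ z.re := by
      rw [Real.div_rpow (by norm_num) hn.le]
      ring
    have e2 : (2 / ((n + 3 : ℕ) : ℝ)) ^ z.re =
        (2 / ((n + 3 : ℕ) : ℝ)) ^ (2 : ℝ) * (2 / ((n + 3 : ℕ) : ℝ)) ^ (z.re - 2) := by
      rw [← Real.rpow_add (by positivity)]
      congr 1
      ring
    rw [e1, e2]
    have e3 : (2 / ((n + 3 : ℕ) : ℝ)) ^ (2 : ℝ) = 4 * (1 / ((n + 3 : ℕ) : ℝ) ^ 2) := by
      rw [Real.rpow_two, div_pow]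
      ring
    rw [e3]
    refine mul_le_mul_of_nonneg_left ?_ (by positivity)
    refine Real.rpow_le_rpow (by positivity) ?_ (by linarith)
    rw [div_le_div_iff₀ hn (by norm_num)]
    push_cast
    have : (0 : ℝ) ≤ n := Nat.cast_nonneg n
    linarith
  have hsn : Summable (fun n : ℕ => ‖1 / ((n + 3 : ℕ) : ℂ) ^ z‖) := by
    have h0 : Summable (fun n : ℕ => 1 / (n : ℂ) ^ z) :=
      Complex.summable_one_div_nat_cpow.2 (by linarith)
    exact (summable_nat_add_iff 3).2 h0.norm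
  calc ‖(2 : ℂ) ^ z‖ * ‖∑' n : ℕ, 1 / ((n + 3 : ℕ) : ℂ) ^ z‖
      ≤ ‖(2 : ℂ) ^ z‖ * ∑' n : ℕ, ‖1 / ((n + 3 : ℕ) : ℂ) ^ z‖ :=
        mul_le_mul_of_nonneg_left (norm_tsum_le_tsum_norm hsn) (norm_nonneg _)
    _ = ∑' n : ℕ, (2 : ℝ) ^ z.re * (1 / ((n + 3 : ℕ) : ℝ) ^ z.re) := by
        rw [h2, ← tsum_mul_left]
        simp only [hterm]
    _ ≤ ∑' n : ℕ, 4 * (1 / ((n + 3 : ℕ) : ℝ) ^ 2) * (2 / 3 : ℝ) ^ (z.re - 2) := by
        refine Summable.tsum_le_tsum hle ?_ (hs.mul_right _)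
        simp only [hterm] at hsn
        exact hsn.mul_left _

lemma g_small (ε : ℝ) (hε : 0 < ε) : ∃ X : ℝ, ∀ z : ℂ, X < z.re → ‖g z‖ ≤ ε := by
  obtain ⟨C, hC, hb⟩ := g_bound
  have ht : Tendsto (fun x : ℝ => C * (2 / 3 : ℝ) ^ (x - 2)) atTop (𝓝 (C * 0)) := by
    refine Tendsto.const_mul C ?_
    refine (tendsto_rpow_atTop_of_base_lt_one (2 / 3) (by norm_num) (by norm_num)).comp ?_
    exact tendsto_atTop_add_const_right _ (-2) tendsto_id
  rw [mul_zero] at ht
  obtain ⟨X, hX⟩ := (eventually_atTop.1 (ht.eventually (ge_mem_nhds hε)))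
  refine ⟨max X 2, fun z hz => ?_⟩
  have h1 : X ≤ z.re := (le_max_left X 2).trans hz.le
  have h2 : 2 ≤ z.re := (le_max_right X 2).trans hz.le
  exact (hb z h2).trans (hX z.re h1)

lemma g_diff {z : ℂ} (hz : 1 < z.re) : DifferentiableAt ℂ g z := by
  unfold g
  have hz1 : z ≠ 1 := by
    rintro rfl
    norm_num at hz
  refine DifferentiableAt.sub_const (DifferentiableAt.mul ?_ ?_) 1
  · exact DifferentiableAt.const_cpow differentiableAt_id (Or.inl two_ne_zero)
  · exact (differentiableAt_riemannZeta hz1).sub_const 1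

/-- `h z = Λ z - z`. -/
noncomputable def h (z : ℂ) : ℂ := -(Complex.log (1 + g z) / Complex.log 2)

lemma log_two_ne : Complex.log 2 ≠ 0 := by
  have : Complex.log 2 = (Real.log 2 : ℂ) := by
    rw [Complex.ofReal_log (by norm_num)]
    norm_num
  rw [this]
  exact_mod_cast (Real.log_pos one_lt_two).ne'

lemma norm_log_two : ‖Complex.log 2‖ = Real.log 2 := by
  have : Complex.log 2 = (Real.log 2 : ℂ) := by
    rw [Complex.ofReal_log (by norm_num)]
    norm_num
  rw [this, Complex.norm_real, Real.norm_of_nonneg (Real.log_pos one_lt_two).le]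

lemma slit {w : ℂ} (hw : ‖w‖ ≤ 1 / 2) : 1 + w ∈ slitPlane := by
  rw [mem_slitPlane_iff]
  left
  have h1 := (abs_le.1 (Complex.abs_re_le_norm w)).1
  rw [add_re, one_re]
  linarith

lemma h_small (ε : ℝ) (hε : 0 < ε) : ∃ X : ℝ, ∀ z : ℂ, X < z.re → ‖h z‖ ≤ ε := by
  obtain ⟨X, hX⟩ := g_small (min (1 / 2) (ε * Real.log 2 / 2))
    (lt_min (by norm_num) (by have := Real.log_pos one_lt_two; positivity))
  refine ⟨X, fun z hz => ?_⟩
  have h1 := hX z hz
  have h2 : ‖g z‖ ≤ 1 / 2 := h1.trans (min_le_left _ _)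
  have h3 : ‖g z‖ ≤ ε * Real.log 2 / 2 := h1.trans (min_le_right _ _)
  have h4 := Complex.norm_log_one_add_half_le_self h2
  unfold h
  rw [norm_neg, norm_div, norm_log_two, div_le_iff₀ (Real.log_pos one_lt_two)]
  nlinarith [norm_nonneg (g z)]

lemma h_diff {z : ℂ} (hz : 1 < z.re) (hg : ‖g z‖ ≤ 1 / 2) : DifferentiableAt ℂ h z := by
  have h1 : DifferentiableAt ℂ (fun z => Complex.log (1 + g z)) z :=
    DifferentiableAt.clog ((g_diff hz).const_add 1) (slit hg)
  exact (h1.div_const _).neg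

lemma zeta_eq {z : ℂ} (hg : ‖g z‖ ≤ 1 / 2) :
    (2 : ℂ) ^ (-(z + h z)) = riemannZeta z - 1 := by
  have h1 : (1 + g z) ≠ 0 := slitPlane_ne_zero (slit hg)
  have h2 : (2 : ℂ) ^ (Complex.log (1 + g z) / Complex.log 2) = 1 + g z := by
    rw [Complex.cpow_def_of_ne_zero two_ne_zero, mul_div_cancel₀ _ log_two_ne, Complex.exp_log h1]
  have h3 : -(z + h z) = -z + Complex.log (1 + g z) / Complex.log 2 := by
    unfold h
    ring
  rw [h3, Complex.cpow_add _ _ two_ne_zero, h2, Complex.cpow_neg]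
  unfold g
  have h4 : (2 : ℂ) ^ z ≠ 0 := by
    rw [Ne, Complex.cpow_eq_zero_iff]
    simp
  field_simp
  ring

/-- Constants. -/
lemma exists_X : ∃ X : ℝ, 5 ≤ X ∧ (∀ z : ℂ, X < z.re → ‖g z‖ ≤ 1 / 2) ∧
    (∀ z : ℂ, X < z.re → ‖h z‖ ≤ 1 / 4) ∧
    ∀ z w : ℂ, X + 2 ≤ z.re → X + 2 ≤ w.re → ‖h z - h w‖ ≤ 1 / 4 * ‖z - w‖ := by
  obtain ⟨X1, hX1⟩ := g_small (1 / 2) (by norm_num)
  obtain ⟨X2, hX2⟩ := h_small (1 / 4) (by norm_num)
  refine ⟨max 5 (max X1 X2), le_max_left _ _, fun z hz => hX1 z ?_, fun z hz => hX2 z ?_, ?_⟩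
  · exact lt_of_le_of_lt ((le_max_left X1 X2).trans (le_max_right 5 _)) hz
  · exact lt_of_le_of_lt ((le_max_right X1 X2).trans (le_max_right 5 _)) hz
  set X := max 5 (max X1 X2) with hX
  have hX5 : (5 : ℝ) ≤ X := le_max_left _ _
  have hgX : ∀ z : ℂ, X < z.re → ‖g z‖ ≤ 1 / 2 := fun z hz => hX1 z
    (lt_of_le_of_lt ((le_max_left X1 X2).trans (le_max_right 5 _)) hz)
  have hhX : ∀ z : ℂ, X < z.re → ‖h z‖ ≤ 1 / 4 := fun z hz => hX2 z
    (lt_of_le_of_lt ((le_max_right X1 X2).trans (le_max_right 5 _)) hz)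
  have hdiff : ∀ z : ℂ, X < z.re → DifferentiableAt ℂ h z := fun z hz =>
    h_diff (by linarith) (hgX z hz)
  have hderiv : ∀ z : ℂ, X + 2 ≤ z.re → ‖deriv h z‖ ≤ 1 / 4 := by
    intro z hz
    have hball : ∀ w ∈ Metric.closedBall z 1, X < w.re := by
      intro w hw
      rw [Metric.mem_closedBall, dist_eq_norm] at hw
      have h1 := (abs_le.1 ((Complex.abs_re_le_norm (w - z)).trans hw)).1
      rw [sub_re] at h1
      linarith
    have hd : DiffContOnCl ℂ h (Metric.ball z 1) := by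
      refine DifferentiableOn.diffContOnCl ?_
      rw [closure_ball z one_ne_zero]
      exact fun w hw => (hdiff w (hball w hw)).differentiableWithinAt
    have := Complex.norm_deriv_le_of_forall_mem_sphere_norm_le (C := 1 / 4) one_pos hd
      (fun w hw => hhX w (hball w (Metric.sphere_subset_closedBall hw)))
    simpa using this
  intro z w hz hw
  have hconv : Convex ℝ {z : ℂ | X + 2 ≤ z.re} := by
    exact convex_halfSpace_re_ge (X + 2)
  exact Convex.norm_image_sub_le_of_norm_deriv_le (s := {z : ℂ | X + 2 ≤ z.re})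
    (fun x hx => hdiff x (by
      have : X + 2 ≤ x.re := hx
      linarith)) (fun x hx => hderiv x hx) hconv hw hz

/-- The fixed point. -/
lemma exists_J {X : ℝ} (hh : ∀ z : ℂ, X < z.re → ‖h z‖ ≤ 1 / 4)
    (hL : ∀ z w : ℂ, X + 2 ≤ z.re → X + 2 ≤ w.re → ‖h z - h w‖ ≤ 1 / 4 * ‖z - w‖)
    (w : ℂ) (hw : X + 3 < w.re) : ∃ z : ℂ, X + 2 ≤ z.re ∧ w - h z = z := by
  set s : Set ℂ := {z : ℂ | X + 2 ≤ z.re} with hs
  have hclosed : IsClosed s := isClosed_le continuous_const Complex.continuous_re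
  have hmaps : MapsTo (fun z => w - h z) s s := by
    intro z hz
    have h1 : X + 2 ≤ z.re := hz
    have h2 := hh z (by linarith)
    have h3 := (abs_le.1 ((Complex.abs_re_le_norm (h z)).trans h2)).2
    change X + 2 ≤ (w - h z).re
    rw [sub_re]
    linarith
  have hcontr : ContractingWith (1 / 4) (hmaps.restrict (fun z => w - h z) s s) := by
    refine ⟨?_, ?_⟩
    · rw [← NNReal.coe_lt_coe]
      push_cast
      norm_num
    · refine LipschitzWith.of_dist_le_mul fun a b => ?_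
      rw [Subtype.dist_eq, Subtype.dist_eq, dist_eq_norm, dist_eq_norm]
      have h1 := hL b a b.2 a.2
      have h2 : (hmaps.restrict (fun z => w - h z) s s a : ℂ) -
          (hmaps.restrict (fun z => w - h z) s s b : ℂ) = h b - h a := by
        change (w - h a) - (w - h b) = h b - h a
        ring
      rw [h2, norm_sub_rev (a : ℂ) (b : ℂ)]
      push_cast
      exact h1
  have hws : w ∈ s := by
    change X + 2 ≤ w.re
    linarith
  obtain ⟨y, hy, hfix, -, -⟩ := ContractingWith.exists_fixedPoint' hclosed.isComplete hmaps hcontr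
    hws (edist_ne_top _ _)
  exact ⟨y, hy, hfix⟩

end Pool.Agent.K4H52.AP.TractProof

namespace Pool.Agent.K4H52.AP

open TractProof in
/-- P5. -/
theorem tractExists : TractExists := by
  obtain ⟨X, h5, hg, hh, hL⟩ := exists_X
  have key := exists_J hh hL
  classical
  choose! J hJ1 hJ2 using key
  have hfix : ∀ w : ℂ, X + 3 < w.re → J w + h (J w) = w := fun w hw => by
    have := hJ2 w hw
    linear_combination -this
  have hclose : ∀ w : ℂ, X + 3 < w.re → J w - w = -h (J w) := fun w hw => by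
    have := hfix w hw
    linear_combination this
  have hlip : ∀ w w' : ℂ, X + 3 < w.re → X + 3 < w'.re →
      ‖J w - J w'‖ ≤ 2 * ‖w - w'‖ := by
    intro w w' hw hw'
    have h1 : J w - J w' = (w - w') - (h (J w) - h (J w')) := by
      linear_combination (hfix w hw) - (hfix w' hw')
    have h2 := hL _ _ (hJ1 w hw) (hJ1 w' hw')
    have h3 : ‖J w - J w'‖ ≤ ‖w - w'‖ + ‖h (J w) - h (J w')‖ := by
      rw [h1]
      exact norm_sub_le _ _
    nlinarith [norm_nonneg (J w - J w'), norm_nonneg (w - w')]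
  have hopen : IsOpen {z : ℂ | X + 3 < z.re} := isOpen_lt continuous_const Complex.continuous_re
  have hdh : ∀ z : ℂ, X < z.re → DifferentiableAt ℂ h z := fun z hz =>
    h_diff (by linarith) (hg z hz)
  have hderiv : ∀ z : ℂ, X + 2 < z.re → ‖deriv h z‖ ≤ 1 / 4 := by
    intro z hz
    have hopen2 : IsOpen {z : ℂ | X + 2 < z.re} :=
      isOpen_lt continuous_const Complex.continuous_re
    have hev : ∀ᶠ w in 𝓝 z, ‖h w - h z‖ ≤ 1 / 4 * ‖w - z‖ := by
      filter_upwards [hopen2.mem_nhds hz] with w hw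
      exact hL w z (le_of_lt hw) hz.le
    have := (hdh z (by linarith)).hasDerivAt.le_of_lip' (by norm_num) hev
    exact this
  have hJre : ∀ w : ℂ, X + 3 < w.re → X + 2 < (J w).re := by
    intro w hw
    have h1 := hclose w hw
    have h2 := hh (J w) (by have := hJ1 w hw; linarith)
    have h3 := (abs_le.1 ((Complex.abs_re_le_norm (h (J w))).trans h2)).2
    have h4 : (J w).re - w.re = -(h (J w)).re := by
      have := congrArg Complex.re h1
      simpa using this
    linarith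
  have hJdiff : ∀ w : ℂ, X + 3 < w.re → DifferentiableAt ℂ J w := by
    intro w hw
    have hcont : ContinuousAt J w := by
      rw [Metric.continuousAt_iff]
      intro ε hε
      obtain ⟨δ, hδ, hball⟩ := Metric.isOpen_iff.1 hopen w hw
      refine ⟨min δ (ε / 3), lt_min hδ (by linarith), fun x hx => ?_⟩
      have hx1 : X + 3 < x.re := hball (lt_of_lt_of_le hx (min_le_left _ _))
      have hx2 : dist x w < ε / 3 := lt_of_lt_of_le hx (min_le_right _ _)
      rw [dist_eq_norm] at hx2 ⊢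
      have := hlip x w hx1 hw
      linarith
    have hd : HasDerivAt (fun z => z + h z) (1 + deriv h (J w)) (J w) :=
      (hasDerivAt_id (J w)).add (hdh (J w) (by have := hJre w hw; linarith)).hasDerivAt
    have hne : 1 + deriv h (J w) ≠ 0 := by
      intro h0
      have h1 : deriv h (J w) = -1 := by linear_combination h0
      have h2 := hderiv (J w) (hJre w hw)
      rw [h1, norm_neg, norm_one] at h2
      norm_num at h2
    have hleft : ∀ᶠ y in 𝓝 w, (fun z => z + h z) (J y) = y := by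
      filter_upwards [hopen.mem_nhds hw] with y hy
      exact hfix y hy
    exact (hd.of_local_left_inverse hcont hne hleft).differentiableAt
  refine ⟨X + 3, fun z => z + h z, J, ?_⟩
  refine
    { five := by linarith
      dΛ := fun z hz => ?_
      dJ := fun w hw => (hJdiff w hw).differentiableWithinAt
      Λ_eq := fun z hz => zeta_eq (hg z (by linarith))
      Λ_close := fun z hz => ?_
      J_close := fun w hw => ?_
      ΛJ := fun w hw => hfix w (by linarith)
      JΛ := fun z hz => ?_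
      J_lim := fun ε hε => ?_ }
  · have hz' : X + 3 < z.re := hz
    exact (differentiableAt_id.add (hdh z (by linarith))).differentiableWithinAt
  · have : z + h z - z = h z := by ring
    rw [this]
    exact hh z (by linarith)
  · rw [hclose w hw, norm_neg]
    exact hh _ (by have := hJre w hw; linarith)
  · have hw : X + 3 < (z + h z).re := by
      have h2 := hh z (by linarith)
      have h3 := (abs_le.1 ((Complex.abs_re_le_norm (h z)).trans h2)).1
      rw [add_re]
      linarith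
    have h1 := hfix _ hw
    have h2 : J (z + h z) - z = -(h (J (z + h z)) - h z) := by linear_combination h1
    have h3 := hL _ _ (hJ1 _ hw) (show X + 2 ≤ z.re by linarith)
    have h4 : ‖J (z + h z) - z‖ ≤ 1 / 4 * ‖J (z + h z) - z‖ := by
      calc ‖J (z + h z) - z‖ = ‖h (J (z + h z)) - h z‖ := by rw [h2, norm_neg]
        _ ≤ _ := h3
    have h5 : ‖J (z + h z) - z‖ = 0 := by
      have := norm_nonneg (J (z + h z) - z)
      linarith
    exact sub_eq_zero.1 (norm_eq_zero.1 h5)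
  · obtain ⟨Y0, hY0⟩ := h_small ε hε
    refine ⟨max (X + 3) (Y0 + 1), fun w hw => ?_⟩
    have hw1 : X + 3 < w.re := lt_of_le_of_lt (le_max_left _ _) hw
    have hw2 : Y0 + 1 < w.re := lt_of_le_of_lt (le_max_right _ _) hw
    rw [hclose w hw1, norm_neg]
    apply hY0
    have h1 := hclose w hw1
    have h2 := hh (J w) (by have := hJ1 w hw1; linarith)
    have h3 := (abs_le.1 ((Complex.abs_re_le_norm (h (J w))).trans h2)).2
    have h4 : (J w).re - w.re = -(h (J w)).re := by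
      have := congrArg Complex.re h1
      simpa using this
    linarith

end Pool.Agent.K4H52.AP
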