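import Pool.Agent.K4H52.AP.Spec2
import Pool.Agent.K4H52.AP.EndBranch
import Pool.Agent.K4H52.AP.Tract

/-!
# P10B: lifts of horizontal half-lines
-/

set_option autoImplicit false

open Complex Filter Topology Set

namespace Pool.Agent.K4H52.AP

/-- zeta tends to one in the far right -/
theorem tendsto_zeta_one {ι : Type} {l : Filter ι} {ψ : ι → ℂ}
    (h : Tendsto (fun t => (ψ t).re) l atTop) :
    Tendsto (fun t => riemannZeta (ψ t)) l (𝓝 1) := by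
  obtain ⟨X, Λ, J, hT⟩ := tractExists
  have hx : ∀ᶠ t in l, X < (ψ t).re := h.eventually_gt_atTop X
  have hΛ : Tendsto (fun t => (Λ (ψ t)).re) l atTop := by
    have h1 : Tendsto (fun t => (ψ t).re - 1 / 4) l atTop :=
      tendsto_atTop_add_const_right l (-(1 / 4)) h
    refine tendsto_atTop_mono' _ ?_ h1
    filter_upwards [hx] with t ht
    have h5 := (abs_le.1 ((abs_re_le_norm _).trans (hT.Λ_close _ ht))).1
    simp only [sub_re] at h5
    linarith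
  have h4 : Tendsto (fun t => (2 : ℂ) ^ (-Λ (ψ t))) l (𝓝 0) := by
    rw [tendsto_zero_iff_norm_tendsto_zero]
    have h5 : Tendsto (fun x : ℝ => (2 : ℝ) ^ (-x)) atTop (𝓝 0) := by
      have := tendsto_rpow_atBot_of_base_gt_one 2 (by norm_num : (1 : ℝ) < 2)
      exact this.comp tendsto_neg_atTop_atBot
    refine (h5.comp hΛ).congr fun t => ?_
    simp only [Function.comp]
    rw [norm_two_cpow, neg_re]
  have h6 : Tendsto (fun t => 1 + (2 : ℂ) ^ (-Λ (ψ t))) l (𝓝 1) := by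
    simpa using h4.const_add 1
  refine h6.congr' ?_
  filter_upwards [hx] with t ht
  rw [hT.Λ_eq _ ht]
  ring

/-- `ψ` is a lift of `t ↦ z₀ + t` on `D`. -/
structure Lft (z₀ p : ℂ) (D : Set ℝ) (ψ : ℝ → ℂ) : Prop where
  cont : ContinuousOn ψ D
  zero : ψ 0 = p
  sol : ∀ t ∈ D, ψ t ≠ 1 ∧ riemannZeta (ψ t) = riemannZeta (z₀ + t)

section

variable {z₀ p : ℂ} (hb : ∀ t : ℝ, 0 ≤ t → z₀ + t ∉ Bad)

include hb

theorem ne_one_line {t : ℝ} (ht : 0 ≤ t) : z₀ + t ≠ 1 := fun h => hb t ht (Or.inl h)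

theorem reg_line {t : ℝ} (ht : 0 ≤ t) {s : ℂ} (h1 : s ≠ 1) (h2 : riemannZeta s = riemannZeta (z₀ + t)) :
    s ∈ Reg := ⟨h1, fun h0 => hb t ht (Or.inr (Or.inr ⟨s, h1, h0, h2⟩))⟩

theorem an_line {t : ℝ} (ht : 0 ≤ t) : AnalyticAt ℝ (fun t : ℝ => riemannZeta (z₀ + t)) t := by
  have h1 : AnalyticAt ℝ riemannZeta (z₀ + t) := (an_zeta (ne_one_line hb ht)).restrictScalars
  have h2 : AnalyticAt ℝ (fun t : ℝ => z₀ + (t : ℂ)) t :=
    analyticAt_const.add (Complex.ofRealCLM.analyticAt t)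
  exact AnalyticAt.fun_comp (g := riemannZeta) (f := fun t : ℝ => z₀ + (t : ℂ)) (x := t) h1 h2

/-- local solutions -/
theorem local_sol {t : ℝ} (ht : 0 ≤ t) {q : ℂ} (h1 : q ≠ 1)
    (h2 : riemannZeta q = riemannZeta (z₀ + t)) :
    ∃ G : ℝ → ℂ, AnalyticAt ℝ G t ∧ G t = q ∧
      (∀ᶠ u in 𝓝 t, G u ≠ 1 ∧ riemannZeta (G u) = riemannZeta (z₀ + u)) ∧
      ∀ ψ : ℝ → ℂ, ∀ l : Filter ℝ, l ≤ 𝓝 t → Tendsto ψ l (𝓝 q) →
        (∀ᶠ u in l, riemannZeta (ψ u) = riemannZeta (z₀ + u)) → ∀ᶠ u in l, ψ u = G u := by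
  have hreg := reg_line hb ht h1 h2
  obtain ⟨g, hg, hgq, hleft, hright⟩ := local_inverse hreg.1 hreg.2
  have hv := an_line hb ht
  rw [h2] at hg hgq hright
  have hG : AnalyticAt ℝ (fun u : ℝ => g (riemannZeta (z₀ + u))) t :=
    AnalyticAt.fun_comp (g := g) (f := fun u : ℝ => riemannZeta (z₀ + u)) (x := t)
      hg.restrictScalars hv
  refine ⟨_, hG, hgq, ?_, ?_⟩
  · have h3 : ∀ᶠ u : ℝ in 𝓝 t, g (riemannZeta (z₀ + u)) ≠ 1 :=
      hG.continuousAt.eventually_ne (by rw [hgq]; exact h1)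
    filter_upwards [h3, hv.continuousAt.tendsto.eventually hright] with u h4 h5
    exact ⟨h4, h5⟩
  · intro ψ l hl hψ hζ
    filter_upwards [hψ.eventually hleft, hζ] with u h4 h5
    rw [← h5, h4]

omit hb in
theorem Lft.mono {D D' : Set ℝ} {ψ : ℝ → ℂ} (h : Lft z₀ p D ψ) (hD : D' ⊆ D) : Lft z₀ p D' ψ :=
  ⟨h.cont.mono hD, h.zero, fun t ht => h.sol t (hD ht)⟩

/-- uniqueness of lifts -/
theorem Lft.uniq {T : ℝ} {ψ φ : ℝ → ℂ} (h : Lft z₀ p (Icc 0 T) ψ) (h' : Lft z₀ p (Icc 0 T) φ) :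
    ∀ t ∈ Icc 0 T, ψ t = φ t := by
  intro t ht
  refine AP.uniq (S := Icc 0 T) isPreconnected_Icc h.cont h'.cont ?_ ?_ ?_
    (t₀ := 0) ⟨le_rfl, ht.1.trans ht.2⟩ (by rw [h.zero, h'.zero]) t ht
  · exact fun u hu => reg_line hb hu.1 (h.sol u hu).1 (h.sol u hu).2
  · exact fun u hu => reg_line hb hu.1 (h'.sol u hu).1 (h'.sol u hu).2
  · exact fun u hu => by rw [(h.sol u hu).2, (h'.sol u hu).2]

/-- gluing -/
theorem glue {D : Set ℝ} (hD0 : ∀ t ∈ D, 0 ≤ t) (hDc : ∀ t ∈ D, ∀ u, 0 ≤ u → u ≤ t → u ∈ D)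
    (hDn : D.Nonempty) (hD : ∀ t ∈ D, ∃ u ∈ D, t < u)
    (h : ∀ t ∈ D, ∃ ψ, Lft z₀ p (Icc 0 t) ψ) : ∃ Ψ, Lft z₀ p D Ψ := by
  choose! F hF using h
  have key : ∀ t ∈ D, ∀ u ∈ Icc 0 t, F u u = F t u := by
    intro t ht u hu
    have huD : u ∈ D := hDc t ht u hu.1 hu.2
    exact Lft.uniq hb (hF u huD) ((hF t ht).mono (Icc_subset_Icc_right hu.2)) u ⟨hu.1, le_rfl⟩
  have h0 : (0 : ℝ) ∈ D := by
    obtain ⟨t, ht⟩ := hDn
    exact hDc t ht 0 le_rfl (hD0 t ht)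
  refine ⟨fun t => F t t, ?_, (hF 0 h0).zero, fun t ht => (hF t ht).sol t ⟨hD0 t ht, le_rfl⟩⟩
  intro t ht
  obtain ⟨u, hu, htu⟩ := hD t ht
  have h1 : ContinuousWithinAt (F u) (Icc 0 u) t := (hF u hu).cont t ⟨hD0 t ht, htu.le⟩
  have hmem : Icc 0 u ∈ 𝓝[D] t := by
    have h2 : Iio u ∈ 𝓝 t := Iio_mem_nhds htu
    filter_upwards [mem_nhdsWithin_of_mem_nhds h2, self_mem_nhdsWithin] with x hx1 hx2
    exact ⟨hD0 x hx2, le_of_lt hx1⟩
  have h3 : ContinuousWithinAt (F u) D t := by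
    refine Tendsto.mono_left h1 ?_
    rw [nhdsWithin_le_iff]
    exact hmem
  refine h3.congr_of_eventuallyEq ?_ (key u hu t ⟨hD0 t ht, htu.le⟩)
  filter_upwards [hmem] with x hx
  exact key u hu x hx

/-- lifts are analytic -/
theorem Lft.an {D : Set ℝ} {ψ : ℝ → ℂ} (h : Lft z₀ p D ψ) {t : ℝ} (ht : 0 ≤ t) (hD : D ∈ 𝓝 t) :
    AnalyticAt ℝ ψ t := by
  have htD : t ∈ D := mem_of_mem_nhds hD
  obtain ⟨G, hG, hGt, -, hG3⟩ := local_sol hb ht (h.sol t htD).1 (h.sol t htD).2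
  have h1 : Tendsto ψ (𝓝 t) (𝓝 (ψ t)) := h.cont.continuousAt hD
  have h2 := hG3 ψ (𝓝 t) le_rfl h1 (by
    filter_upwards [hD] with u hu using (h.sol u hu).2)
  exact hG.congr (h2.mono fun u hu => hu.symm)

/-- extension to the right -/
theorem extend_right {T : ℝ} (hT : 0 ≤ T) {ψ : ℝ → ℂ} (h : Lft z₀ p (Icc 0 T) ψ) :
    ∃ ε : ℝ, 0 < ε ∧ ∃ φ, Lft z₀ p (Icc 0 (T + ε)) φ := by
  have hTm : T ∈ Icc 0 T := ⟨hT, le_rfl⟩
  obtain ⟨G, hG, hGt, hG2, -⟩ := local_sol hb hT (h.sol T hTm).1 (h.sol T hTm).2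
  have hev : ∀ᶠ u in 𝓝 T, ContinuousAt G u ∧ G u ≠ 1 ∧
      riemannZeta (G u) = riemannZeta (z₀ + u) := by
    filter_upwards [hG.eventually_analyticAt, hG2] with u h1 h2
    exact ⟨h1.continuousAt, h2⟩
  obtain ⟨δ, hδ, hball⟩ := Metric.eventually_nhds_iff.1 hev
  refine ⟨δ / 2, by positivity, fun u => if u ≤ T then ψ u else G u, ?_, ?_, ?_⟩
  · have hun : Icc 0 (T + δ / 2) = Icc 0 T ∪ Icc T (T + δ / 2) :=
      (Icc_union_Icc_eq_Icc hT (by linarith)).symm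
    rw [hun]
    refine ContinuousOn.union_of_isClosed ?_ ?_ isClosed_Icc isClosed_Icc
    · refine h.cont.congr fun u hu => ?_
      show (if u ≤ T then ψ u else G u) = ψ u
      rw [if_pos hu.2]
    · have hc : ContinuousOn G (Icc T (T + δ / 2)) := by
        intro u hu
        refine (hball ?_).1.continuousWithinAt
        rw [Real.dist_eq, abs_of_nonneg (by linarith [hu.1])]
        linarith [hu.2]
      refine hc.congr fun u hu => ?_
      show (if u ≤ T then ψ u else G u) = G u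
      split_ifs with h5
      · have : u = T := le_antisymm h5 hu.1
        rw [this, hGt]
      · rfl
  · show (if (0 : ℝ) ≤ T then ψ 0 else G 0) = p
    rw [if_pos hT, h.zero]
  · intro u hu
    show (if u ≤ T then ψ u else G u) ≠ 1 ∧ riemannZeta (if u ≤ T then ψ u else G u) = _
    split_ifs with h5
    · exact h.sol u ⟨hu.1, h5⟩
    · rw [not_le] at h5
      refine (hball ?_).2
      rw [Real.dist_eq, abs_of_nonneg (by linarith)]
      linarith [hu.2]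

/-- the closed step -/
theorem close_left (h1 : Conv) (h2 : AsymPath) {T : ℝ} (hT : 0 < T)
    (h : ∀ t ∈ Ico 0 T, ∃ ψ, Lft z₀ p (Icc 0 t) ψ) : ∃ ψ, Lft z₀ p (Icc 0 T) ψ := by
  obtain ⟨Ψ, hΨ⟩ := glue hb (D := Ico 0 T) (fun t ht => ht.1)
    (fun t ht u hu hut => ⟨hu, hut.trans_lt ht.2⟩) ⟨0, le_rfl, hT⟩
    (fun t ht => ⟨(t + T) / 2, ⟨by linarith [ht.1, ht.2], by linarith [ht.2]⟩, by linarith [ht.2]⟩) h
  have hmem : Ico 0 T ∈ 𝓝[<] T := Ico_mem_nhdsLT hT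
  have hlim : Tendsto (fun t => riemannZeta (Ψ t)) (𝓝[<] T) (𝓝 (riemannZeta (z₀ + T))) := by
    have h3 : Tendsto (fun t : ℝ => riemannZeta (z₀ + t)) (𝓝[<] T) (𝓝 (riemannZeta (z₀ + T))) :=
      (an_line hb hT.le).continuousAt.tendsto.mono_left nhdsWithin_le_nhds
    refine h3.congr' ?_
    filter_upwards [hmem] with t ht using (hΨ.sol t ht).2.symm
  rcases h1 (Ico 0 T) (𝓝[<] T) Ψ _ (tail_Ico hT) hΨ.cont (fun t ht => (hΨ.sol t ht).1) hlim with
    h4 | ⟨q, hq1, hq2, hq3⟩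
  · exfalso
    have hP : PathInf (Ico (T / 2) T) (𝓝[<] T) Ψ (riemannZeta (z₀ + T)) := by
      refine ⟨tail_Ico (by linarith), fun t ht => ?_, hlim, h4⟩
      refine hΨ.an hb (by linarith [ht.1]) (Ico_mem_nhds (by linarith [ht.1]) ht.2)
    have h5 := tendsto_zeta_one (h2 _ _ _ _ hP)
    have h6 := tendsto_nhds_unique hlim h5
    exact hb T hT.le (Or.inr (Or.inl h6))
  · refine ⟨fun t => if t < T then Ψ t else q, ?_, ?_, ?_⟩
    · intro t ht
      by_cases htT : t < T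
      · have h5 : ContinuousWithinAt Ψ (Ico 0 T) t := hΨ.cont t ⟨ht.1, htT⟩
        have hmem' : Ico 0 T ∈ 𝓝[Icc 0 T] t := by
          filter_upwards [mem_nhdsWithin_of_mem_nhds (Iio_mem_nhds htT), self_mem_nhdsWithin]
            with x hx1 hx2
          exact ⟨hx2.1, hx1⟩
        have h6 : ContinuousWithinAt Ψ (Icc 0 T) t := by
          refine Tendsto.mono_left h5 ?_
          rw [nhdsWithin_le_iff]
          exact hmem'
        refine h6.congr_of_eventuallyEq ?_ (if_pos htT)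
        filter_upwards [hmem'] with x hx
        exact if_pos hx.2
      · have htT' : t = T := le_antisymm ht.2 (not_lt.1 htT)
        subst htT'
        show Tendsto (fun x => if x < t then Ψ x else q) (𝓝[Icc 0 t] t)
          (𝓝 (if t < t then Ψ t else q))
        rw [if_neg (lt_irrefl t)]
        have h7 : 𝓝[Icc 0 t] t ≤ 𝓝[<] t ⊔ pure t := by
          have : 𝓝[Icc 0 t] t ≤ 𝓝[Iic t] t := nhdsWithin_mono _ Icc_subset_Iic_self
          refine this.trans ?_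
          rw [← Iio_insert, nhdsWithin_insert, sup_comm]
        refine Tendsto.mono_left ?_ h7
        rw [tendsto_sup]
        constructor
        · refine hq3.congr' ?_
          filter_upwards [self_mem_nhdsWithin] with x hx
          exact (if_pos hx).symm
        · rw [tendsto_pure_left]
          intro s hs
          rw [if_neg (lt_irrefl _)]
          exact mem_of_mem_nhds hs
    · show (if (0 : ℝ) < T then Ψ 0 else q) = p
      rw [if_pos hT, hΨ.zero]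
    · intro t ht
      show (if t < T then Ψ t else q) ≠ 1 ∧ riemannZeta (if t < T then Ψ t else q) = _
      split_ifs with h5
      · exact hΨ.sol t ⟨ht.1, h5⟩
      · have : t = T := le_antisymm ht.2 (not_lt.1 h5)
        rw [this]
        exact ⟨hq1, hq2⟩

theorem exists_Icc (h1 : Conv) (h2 : AsymPath) (hp1 : p ≠ 1)
    (hp2 : riemannZeta p = riemannZeta z₀) (T : ℝ) (hT : 0 ≤ T) : ∃ ψ, Lft z₀ p (Icc 0 T) ψ := by
  by_contra hcon
  have h0 : ∃ ψ, Lft z₀ p (Icc 0 0) ψ := by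
    refine ⟨fun _ => p, continuousOn_const, rfl, fun t ht => ⟨hp1, ?_⟩⟩
    have : t = 0 := le_antisymm ht.2 ht.1
    rw [this, hp2]
    simp
  set A : Set ℝ := {t | t ∈ Icc 0 T ∧ ∃ ψ, Lft z₀ p (Icc 0 t) ψ} with hA
  have hA0 : (0 : ℝ) ∈ A := ⟨⟨le_rfl, hT⟩, h0⟩
  have hbdd : BddAbove A := ⟨T, fun t ht => ht.1.2⟩
  set S := sSup A with hS
  have hS0 : 0 ≤ S := le_csSup hbdd hA0
  have hST : S ≤ T := csSup_le ⟨0, hA0⟩ fun t ht => ht.1.2
  have hbelow : ∀ t ∈ Ico 0 S, ∃ ψ, Lft z₀ p (Icc 0 t) ψ := by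
    intro t ht
    obtain ⟨u, hu, htu⟩ := exists_lt_of_lt_csSup ⟨0, hA0⟩ ht.2
    obtain ⟨ψ, hψ⟩ := hu.2
    exact ⟨ψ, hψ.mono (Icc_subset_Icc_right htu.le)⟩
  have hSL : ∃ ψ, Lft z₀ p (Icc 0 S) ψ := by
    rcases hS0.eq_or_lt with h3 | h3
    · rw [← h3]; exact h0
    · exact close_left hb h1 h2 h3 hbelow
  obtain ⟨ψ, hψ⟩ := hSL
  obtain ⟨ε, hε, φ, hφ⟩ := extend_right hb hS0 hψ
  have hST' : S < T := lt_of_le_of_ne hST (fun h => hcon (by rw [← h]; exact ⟨ψ, hψ⟩))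
  have hmem : min (S + ε) T ∈ A := by
    refine ⟨⟨le_min (by linarith) hT, min_le_right _ _⟩, φ, hφ.mono ?_⟩
    exact Icc_subset_Icc_right (min_le_left _ _)
  have := le_csSup hbdd hmem
  rw [← hS] at this
  rcases min_choice (S + ε) T with h5 | h5
  · rw [h5] at this; linarith
  · rw [h5] at this; linarith

end

theorem liftExists (h1 : Conv) (h2 : AsymPath) : LiftExists := by
  intro z₀ p hb hp1 hp2
  obtain ⟨Ψ, hΨ⟩ := glue hb (p := p) (D := Ici 0) (fun t ht => ht) (fun t _ u hu _ => hu)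
    ⟨0, self_mem_Ici⟩ (fun t ht => ⟨t + 1, (mem_Ici.2 (by linarith [mem_Ici.1 ht])), by linarith⟩)
    (fun t ht => exists_Icc hb h1 h2 hp1 hp2 t ht)
  exact ⟨Ψ, hΨ.zero, hΨ.cont, fun t ht => hΨ.an hb ht.le (Ici_mem_nhds ht),
    fun t ht => hΨ.sol t ht⟩

end Pool.Agent.K4H52.AP
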