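import Pool.Agent.K4H52.AP.Spec2
import Pool.Agent.H448R2.GC.X2

/-!
# No path with convergent zeta goes up in a vertical strip
-/

set_option autoImplicit false

open Complex Filter Topology Set

namespace Pool.Agent.K4H52.AP

/-- zeta is bounded for `3 ≤ Re s` -/
theorem zeta_bound_three : ∃ B : ℝ, 1 ≤ B ∧ ∀ s : ℂ, 3 ≤ s.re → ‖riemannZeta s‖ ≤ B := by
  have hsum : Summable (fun n : ℕ => 1 / ((n : ℝ) + 1) ^ (3 : ℝ)) := by
    have h := (summable_nat_add_iff 1).2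
      (Real.summable_one_div_nat_rpow.2 (show (1 : ℝ) < 3 by norm_num))
    simpa using h
  refine ⟨max 1 (∑' n : ℕ, 1 / ((n : ℝ) + 1) ^ (3 : ℝ)), le_max_left _ _, fun s hs => ?_⟩
  rw [zeta_eq_tsum_one_div_nat_add_one_cpow (by linarith)]
  refine le_trans ?_ (le_max_right _ _)
  refine tsum_of_norm_bounded hsum.hasSum fun n => ?_
  have hn : (0 : ℝ) < (n : ℝ) + 1 := by positivity
  have hn1 : (1 : ℝ) ≤ (n : ℝ) + 1 := by
    have : (0 : ℝ) ≤ n := by positivity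
    linarith
  have h1 : ‖((n : ℂ) + 1) ^ s‖ = ((n : ℝ) + 1) ^ s.re := by
    have := Complex.norm_cpow_eq_rpow_re_of_pos hn s
    push_cast at this
    exact this
  rw [norm_div, norm_one, h1]
  exact one_div_le_one_div_of_le (Real.rpow_pos_of_pos hn _)
    (Real.rpow_le_rpow_of_exponent_le hn1 hs)

/-- the damping factor -/
noncomputable def fac (κ T : ℝ) (s : ℂ) : ℂ :=
  Complex.exp (-(Real.log 2 : ℝ) * Complex.cos (κ * (s - T * I)))

theorem fac_differentiable (κ T : ℝ) : Differentiable ℂ (fac κ T) := by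
  unfold fac
  fun_prop

theorem fac_norm (κ T : ℝ) (s : ℂ) : ‖fac κ T s‖ =
    Real.exp (-(Real.log 2 * (Real.cos (κ * s.re) * Real.cosh (κ * (s.im - T))))) := by
  unfold fac
  rw [Complex.norm_exp]
  congr 1
  have h1 : (κ : ℂ) * (s - T * I) = ((κ * s.re : ℝ) : ℂ) + ((κ * (s.im - T) : ℝ) : ℂ) * I := by
    apply Complex.ext <;> simp
  rw [h1, Complex.cos_add_mul_I, ← Complex.ofReal_cos, ← Complex.ofReal_cosh,
    ← Complex.ofReal_sin, ← Complex.ofReal_sinh]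
  have h2 : (-((Real.log 2 : ℝ) : ℂ) * (((Real.cos (κ * s.re) : ℝ) : ℂ) *
      ((Real.cosh (κ * (s.im - T)) : ℝ) : ℂ) - ((Real.sin (κ * s.re) : ℝ) : ℂ) *
      ((Real.sinh (κ * (s.im - T)) : ℝ) : ℂ) * I)) =
      ((-(Real.log 2 * (Real.cos (κ * s.re) * Real.cosh (κ * (s.im - T)))) : ℝ) : ℂ) +
      ((Real.log 2 * (Real.sin (κ * s.re) * Real.sinh (κ * (s.im - T))) : ℝ) : ℂ) * I := by
    push_cast
    ring
  rw [h2, Complex.add_re, Complex.ofReal_re, Complex.re_ofReal_mul, I_re, mul_zero, add_zero]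

theorem half_le_cos {x : ℝ} (h : |x| ≤ 1) : 1 / 2 ≤ Real.cos x := by
  have h1 := Real.one_sub_sq_div_two_le_cos (x := x)
  have h2 : x ^ 2 ≤ 1 := by
    rw [← sq_abs]
    exact pow_le_one₀ (abs_nonneg x) h
  linarith

theorem abs_le_two_cosh (u : ℝ) : |u| / 2 ≤ Real.cosh u := by
  rw [← Real.cosh_abs, Real.cosh_eq]
  have h1 := Real.add_one_le_exp |u|
  have h2 := Real.exp_pos (-|u|)
  have h3 := abs_nonneg u
  linarith

theorem fac_le {κ T : ℝ} (hκ : 0 ≤ κ) {s : ℂ} (h : |κ * s.re| ≤ 1) :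
    ‖fac κ T s‖ ≤ Real.exp (-(Real.log 2 / 4 * κ * |s.im - T|)) := by
  rw [fac_norm]
  apply Real.exp_le_exp.2
  have hlog : 0 < Real.log 2 := Real.log_pos (by norm_num)
  have h1 := half_le_cos h
  have h2 := abs_le_two_cosh (κ * (s.im - T))
  rw [abs_mul, abs_of_nonneg hκ] at h2
  have h3 : 0 ≤ κ * |s.im - T| / 2 := by positivity
  have h4 : 1 / 2 * (κ * |s.im - T| / 2) ≤
      Real.cos (κ * s.re) * Real.cosh (κ * (s.im - T)) :=
    mul_le_mul h1 h2 h3 (by linarith)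
  have h5 := mul_le_mul_of_nonneg_left h4 hlog.le
  linarith

theorem fac_le_one {κ T : ℝ} (hκ : 0 ≤ κ) {s : ℂ} (h : |κ * s.re| ≤ 1) :
    ‖fac κ T s‖ ≤ 1 := by
  refine (fac_le hκ h).trans ?_
  rw [← Real.exp_zero]
  apply Real.exp_le_exp.2
  have hlog : 0 < Real.log 2 := Real.log_pos (by norm_num)
  have : 0 ≤ Real.log 2 / 4 * κ * |s.im - T| := by positivity
  linarith

theorem fac_ge {κ T : ℝ} {s : ℂ} (h : s.im = T) : 1 / 2 ≤ ‖fac κ T s‖ := by
  rw [fac_norm, h, sub_self, mul_zero, Real.cosh_zero, mul_one]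
  have hlog : 0 < Real.log 2 := Real.log_pos (by norm_num)
  have h1 : Real.exp (-Real.log 2) = 1 / 2 := by
    rw [Real.exp_neg, Real.exp_log (by norm_num)]
    norm_num
  rw [← h1]
  apply Real.exp_le_exp.2
  have := mul_le_mul_of_nonneg_left (Real.cos_le_one (κ * s.re)) hlog.le
  linarith

/-- the discs which avoid the pole -/
theorem mem_big_ball {A H : ℝ} {s : ℂ} (h1 : |s.re| ≤ A) (h2 : 1 ≤ s.im) (h3 : s.im ≤ H) :
    s ∈ Metric.ball (((A ^ 2 + H ^ 2 + 1 : ℝ) : ℂ) * I) (A ^ 2 + H ^ 2 + 1 - 1 / 2) := by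
  rw [Metric.mem_ball, Complex.dist_eq_re_im]
  have hre : (((A ^ 2 + H ^ 2 + 1 : ℝ) : ℂ) * I).re = 0 := by
    rw [Complex.re_ofReal_mul, I_re, mul_zero]
  have him : (((A ^ 2 + H ^ 2 + 1 : ℝ) : ℂ) * I).im = A ^ 2 + H ^ 2 + 1 := by
    rw [Complex.im_ofReal_mul, I_im, mul_one]
  rw [hre, him]
  have hpos : 0 < A ^ 2 + H ^ 2 + 1 - 1 / 2 := by nlinarith [sq_nonneg A, sq_nonneg H]
  rw [Real.sqrt_lt' hpos]
  have hx : s.re ^ 2 ≤ A ^ 2 := by
    rw [← sq_abs]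
    exact pow_le_pow_left₀ (abs_nonneg _) h1 2
  have hy : s.im ^ 2 ≤ H ^ 2 := pow_le_pow_left₀ (by linarith) h3 2
  nlinarith [sq_nonneg A, sq_nonneg H]

theorem one_notMem_big_ball {A H : ℝ} :
    (1 : ℂ) ∉ Metric.ball (((A ^ 2 + H ^ 2 + 1 : ℝ) : ℂ) * I) (A ^ 2 + H ^ 2 + 1 - 1 / 2) := by
  rw [Metric.mem_ball, Complex.dist_eq_re_im]
  have hre : (((A ^ 2 + H ^ 2 + 1 : ℝ) : ℂ) * I).re = 0 := by
    rw [Complex.re_ofReal_mul, I_re, mul_zero]
  have him : (((A ^ 2 + H ^ 2 + 1 : ℝ) : ℂ) * I).im = A ^ 2 + H ^ 2 + 1 := by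
    rw [Complex.im_ofReal_mul, I_im, mul_one]
  rw [hre, him, not_lt]
  apply Real.le_sqrt_of_sq_le
  simp only [one_re, one_im]
  nlinarith [sq_nonneg A, sq_nonneg H]

theorem bottom_small (C b h₁ S : ℝ) (hb : 0 < b) (hS : 0 < S) :
    ∀ᶠ T in atTop, C * Real.exp (-(b * (T - h₁))) ≤ S := by
  have h1 : Tendsto (fun T : ℝ => C * Real.exp (-(b * (T - h₁)))) atTop (𝓝 (C * 0)) := by
    refine Tendsto.const_mul _ ?_
    refine Real.tendsto_exp_neg_atTop_nhds_zero.comp ?_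
    exact (tendsto_atTop_add_const_right _ (-h₁) tendsto_id).const_mul_atTop hb
  rw [mul_zero] at h1
  exact (h1.eventually_lt_const hS).mono fun T hT => hT.le

theorem top_small (C B b T S : ℝ) (hb : 0 < b) (hS : 0 < S) :
    ∀ᶠ h in atTop, C * (1 + h) ^ B * Real.exp (-(b * (h - T))) ≤ S := by
  have h0 := tendsto_rpow_mul_exp_neg_mul_atTop_nhds_zero B b hb
  have h1 : Tendsto (fun h : ℝ => (1 + h) ^ B * Real.exp (-b * (1 + h))) atTop (𝓝 0) :=
    h0.comp (tendsto_atTop_add_const_left _ 1 tendsto_id)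
  have h2 : Tendsto (fun h : ℝ => (C * Real.exp (b * (1 + T))) *
      ((1 + h) ^ B * Real.exp (-b * (1 + h)))) atTop (𝓝 ((C * Real.exp (b * (1 + T))) * 0)) :=
    h1.const_mul _
  rw [mul_zero] at h2
  refine (h2.eventually_lt_const hS).mono fun h hh => ?_
  refine le_of_eq_of_le ?_ hh.le
  have e : Real.exp (-(b * (h - T))) = Real.exp (b * (1 + T)) * Real.exp (-b * (1 + h)) := by
    rw [← Real.exp_add]
    congr 1
    ring
  rw [e]
  ring

theorem zeta_growth (A : ℝ) : ∃ C B : ℝ, 0 < C ∧ 0 < B ∧ ∀ s : ℂ, -A ≤ s.re → 1 ≤ s.im →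
    ‖riemannZeta s‖ ≤ C * (1 + s.im) ^ B := by
  obtain ⟨C, B, hC, hB, hgr⟩ := Pool.Agent.H448R2.GC.X2.growth_far A
  obtain ⟨B3, hB31, hB3⟩ := zeta_bound_three
  refine ⟨C + B3, B, by linarith, hB, fun s h1 h2 => ?_⟩
  have habs : |s.im| = s.im := abs_of_pos (by linarith)
  have hp : 1 ≤ (1 + s.im) ^ B := Real.one_le_rpow (by linarith) hB.le
  rcases le_total s.re 3 with h3 | h3
  · have := hgr s h1 h3 (by rw [habs]; exact h2)
    rw [habs] at this
    refine this.trans ?_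
    nlinarith
  · refine (hB3 s h3).trans ?_
    nlinarith

theorem noStrip (h1 : Peaks) (h2 : PathBound) (h3 : Stuck) : NoStrip := by
  intro D l ψ a K hP hstrip hIm
  have hne : l.NeBot := hP.tail.neBot
  obtain ⟨B3, hB31, hB3⟩ := zeta_bound_three
  set A : ℝ := max K 5 with hA
  have hA5 : 5 ≤ A := le_max_right _ _
  have hAK : K ≤ A := le_max_left _ _
  have hA0 : 0 < A := by linarith
  set κ : ℝ := 1 / A with hκ
  have hκ0 : 0 < κ := by positivity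
  have hκA : ∀ x : ℝ, |x| ≤ A → |κ * x| ≤ 1 := by
    intro x hx
    rw [abs_mul, abs_of_pos hκ0, hκ, one_div, inv_mul_le_iff₀ hA0, mul_one]
    exact hx
  obtain ⟨C, B, hC, hB, hgr⟩ := zeta_growth A
  set S : ℝ := max (‖a‖ + 1) B3 with hS
  have hSa : ‖a‖ + 1 ≤ S := le_max_left _ _
  have hSB : B3 ≤ S := le_max_right _ _
  have hS1 : 1 ≤ S := hB31.trans hSB
  have hS0 : 0 < S := by linarith
  obtain ⟨σ₀, c, hσ1, hσ4, hc, hpeak⟩ := h1 (2 * S)
  have hbd : ∀ᶠ t in l, ‖riemannZeta (ψ t)‖ ≤ ‖a‖ + 1 :=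
    (hP.lim.norm.eventually_lt_const (show ‖a‖ < ‖a‖ + 1 by linarith)).mono fun t ht => ht.le
  have hst := h3 D l ψ a hP σ₀ c hσ1 hc
  have him2 := hIm.eventually_ge_atTop 2
  obtain ⟨t₂, ht₂D, ht₂⟩ := hP.tail.basis.eventually_iff.1
    (hstrip.and (hbd.and (hst.and him2)))
  have hev : ∀ᶠ t in l, t ∈ D ∧ t₂ ≤ t := hP.tail.basis.mem_of_mem ht₂D
  obtain ⟨hs2, hb2, hn2, hi2⟩ := ht₂ (show t₂ ∈ {t | t ∈ D ∧ t₂ ≤ t} from ⟨ht₂D, le_rfl⟩)
  set h₁ : ℝ := (ψ t₂).im with hh₁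
  set b : ℝ := Real.log 2 / 4 * κ with hb
  have hlog : 0 < Real.log 2 := Real.log_pos (by norm_num)
  have hb0 : 0 < b := by positivity
  -- the height of the peak
  obtain ⟨T₀, hT₀⟩ := eventually_atTop.1 (bottom_small (C * (1 + h₁) ^ B) b h₁ S hb0 hS0)
  obtain ⟨T, hTT, hTbig, hTder⟩ := hpeak (max T₀ (h₁ + 1))
  have hT1 : h₁ + 1 ≤ T := (le_max_right _ _).trans hTT
  have hTbot := hT₀ T ((le_max_left _ _).trans hTT)
  -- the upper end of the path
  have hev2 : ∀ᶠ t in l, C * (1 + (ψ t).im) ^ B * Real.exp (-(b * ((ψ t).im - T))) ≤ S ∧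
      T < (ψ t).im :=
    hIm.eventually ((top_small C B b T S hb0 hS0).and (eventually_gt_atTop T))
  obtain ⟨t₃, ⟨ht₃D, ht₂₃⟩, htop, hT3⟩ := (hev.and hev2).exists
  have hIcc : ∀ t ∈ Icc t₂ t₃, t ∈ D := fun t ht => hP.tail.conn.out ht₂D ht₃D ht
  have htail : ∀ t ∈ Icc t₂ t₃, (-K < (ψ t).re ∧ (ψ t).re < 4) ∧
      ‖riemannZeta (ψ t)‖ ≤ ‖a‖ + 1 ∧
      (¬(σ₀ ≤ (ψ t).re ∧ c ≤ ‖deriv riemannZeta (ψ t)‖)) ∧ 2 ≤ (ψ t).im :=
    fun t ht => ht₂ (show t ∈ {t | t ∈ D ∧ t₂ ≤ t} from ⟨hIcc t ht, ht.1⟩)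
  have hcont : ContinuousOn (fun t => (ψ t).im) (Icc t₂ t₃) := fun t ht =>
    (Complex.continuous_im.continuousAt.comp (hP.an t (hIcc t ht)).continuousAt).continuousWithinAt
  obtain ⟨H, hH⟩ := isCompact_Icc.bddAbove_image hcont
  have hH' : ∀ t ∈ Icc t₂ t₃, (ψ t).im ≤ H := fun t ht => hH ⟨t, ht, rfl⟩
  have hH3 : (ψ t₃).im ≤ H := hH' t₃ (right_mem_Icc.2 ht₂₃)
  have hH2 : (ψ t₂).im ≤ H := hH' t₂ (left_mem_Icc.2 ht₂₃)
  -- the function
  set G : ℂ → ℂ := fun s => riemannZeta s * fac κ T s with hG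
  have hGle : ∀ s : ℂ, |s.re| ≤ A → ‖G s‖ ≤ ‖riemannZeta s‖ := by
    intro s hs
    rw [hG]
    simp only [norm_mul]
    exact mul_le_of_le_one_right (norm_nonneg _) (fac_le_one hκ0.le (hκA _ hs))
  have hGle2 : ∀ s : ℂ, |s.re| ≤ A → 1 ≤ s.im →
      ‖G s‖ ≤ C * (1 + s.im) ^ B * Real.exp (-(b * |s.im - T|)) := by
    intro s hs hi
    rw [hG]
    simp only [norm_mul]
    exact mul_le_mul (hgr s (neg_le_of_abs_le hs) hi) (fac_le hκ0.le (hκA _ hs))
      (norm_nonneg _) (by positivity)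
  have habs : ∀ x : ℝ, -K < x → x ≤ 5 → |x| ≤ A := by
    intro x hx1 hx2
    rw [abs_le]
    constructor <;> linarith
  have hmain : ‖G ((σ₀ : ℂ) + (T : ℂ) * I)‖ ≤ S := by
    refine h2 G (((A ^ 2 + H ^ 2 + 1 : ℝ) : ℂ) * I) (A ^ 2 + H ^ 2 + 1 - 1 / 2) S 5 ψ t₂ t₃
      ((σ₀ : ℂ) + (T : ℂ) * I) ?_ ht₂₃ (fun t ht => hP.an t (hIcc t ht)) ?_ ?_ ?_ ?_ ?_ ?_ ?_ ?_ ?_
    · intro s hs
      have hs1 : s ≠ 1 := by
        rintro rfl
        exact one_notMem_big_ball hs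
      exact ((differentiableAt_riemannZeta hs1).mul
        (fac_differentiable κ T s)).differentiableWithinAt
    · intro t ht
      obtain ⟨⟨hr1, hr2⟩, hz, hn, hi⟩ := htail t ht
      have hrA : |(ψ t).re| ≤ A := habs _ hr1 (by linarith)
      exact ⟨mem_big_ball hrA (by linarith) (hH' t ht), by linarith,
        (hGle _ hrA).trans (hz.trans hSa)⟩
    · refine mem_big_ball ?_ ?_ ?_
      · simp only [add_re, ofReal_re, re_ofReal_mul, I_re, mul_zero, add_zero]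
        rw [abs_of_pos (by linarith)]
        linarith
      · simp only [add_im, ofReal_im, im_ofReal_mul, I_im, mul_one, zero_add]
        linarith
      · simp only [add_im, ofReal_im, im_ofReal_mul, I_im, mul_one, zero_add]
        linarith
    · simp only [add_re, ofReal_re, re_ofReal_mul, I_re, mul_zero, add_zero]
      linarith
    · simp only [add_im, ofReal_im, im_ofReal_mul, I_im, mul_one, zero_add]
      linarith
    · simp only [add_im, ofReal_im, im_ofReal_mul, I_im, mul_one, zero_add]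
      exact hT3
    · intro t ht hi
      simp only [add_im, ofReal_im, im_ofReal_mul, I_im, mul_one, zero_add] at hi
      simp only [add_re, ofReal_re, re_ofReal_mul, I_re, mul_zero, add_zero]
      by_contra hcon
      push Not at hcon
      obtain ⟨⟨hr1, hr2⟩, hz, hn, -⟩ := htail t ht
      apply hn
      refine ⟨hcon, ?_⟩
      have := hTder (ψ t).re hcon (by linarith)
      rwa [← hi, re_add_im] at this
    · intro x hx
      have hxA : |x| ≤ A := habs x (by linarith [hx.1, hs2.1]) hx.2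
      have e1 : ((x : ℂ) + ((ψ t₂).im : ℂ) * I).re = x := by simp
      have e2 : ((x : ℂ) + ((ψ t₂).im : ℂ) * I).im = (ψ t₂).im := by simp
      refine ⟨mem_big_ball (by rw [e1]; exact hxA) (by rw [e2]; linarith) (by rw [e2]; exact hH2),
        ?_⟩
      refine (hGle2 _ (by rw [e1]; exact hxA) (by rw [e2]; linarith)).trans ?_
      rw [e2, ← hh₁, abs_of_nonpos (by linarith)]
      refine le_trans (le_of_eq ?_) hTbot
      congr 3
      ring
    · intro x hx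
      obtain ⟨⟨hr1, hr2⟩, hz, hn, hi⟩ := htail t₃ (right_mem_Icc.2 ht₂₃)
      have hxA : |x| ≤ A := habs x (by linarith [hx.1]) hx.2
      have e1 : ((x : ℂ) + ((ψ t₃).im : ℂ) * I).re = x := by simp
      have e2 : ((x : ℂ) + ((ψ t₃).im : ℂ) * I).im = (ψ t₃).im := by simp
      refine ⟨mem_big_ball (by rw [e1]; exact hxA) (by rw [e2]; linarith) (by rw [e2]; exact hH3),
        ?_⟩
      refine (hGle2 _ (by rw [e1]; exact hxA) (by rw [e2]; linarith)).trans ?_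
      rw [e2, abs_of_nonneg (by linarith)]
      exact htop
    · intro y hy
      have e1 : (((5 : ℝ) : ℂ) + (y : ℂ) * I).re = 5 := by simp
      have e2 : (((5 : ℝ) : ℂ) + (y : ℂ) * I).im = y := by simp
      have h5A : |(5 : ℝ)| ≤ A := by
        rw [abs_of_pos (by norm_num)]
        exact hA5
      refine ⟨mem_big_ball (by rw [e1]; exact h5A) (by rw [e2]; linarith [hy.1])
        (by rw [e2]; linarith [hy.2]), ?_⟩
      refine (hGle _ (by rw [e1]; exact h5A)).trans ((hB3 _ ?_).trans hSB)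
      rw [e1]
      norm_num
  have hlow : ‖riemannZeta ((σ₀ : ℂ) + (T : ℂ) * I)‖ / 2 ≤ ‖G ((σ₀ : ℂ) + (T : ℂ) * I)‖ := by
    rw [hG]
    simp only [norm_mul]
    have := fac_ge (κ := κ) (T := T) (s := (σ₀ : ℂ) + (T : ℂ) * I) (by simp)
    nlinarith [norm_nonneg (riemannZeta ((σ₀ : ℂ) + (T : ℂ) * I))]
  linarith

end Pool.Agent.K4H52.AP
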