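import Pool.Agent.K4H52.AP.Spec

/-!
# The maximum principle to the right of a path
-/

set_option autoImplicit false

open Complex Filter Topology Set

namespace Pool.Agent.K4H52.AP

/-- One piece of the closed curve. -/
theorem pathBound_piece (G : ℂ → ℂ) (c z₀ : ℂ) (ρ S : ℝ) (γ γ' : ℝ → ℂ) (L : ℂ → ℂ) (a b : ℝ)
    (hS : 0 ≤ S) (hab : a ≤ b) (hγ : ∀ t ∈ Icc a b, HasDerivAt γ (γ' t) t)
    (hγ' : ContinuousOn γ' (Icc a b)) (hne : ∀ t ∈ Icc a b, γ t ≠ z₀)
    (hball : ∀ t ∈ Icc a b, γ t ∈ Metric.ball c ρ ∧ ‖G (γ t)‖ ≤ S)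
    (hL : ∀ t ∈ Icc a b, HasDerivAt L (1 / (γ t - z₀)) (γ t)) :
    ∃ C : ℝ, ∀ (N : ℕ) (K : ℂ → ℂ),
      (∀ z ∈ Metric.ball c ρ, HasDerivAt K (dslope (fun z => G z ^ N) z₀ z) z) →
      ‖K (γ b) - K (γ a) + G z₀ ^ N * (L (γ b) - L (γ a))‖ ≤ S ^ N * C := by
  have hcont : ContinuousOn (fun t => ‖γ' t / (γ t - z₀)‖) (Icc a b) := by
    refine (ContinuousOn.div hγ' ?_ ?_).norm
    · exact ContinuousOn.sub (fun t ht => (hγ t ht).continuousAt.continuousWithinAt)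
        continuousOn_const
    · intro t ht
      exact sub_ne_zero.2 (hne t ht)
  obtain ⟨C, hC⟩ := (isCompact_Icc.bddAbove_image hcont)
  have hC' : ∀ t ∈ Icc a b, ‖γ' t / (γ t - z₀)‖ ≤ C := fun t ht => hC ⟨t, ht, rfl⟩
  refine ⟨C * (b - a), fun N K hK => ?_⟩
  have hder : ∀ t ∈ Icc a b, HasDerivWithinAt (fun t => K (γ t) + G z₀ ^ N * L (γ t))
      (G (γ t) ^ N * (γ' t / (γ t - z₀))) (Icc a b) t := by
    intro t ht
    have h1 : HasDerivAt (fun t => K (γ t)) (γ' t * dslope (fun z => G z ^ N) z₀ (γ t)) t := by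
      have := (hK (γ t) (hball t ht).1).scomp t (hγ t ht)
      simpa [Function.comp_def, smul_eq_mul] using this
    have h2 : HasDerivAt (fun t => L (γ t)) (γ' t * (1 / (γ t - z₀))) t := by
      have := (hL t ht).scomp t (hγ t ht)
      simpa [Function.comp_def, smul_eq_mul] using this
    have h3 := (h1.add (h2.const_mul (G z₀ ^ N))).hasDerivWithinAt (s := Icc a b)
    refine h3.congr_deriv ?_
    have hne' : γ t - z₀ ≠ 0 := sub_ne_zero.2 (hne t ht)
    rw [dslope_of_ne _ (hne t ht), slope_def_field]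
    field_simp
    ring
  have hbound : ∀ t ∈ Ico a b, ‖G (γ t) ^ N * (γ' t / (γ t - z₀))‖ ≤ S ^ N * C := by
    intro t ht
    have ht' : t ∈ Icc a b := Ico_subset_Icc_self ht
    rw [norm_mul, norm_pow]
    exact mul_le_mul (pow_le_pow_left₀ (norm_nonneg _) (hball t ht').2 N) (hC' t ht')
      (norm_nonneg _) (pow_nonneg hS N)
  have := norm_image_sub_le_of_norm_deriv_le_segment' hder hbound b (right_mem_Icc.2 hab)
  calc ‖K (γ b) - K (γ a) + G z₀ ^ N * (L (γ b) - L (γ a))‖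
      = ‖K (γ b) + G z₀ ^ N * L (γ b) - (K (γ a) + G z₀ ^ N * L (γ a))‖ := by
        congr 1; ring
    _ ≤ S ^ N * C * (b - a) := this
    _ = S ^ N * (C * (b - a)) := by ring

theorem pathBound_log_neg (z₀ z : ℂ) (h : z₀ - z ∈ slitPlane) :
    HasDerivAt (fun z => Complex.log (z₀ - z)) (1 / (z - z₀)) z := by
  have h1 : HasDerivAt (fun z : ℂ => z₀ - z) (-1) z := by
    simpa using (hasDerivAt_id z).const_sub z₀
  have h2 := h1.clog h
  refine h2.congr_deriv ?_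
  have : z₀ - z ≠ 0 := slitPlane_ne_zero h
  have h' : z - z₀ ≠ 0 := by
    intro h0
    apply this
    rw [← neg_sub, h0, neg_zero]
  field_simp
  ring

theorem pathBound_log_pos (z₀ z : ℂ) (h : z - z₀ ∈ slitPlane) :
    HasDerivAt (fun z => Complex.log (z - z₀)) (1 / (z - z₀)) z := by
  have h1 : HasDerivAt (fun z : ℂ => z - z₀) 1 z := by
    simpa using (hasDerivAt_id z).sub_const z₀
  exact h1.clog h

theorem pathBound_log_upper (w : ℂ) (h : 0 < w.im) :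
    Complex.log (-w) - Complex.log w = -(Real.pi * I) := by
  have hw : w ≠ 0 := by
    rintro rfl
    simp at h
  rw [Complex.log, Complex.log, norm_neg, arg_neg_eq_arg_sub_pi_of_im_pos h]
  push_cast
  ring

theorem pathBound_log_lower (w : ℂ) (h : w.im < 0) :
    Complex.log w - Complex.log (-w) = -(Real.pi * I) := by
  rw [Complex.log, Complex.log, norm_neg, arg_neg_eq_arg_add_pi_of_im_neg h]
  push_cast
  ring

theorem pathBound_horizontal (h t : ℝ) :
    HasDerivAt (fun x : ℝ => (x : ℂ) + (h : ℂ) * I) 1 t := by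
  have := (Complex.ofRealCLM.hasDerivAt (x := t)).add_const ((h : ℂ) * I)
  simpa using this

theorem pathBound_vertical (X t : ℝ) :
    HasDerivAt (fun y : ℝ => (X : ℂ) + (y : ℂ) * I) I t := by
  have := ((Complex.ofRealCLM.hasDerivAt (x := t)).mul_const I).const_add (X : ℂ)
  simpa using this

theorem pathBound : PathBound := by
  intro G c ρ S X ψ t₁ t₂ z₀ hG ht hψ hpath hz₀ hz₀X him₁ him₂ hright hbot htop hvert
  have hS : 0 ≤ S := (norm_nonneg _).trans (hpath t₁ (left_mem_Icc.2 ht)).2.2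
  set h₁ : ℝ := (ψ t₁).im with hh₁
  set h₂ : ℝ := (ψ t₂).im with hh₂
  have hψ₁ : ((ψ t₁).re : ℂ) + (h₁ : ℂ) * I = ψ t₁ := by rw [hh₁]; exact re_add_im _
  have hψ₂ : ((ψ t₂).re : ℂ) + (h₂ : ℂ) * I = ψ t₂ := by rw [hh₂]; exact re_add_im _
  -- piece 1
  have hslit : ∀ t ∈ Icc t₁ t₂, z₀ - ψ t ∈ slitPlane := by
    intro t ht'
    rw [mem_slitPlane_iff]
    by_cases him : (ψ t).im = z₀.im
    · left
      have := hright t ht' him
      simp only [sub_re]
      linarith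
    · right
      simp only [sub_im]
      intro h0
      exact him (by linarith)
  obtain ⟨C₁, hC₁⟩ := pathBound_piece G c z₀ ρ S ψ (deriv ψ) (fun z => Complex.log (z₀ - z))
    t₁ t₂ hS ht (fun t ht' => (hψ t ht').differentiableAt.hasDerivAt)
    (fun t ht' => (hψ t ht').deriv.continuousAt.continuousWithinAt)
    (fun t ht' h0 => by
      have := slitPlane_ne_zero (hslit t ht')
      rw [h0, sub_self] at this
      exact this rfl)
    (fun t ht' => ⟨(hpath t ht').1, (hpath t ht').2.2⟩)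
    (fun t ht' => pathBound_log_neg _ _ (hslit t ht'))
  -- piece 2, top
  have htopslit : ∀ x : ℝ, z₀ - ((x : ℂ) + (h₂ : ℂ) * I) ∈ slitPlane := by
    intro x
    rw [mem_slitPlane_iff]
    right
    simp
    intro h0
    linarith
  obtain ⟨C₂, hC₂⟩ := pathBound_piece G c z₀ ρ S (fun x : ℝ => (x : ℂ) + (h₂ : ℂ) * I)
    (fun _ => 1) (fun z => Complex.log (z₀ - z)) (ψ t₂).re X hS
    (hpath t₂ (right_mem_Icc.2 ht)).2.1.le (fun x _ => pathBound_horizontal h₂ x)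
    continuousOn_const
    (fun x _ h0 => by
      have := slitPlane_ne_zero (htopslit x)
      rw [h0, sub_self] at this
      exact this rfl)
    (fun x hx => htop x hx) (fun x _ => pathBound_log_neg _ _ (htopslit x))
  -- piece 3, the vertical segment
  have hvslit : ∀ y : ℝ, ((X : ℂ) + (y : ℂ) * I) - z₀ ∈ slitPlane := by
    intro y
    rw [mem_slitPlane_iff]
    left
    simp
    linarith
  obtain ⟨C₃, hC₃⟩ := pathBound_piece G c z₀ ρ S (fun y : ℝ => (X : ℂ) + (y : ℂ) * I)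
    (fun _ => I) (fun z => Complex.log (z - z₀)) h₁ h₂ hS (by linarith)
    (fun y _ => pathBound_vertical X y) continuousOn_const
    (fun y _ h0 => by
      have := slitPlane_ne_zero (hvslit y)
      rw [h0, sub_self] at this
      exact this rfl)
    (fun y hy => hvert y hy) (fun y _ => pathBound_log_pos _ _ (hvslit y))
  -- piece 4, bottom
  have hbslit : ∀ x : ℝ, z₀ - ((x : ℂ) + (h₁ : ℂ) * I) ∈ slitPlane := by
    intro x
    rw [mem_slitPlane_iff]
    right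
    simp
    intro h0
    linarith
  obtain ⟨C₄, hC₄⟩ := pathBound_piece G c z₀ ρ S (fun x : ℝ => (x : ℂ) + (h₁ : ℂ) * I)
    (fun _ => 1) (fun z => Complex.log (z₀ - z)) (ψ t₁).re X hS
    (hpath t₁ (left_mem_Icc.2 ht)).2.1.le (fun x _ => pathBound_horizontal h₁ x)
    continuousOn_const
    (fun x _ h0 => by
      have := slitPlane_ne_zero (hbslit x)
      rw [h0, sub_self] at this
      exact this rfl)
    (fun x hx => hbot x hx) (fun x _ => pathBound_log_neg _ _ (hbslit x))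
  -- the sum
  have hmain : ∀ N : ℕ, ‖G z₀‖ ^ N * (2 * Real.pi) ≤ S ^ N * (C₁ + C₂ + C₃ + C₄) := by
    intro N
    obtain ⟨K, hK⟩ := ((differentiableOn_dslope (Metric.isOpen_ball.mem_nhds hz₀)).2
      (hG.pow N)).isExactOn_ball
    have e₁ := hC₁ N K hK
    have e₂ := hC₂ N K hK
    have e₃ := hC₃ N K hK
    have e₄ := hC₄ N K hK
    simp only [hψ₁, hψ₂] at e₂ e₄
    have hup := pathBound_log_upper ((X : ℂ) + (h₂ : ℂ) * I - z₀) (by simp; linarith)
    have hlo := pathBound_log_lower ((X : ℂ) + (h₁ : ℂ) * I - z₀) (by simp; linarith)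
    rw [neg_sub] at hup hlo
    set A₁ := K (ψ t₂) - K (ψ t₁) + G z₀ ^ N * (Complex.log (z₀ - ψ t₂) -
      Complex.log (z₀ - ψ t₁)) with hA₁
    set A₂ := K ((X : ℂ) + (h₂ : ℂ) * I) - K (ψ t₂) + G z₀ ^ N *
      (Complex.log (z₀ - ((X : ℂ) + (h₂ : ℂ) * I)) - Complex.log (z₀ - ψ t₂)) with hA₂
    set A₃ := K ((X : ℂ) + (h₂ : ℂ) * I) - K ((X : ℂ) + (h₁ : ℂ) * I) + G z₀ ^ N *
      (Complex.log ((X : ℂ) + (h₂ : ℂ) * I - z₀) - Complex.log ((X : ℂ) + (h₁ : ℂ) * I - z₀))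
      with hA₃
    set A₄ := K ((X : ℂ) + (h₁ : ℂ) * I) - K (ψ t₁) + G z₀ ^ N *
      (Complex.log (z₀ - ((X : ℂ) + (h₁ : ℂ) * I)) - Complex.log (z₀ - ψ t₁)) with hA₄
    have hsum : A₁ + A₂ - A₃ - A₄ = G z₀ ^ N * (-(2 * Real.pi * I)) := by
      have : A₁ + A₂ - A₃ - A₄ = G z₀ ^ N *
          ((Complex.log (z₀ - ((X : ℂ) + (h₂ : ℂ) * I)) -
            Complex.log ((X : ℂ) + (h₂ : ℂ) * I - z₀)) +
          (Complex.log ((X : ℂ) + (h₁ : ℂ) * I - z₀) -
            Complex.log (z₀ - ((X : ℂ) + (h₁ : ℂ) * I)))) := by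
        rw [hA₁, hA₂, hA₃, hA₄]
        ring
      rw [this, hup, hlo]
      ring
    have hnorm : ‖G z₀ ^ N * (-(2 * Real.pi * I))‖ = ‖G z₀‖ ^ N * (2 * Real.pi) := by
      rw [norm_mul, norm_pow, norm_neg, norm_mul, norm_mul, norm_I, mul_one]
      simp [abs_of_pos Real.pi_pos]
    rw [← hnorm, ← hsum]
    calc ‖A₁ + A₂ - A₃ - A₄‖ ≤ ‖A₁ + A₂ - A₃‖ + ‖A₄‖ := norm_sub_le _ _
      _ ≤ (‖A₁ + A₂‖ + ‖A₃‖) + ‖A₄‖ := by gcongr; exact norm_sub_le _ _
      _ ≤ ((‖A₁‖ + ‖A₂‖) + ‖A₃‖) + ‖A₄‖ := by gcongr; exact norm_add_le _ _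
      _ ≤ ((S ^ N * C₁ + S ^ N * C₂) + S ^ N * C₃) + S ^ N * C₄ := by gcongr
      _ = S ^ N * (C₁ + C₂ + C₃ + C₄) := by ring
  by_contra hlt
  push Not at hlt
  have hG0 : 0 < ‖G z₀‖ := lt_of_le_of_lt hS hlt
  have hq0 : 0 ≤ S / ‖G z₀‖ := div_nonneg hS hG0.le
  have hq1 : S / ‖G z₀‖ < 1 := (div_lt_one hG0).2 hlt
  have hlim : Tendsto (fun N : ℕ => (S / ‖G z₀‖) ^ N * (C₁ + C₂ + C₃ + C₄)) atTop (𝓝 0) := by
    simpa using (tendsto_pow_atTop_nhds_zero_of_lt_one hq0 hq1).mul_const (C₁ + C₂ + C₃ + C₄)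
  have hle : (2 * Real.pi) ≤ 0 := by
    refine ge_of_tendsto hlim (Eventually.of_forall fun N => ?_)
    have h := hmain N
    have hpow : 0 < ‖G z₀‖ ^ N := pow_pos hG0 N
    rw [div_pow, div_mul_eq_mul_div, le_div_iff₀ hpow]
    linarith
  have := Real.pi_pos
  linarith

end Pool.Agent.K4H52.AP
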