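import Pool.Agent.K4H52.AP.Spec

/-!
# P2: peaks of zeta to the right of the line `Re s = 1`, lower bounds for its derivative
-/

set_option autoImplicit false

open Complex Filter Topology Set LSeries

namespace Pool.Agent.K4H52.AP

/-- the phase `n ^ (-i T)` -/
noncomputable def ph (n : ℕ) (T : ℝ) : ℂ := Complex.exp ((-(T * Real.log n) : ℝ) * I)

lemma norm_ph (n : ℕ) (T : ℝ) : ‖ph n T‖ = 1 := Complex.norm_exp_ofReal_mul_I _

lemma ph_sub (n : ℕ) (T S : ℝ) : ph n (T - S) * ph n S = ph n T := by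
  unfold ph
  rw [← Complex.exp_add]
  congr 1
  push_cast
  ring

lemma norm_ph_sub (n : ℕ) (T S : ℝ) : ‖ph n (T - S) - 1‖ = ‖ph n T - ph n S‖ := by
  have h : ph n T - ph n S = (ph n (T - S) - 1) * ph n S := by
    rw [sub_mul, ph_sub, one_mul]
  rw [h, norm_mul, norm_ph, mul_one]

lemma cpow_ph (n : ℕ) (hn : n ≠ 0) (σ T : ℝ) :
    (n : ℂ) ^ ((σ : ℂ) + (T : ℂ) * I) * ph n T = (n : ℂ) ^ (σ : ℂ) := by
  have hn' : (n : ℂ) ≠ 0 := Nat.cast_ne_zero.mpr hn
  unfold ph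
  rw [Complex.cpow_def_of_ne_zero hn', Complex.cpow_def_of_ne_zero hn', ← Complex.exp_add,
    ← Complex.natCast_log]
  congr 1
  push_cast
  ring

lemma term_ph (f : ℕ → ℂ) (n : ℕ) (σ T : ℝ) :
    term f ((σ : ℂ) + (T : ℂ) * I) n = term f (σ : ℂ) n * ph n T := by
  rcases eq_or_ne n 0 with hn | hn
  · subst hn
    simp
  · rw [term_of_ne_zero hn, term_of_ne_zero hn, ← cpow_ph n hn σ T]
    have h1 : (n : ℂ) ^ ((σ : ℂ) + (T : ℂ) * I) ≠ 0 := by
      rw [Ne, Complex.cpow_eq_zero_iff]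
      push Not
      intro h
      exact absurd h (Nat.cast_ne_zero.mpr hn)
    have h2 : ph n T ≠ 0 := by
      intro h
      have := norm_ph n T
      rw [h, norm_zero] at this
      norm_num at this
    field_simp

lemma norm_term_ph_sub (f : ℕ → ℂ) (n : ℕ) (σ T : ℝ) :
    ‖term f ((σ : ℂ) + (T : ℂ) * I) n - term f (σ : ℂ) n‖ =
      ‖term f (σ : ℂ) n‖ * ‖ph n T - 1‖ := by
  rw [term_ph, ← norm_mul]
  congr 1
  ring

/-- Recurrence: simultaneous almost periods of all the phases, with summable weights. -/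
lemma recurrence (w : ℕ → ℝ) (hw0 : ∀ n, 0 ≤ w n) (hw : Summable w) (ε : ℝ) (hε : 0 < ε) (T₀ : ℝ) :
    ∃ T : ℝ, T₀ ≤ T ∧ ∑' n, w n * ‖ph n T - 1‖ < ε := by
  set L : ℝ := max T₀ 1 with hL
  let u : ℕ → (ℕ → Circle) := fun k n => Circle.exp (-((k : ℝ) * L * Real.log n))
  obtain ⟨a, φ, hφ, ha⟩ := CompactSpace.tendsto_subseq u
  have hu : ∀ k n, ((u k n : Circle) : ℂ) = ph n (k * L) := by
    intro k n
    simp only [u, ph, Circle.coe_exp]
  have hT : Tendsto (fun j => ∑' n, w n * ‖ph n (((φ (j + 1) : ℝ) - φ j) * L) - 1‖) atTop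
      (𝓝 (∑' n : ℕ, (0 : ℝ))) := by
    apply tendsto_tsum_of_dominated_convergence (bound := fun n => w n * 2) (hw.mul_right 2)
    · intro n
      have h1 : Tendsto (fun j => ((u (φ j) n : Circle) : ℂ)) atTop (𝓝 (a n : ℂ)) := by
        have := (tendsto_pi_nhds.mp ha) n
        exact (Continuous.tendsto (f := fun z : Circle => (z : ℂ)) (by fun_prop) _).comp this
      have h2 : Tendsto (fun j => ((u (φ (j + 1)) n : Circle) : ℂ)) atTop (𝓝 (a n : ℂ)) :=
        h1.comp (tendsto_add_atTop_nat 1)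
      have h3 : Tendsto (fun j => ‖((u (φ (j + 1)) n : Circle) : ℂ) - (u (φ j) n : Circle)‖) atTop
          (𝓝 0) := by
        have := (h2.sub h1).norm
        simpa using this
      have h4 := h3.const_mul (w n)
      rw [mul_zero] at h4
      refine h4.congr fun j => ?_
      rw [hu, hu, sub_mul, norm_ph_sub]
    · refine Eventually.of_forall fun j n => ?_
      rw [norm_mul, Real.norm_of_nonneg (hw0 n), norm_norm]
      refine mul_le_mul_of_nonneg_left ?_ (hw0 n)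
      refine (norm_sub_le _ _).trans ?_
      rw [norm_ph, norm_one]
      norm_num
  rw [tsum_zero] at hT
  obtain ⟨j, hj⟩ := (hT.eventually (gt_mem_nhds hε)).exists
  refine ⟨((φ (j + 1) : ℝ) - φ j) * L, ?_, hj⟩
  have h1 : (1 : ℝ) ≤ (φ (j + 1) : ℝ) - φ j := by
    have : φ j + 1 ≤ φ (j + 1) := hφ (Nat.lt_succ_self j)
    have h : ((φ j + 1 : ℕ) : ℝ) ≤ φ (j + 1) := by exact_mod_cast this
    push_cast at h
    linarith
  have hL1 : 1 ≤ L := le_max_right _ _
  have hL2 : T₀ ≤ L := le_max_left _ _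
  nlinarith

lemma zeta_eq {s : ℂ} (hs : 1 < s.re) : riemannZeta s = ∑' n, term 1 s n :=
  (LSeries_one_eq_riemannZeta hs).symm

lemma abs_lt {s : ℂ} (hs : 1 < s.re) : abscissaOfAbsConv (1 : ℕ → ℂ) < s.re := by
  rw [abscissaOfAbsConv_one]
  exact_mod_cast hs

lemma deriv_eq {s : ℂ} (hs : 1 < s.re) :
    deriv riemannZeta s = -∑' n, term (logMul 1) s n := by
  have h1 : riemannZeta =ᶠ[𝓝 s] LSeries 1 := by
    have ho : IsOpen {z : ℂ | 1 < z.re} := isOpen_lt continuous_const Complex.continuous_re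
    filter_upwards [ho.mem_nhds hs] with z hz
    exact (LSeries_one_eq_riemannZeta hz).symm
  rw [h1.deriv_eq, LSeries_deriv (abs_lt hs)]
  rfl

lemma summ_one {s : ℂ} (hs : 1 < s.re) : Summable fun n => ‖term 1 s n‖ :=
  (LSeriesSummable_one_iff.mpr hs).norm

lemma summ_log {s : ℂ} (hs : 1 < s.re) : Summable fun n => ‖term (logMul 1) s n‖ :=
  (LSeriesSummable_logMul_of_lt_re (abs_lt hs)).norm

lemma norm_term_log (n : ℕ) (s : ℂ) (hn : n ≠ 0) :
    ‖term (logMul 1) s n‖ = Real.log n * (n : ℝ) ^ (-s.re) := by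
  rw [term_of_ne_zero hn, logMul, Pi.one_apply, mul_one, norm_div, ← Complex.natCast_log,
    Complex.norm_real, Real.norm_of_nonneg (Real.log_natCast_nonneg n),
    Complex.norm_natCast_cpow_of_pos (Nat.pos_of_ne_zero hn), Real.rpow_neg (Nat.cast_nonneg n),
    div_eq_mul_inv]

lemma two_sum {s : ℂ} (hs : 1 < s.re) :
    ∑' n, ‖term (logMul 1) s n‖ = Real.log 2 * (2 : ℝ) ^ (-s.re) +
      ∑' n : ℕ, Real.log ((n : ℝ) + 3) * ((n : ℝ) + 3) ^ (-s.re) := by
  have h := (summ_log hs).sum_add_tsum_nat_add 3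
  rw [← h]
  congr 1
  · rw [Finset.sum_range_succ, Finset.sum_range_succ, Finset.sum_range_one,
      norm_term_log 1 s one_ne_zero, norm_term_log 2 s two_ne_zero]
    simp
  · refine tsum_congr fun n => ?_
    rw [norm_term_log _ s (by omega)]
    push_cast
    rfl

lemma log_le (x : ℝ) (hx : 0 < x) : Real.log x ≤ 0.368 * x := by
  have h1 := Real.add_one_le_exp (Real.log x - 1)
  rw [Real.exp_sub, Real.exp_log hx] at h1
  have h2 : x / Real.exp 1 ≤ 0.368 * x := by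
    rw [div_le_iff₀ (Real.exp_pos 1)]
    have := Real.exp_one_gt_d9
    nlinarith
  linarith

lemma tail_le (σ : ℝ) (hσ : 4 ≤ σ) :
    ∑' n : ℕ, Real.log ((n : ℝ) + 3) * ((n : ℝ) + 3) ^ (-σ) ≤ 0.491 * (2 : ℝ) ^ (-σ) := by
  have h2 : (0 : ℝ) < (2 : ℝ) ^ (-σ) := Real.rpow_pos_of_pos (by norm_num) _
  have hterm : ∀ n : ℕ, Real.log ((n : ℝ) + 3) * ((n : ℝ) + 3) ^ (-σ) ≤
      (2 : ℝ) ^ (-σ) * (16 * 0.368) * (1 / ((n : ℝ) + 3) ^ 3) := by
    intro n
    have hn : (0 : ℝ) < (n : ℝ) + 3 := by positivity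
    have h3 : ((n : ℝ) + 3) ^ (-σ) ≤ 16 * (2 : ℝ) ^ (-σ) * (1 / ((n : ℝ) + 3) ^ 4) := by
      have e1 : ((n : ℝ) + 3) ^ (-σ) = ((n : ℝ) + 3) ^ (-(σ - 4)) * (1 / ((n : ℝ) + 3) ^ 4) := by
        rw [one_div, ← Real.rpow_natCast, ← Real.rpow_neg hn.le, ← Real.rpow_add hn]
        congr 1
        push_cast
        ring
      have e2 : ((n : ℝ) + 3) ^ (-(σ - 4)) ≤ (2 : ℝ) ^ (-(σ - 4)) := by
        apply Real.rpow_le_rpow_of_nonpos (by norm_num)
        · have : (0 : ℝ) ≤ n := Nat.cast_nonneg n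
          linarith
        · linarith
      have e3 : (2 : ℝ) ^ (-(σ - 4)) = 16 * (2 : ℝ) ^ (-σ) := by
        rw [show -(σ - 4) = -σ + 4 by ring, Real.rpow_add (by norm_num)]
        norm_num
        ring
      rw [e1, ← e3]
      gcongr
    have h4 : (0 : ℝ) ≤ Real.log ((n : ℝ) + 3) := by
      apply Real.log_nonneg
      have : (0 : ℝ) ≤ n := Nat.cast_nonneg n
      linarith
    calc Real.log ((n : ℝ) + 3) * ((n : ℝ) + 3) ^ (-σ)
        ≤ (0.368 * ((n : ℝ) + 3)) * (16 * (2 : ℝ) ^ (-σ) * (1 / ((n : ℝ) + 3) ^ 4)) := by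
          apply mul_le_mul (log_le _ hn) h3 (Real.rpow_nonneg hn.le _) (by positivity)
      _ = (2 : ℝ) ^ (-σ) * (16 * 0.368) * (1 / ((n : ℝ) + 3) ^ 3) := by
          field_simp
  have hsum : ∀ N : ℕ, ∑ n ∈ Finset.range N, (1 / ((n : ℝ) + 3) ^ 3) ≤
      1 / 12 - 1 / (2 * ((N : ℝ) + 2) * (N + 3)) := by
    intro N
    induction N with
    | zero => norm_num
    | succ N ih =>
      rw [Finset.sum_range_succ]
      have hN : (0 : ℝ) ≤ N := Nat.cast_nonneg N
      have key : 1 / ((N : ℝ) + 3) ^ 3 ≤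
          1 / (2 * ((N : ℝ) + 2) * (N + 3)) - 1 / (2 * ((N : ℝ) + 3) * (N + 4)) := by
        have e : 1 / (2 * ((N : ℝ) + 2) * (N + 3)) - 1 / (2 * ((N : ℝ) + 3) * (N + 4)) =
            1 / (((N : ℝ) + 2) * (N + 3) * (N + 4)) := by
          field_simp
          ring
        rw [e]
        apply one_div_le_one_div_of_le (by positivity)
        nlinarith
      push_cast
      have e2 : (2 * ((N : ℝ) + 1 + 2) * (N + 1 + 3)) = 2 * ((N : ℝ) + 3) * (N + 4) := by ring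
      rw [e2]
      linarith
  apply Real.tsum_le_of_sum_range_le
  · intro n
    apply mul_nonneg
    · apply Real.log_nonneg
      have : (0 : ℝ) ≤ n := Nat.cast_nonneg n
      linarith
    · positivity
  · intro N
    calc ∑ n ∈ Finset.range N, Real.log ((n : ℝ) + 3) * ((n : ℝ) + 3) ^ (-σ)
        ≤ ∑ n ∈ Finset.range N, (2 : ℝ) ^ (-σ) * (16 * 0.368) * (1 / ((n : ℝ) + 3) ^ 3) :=
          Finset.sum_le_sum fun n _ => hterm n
      _ = (2 : ℝ) ^ (-σ) * (16 * 0.368) * ∑ n ∈ Finset.range N, (1 / ((n : ℝ) + 3) ^ 3) := by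
          rw [Finset.mul_sum]
      _ ≤ (2 : ℝ) ^ (-σ) * (16 * 0.368) * (1 / 12) := by
          apply mul_le_mul_of_nonneg_left _ (by positivity)
          have := hsum N
          have h5 : (0 : ℝ) ≤ 1 / (2 * ((N : ℝ) + 2) * (N + 3)) := by positivity
          linarith
      _ ≤ 0.491 * (2 : ℝ) ^ (-σ) := by nlinarith

theorem rightDeriv : RightDeriv := by
  intro R
  refine ⟨0.2 * (2 : ℝ) ^ (-R), by positivity, ?_⟩
  intro s hs hR
  have hs1 : 1 < s.re := by linarith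
  rw [deriv_eq hs1, norm_neg]
  have hsm := (LSeriesSummable_logMul_of_lt_re (abs_lt hs1) : Summable (term (logMul 1) s))
  have hsum := hsm.sum_add_tsum_nat_add 3
  have e0 : term (logMul 1) s 0 = 0 := by simp
  have e1 : term (logMul 1) s 1 = 0 := by
    rw [term_of_ne_zero one_ne_zero]
    simp [logMul]
  rw [← hsum, Finset.sum_range_succ, Finset.sum_range_succ, Finset.sum_range_one, e0, e1,
    zero_add, zero_add]
  have h1 : ‖term (logMul 1) s 2‖ = Real.log 2 * (2 : ℝ) ^ (-s.re) := by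
    rw [norm_term_log 2 s two_ne_zero]
    norm_num
  have h2 : ‖∑' n, term (logMul 1) s (n + 3)‖ ≤ 0.491 * (2 : ℝ) ^ (-s.re) := by
    have hs3 : Summable fun n => ‖term (logMul 1) s (n + 3)‖ :=
      (summable_nat_add_iff 3).mpr (summ_log hs1)
    refine (norm_tsum_le_tsum_norm hs3).trans (le_trans (le_of_eq ?_) (tail_le s.re hs))
    refine tsum_congr fun n => ?_
    rw [norm_term_log _ s (by omega)]
    push_cast
    rfl
  have h3 : (2 : ℝ) ^ (-R) ≤ (2 : ℝ) ^ (-s.re) :=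
    Real.rpow_le_rpow_of_exponent_le (by norm_num) (by linarith)
  have h4 := norm_sub_le_norm_add (term (logMul 1) s 2) (∑' n, term (logMul 1) s (n + 3))
  have h5 := Real.log_two_gt_d9
  have h6 : (0 : ℝ) < (2 : ℝ) ^ (-s.re) := by positivity
  nlinarith

lemma deriv_real_ge (σ : ℝ) (h1 : 1 < σ) (h5 : σ ≤ 5) :
    Real.log 2 / 32 ≤ ‖∑' n, term (logMul 1) (σ : ℂ) n‖ := by
  have hs1 : 1 < (σ : ℂ).re := by simpa using h1
  have hsm := (LSeriesSummable_logMul_of_lt_re (abs_lt hs1) : Summable (term (logMul 1) (σ : ℂ)))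
  have hre : ∀ n, (term (logMul 1) (σ : ℂ) n).re = ‖term (logMul 1) (σ : ℂ) n‖ := by
    intro n
    rcases eq_or_ne n 0 with hn | hn
    · subst hn
      simp
    · have h : term (logMul 1) (σ : ℂ) n = ((Real.log n * (n : ℝ) ^ (-σ) : ℝ) : ℂ) := by
        rw [term_of_ne_zero hn, logMul, Pi.one_apply, mul_one, ← Complex.natCast_log]
        push_cast
        rw [Complex.ofReal_cpow (Nat.cast_nonneg n)]
        push_cast
        rw [Complex.cpow_neg, div_eq_mul_inv]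
      rw [h, Complex.ofReal_re, Complex.norm_real, Real.norm_of_nonneg]
      exact mul_nonneg (Real.log_natCast_nonneg n) (by positivity)
  have h2 : (∑' n, term (logMul 1) (σ : ℂ) n).re = ∑' n, ‖term (logMul 1) (σ : ℂ) n‖ := by
    rw [Complex.re_tsum hsm]
    exact tsum_congr hre
  have h3 : ‖term (logMul 1) (σ : ℂ) 2‖ ≤ ∑' n, ‖term (logMul 1) (σ : ℂ) n‖ :=
    (summ_log hs1).le_tsum 2 fun _ _ => norm_nonneg _
  have h4 : Real.log 2 / 32 ≤ ‖term (logMul 1) (σ : ℂ) 2‖ := by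
    rw [norm_term_log 2 _ two_ne_zero, Complex.ofReal_re]
    have h6 : (2 : ℝ) ^ (-(5 : ℝ)) ≤ (2 : ℝ) ^ (-σ) :=
      Real.rpow_le_rpow_of_exponent_le (by norm_num) (by linarith)
    have h7 : (2 : ℝ) ^ (-(5 : ℝ)) = 1 / 32 := by
      rw [Real.rpow_neg (by norm_num)]
      norm_num
    rw [h7] at h6
    have h8 : 0 < Real.log 2 := Real.log_pos (by norm_num)
    push_cast
    nlinarith
  calc Real.log 2 / 32 ≤ _ := h4
    _ ≤ _ := h3
    _ = _ := h2.symm
    _ ≤ _ := Complex.re_le_norm _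

lemma large_near_one (M : ℝ) : ∃ σ₀ : ℝ, 1 < σ₀ ∧ σ₀ < 4 ∧ M < ‖riemannZeta (σ₀ : ℂ)‖ := by
  have h1 : Tendsto (fun x : ℝ => (x : ℂ)) (𝓝[>] 1) (𝓝[≠] (1 : ℂ)) := by
    apply tendsto_nhdsWithin_of_tendsto_nhds_of_eventually_within
    · have : Tendsto (fun x : ℝ => (x : ℂ)) (𝓝 1) (𝓝 ((1 : ℝ) : ℂ)) :=
        Complex.continuous_ofReal.tendsto 1
      rw [Complex.ofReal_one] at this
      exact this.mono_left nhdsWithin_le_nhds
    · filter_upwards [self_mem_nhdsWithin] with x hx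
      simp only [mem_compl_iff, mem_singleton_iff]
      intro h
      have : x = 1 := by exact_mod_cast h
      exact absurd this (ne_of_gt hx)
  have h2 := (riemannZeta_residue_one.comp h1).norm
  rw [norm_one] at h2
  have h3 : ∀ᶠ x : ℝ in 𝓝[>] 1, 1 / 2 < ‖((x : ℂ) - 1) * riemannZeta x‖ :=
    h2.eventually (lt_mem_nhds (by norm_num))
  have h4 : ∀ᶠ x : ℝ in 𝓝[>] 1, x < 1 + 1 / (2 * (|M| + 1)) := by
    apply nhdsWithin_le_nhds
    apply gt_mem_nhds
    have : 0 < 1 / (2 * (|M| + 1)) := by positivity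
    linarith
  have h5 : ∀ᶠ x : ℝ in 𝓝[>] 1, x < 4 := nhdsWithin_le_nhds (gt_mem_nhds (by norm_num))
  obtain ⟨x, hx3, hx4, hx5, hx⟩ := (h3.and (h4.and (h5.and self_mem_nhdsWithin))).exists
  have hx1 : (1 : ℝ) < x := hx
  refine ⟨x, hx1, hx5, ?_⟩
  rw [norm_mul] at hx3
  have h6 : ‖(x : ℂ) - 1‖ = x - 1 := by
    rw [← Complex.ofReal_one, ← Complex.ofReal_sub, Complex.norm_real,
      Real.norm_of_nonneg (by linarith)]
  rw [h6] at hx3
  have hM : 0 < |M| + 1 := by positivity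
  have h7 : x - 1 < 1 / (2 * (|M| + 1)) := by linarith
  have h8 : (x - 1) * (|M| + 1) < 1 / 2 := by
    rw [lt_div_iff₀ (by positivity)] at h7
    linarith
  have h9 : |M| + 1 < ‖riemannZeta x‖ := by
    by_contra hcon
    push Not at hcon
    nlinarith
  linarith [le_abs_self M]

theorem peaks : Peaks := by
  intro M
  obtain ⟨σ₀, h1, h4, hM⟩ := large_near_one (M + 1)
  have hl2 : 0 < Real.log 2 := Real.log_pos (by norm_num)
  refine ⟨σ₀, Real.log 2 / 64, h1, h4, by positivity, ?_⟩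
  intro T₀
  have hs1 : 1 < (σ₀ : ℂ).re := by simpa using h1
  obtain ⟨T, hT, hlt⟩ := recurrence
    (fun n => ‖term 1 (σ₀ : ℂ) n‖ + ‖term (logMul 1) (σ₀ : ℂ) n‖)
    (fun n => add_nonneg (norm_nonneg _) (norm_nonneg _))
    ((summ_one hs1).add (summ_log hs1)) (min 1 (Real.log 2 / 64)) (by positivity) T₀
  have hbd : ∀ n, ‖ph n T - 1‖ ≤ 2 := by
    intro n
    refine (norm_sub_le _ _).trans ?_
    rw [norm_ph, norm_one]
    norm_num
  have hsumm : Summable fun n => (‖term 1 (σ₀ : ℂ) n‖ + ‖term (logMul 1) (σ₀ : ℂ) n‖) *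
      ‖ph n T - 1‖ := by
    refine Summable.of_nonneg_of_le (fun n => by positivity) (fun n => ?_)
      (((summ_one hs1).add (summ_log hs1)).mul_right 2)
    exact mul_le_mul_of_nonneg_left (hbd n) (by positivity)
  -- comparison of the series at `σ + i T` and at `σ`
  have hcmp : ∀ (f : ℕ → ℂ) (σ : ℝ), σ₀ ≤ σ →
      (∀ n, ‖term f (σ₀ : ℂ) n‖ ≤ ‖term 1 (σ₀ : ℂ) n‖ + ‖term (logMul 1) (σ₀ : ℂ) n‖) →
      Summable (term f ((σ : ℂ) + (T : ℂ) * I)) → Summable (term f (σ : ℂ)) →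
      ‖(∑' n, term f ((σ : ℂ) + (T : ℂ) * I) n) - ∑' n, term f (σ : ℂ) n‖ <
        min 1 (Real.log 2 / 64) := by
    intro f σ hσ hf hS1 hS2
    rw [← hS1.tsum_sub hS2]
    have hle : ∀ n, ‖term f ((σ : ℂ) + (T : ℂ) * I) n - term f (σ : ℂ) n‖ ≤
        (‖term 1 (σ₀ : ℂ) n‖ + ‖term (logMul 1) (σ₀ : ℂ) n‖) * ‖ph n T - 1‖ := by
      intro n
      rw [norm_term_ph_sub]
      apply mul_le_mul_of_nonneg_right _ (norm_nonneg _)
      refine le_trans ?_ (hf n)
      apply norm_term_le_of_re_le_re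
      simpa using hσ
    exact (tsum_of_norm_bounded hsumm.hasSum hle).trans_lt hlt
  refine ⟨T, hT, ?_, ?_⟩
  · have hre : 1 < ((σ₀ : ℂ) + (T : ℂ) * I).re := by simpa using h1
    have h := hcmp 1 σ₀ le_rfl (fun n => le_add_of_nonneg_right (norm_nonneg _))
      (LSeriesSummable_one_iff.mpr hre) (LSeriesSummable_one_iff.mpr hs1)
    rw [← zeta_eq hre, ← zeta_eq hs1] at h
    have h2 : ‖riemannZeta (σ₀ : ℂ)‖ - ‖riemannZeta ((σ₀ : ℂ) + (T : ℂ) * I)‖ ≤
        ‖riemannZeta ((σ₀ : ℂ) + (T : ℂ) * I) - riemannZeta (σ₀ : ℂ)‖ := by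
      rw [norm_sub_rev]
      exact norm_sub_norm_le _ _
    have h3 := h.trans_le (min_le_left _ _)
    linarith
  · intro σ hσ hσ5
    have hσ1 : 1 < σ := by linarith
    have hre : 1 < ((σ : ℂ) + (T : ℂ) * I).re := by simpa using hσ1
    have hre' : 1 < (σ : ℂ).re := by simpa using hσ1
    have h := hcmp (logMul 1) σ hσ (fun n => le_add_of_nonneg_left (norm_nonneg _))
      (LSeriesSummable_logMul_of_lt_re (abs_lt hre)) (LSeriesSummable_logMul_of_lt_re (abs_lt hre'))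
    rw [deriv_eq hre, norm_neg]
    have h2 := deriv_real_ge σ hσ1 hσ5
    have h3 := h.trans_le (min_le_right _ _)
    have h4 : ‖∑' n, term (logMul 1) (σ : ℂ) n‖ -
        ‖∑' n, term (logMul 1) ((σ : ℂ) + (T : ℂ) * I) n‖ ≤
        ‖(∑' n, term (logMul 1) ((σ : ℂ) + (T : ℂ) * I) n) - ∑' n, term (logMul 1) (σ : ℂ) n‖ := by
      rw [norm_sub_rev]
      exact norm_sub_norm_le _ _
    linarith

end Pool.Agent.K4H52.AP
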