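import Pool.Agent.K4H52.AP.Spec
import Pool.Agent.R612.CO.Kro

/-!
# P7: Kronecker shifts of the zeta function
-/

set_option autoImplicit false

open Complex Filter Topology Set

namespace Pool.Agent.K4H52.AP

namespace Sh

open Pool.Agent.R612.CO

lemma fact_prod {ι : Type*} [Fintype ι] (p : ι → ℕ) (hp : ∀ i, (p i).Prime)
    (hinj : Function.Injective p) (a : ι → ℕ) (j : ι) :
    (∏ i, p i ^ a i).factorization (p j) = a j := by
  rw [Nat.factorization_prod (fun i _ => pow_ne_zero _ (hp i).ne_zero)]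
  rw [Finsupp.finsetSum_apply]
  rw [Finset.sum_eq_single j]
  · rw [(hp j).factorization_pow]; simp
  · intro i _ hij
    rw [(hp i).factorization_pow]
    exact Finsupp.single_eq_of_ne (fun h => hij (hinj h.symm))
  · simp

lemma log_indep {ι : Type*} [Fintype ι] (p : ι → ℕ) (hp : ∀ i, (p i).Prime)
    (hinj : Function.Injective p) (c : ι → ℤ) (h : ∑ i, (c i : ℝ) * Real.log (p i) = 0) :
    ∀ i, c i = 0 := by
  set a : ι → ℕ := fun i => (c i).toNat with ha
  set b : ι → ℕ := fun i => (-c i).toNat with hb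
  have hc : ∀ i, (c i : ℝ) = (a i : ℝ) - (b i : ℝ) := by
    intro i
    have : c i = (a i : ℤ) - (b i : ℤ) := by
      simp only [ha, hb]
      omega
    exact_mod_cast congrArg (Int.cast : ℤ → ℝ) this
  have hlogprod : ∀ e : ι → ℕ, Real.log ((∏ i, p i ^ e i : ℕ) : ℝ) =
      ∑ i, (e i : ℝ) * Real.log (p i) := by
    intro e
    push_cast
    rw [Real.log_prod]
    · refine Finset.sum_congr rfl fun i _ => ?_
      rw [Real.log_pow]
    · intro i _
      have := (hp i).pos
      positivity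
  have h1 : Real.log ((∏ i, p i ^ a i : ℕ) : ℝ) = Real.log ((∏ i, p i ^ b i : ℕ) : ℝ) := by
    rw [hlogprod, hlogprod, ← sub_eq_zero, ← Finset.sum_sub_distrib, ← h]
    refine Finset.sum_congr rfl fun i _ => ?_
    rw [hc i]; ring
  have hpos : ∀ e : ι → ℕ, (0 : ℝ) < ((∏ i, p i ^ e i : ℕ) : ℝ) := by
    intro e
    have : 0 < ∏ i, p i ^ e i := Finset.prod_pos fun i _ => pow_pos (hp i).pos _
    exact_mod_cast this
  have h2 : ((∏ i, p i ^ a i : ℕ) : ℝ) = ((∏ i, p i ^ b i : ℕ) : ℝ) :=
    Real.log_injOn_pos (hpos a) (hpos b) h1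
  have h3 : (∏ i, p i ^ a i : ℕ) = (∏ i, p i ^ b i : ℕ) := by exact_mod_cast h2
  intro j
  have h4 := fact_prod p hp hinj a j
  have h5 := fact_prod p hp hinj b j
  rw [h3, h5] at h4
  have h6 : a j = b j := h4.symm
  have h7 := hc j
  rw [h6, sub_self] at h7
  exact_mod_cast h7

/-- splitting off the multiples of `p` -/
lemma split {g : ℕ → ℂ} {p : ℕ} (hp : 0 < p) (hg : Summable g)
    (hmul : ∀ m, g (p * m) = g p * g m) :
    (1 - g p) * ∑' n, g n = ∑' n, ({n | p ∣ n}ᶜ : Set ℕ).indicator g n := by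
  have h1 : ∑' n, ({n | p ∣ n} : Set ℕ).indicator g n = g p * ∑' n, g n := by
    have hinj : Function.Injective (fun m : ℕ => p * m) := fun a b h => Nat.eq_of_mul_eq_mul_left hp h
    have hs : Function.support (({n | p ∣ n} : Set ℕ).indicator g) ⊆ range (fun m : ℕ => p * m) := by
      intro n hn
      have : n ∈ ({n | p ∣ n} : Set ℕ) := by
        by_contra h
        exact hn (indicator_of_notMem h _)
      obtain ⟨m, hm⟩ := this
      exact ⟨m, hm.symm⟩
    rw [← hinj.tsum_eq hs, ← tsum_mul_left]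
    refine tsum_congr fun m => ?_
    rw [indicator_of_mem (show p * m ∈ ({n | p ∣ n} : Set ℕ) from ⟨m, rfl⟩), hmul]
  have h2 : ∑' n, ({n | p ∣ n} : Set ℕ).indicator g n +
      ∑' n, ({n | p ∣ n}ᶜ : Set ℕ).indicator g n = ∑' n, g n := by
    rw [← Summable.tsum_add (hg.indicator _) (hg.indicator _)]
    refine tsum_congr fun n => ?_
    exact congrFun (indicator_self_add_compl _ g) n
  rw [h1] at h2
  linear_combination (-1 : ℂ) * h2

lemma norm_cpow (s : ℂ) {σ₀ : ℝ} (h0 : 1 < σ₀) (hs : σ₀ ≤ s.re) (n : ℕ) :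
    ‖(n : ℂ) ^ (-s)‖ ≤ (n : ℝ) ^ (-σ₀) := by
  rcases Nat.eq_zero_or_pos n with rfl | hn
  · have : -s ≠ 0 := by
      intro h
      have : s.re = 0 := by
        have := congrArg Complex.re h
        simpa using this
      linarith
    rw [Nat.cast_zero, Complex.zero_cpow this, norm_zero]
    positivity
  · rw [Complex.norm_natCast_cpow_of_pos hn]
    refine Real.rpow_le_rpow_of_exponent_le (by exact_mod_cast hn) ?_
    rw [Complex.neg_re]
    linarith

lemma summable_u {σ₀ : ℝ} (h0 : 1 < σ₀) : Summable (fun n : ℕ => (n : ℝ) ^ (-σ₀)) :=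
  Real.summable_nat_rpow.2 (by linarith)

/-- the coefficients of the rotated zeta function -/
noncomputable def co (p : ℕ) (η : ℂ) (n : ℕ) : ℂ := η ^ (n.factorization p)

lemma norm_co (p : ℕ) {η : ℂ} (hη : ‖η‖ = 1) (n : ℕ) : ‖co p η n‖ = 1 := by
  rw [co, norm_pow, hη, one_pow]

lemma summable_co (p : ℕ) {η : ℂ} (hη : ‖η‖ = 1) (s : ℂ) (hs : 1 < s.re) :
    Summable (fun n : ℕ => co p η n * (n : ℂ) ^ (-s)) := by
  refine Summable.of_norm_bounded (summable_u hs) fun n => ?_
  rw [norm_mul, norm_co p hη, one_mul]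
  exact norm_cpow s hs le_rfl n

lemma cpow_mul_nat (s : ℂ) (a b : ℕ) : ((a * b : ℕ) : ℂ) ^ (-s) = (a : ℂ) ^ (-s) * (b : ℂ) ^ (-s) := by
  rw [Nat.cast_mul, Complex.natCast_mul_natCast_cpow]

lemma rot_sum {p : ℕ} (hp : p.Prime) {η : ℂ} (hη : ‖η‖ = 1) (s : ℂ) (hs : 1 < s.re) :
    (1 - η * (p : ℂ) ^ (-s)) * ∑' n : ℕ, co p η n * (n : ℂ) ^ (-s) =
      ∑' n, ({n | p ∣ n}ᶜ : Set ℕ).indicator (fun n : ℕ => (n : ℂ) ^ (-s)) n := by
  have hne : -s ≠ 0 := by
    intro h
    have : s.re = 0 := by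
      have := congrArg Complex.re h
      simpa using this
    linarith
  have hcop : co p η p = η := by
    rw [co, hp.factorization_self, pow_one]
  have h := split (g := fun n : ℕ => co p η n * (n : ℂ) ^ (-s)) hp.pos (summable_co p hη s hs) (by
    intro m
    rcases Nat.eq_zero_or_pos m with rfl | hm
    · simp only [mul_zero, Nat.cast_zero, Complex.zero_cpow hne]
    · simp only [hcop]
      rw [cpow_mul_nat]
      have : co p η (p * m) = η * co p η m := by
        rw [co, co, Nat.factorization_mul hp.ne_zero hm.ne', Finsupp.add_apply,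
          hp.factorization_self, pow_add, pow_one]
      rw [this]
      ring)
  simp only [hcop] at h
  rw [h]
  refine tsum_congr fun n => ?_
  by_cases hn : p ∣ n
  · have hn' : n ∉ ({n | p ∣ n}ᶜ : Set ℕ) := fun h => h hn
    rw [indicator_of_notMem hn', indicator_of_notMem hn']
  · rw [indicator_of_mem (show n ∈ ({n | p ∣ n}ᶜ : Set ℕ) from hn),
      indicator_of_mem (show n ∈ ({n | p ∣ n}ᶜ : Set ℕ) from hn)]
    rw [co, Nat.factorization_eq_zero_of_not_dvd hn, pow_zero, one_mul]

lemma zeta_sum (s : ℂ) (hs : 1 < s.re) : riemannZeta s = ∑' n : ℕ, (n : ℂ) ^ (-s) := by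
  rw [zeta_eq_tsum_one_div_nat_cpow hs]
  refine tsum_congr fun n => ?_
  rw [Complex.cpow_neg, one_div]

lemma rot_zeta {p : ℕ} (hp : p.Prime) {η : ℂ} (hη : ‖η‖ = 1) (s : ℂ) (hs : 1 < s.re) :
    riemannZeta s * ((1 - (p : ℂ) ^ (-s)) / (1 - η * (p : ℂ) ^ (-s))) =
      ∑' n : ℕ, co p η n * (n : ℂ) ^ (-s) := by
  have h1 := rot_sum hp hη s hs
  have h2 := rot_sum hp (η := 1) (by simp) s hs
  have h3 : ∑' n : ℕ, co p 1 n * (n : ℂ) ^ (-s) = riemannZeta s := by
    rw [zeta_sum s hs]
    refine tsum_congr fun n => ?_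
    rw [co, one_pow, one_mul]
  rw [h3, one_mul] at h2
  have hne : 1 - η * (p : ℂ) ^ (-s) ≠ 0 := by
    intro h
    have h4 : ‖η * (p : ℂ) ^ (-s)‖ = 1 := by
      rw [← sub_eq_zero.1 h, norm_one]
    rw [norm_mul, hη, one_mul, Complex.norm_natCast_cpow_of_pos hp.pos, Complex.neg_re] at h4
    have h5 : ((p : ℕ) : ℝ) ^ (-s.re) < 1 := by
      apply Real.rpow_lt_one_of_one_lt_of_neg
      · exact_mod_cast hp.one_lt
      · linarith
    linarith
  rw [mul_div_assoc', div_eq_iff hne]
  rw [mul_comm (∑' n : ℕ, co p η n * (n : ℂ) ^ (-s)), h1, ← h2]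
  ring

section kro

variable (M : ℕ)

/-- odd primes below `M` -/
def OP : Finset ℕ := (Finset.range M).filter fun q => q.Prime ∧ q ≠ 2

/-- frequencies -/
noncomputable def fr (N : ℕ) (q : OP M) : ℝ := N * Real.log (q : ℕ) / Real.log 2

lemma fr_indep {N : ℕ} (hN : 1 ≤ N) (n : OP M → ℤ) (m : ℤ)
    (h : ∑ i, (n i : ℝ) * fr M N i = m) : n = 0 := by
  have hl2 : (0 : ℝ) < Real.log 2 := Real.log_pos (by norm_num)
  have h1 := log_indep (ι := Option (OP M)) (fun o => o.elim 2 fun q => (q : ℕ))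
    (by
      intro o
      cases o with
      | none => exact Nat.prime_two
      | some q => exact (Finset.mem_filter.1 q.2).2.1)
    (by
      intro a b hab
      cases a with
      | none =>
        cases b with
        | none => rfl
        | some q => exact absurd hab.symm (Finset.mem_filter.1 q.2).2.2
      | some q =>
        cases b with
        | none => exact absurd hab (Finset.mem_filter.1 q.2).2.2
        | some r => exact congrArg some (Subtype.ext hab))
    (fun o => o.elim (-m) fun q => n q * N)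
    (by
      rw [Fintype.sum_option]
      simp only [Option.elim_none, Option.elim_some]
      push_cast
      have h2 : ∑ i : OP M, ((n i : ℝ) * N) * Real.log ((i : ℕ) : ℝ) = m * Real.log 2 := by
        rw [← h, Finset.sum_mul]
        refine Finset.sum_congr rfl fun i _ => ?_
        rw [fr]
        field_simp
      rw [h2]
      ring)
  funext q
  have h3 := h1 (some q)
  simp only [Option.elim_some] at h3
  have hN' : (N : ℤ) ≠ 0 := by exact_mod_cast (by omega : N ≠ 0)
  exact (mul_eq_zero.1 h3).resolve_right hN'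

/-- exponents of `n` -/
def ex (n : ℕ) (q : OP M) : ℤ := -(n.factorization (q : ℕ) : ℤ)

lemma log_split {n : ℕ} (hn : n ≠ 0) (hnM : n < M) :
    Real.log n = n.factorization 2 * Real.log 2 +
      ∑ q : OP M, (n.factorization (q : ℕ) : ℝ) * Real.log ((q : ℕ) : ℝ) := by
  rw [Real.log_nat_eq_sum_factorization]
  have h2 : (2 : ℕ) ∉ OP M := by
    simp [OP]
  have hsub : n.factorization.support ⊆ insert 2 (OP M) := by
    intro q hq
    rw [Nat.support_factorization] at hq
    have hqp := Nat.prime_of_mem_primeFactors hq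
    have hqd := Nat.dvd_of_mem_primeFactors hq
    by_cases h : q = 2
    · rw [h]; exact Finset.mem_insert_self _ _
    · refine Finset.mem_insert_of_mem (Finset.mem_filter.2 ⟨?_, hqp, h⟩)
      exact Finset.mem_range.2 (lt_of_le_of_lt (Nat.le_of_dvd (Nat.pos_of_ne_zero hn) hqd) hnM)
  rw [Finsupp.sum_of_support_subset _ hsub _ (by intro i _; simp)]
  rw [Finset.sum_insert h2]
  congr 1
  rw [Finset.sum_coe_sort (OP M) (fun q : ℕ => (n.factorization q : ℝ) * Real.log (q : ℝ))]

lemma mF_value {N : ℕ} (K : ℕ) {n : ℕ} (hn : n ≠ 0) (hnM : n < M) :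
    UnitAddTorus.mFourier (ex M n) (orb (fr M N) K) = (n : ℂ) ^ (-(τ * ((N * K : ℕ) : ℂ))) := by
  have hl2 : (Real.log 2 : ℂ) ≠ 0 := by
    exact_mod_cast (Real.log_pos (by norm_num : (1:ℝ) < 2)).ne'
  have hn' : (n : ℂ) ≠ 0 := by exact_mod_cast hn
  rw [mF_orb, ← Complex.exp_nat_mul, Complex.cpow_def_of_ne_zero hn', ← Complex.natCast_log,
    log_split M hn hnM, τ]
  have h1 : ∑ i : OP M, (ex M n i : ℝ) * fr M N i =
      -(N / Real.log 2 * ∑ q : OP M, (n.factorization (q : ℕ) : ℝ) * Real.log ((q : ℕ) : ℝ)) := by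
    rw [Finset.mul_sum, ← Finset.sum_neg_distrib]
    refine Finset.sum_congr rfl fun i _ => ?_
    rw [ex, fr]
    push_cast
    ring
  rw [h1]
  set S := ∑ q : OP M, (n.factorization (q : ℕ) : ℝ) * Real.log ((q : ℕ) : ℝ) with hS
  rw [Complex.exp_eq_exp_iff_exists_int]
  refine ⟨(N * K * n.factorization 2 : ℕ), ?_⟩
  push_cast
  field_simp
  ring

end kro

/-- the Kronecker step -/
lemma approx {p : ℕ} (hp : p.Prime) (hp2 : p ≠ 2) {η : ℂ} (hη : ‖η‖ = 1) {N : ℕ} (hN : 1 ≤ N)
    (n0 : ℕ) {δ : ℝ} (hδ : 0 < δ) (L₀ : ℕ) : ∃ L : ℕ, L₀ ≤ L ∧ N ∣ L ∧ ∀ n : ℕ, n ≠ 0 → n < n0 →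
      ‖(n : ℂ) ^ (-(τ * (L : ℂ))) - co p η n‖ < δ := by
  classical
  set M := max n0 (p + 1) with hM
  have hpM : p ∈ OP M := Finset.mem_filter.2 ⟨Finset.mem_range.2 (by omega), hp, hp2⟩
  let θ : UnitAddCircle := ((-(η.arg / (2 * Real.pi)) : ℝ) : UnitAddCircle)
  have hθ : ∀ k : ℕ, fourier (-(k : ℤ)) θ = η ^ k := by
    intro k
    have h1 : η = Complex.exp (η.arg * I) := by
      have := Complex.norm_mul_exp_arg_mul_I η
      rw [hη] at this
      simpa using this.symm
    rw [fourier_coe_apply]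
    conv_rhs => rw [h1]
    rw [← Complex.exp_nat_mul]
    congr 1
    have : (Real.pi : ℂ) ≠ 0 := by exact_mod_cast Real.pi_ne_zero
    push_cast
    field_simp
  let x0 : UnitAddTorus (OP M) := fun q => if (q : ℕ) = p then θ else 0
  have hx0 : ∀ n : ℕ, UnitAddTorus.mFourier (ex M n) x0 = co p η n := by
    intro n
    unfold UnitAddTorus.mFourier
    rw [ContinuousMap.coe_mk]
    rw [Finset.prod_eq_single (⟨p, hpM⟩ : OP M)]
    · simp only [x0, ex, if_true]
      rw [hθ, co]
    · intro q _ hq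
      have : (q : ℕ) ≠ p := fun h => hq (Subtype.ext h)
      simp only [x0, this, if_false]
      simp
    · intro h
      exact absurd (Finset.mem_univ _) h
  let U : Set (UnitAddTorus (OP M)) := ⋂ n ∈ Finset.range M,
    {x | ‖UnitAddTorus.mFourier (ex M n) x - co p η n‖ < δ}
  have hU : IsOpen U := by
    refine isOpen_biInter_finset fun n _ => ?_
    exact isOpen_lt (by fun_prop) continuous_const
  have hxU : x0 ∈ U := by
    simp only [U, mem_iInter]
    intro n _
    rw [Set.mem_ofPred_eq, hx0, sub_self, norm_zero]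
    exact hδ
  obtain ⟨k, hk⟩ := kronecker (ω := fr M N) (fr_indep M hN)
    (U := (fun x => x + orb (fr M N) L₀) ⁻¹' U) (hU.preimage (by fun_prop))
    (x := x0 - orb (fr M N) L₀) (by
      rw [mem_preimage, sub_add_cancel]
      exact hxU)
  have hk' : orb (fr M N) (k + L₀) ∈ U := by
    have : orb (fr M N) (k + L₀) = orb (fr M N) k + orb (fr M N) L₀ := by
      funext i
      simp only [orb, Pi.add_apply]
      rw [← AddCircle.coe_add]
      congr 1
      push_cast
      ring
    rw [this]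
    exact hk
  refine ⟨N * (k + L₀), ?_, dvd_mul_right _ _, fun n hn hn0 => ?_⟩
  · calc L₀ ≤ k + L₀ := by omega
      _ ≤ N * (k + L₀) := Nat.le_mul_of_pos_left _ hN
  · have hnM : n < M := lt_of_lt_of_le hn0 (le_max_left _ _)
    simp only [U, mem_iInter] at hk'
    have h1 := hk' n (Finset.mem_range.2 hnM)
    rw [Set.mem_ofPred_eq, mF_value M (k + L₀) hn hnM] at h1
    exact h1

lemma norm_shift (L : ℕ) {n : ℕ} (hn : n ≠ 0) : ‖(n : ℂ) ^ (-(τ * (L : ℂ)))‖ = 1 := by
  rw [Complex.norm_natCast_cpow_of_pos (Nat.pos_of_ne_zero hn)]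
  have : (-(τ * (L : ℂ))).re = 0 := by
    have : -(τ * (L : ℂ)) = ((-(2 * Real.pi / Real.log 2 * L) : ℝ) : ℂ) * I := by
      rw [τ]; push_cast; ring
    rw [this, Complex.re_ofReal_mul, Complex.I_re, mul_zero]
  rw [this, Real.rpow_zero]

end Sh

open Sh in
theorem shifts : Shifts := by
  intro p hp hp2 η hη N hN σ₀ ε hσ hε L₀
  have hu := summable_u hσ
  set u : ℕ → ℝ := fun n => (n : ℝ) ^ (-σ₀) with hudef
  have hu0 : ∀ n, 0 ≤ u n := fun n => by simp only [hudef]; positivity
  set T := ∑' n, u n with hT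
  have hT0 : 0 ≤ T := tsum_nonneg hu0
  -- the tail
  obtain ⟨n0, hn0⟩ : ∃ n0 : ℕ, ∑' k, u (k + n0) < ε / 4 := by
    have := (tendsto_sum_nat_add u).eventually (gt_mem_nhds (show (0:ℝ) < ε / 4 by positivity))
    exact this.exists
  have htail : ∑' n, ({n | n0 ≤ n} : Set ℕ).indicator u n = ∑' k, u (k + n0) := by
    have hinj : Function.Injective (fun k : ℕ => k + n0) := fun a b h => by
      have : a + n0 = b + n0 := h
      omega
    have hs : Function.support (({n | n0 ≤ n} : Set ℕ).indicator u) ⊆ range (fun k : ℕ => k + n0) := by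
      intro n hn
      have : n ∈ ({n | n0 ≤ n} : Set ℕ) := by
        by_contra h
        exact hn (indicator_of_notMem h _)
      exact ⟨n - n0, Nat.sub_add_cancel this⟩
    rw [← hinj.tsum_eq hs]
    refine tsum_congr fun m => ?_
    rw [indicator_of_mem (show m + n0 ∈ ({n | n0 ≤ n} : Set ℕ) from Nat.le_add_left _ _)]
  set δ := ε / (2 * (T + 1)) with hδ
  have hδ0 : 0 < δ := by positivity
  obtain ⟨L, hL1, hL2, hL3⟩ := approx hp hp2 hη hN n0 hδ0 L₀
  refine ⟨L, hL1, hL2, fun s hs => ?_⟩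
  have hs1 : 1 < s.re := lt_of_lt_of_le hσ hs
  have hre : (s + τ * L).re = s.re := by
    have : (τ * (L : ℂ)) = ((2 * Real.pi / Real.log 2 * L : ℝ) : ℂ) * I := by
      rw [τ]; push_cast; ring
    rw [this, Complex.add_re, Complex.re_ofReal_mul, Complex.I_re, mul_zero, add_zero]
  have hne : -s ≠ 0 := by
    intro h
    have : s.re = 0 := by
      have := congrArg Complex.re h
      simpa using this
    linarith
  have hne' : -(s + τ * L) ≠ 0 := by
    intro h
    have : (s + τ * L).re = 0 := by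
      have := congrArg Complex.re h
      rw [Complex.neg_re] at this
      simp only [Complex.zero_re] at this
      linarith
    rw [hre] at this
    linarith
  have hsum1 : Summable (fun n : ℕ => (n : ℂ) ^ (-(s + τ * L))) :=
    Summable.of_norm_bounded hu fun n => norm_cpow _ hσ (by rw [hre]; exact hs) n
  rw [rot_zeta hp hη s hs1, zeta_sum (s + τ * L) (by rw [hre]; exact hs1),
    ← hsum1.tsum_sub (summable_co p hη s hs1)]
  have hbound : ∀ n : ℕ, ‖(n : ℂ) ^ (-(s + τ * L)) - co p η n * (n : ℂ) ^ (-s)‖ ≤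
      δ * u n + 2 * ({n | n0 ≤ n} : Set ℕ).indicator u n := by
    intro n
    have hind : 0 ≤ ({n | n0 ≤ n} : Set ℕ).indicator u n := indicator_nonneg (fun m _ => hu0 m) n
    rcases Nat.eq_zero_or_pos n with rfl | hn
    · rw [Nat.cast_zero, Complex.zero_cpow hne, Complex.zero_cpow hne', mul_zero, sub_zero, norm_zero]
      have := hu0 0
      positivity
    · have h1 : (n : ℂ) ^ (-(s + τ * L)) = (n : ℂ) ^ (-(τ * (L : ℂ))) * (n : ℂ) ^ (-s) := by
        rw [← Complex.cpow_add _ _ (by exact_mod_cast hn.ne')]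
        congr 1
        ring
      rw [h1, ← sub_mul, norm_mul]
      have h2 := norm_cpow s hσ hs n
      by_cases hlt : n < n0
      · have h3 := (hL3 n hn.ne' hlt).le
        calc _ ≤ δ * u n := mul_le_mul h3 h2 (norm_nonneg _) hδ0.le
          _ ≤ _ := by linarith
      · rw [indicator_of_mem (show n ∈ ({n | n0 ≤ n} : Set ℕ) from not_lt.1 hlt)]
        have h3 : ‖(n : ℂ) ^ (-(τ * (L : ℂ))) - co p η n‖ ≤ 2 := by
          refine (norm_sub_le _ _).trans ?_
          rw [norm_shift L hn.ne', norm_co p hη]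
          norm_num
        calc _ ≤ 2 * u n := mul_le_mul h3 h2 (norm_nonneg _) (by norm_num)
          _ ≤ _ := by
            have := hu0 n
            have : 0 ≤ δ * u n := by positivity
            linarith
  have hsb : Summable (fun n => δ * u n + 2 * ({n | n0 ≤ n} : Set ℕ).indicator u n) :=
    (hu.mul_left δ).add ((hu.indicator _).mul_left 2)
  refine (tsum_of_norm_bounded hsb.hasSum hbound).trans ?_
  rw [Summable.tsum_add (hu.mul_left δ) ((hu.indicator _).mul_left 2), tsum_mul_left, tsum_mul_left,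
    htail]
  have h5 : δ * T ≤ ε / 2 := by
    rw [hδ, div_mul_eq_mul_div, div_le_div_iff₀ (by positivity) (by norm_num)]
    nlinarith
  linarith

end Pool.Agent.K4H52.AP
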