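import Pool.Agent.K4H52.AP.Spec2

/-!
# A path with convergent zeta goes to the far right or up or down a strip
-/

set_option autoImplicit false

open Complex Filter Topology Set

namespace Pool.Agent.K4H52.AP

theorem tail_gap {D : Set ℝ} {l : Filter ℝ} {φ : ℝ → ℝ} (hT : Tail D l) (hc : ContinuousOn φ D)
    {c d : ℝ} (hcd : c ≤ d) (h : ∀ᶠ t in l, ¬(c ≤ φ t ∧ φ t ≤ d)) :
    (∀ᶠ t in l, φ t < c) ∨ ∀ᶠ t in l, d < φ t := by
  obtain ⟨t₁, ht₁, hS⟩ := hT.basis.mem_iff.1 h
  have hSl := hT.basis.mem_of_mem ht₁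
  have hpre : IsPreconnected {t | t ∈ D ∧ t₁ ≤ t} :=
    (hT.conn.inter ordConnected_Ici).isPreconnected
  have hcont : ContinuousOn φ {t | t ∈ D ∧ t₁ ≤ t} := hc.mono fun t ht => ht.1
  have h1 : t₁ ∈ {t | t ∈ D ∧ t₁ ≤ t} := ⟨ht₁, le_rfl⟩
  have hnot : ∀ t ∈ {t | t ∈ D ∧ t₁ ≤ t}, ¬(c ≤ φ t ∧ φ t ≤ d) := fun t ht => hS ht
  rcases lt_or_ge (φ t₁) c with h2 | h2
  · left
    filter_upwards [hSl] with t ht
    by_contra hcon
    push Not at hcon
    obtain ⟨t₃, h3, h4⟩ := hpre.intermediate_value h1 ht hcont ⟨h2.le, hcon⟩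
    exact hnot t₃ h3 ⟨h4.ge, h4.le.trans hcd⟩
  · right
    have h2' : d < φ t₁ := by
      by_contra hcon
      push Not at hcon
      exact hnot t₁ h1 ⟨h2, hcon⟩
    filter_upwards [hSl] with t ht
    by_contra hcon
    push Not at hcon
    obtain ⟨t₃, h3, h4⟩ := hpre.intermediate_value ht h1 hcont ⟨hcon, h2'.le⟩
    exact hnot t₃ h3 ⟨hcd.trans h4.ge, h4.le⟩

theorem stripOrRight (h1 : Wall) (h2 : RightDeriv) (h3 : Stuck) : StripOrRight := by
  intro D l ψ a hP
  have hT := hP.tail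
  have hψ : ContinuousOn ψ D := fun t ht => (hP.an t ht).continuousAt.continuousWithinAt
  have hre : ContinuousOn (fun t => (ψ t).re) D := Complex.continuous_re.comp_continuousOn hψ
  have him : ContinuousOn (fun t => (ψ t).im) D := Complex.continuous_im.comp_continuousOn hψ
  by_cases hlt : ∀ᶠ t in l, (ψ t).re < 4
  · right
    -- the wall on the left
    have hleft : ∃ K : ℝ, ∀ᶠ t in l, -K < (ψ t).re := by
      have hbd : ∀ᶠ t in l, ‖riemannZeta (ψ t)‖ < ‖a‖ + 1 :=
        hP.lim.norm.eventually_lt_const (show ‖a‖ < ‖a‖ + 1 by linarith)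
      obtain ⟨k₀, hk₀⟩ := h1 (‖a‖ + 1)
      obtain ⟨t₁, ht₁, hS⟩ := hT.basis.mem_iff.1 hbd
      have hSl := hT.basis.mem_of_mem ht₁
      have hpre : IsPreconnected {t | t ∈ D ∧ t₁ ≤ t} :=
        (hT.conn.inter ordConnected_Ici).isPreconnected
      obtain ⟨n, hn⟩ := exists_nat_gt (-(ψ t₁).re)
      set k : ℕ := max k₀ n with hk
      have hkn : (n : ℝ) ≤ k := by exact_mod_cast le_max_right k₀ n
      have hk0 : (0 : ℝ) ≤ k := Nat.cast_nonneg k
      refine ⟨2 * (k : ℝ) + 1, ?_⟩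
      filter_upwards [hSl] with t ht
      by_contra hcon
      push Not at hcon
      obtain ⟨t₃, h4, h5⟩ := hpre.intermediate_value ht
        (show t₁ ∈ {t | t ∈ D ∧ t₁ ≤ t} from ⟨ht₁, le_rfl⟩) (hre.mono fun t ht => ht.1)
        (show -(2 * (k : ℝ) + 1) ∈ Icc (ψ t).re (ψ t₁).re from ⟨hcon, by linarith⟩)
      have h6 := hk₀ k (le_max_left _ _) (ψ t₃).im
      have h7 : (-(2 * (k : ℂ) + 1) + ((ψ t₃).im : ℂ) * I) = ψ t₃ := by
        have h5' : (ψ t₃).re = -(2 * (k : ℝ) + 1) := h5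
        rw [← re_add_im (ψ t₃), h5']
        push_cast
        simp
      rw [h7] at h6
      have h8 : ‖riemannZeta (ψ t₃)‖ < ‖a‖ + 1 := hS h4
      linarith
    obtain ⟨K, hK⟩ := hleft
    refine ⟨⟨K, hK.and hlt⟩, ?_⟩
    -- the imaginary part
    have habs : Tendsto (fun t => |(ψ t).im|) l atTop := by
      have h4 : Tendsto (fun t => ‖ψ t‖ - (|K| + 4)) l atTop :=
        tendsto_atTop_add_const_right _ _ hP.inf
      refine tendsto_atTop_mono' l ?_ h4
      filter_upwards [hK, hlt] with t ht1 ht2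
      have h5 := Complex.norm_le_abs_re_add_abs_im (ψ t)
      have h6 : |(ψ t).re| ≤ |K| + 4 := by
        rw [abs_le]
        have := neg_abs_le K
        have := le_abs_self K
        have := abs_nonneg K
        constructor <;> linarith
      linarith
    have hgap : ∀ᶠ t in l, ¬(-1 ≤ (ψ t).im ∧ (ψ t).im ≤ 1) := by
      filter_upwards [habs.eventually_gt_atTop 1] with t ht h
      exact absurd (abs_le.2 h) (not_le.2 ht)
    rcases tail_gap hT him (by norm_num : (-1 : ℝ) ≤ 1) hgap with h4 | h4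
    · right
      have h5 : Tendsto (fun t => -|(ψ t).im|) l atBot := tendsto_neg_atTop_atBot.comp habs
      refine h5.congr' ?_
      filter_upwards [h4] with t ht
      rw [abs_of_neg (by linarith), neg_neg]
    · left
      refine habs.congr' ?_
      filter_upwards [h4] with t ht
      exact abs_of_pos (by linarith)
  · left
    rw [tendsto_atTop]
    intro R
    set R' : ℝ := max R 4 with hR'
    obtain ⟨c, hc, hder⟩ := h2 R'
    have hgap : ∀ᶠ t in l, ¬(4 ≤ (ψ t).re ∧ (ψ t).re ≤ R') := by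
      filter_upwards [h3 D l ψ a hP 4 c (by norm_num) hc] with t ht h
      exact ht ⟨h.1, hder _ h.1 h.2⟩
    rcases tail_gap hT hre (le_max_right R 4) hgap with h4 | h4
    · exact absurd h4 hlt
    · filter_upwards [h4] with t ht
      exact (le_max_left R 4).trans ht.le

end Pool.Agent.K4H52.AP
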