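import Mathlib
import Pool.Agent.K4H52.AP.Spec2

/-!
# A path to infinity on which zeta converges cannot stay where zeta is steep
-/

set_option autoImplicit false

open Complex Filter Topology Set

namespace Pool.Agent.K4H52.AP

theorem zeta_norm_le {σ₁ : ℝ} (h1 : 1 < σ₁) :
    ∃ B : ℝ, 0 < B ∧ ∀ s : ℂ, σ₁ ≤ s.re → ‖riemannZeta s‖ ≤ B := by
  have hsum : Summable fun n : ℕ => 1 / ((n : ℝ) + 1) ^ σ₁ := by
    have := (summable_nat_add_iff 1).2 (Real.summable_one_div_nat_rpow.2 h1)
    simpa using this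
  refine ⟨∑' n : ℕ, 1 / ((n : ℝ) + 1) ^ σ₁ + 1, ?_, ?_⟩
  · have : 0 ≤ ∑' n : ℕ, 1 / ((n : ℝ) + 1) ^ σ₁ := tsum_nonneg fun n => by positivity
    linarith
  · intro s hs
    rw [zeta_eq_tsum_one_div_nat_add_one_cpow (by linarith : 1 < s.re)]
    have h2 : ∀ n : ℕ, ‖1 / ((n : ℂ) + 1) ^ s‖ ≤ 1 / ((n : ℝ) + 1) ^ σ₁ := by
      intro n
      have h3 : ((n : ℂ) + 1) = (((n : ℝ) + 1 : ℝ) : ℂ) := by push_cast; ring
      rw [norm_div, norm_one, h3, Complex.norm_cpow_eq_rpow_re_of_pos (by positivity)]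
      apply one_div_le_one_div_of_le (by positivity)
      exact Real.rpow_le_rpow_of_exponent_le (by
        have : (0 : ℝ) ≤ n := Nat.cast_nonneg n
        linarith) hs
    have h4 := tsum_of_norm_bounded hsum.hasSum h2
    linarith

theorem diffOn {s : ℂ} {R : ℝ} (h : 1 < s.re - R) : DifferentiableOn ℂ riemannZeta
    (Metric.closedBall s R) := by
  intro z hz
  have h2 : z ≠ 1 := by
    rintro rfl
    rw [Metric.mem_closedBall, dist_comm, dist_eq_norm] at hz
    have := (abs_re_le_norm (s - 1)).trans hz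
    rw [sub_re, one_re] at this
    have := (le_abs_self _).trans this
    linarith
  exact (an_zeta h2).differentiableAt.differentiableWithinAt

theorem re_ball {s z : ℂ} {R : ℝ} (h : dist z s ≤ R) : s.re - R ≤ z.re := by
  rw [dist_comm, dist_eq_norm] at h
  have := (abs_re_le_norm (s - z)).trans h
  rw [sub_re] at this
  have := (le_abs_self _).trans this
  linarith

theorem steep {σ₀ c : ℝ} (hσ : 1 < σ₀) (hc : 0 < c) : ∃ r ε : ℝ, 0 < r ∧ 0 < ε ∧
    ∀ s z : ℂ, σ₀ ≤ s.re → c ≤ ‖deriv riemannZeta s‖ → dist z s = r →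
      ε < ‖riemannZeta z - riemannZeta s‖ := by
  obtain ⟨B, hB0, hB⟩ := zeta_norm_le (σ₁ := (1 + σ₀) / 2) (by linarith)
  set ρ : ℝ := (σ₀ - 1) / 6 with hρ
  have hρ0 : 0 < ρ := by rw [hρ]; linarith
  have hd1 : ∀ s : ℂ, (1 + σ₀) / 2 + ρ ≤ s.re → ‖deriv riemannZeta s‖ ≤ B / ρ := by
    intro s hs
    apply Complex.norm_deriv_le_of_forall_mem_sphere_norm_le hρ0
    · apply DifferentiableOn.diffContOnCl
      rw [closure_ball _ hρ0.ne']
      exact diffOn (by linarith)
    · intro z hz
      apply hB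
      have := re_ball (Metric.mem_sphere.1 hz).le
      linarith
  have hd2 : ∀ s : ℂ, (1 + σ₀) / 2 + 2 * ρ ≤ s.re →
      ‖deriv (deriv riemannZeta) s‖ ≤ B / ρ / ρ := by
    intro s hs
    apply Complex.norm_deriv_le_of_forall_mem_sphere_norm_le hρ0
    · apply DifferentiableOn.diffContOnCl
      rw [closure_ball _ hρ0.ne']
      intro z hz
      have h2 : z ≠ 1 := by
        rintro rfl
        have := re_ball (Metric.mem_closedBall.1 hz)
        rw [one_re] at this
        linarith
      exact (deriv_an z h2).differentiableAt.differentiableWithinAt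
    · intro z hz
      apply hd1
      have := re_ball (Metric.mem_sphere.1 hz).le
      linarith
  set B' : ℝ := B / ρ / ρ with hB'
  have hB'0 : 0 < B' := by positivity
  set r : ℝ := min ρ (c / (4 * B')) with hr
  have hr0 : 0 < r := by positivity
  have hrρ : r ≤ ρ := min_le_left _ _
  have hrc : B' * r ≤ c / 4 := by
    have h1 : r ≤ c / (4 * B') := min_le_right _ _
    calc B' * r ≤ B' * (c / (4 * B')) := by gcongr
      _ = c / 4 := by field_simp
  refine ⟨r, c * r / 4, hr0, by positivity, ?_⟩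
  intro s z hs hcs hz
  have hre : ∀ w ∈ Metric.closedBall s r, (1 + σ₀) / 2 + 2 * ρ ≤ w.re := by
    intro w hw
    have := re_ball (Metric.mem_closedBall.1 hw)
    linarith
  have hne : ∀ w ∈ Metric.closedBall s r, w ≠ 1 := by
    rintro w hw rfl
    have := hre _ hw
    rw [one_re] at this
    linarith
  have hconv : Convex ℝ (Metric.closedBall s r) := convex_closedBall s r
  have hs0 : s ∈ Metric.closedBall s r := Metric.mem_closedBall_self hr0.le
  have hz0 : z ∈ Metric.closedBall s r := Metric.mem_closedBall.2 hz.le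
  have hdd : ∀ w ∈ Metric.closedBall s r, ‖deriv riemannZeta w - deriv riemannZeta s‖ ≤ B' * r := by
    intro w hw
    have h1 := hconv.norm_image_sub_le_of_norm_deriv_le (f := deriv riemannZeta) (C := B')
      (fun x hx => (deriv_an x (hne x hx)).differentiableAt) (fun x hx => hd2 x (hre x hx)) hs0 hw
    have h2 : ‖w - s‖ ≤ r := by
      rw [← dist_eq_norm]
      exact Metric.mem_closedBall.1 hw
    exact h1.trans (by gcongr)
  have hg : ∀ w ∈ Metric.closedBall s r,
      HasDerivAt (fun w => riemannZeta w - deriv riemannZeta s * w)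
        (deriv riemannZeta w - deriv riemannZeta s) w := by
    intro w hw
    have h1 := (an_zeta (hne w hw)).differentiableAt.hasDerivAt
    have h2 := (hasDerivAt_id w).const_mul (deriv riemannZeta s)
    have h3 := h1.sub h2
    rw [mul_one] at h3
    exact h3
  have h4 := hconv.norm_image_sub_le_of_norm_deriv_le
    (f := fun w => riemannZeta w - deriv riemannZeta s * w) (C := B' * r)
    (fun x hx => (hg x hx).differentiableAt) (fun x hx => by
      rw [(hg x hx).deriv]; exact hdd x hx) hs0 hz0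
  have h5 : ‖z - s‖ = r := by rw [← dist_eq_norm]; exact hz
  rw [h5] at h4
  have h6 : riemannZeta z - deriv riemannZeta s * z - (riemannZeta s - deriv riemannZeta s * s) =
      (riemannZeta z - riemannZeta s) - deriv riemannZeta s * (z - s) := by ring
  simp only [h6] at h4
  have h7 : ‖deriv riemannZeta s * (z - s)‖ = ‖deriv riemannZeta s‖ * r := by rw [norm_mul, h5]
  have h8 : ‖deriv riemannZeta s * (z - s)‖ - ‖riemannZeta z - riemannZeta s‖ ≤ B' * r * r := by
    have h12 := norm_sub_norm_le (deriv riemannZeta s * (z - s)) (riemannZeta z - riemannZeta s)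
    rw [norm_sub_rev (deriv riemannZeta s * (z - s))] at h12
    exact h12.trans h4
  rw [h7] at h8
  have h9 : c * r ≤ ‖deriv riemannZeta s‖ * r := by gcongr
  have h10 : B' * r * r ≤ c / 4 * r := by gcongr
  nlinarith [mul_pos hc hr0]

theorem stuck : Stuck := by
  intro D l ψ a hP σ₀ c hσ hc
  by_contra hcon
  rw [not_eventually] at hcon
  obtain ⟨r, ε, hr, hε, hst⟩ := steep hσ hc
  have hT := hP.tail
  have := hT.neBot
  have h1 : ∀ᶠ t in l, ‖riemannZeta (ψ t) - a‖ < ε / 2 := by
    have h6 : Tendsto (fun t => ‖riemannZeta (ψ t) - a‖) l (𝓝 0) := by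
      have := (hP.lim.sub (tendsto_const_nhds (x := a))).norm
      simpa using this
    exact h6.eventually_lt_const (by positivity)
  obtain ⟨t₁, ht₁, hS⟩ := hT.basis.mem_iff.1 h1
  have hSl := hT.basis.mem_of_mem ht₁
  obtain ⟨t₂, h2, h3⟩ := (hcon.and_eventually hSl).exists
  rw [not_not] at h2
  have h4 : ∀ᶠ t in l, r + ‖ψ t₂‖ < ‖ψ t‖ := hP.inf.eventually_gt_atTop _
  obtain ⟨t₄, h5, h6⟩ := (h4.and hSl).exists
  have hcont : ContinuousOn (fun t => dist (ψ t) (ψ t₂)) {t | t ∈ D ∧ t₁ ≤ t} := by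
    intro t ht
    have h13 : ContinuousAt (fun t => dist (ψ t) (ψ t₂)) t :=
      (hP.an t ht.1).continuousAt.dist continuousAt_const
    exact h13.continuousWithinAt
  have h7 : r ≤ dist (ψ t₄) (ψ t₂) := by
    rw [dist_eq_norm]
    have := norm_sub_norm_le (ψ t₄) (ψ t₂)
    linarith
  have hpre : IsPreconnected {t | t ∈ D ∧ t₁ ≤ t} :=
    (hT.conn.inter ordConnected_Ici).isPreconnected
  obtain ⟨t₃, h8, h9⟩ := hpre.intermediate_value h3 h6 hcont
    ⟨by simp only [dist_self]; exact hr.le, h7⟩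
  have h10 := hst (ψ t₂) (ψ t₃) h2.1 h2.2 h9
  have h11 : ‖riemannZeta (ψ t₃) - a‖ < ε / 2 := hS h8
  have h12 : ‖riemannZeta (ψ t₂) - a‖ < ε / 2 := hS h3
  have h13 : ‖riemannZeta (ψ t₃) - riemannZeta (ψ t₂)‖ < ε := by
    calc ‖riemannZeta (ψ t₃) - riemannZeta (ψ t₂)‖ =
        ‖(riemannZeta (ψ t₃) - a) - (riemannZeta (ψ t₂) - a)‖ := by ring_nf
      _ ≤ ‖riemannZeta (ψ t₃) - a‖ + ‖riemannZeta (ψ t₂) - a‖ := norm_sub_le _ _
      _ < ε := by linarith
  exact absurd h10 (not_lt.2 h13.le)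

end Pool.Agent.K4H52.AP
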