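import Pool.Agent.K4H52.AP.Spec

/-!
Piece P1: on the far left vertical lines through odd negative integers the zeta function is large.
-/

set_option autoImplicit false

open Complex Filter Topology Set

namespace Pool.Agent.K4H52.AP

namespace WallAux

lemma sinh_le_mul_cosh {u : ℝ} (hu : 0 < u) : Real.sinh u ≤ u * Real.cosh u := by
  obtain ⟨c, hc, h⟩ := exists_hasDerivAt_eq_slope Real.sinh Real.cosh hu
    Real.continuous_sinh.continuousOn (fun x _ => Real.hasDerivAt_sinh x)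
  have h1 : Real.cosh c ≤ Real.cosh u := by
    rw [Real.cosh_le_cosh, abs_of_pos hc.1, abs_of_pos hu]
    exact hc.2.le
  rw [Real.sinh_zero, sub_zero, sub_zero, eq_div_iff hu.ne'] at h
  nlinarith

lemma norm_Gamma_symm (n : ℝ) (y : ℝ) :
    ‖Complex.Gamma ((n : ℂ) - (y : ℂ) * I)‖ = ‖Complex.Gamma ((n : ℂ) + (y : ℂ) * I)‖ := by
  have h : (n : ℂ) - (y : ℂ) * I = (starRingEnd ℂ) ((n : ℂ) + (y : ℂ) * I) := by
    simp [sub_eq_add_neg]
  rw [h, Complex.Gamma_conj, Complex.norm_conj]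

/-- the value on the line `Re s = 1` -/
lemma norm_Gamma_one (y : ℝ) :
    1 ≤ ‖Complex.Gamma (1 - (y : ℂ) * I)‖ ^ 2 * Real.cosh (Real.pi * y / 2) ^ 2 := by
  wlog hy : 0 ≤ y generalizing y with H
  · have h := H (-y) (by linarith)
    have h1 := norm_Gamma_symm 1 y
    rw [ofReal_one] at h1
    rw [h1]
    have e : (1 : ℂ) - ((-y : ℝ) : ℂ) * I = 1 + (y : ℂ) * I := by push_cast; ring
    rw [e, show Real.pi * -y / 2 = -(Real.pi * y / 2) by ring, Real.cosh_neg] at h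
    exact h
  rcases hy.eq_or_lt with h0 | hy
  · subst h0
    simp
  have hyI : (y : ℂ) * I ≠ 0 := mul_ne_zero (by exact_mod_cast hy.ne') I_ne_zero
  have h1 := Complex.Gamma_mul_Gamma_one_sub ((y : ℂ) * I)
  have h2 := Complex.Gamma_add_one ((y : ℂ) * I) hyI
  have h3 : ‖Complex.Gamma ((y : ℂ) * I + 1)‖ = ‖Complex.Gamma (1 - (y : ℂ) * I)‖ := by
    have := norm_Gamma_symm 1 y
    rw [ofReal_one] at this
    rw [this, add_comm]
  have h4 : ‖Complex.sin (Real.pi * ((y : ℂ) * I))‖ = Real.sinh (Real.pi * y) := by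
    rw [show (Real.pi : ℂ) * ((y : ℂ) * I) = ((Real.pi * y : ℝ) : ℂ) * I by push_cast; ring,
      Complex.sin_mul_I, norm_mul, norm_I, mul_one, ← Complex.ofReal_sinh, Complex.norm_real,
      Real.norm_eq_abs, abs_of_nonneg (Real.sinh_nonneg_iff.2 (by positivity))]
  have hs : 0 < Real.sinh (Real.pi * y) := Real.sinh_pos_iff.2 (by positivity)
  have h5 : ‖Complex.Gamma (1 - (y : ℂ) * I)‖ ^ 2 = y * Real.pi / Real.sinh (Real.pi * y) := by
    have e1 : ‖Complex.Gamma ((y : ℂ) * I + 1)‖ = y * ‖Complex.Gamma ((y : ℂ) * I)‖ := by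
      rw [h2, norm_mul, norm_mul, norm_I, mul_one, Complex.norm_real, Real.norm_eq_abs,
        abs_of_pos hy]
    have e2 : ‖Complex.Gamma ((y : ℂ) * I)‖ * ‖Complex.Gamma (1 - (y : ℂ) * I)‖ =
        Real.pi / Real.sinh (Real.pi * y) := by
      rw [← norm_mul, h1, norm_div, h4, Complex.norm_real, Real.norm_eq_abs,
        abs_of_pos Real.pi_pos]
    calc ‖Complex.Gamma (1 - (y : ℂ) * I)‖ ^ 2 =
        ‖Complex.Gamma ((y : ℂ) * I + 1)‖ * ‖Complex.Gamma (1 - (y : ℂ) * I)‖ := by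
          rw [h3]; ring
      _ = y * (‖Complex.Gamma ((y : ℂ) * I)‖ * ‖Complex.Gamma (1 - (y : ℂ) * I)‖) := by
          rw [e1]; ring
      _ = _ := by rw [e2]; ring
  have hu : 0 < Real.pi * y / 2 := by positivity
  have h6 := sinh_le_mul_cosh hu
  have h7 : Real.sinh (Real.pi * y) = 2 * Real.sinh (Real.pi * y / 2) *
      Real.cosh (Real.pi * y / 2) := by
    rw [← Real.sinh_two_mul]
    congr 1
    ring
  rw [h5, div_mul_eq_mul_div, le_div_iff₀ hs, one_mul, h7]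
  have hc : 0 < Real.cosh (Real.pi * y / 2) := Real.cosh_pos _
  calc 2 * Real.sinh (Real.pi * y / 2) * Real.cosh (Real.pi * y / 2) ≤
      2 * (Real.pi * y / 2 * Real.cosh (Real.pi * y / 2)) * Real.cosh (Real.pi * y / 2) := by
        gcongr
    _ = y * Real.pi * Real.cosh (Real.pi * y / 2) ^ 2 := by ring

lemma norm_Gamma_one' (y : ℝ) :
    1 ≤ ‖Complex.Gamma (1 - (y : ℂ) * I)‖ * Real.cosh (Real.pi * y / 2) := by
  have h := norm_Gamma_one y
  rw [← mul_pow] at h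
  have h0 : 0 ≤ ‖Complex.Gamma (1 - (y : ℂ) * I)‖ * Real.cosh (Real.pi * y / 2) :=
    mul_nonneg (norm_nonneg _) (Real.cosh_pos _).le
  by_contra hlt
  push Not at hlt
  nlinarith

lemma norm_Gamma_nat (n : ℕ) (y : ℝ) : (n.factorial : ℝ) ≤
    ‖Complex.Gamma ((n : ℂ) + 1 - (y : ℂ) * I)‖ * Real.cosh (Real.pi * y / 2) := by
  induction n with
  | zero => simpa using norm_Gamma_one' y
  | succ n ih =>
    have hne : (n : ℂ) + 1 - (y : ℂ) * I ≠ 0 := by
      intro h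
      have := congrArg Complex.re h
      simp at this
      have h0 : (0 : ℝ) ≤ n := Nat.cast_nonneg n
      linarith
    have e : (((n + 1 : ℕ) : ℂ) + 1 - (y : ℂ) * I) = ((n : ℂ) + 1 - (y : ℂ) * I) + 1 := by
      push_cast; ring
    have hn : ((n : ℝ) + 1) ≤ ‖(n : ℂ) + 1 - (y : ℂ) * I‖ := by
      refine le_trans (le_of_eq ?_) (Complex.re_le_norm _)
      simp
    rw [e, Complex.Gamma_add_one _ hne, norm_mul, Nat.factorial_succ]
    push_cast
    have h0 : (0 : ℝ) ≤ (n.factorial : ℝ) := by positivity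
    calc ((n : ℝ) + 1) * (n.factorial : ℝ) ≤ ‖(n : ℂ) + 1 - (y : ℂ) * I‖ *
        (‖Complex.Gamma ((n : ℂ) + 1 - (y : ℂ) * I)‖ * Real.cosh (Real.pi * y / 2)) := by
          gcongr
      _ = _ := by ring

lemma norm_zeta_ge {s : ℂ} (hs : 2 ≤ s.re) : 1 / 3 ≤ ‖riemannZeta s‖ := by
  have hs1 : 1 < s.re := by linarith
  have h1 := zeta_eq_tsum_one_div_nat_add_one_cpow hs1
  have hsum : Summable (fun n : ℕ => 1 / (n + 1 : ℂ) ^ s) := by
    have := (Complex.summable_one_div_nat_cpow (p := s)).2 hs1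
    have h2 := (summable_nat_add_iff 1).2 this
    simpa using h2
  have hz2 : HasSum (fun n : ℕ => (1 : ℝ) / ((n : ℝ) + 2) ^ 2) (Real.pi ^ 2 / 6 - 1) := by
    have h := (hasSum_nat_add_iff' 2).2 hasSum_zeta_two
    simpa [Finset.sum_range_succ] using h
  rw [hsum.tsum_eq_zero_add] at h1
  have hb : ‖∑' n : ℕ, 1 / (((n + 1 : ℕ) : ℂ) + 1) ^ s‖ ≤ Real.pi ^ 2 / 6 - 1 := by
    refine tsum_of_norm_bounded hz2 fun n => ?_
    have e : (((n + 1 : ℕ) : ℂ) + 1) = (((n : ℝ) + 2 : ℝ) : ℂ) := by push_cast; ring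
    have hp : (0 : ℝ) < (n : ℝ) + 2 := by positivity
    rw [e, norm_div, norm_one, Complex.norm_cpow_eq_rpow_re_of_pos hp]
    have : ((n : ℝ) + 2) ^ 2 ≤ ((n : ℝ) + 2) ^ s.re := by
      rw [← Real.rpow_natCast]
      exact Real.rpow_le_rpow_of_exponent_le (by linarith) (by exact_mod_cast hs)
    exact one_div_le_one_div_of_le (by positivity) this
  have hpi : Real.pi ^ 2 / 6 - 1 ≤ 2 / 3 := by
    have h3 := Real.pi_lt_d2
    have h4 := Real.pi_pos
    nlinarith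
  have h5 : riemannZeta s = 1 + ∑' n : ℕ, 1 / (((n + 1 : ℕ) : ℂ) + 1) ^ s := by
    rw [h1]
    simp
  rw [h5]
  have h6 := norm_sub_le_norm_add (1 : ℂ) (∑' n : ℕ, 1 / (((n + 1 : ℕ) : ℂ) + 1) ^ s)
  rw [norm_one] at h6
  linarith

end WallAux

open WallAux in
theorem wall : Wall := by
  intro M
  have hlim : Tendsto (fun n : ℕ => (2 * Real.pi) ^ n / (n.factorial : ℝ)) atTop (𝓝 0) :=
    FloorSemiring.tendsto_pow_div_factorial_atTop (2 * Real.pi)
  have hε : (0 : ℝ) < 2 / (3 * (2 * Real.pi) * (|M| + 1)) := by positivity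
  obtain ⟨N, hN⟩ := Filter.eventually_atTop.1 (hlim.eventually_lt_const hε)
  refine ⟨N, fun k hk y => ?_⟩
  set n : ℕ := 2 * k + 1 with hn
  have hnN : N ≤ n := by omega
  have h1 := hN n hnN
  set s : ℂ := (n : ℂ) + 1 - (y : ℂ) * I with hsdef
  have hsre : s.re = (n : ℝ) + 1 := by simp [hsdef]
  have hn0 : (1 : ℝ) ≤ (n : ℝ) := by
    have : 1 ≤ n := by omega
    exact_mod_cast this
  have hs1 : ∀ j : ℕ, s ≠ -j := by
    intro j h
    have := congrArg Complex.re h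
    rw [hsre] at this
    simp at this
    have h0 : (0 : ℝ) ≤ j := Nat.cast_nonneg j
    linarith
  have hs2 : s ≠ 1 := by
    intro h
    have := congrArg Complex.re h
    rw [hsre, Complex.one_re] at this
    linarith
  have harg : -(2 * (k : ℂ) + 1) + (y : ℂ) * I = 1 - s := by
    rw [hsdef, hn]
    push_cast
    ring
  rw [harg, riemannZeta_one_sub hs1 hs2]
  have hcos : ‖Complex.cos (Real.pi * s / 2)‖ = Real.cosh (Real.pi * y / 2) := by
    have e1 : (Real.pi : ℂ) * s / 2 = ((k + 1 : ℕ) : ℂ) * Real.pi -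
        ((Real.pi * y / 2 : ℝ) : ℂ) * I := by
      rw [hsdef, hn]
      push_cast
      ring
    have e2 : Complex.sin (((k + 1 : ℕ) : ℂ) * Real.pi) = 0 := Complex.sin_nat_mul_pi _
    have e3 : ‖Complex.cos (((k + 1 : ℕ) : ℂ) * Real.pi)‖ = 1 := by
      have e4 : ((k + 1 : ℕ) : ℂ) * Real.pi = ((((k + 1 : ℕ) : ℝ) * Real.pi : ℝ) : ℂ) := by
        push_cast; ring
      rw [e4, ← Complex.ofReal_cos, Complex.norm_real, Real.norm_eq_abs, Real.abs_cos_eq_one_iff]
      exact ⟨((k + 1 : ℕ) : ℤ), by push_cast; ring⟩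
    rw [e1, Complex.cos_sub, e2, zero_mul, add_zero, norm_mul, e3, one_mul, Complex.cos_mul_I,
      ← Complex.ofReal_cosh, Complex.norm_real,
      Real.norm_eq_abs, abs_of_pos (Real.cosh_pos _)]
  have hpow : ‖(2 * (Real.pi : ℂ)) ^ (-s)‖ = 1 / (2 * Real.pi) ^ (n + 1) := by
    have e : (2 * (Real.pi : ℂ)) = ((2 * Real.pi : ℝ) : ℂ) := by push_cast; ring
    rw [e, Complex.norm_cpow_eq_rpow_re_of_pos (by positivity), Complex.neg_re, hsre,
      Real.rpow_neg (by positivity)]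
    rw [one_div, ← Real.rpow_natCast]
    push_cast
    rfl
  have hG := norm_Gamma_nat n y
  have hz := norm_zeta_ge (s := s) (by rw [hsre]; linarith)
  rw [norm_mul, norm_mul, norm_mul, norm_mul, hcos, hpow]
  have h2 : ‖(2 : ℂ)‖ = 2 := by norm_num
  rw [h2]
  have hf : (0 : ℝ) < (n.factorial : ℝ) := by positivity
  have hp : (0 : ℝ) < (2 * Real.pi) ^ n := by positivity
  have h3 : |M| + 1 < 2 * (1 / (2 * Real.pi) ^ (n + 1)) * (n.factorial : ℝ) * (1 / 3) := by
    rw [div_lt_div_iff₀ hf (by positivity)] at h1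
    have e : 2 * (1 / (2 * Real.pi) ^ (n + 1)) * (n.factorial : ℝ) * (1 / 3) =
        2 * (n.factorial : ℝ) / ((2 * Real.pi) ^ n * (3 * (2 * Real.pi))) := by
      rw [pow_succ]
      field_simp
    rw [e, lt_div_iff₀ (by positivity)]
    linarith
  calc M ≤ |M| := le_abs_self M
    _ < |M| + 1 := by linarith
    _ < 2 * (1 / (2 * Real.pi) ^ (n + 1)) * (n.factorial : ℝ) * (1 / 3) := h3
    _ ≤ 2 * (1 / (2 * Real.pi) ^ (n + 1)) *
        (‖Complex.Gamma s‖ * Real.cosh (Real.pi * y / 2)) * ‖riemannZeta s‖ := by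
        gcongr
    _ = _ := by ring

end Pool.Agent.K4H52.AP
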