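import Pool.Agent.K4H52.AP.ThmA2
import Pool.Agent.K4H52.AP.AsymPath
import Pool.Agent.K4H52.AP.Strip
import Pool.Agent.K4H52.AP.NoStrip
import Pool.Agent.K4H52.AP.Stuck
import Pool.Agent.K4H52.AP.Conv
import Pool.Agent.K4H52.AP.LiftExists
import Pool.Agent.K4H52.AP.LiftEnd
import Pool.Agent.K4H52.AP.EndBranch
import Pool.Agent.K4H52.AP.Tract
import Pool.Agent.K4H52.AP.Dense
import Pool.Agent.K4H52.AP.Shifts
import Pool.Agent.K4H52.AP.PathBound
import Pool.Agent.K4H52.AP.Peaks
import Pool.Agent.K4H52.AP.Wall

/-!
# Assembly: the value and distinct inverse branches of zeta are algebraically independent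
-/

set_option autoImplicit false

namespace Pool.Agent.K4H52.AP

theorem asymPath_main : AsymPath :=
  asymPath (stripOrRight wall rightDeriv stuck) (noStrip peaks pathBound stuck)

theorem thmA2_main : ∀ m, ThmA2at m :=
  thmA2at (liftExists conv asymPath_main) (liftEnd conv asymPath_main endBranch)
    (dense_of_shifts shifts) tractExists

/-- Theorem A. -/
theorem thmA_main : ThmA := by
  intro m U s Q hU hne hB hQ
  have h := thmA2_main m U s (MvPolynomial.rename some Q) hU hne hB (by
    intro a ha
    rw [MvPolynomial.eval_rename]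
    exact hQ a ha)
  exact MvPolynomial.rename_injective _ (Option.some_injective _) (by rw [h, map_zero])

end Pool.Agent.K4H52.AP
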