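import Mathlib
import Pool.Agent.K4H52.AP.Countable2
import Pool.Agent.K4H52.AP.RealValues

/-!
# Real values: the value, and the real and imaginary parts of its points
-/

set_option autoImplicit false

open Complex Filter Topology Set ComplexConjugate

namespace Pool.Agent.K4H52.AP

theorem indep_real2 {a : ℝ} {K : Subfield ℝ} {L : Subfield ℂ} (hI : I ∈ L)
    (hKL : ∀ x ∈ K, (x : ℂ) ∈ L)
    (h : AlgebraicIndependent L (fun o : Option (Pts a) => (o.elim (a : ℂ) (fun s => (s : ℂ)) : ℂ))) :
    AlgebraicIndependent K (fun o : Option (Upper a × Bool ⊕ RealPts a) => o.elim a (fam a)) := by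
  let κ : K →+* L :=
    { toFun := fun x => ⟨((x : ℝ) : ℂ), hKL x x.2⟩
      map_one' := by ext; simp
      map_mul' := fun x y => by ext; simp
      map_zero' := by ext; simp
      map_add' := fun x y => by ext; simp }
  let φ : MvPolynomial (Option (Upper a × Bool ⊕ RealPts a)) K →+*
      MvPolynomial (Option (Pts a)) L :=
    MvPolynomial.eval₂Hom (MvPolynomial.C.comp κ) (fun o => o.elim (MvPolynomial.X none)
      (fun x => MvPolynomial.rename some (gsub hI x)))
  let θ : MvPolynomial (Option (Pts a)) L →+*
      MvPolynomial (Option (Upper a × Bool ⊕ RealPts a)) L :=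
    MvPolynomial.eval₂Hom MvPolynomial.C (fun o => o.elim (MvPolynomial.X none)
      (fun x => MvPolynomial.rename some (hsub hI x)))
  have h1 : θ.comp φ = MvPolynomial.map κ := by
    apply MvPolynomial.ringHom_ext
    · intro r
      simp [θ, φ]
    · rintro (_ | ⟨s, b⟩ | x)
      · simp [θ, φ]
      · cases b
        · simp only [RingHom.comp_apply, φ, MvPolynomial.eval₂Hom_X', gsub, Sum.elim_inl,
            Bool.false_eq_true, if_false, map_mul, map_sub, θ, Option.elim_some,
            MvPolynomial.rename_C, MvPolynomial.rename_X, MvPolynomial.eval₂Hom_C,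
            hsub_up, hsub_down, MvPolynomial.map_X, map_add]
          have h0 : (⟨I, hI⟩ : L) ≠ 0 := by
            intro h
            exact I_ne_zero (congrArg Subtype.val h)
          have h6 : (MvPolynomial.C (1 / (2 * (⟨I, hI⟩ : L))) :
              MvPolynomial (Option (Upper a × Bool ⊕ RealPts a)) L) *
                (2 * MvPolynomial.C ⟨I, hI⟩) = 1 := by
            have : (2 : MvPolynomial (Option (Upper a × Bool ⊕ RealPts a)) L) =
              MvPolynomial.C 2 := (map_ofNat MvPolynomial.C 2).symm
            rw [this, ← MvPolynomial.C_mul, ← MvPolynomial.C_mul, ← MvPolynomial.C_1]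
            congr 1
            field_simp
          linear_combination (MvPolynomial.X (some (Sum.inl (s, false))) :
            MvPolynomial (Option (Upper a × Bool ⊕ RealPts a)) L) * h6
        · simp only [RingHom.comp_apply, φ, MvPolynomial.eval₂Hom_X', gsub, Sum.elim_inl,
            if_true, map_mul, map_add, θ, Option.elim_some,
            MvPolynomial.rename_C, MvPolynomial.rename_X, MvPolynomial.eval₂Hom_C,
            hsub_up, hsub_down, MvPolynomial.map_X, map_sub]
          have h6 : (MvPolynomial.C (1 / 2) :
              MvPolynomial (Option (Upper a × Bool ⊕ RealPts a)) L) * 2 = 1 := by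
            have : (2 : MvPolynomial (Option (Upper a × Bool ⊕ RealPts a)) L) =
              MvPolynomial.C 2 := (map_ofNat MvPolynomial.C 2).symm
            rw [this, ← MvPolynomial.C_mul, ← MvPolynomial.C_1]
            congr 1
            norm_num
          linear_combination (MvPolynomial.X (some (Sum.inl (s, true))) :
            MvPolynomial (Option (Upper a × Bool ⊕ RealPts a)) L) * h6
      · simp [θ, φ, gsub, hsub_real]
  have h2 : (MvPolynomial.aeval (fun o : Option (Pts a) =>
      (o.elim (a : ℂ) (fun s => (s : ℂ)) : ℂ)) :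
      MvPolynomial (Option (Pts a)) L →ₐ[L] ℂ).toRingHom.comp φ =
      Complex.ofRealHom.comp (MvPolynomial.aeval
        (fun o : Option (Upper a × Bool ⊕ RealPts a) => o.elim a (fam a)) :
        MvPolynomial (Option (Upper a × Bool ⊕ RealPts a)) K →ₐ[K] ℝ).toRingHom := by
    apply MvPolynomial.ringHom_ext
    · intro r
      simp only [φ, RingHom.comp_apply, MvPolynomial.eval₂Hom_C]
      change MvPolynomial.aeval _ (MvPolynomial.C (κ r)) =
        Complex.ofRealHom (MvPolynomial.aeval _ (MvPolynomial.C r))
      rw [MvPolynomial.aeval_C, MvPolynomial.aeval_C]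
      rfl
    · rintro (_ | ⟨s, b⟩ | x)
      · simp [φ]
      · cases b
        · simp [φ, gsub, fam]
          have h7 : (algebraMap L ℂ) ⟨I, hI⟩ = I := rfl
          have h8 : (algebraMap L ℂ) 2 = 2 := map_ofNat _ 2
          rw [h7, h8, Complex.im_eq_sub_conj]
          change I⁻¹ * 2⁻¹ * ((s : ℂ) - conj (s : ℂ)) = _
          rw [div_eq_mul_inv, mul_inv]
          ring
        · simp [φ, gsub, fam]
          have h8 : (algebraMap L ℂ) 2 = 2 := map_ofNat _ 2
          rw [h8, Complex.re_eq_add_conj]
          change 2⁻¹ * ((s : ℂ) + conj (s : ℂ)) = _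
          rw [div_eq_mul_inv]
          ring
      · simp [φ, gsub, fam, onReal]
  rw [algebraicIndependent_iff] at h ⊢
  intro p hp
  have h3 : φ p = 0 := by
    apply h
    have h4 : MvPolynomial.aeval (fun o : Option (Pts a) =>
      (o.elim (a : ℂ) (fun s => (s : ℂ)) : ℂ)) (φ p) =
      Complex.ofRealHom (MvPolynomial.aeval (fun o : Option (Upper a × Bool ⊕ RealPts a) =>
        o.elim a (fam a)) p) := RingHom.congr_fun h2 p
    rw [h4, hp, map_zero]
  have h5 : MvPolynomial.map κ p = 0 := by
    rw [← h1, RingHom.comp_apply, h3, map_zero]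
  exact MvPolynomial.map_injective κ κ.injective (by rw [h5, map_zero])

theorem countable_real2 (hA : ∀ m, ThmA2at m) (K : Subfield ℝ) (hK : (K : Set ℝ).Countable) :
    {a : ℝ | ¬ AlgebraicIndependent K
      (fun o : Option (Upper a × Bool ⊕ RealPts a) => o.elim a (fam a))}.Countable := by
  let L : Subfield ℂ := Subfield.closure ((fun x : ℝ => (x : ℂ)) '' K ∪ {I})
  have hI : I ∈ L := Subfield.subset_closure (Or.inr rfl)
  have hKL : ∀ x ∈ K, (x : ℂ) ∈ L := fun x hx => Subfield.subset_closure (Or.inl ⟨x, hx, rfl⟩)
  have hL : (L : Set ℂ).Countable := by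
    have h1 := Subfield.cardinalMk_closure_le_max ((fun x : ℝ => (x : ℂ)) '' K ∪ {I})
    have h2 : ((fun x : ℝ => (x : ℂ)) '' K ∪ {I}).Countable :=
      (hK.image _).union (countable_singleton _)
    rw [← Cardinal.le_aleph0_iff_set_countable] at h2 ⊢
    exact h1.trans (max_le h2 le_rfl)
  refine ((countable_exceptions2 hA L hL).preimage Complex.ofReal_injective).mono ?_
  intro a ha hcon
  exact ha (indep_real2 hI hKL hcon)

end Pool.Agent.K4H52.AP
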