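import Mathlib
import Pool.Agent.K4H52.AP.Spec2

set_option autoImplicit false

open Complex Filter Topology Set

namespace Pool.Agent.K4H52.AP

theorem exists_good {m : ℕ} {U : Set ℂ} {s : Fin m → ℂ → ℂ} (hU : IsOpen U) (hne : U.Nonempty)
    (hB : Branches U s) (i : Fin m) : ∃ a ∈ U, (s i a).im ∉ Complex.im '' Bad := by
  obtain ⟨a₁, ha₁⟩ := hne
  have hd : DifferentiableAt ℂ (s i) a₁ := (hB.diff i).differentiableAt (hU.mem_nhds ha₁)
  have han : AnalyticAt ℂ (s i) a₁ := (hB.diff i).analyticAt (hU.mem_nhds ha₁)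
  have hder : deriv (s i) a₁ ≠ 0 := by
    intro h0
    have h1 : HasDerivAt riemannZeta (deriv riemannZeta (s i a₁)) (s i a₁) :=
      (an_zeta (hB.ne_one i a₁ ha₁)).differentiableAt.hasDerivAt
    have h2 := h1.comp a₁ hd.hasDerivAt
    have h3 : HasDerivAt (riemannZeta ∘ s i) 1 a₁ := by
      refine (hasDerivAt_id a₁).congr_of_eventuallyEq ?_
      filter_upwards [hU.mem_nhds ha₁] with a ha
      exact hB.zeta i a ha
    have h4 := h2.unique h3
    rw [h0, mul_zero] at h4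
    exact zero_ne_one h4
  have hst : HasStrictDerivAt (s i) (deriv (s i) a₁) a₁ := han.hasStrictDerivAt
  have hmap : map (s i) (𝓝 a₁) = 𝓝 (s i a₁) := hst.map_nhds_eq hder
  have hS : s i '' U ∈ 𝓝 (s i a₁) := by
    rw [← hmap]
    exact image_mem_map (hU.mem_nhds ha₁)
  have hcont : Tendsto (fun y : ℝ => (((s i a₁).re : ℂ) + (y : ℂ) * I)) (𝓝 (s i a₁).im)
      (𝓝 (s i a₁)) := by
    have h5 : Continuous (fun y : ℝ => (((s i a₁).re : ℂ) + (y : ℂ) * I)) := by fun_prop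
    have h6 := h5.tendsto (s i a₁).im
    rwa [Complex.re_add_im] at h6
  have hpre := hcont hS
  have hdense := countable_heights.dense_compl ℝ
  obtain ⟨y, hy1, hy2⟩ := hdense.inter_nhds_nonempty hpre
  obtain ⟨a, ha, hay⟩ := hy2
  refine ⟨a, ha, ?_⟩
  rw [hay]
  simpa using hy1

theorem good_line {z₀ : ℂ} (h : z₀.im ∉ Complex.im '' Bad) (t : ℝ) : z₀ + t ∉ Bad := by
  intro h2
  exact h ⟨_, h2, by simp⟩

theorem reg_of {z p : ℂ} (h : z ∉ Bad) (hp : p ≠ 1) (he : riemannZeta p = riemannZeta z) :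
    p ∈ Reg := by
  refine ⟨hp, ?_⟩
  intro h0
  exact h (Or.inr (Or.inr ⟨p, hp, h0, he⟩))

theorem relation_all {m : ℕ} {U : Set ℂ} {s : Fin m → ℂ → ℂ} {Q : MvPolynomial (Fin m) ℂ}
    (hU : IsOpen U) (hB : Branches U s) (hQ : ∀ a ∈ U, MvPolynomial.eval (fun i => s i a) Q = 0)
    {z₀ : ℂ} (hUz : riemannZeta z₀ ∈ U) (hgood : ∀ t : ℝ, 0 ≤ t → z₀ + t ∉ Bad)
    {ψ : Fin m → ℝ → ℂ} (h0 : ∀ i, ψ i 0 = s i (riemannZeta z₀))
    (hc : ∀ i, ContinuousOn (ψ i) (Ici 0))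
    (ha : ∀ i, ∀ t : ℝ, 0 < t → AnalyticAt ℝ (ψ i) t)
    (hz : ∀ i, ∀ t : ℝ, 0 ≤ t → ψ i t ≠ 1 ∧ riemannZeta (ψ i t) = riemannZeta (z₀ + t)) :
    ∀ t : ℝ, 0 < t → MvPolynomial.eval (fun i => ψ i t) Q = 0 := by
  have hne : ∀ t : ℝ, 0 ≤ t → z₀ + t ≠ 1 := fun t ht h1 => hgood t ht (Or.inl h1)
  have hvc : ∀ t : ℝ, 0 ≤ t → ContinuousAt (fun t : ℝ => riemannZeta (z₀ + t)) t := by
    intro t ht
    have h1 : ContinuousAt riemannZeta (z₀ + t) := (an_zeta (hne t ht)).continuousAt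
    have h2 : ContinuousAt (fun t : ℝ => z₀ + t) t := by fun_prop
    exact ContinuousAt.comp (f := fun t : ℝ => z₀ + t) h1 h2
  obtain ⟨ε, hε, hball⟩ : ∃ ε : ℝ, 0 < ε ∧ ∀ t : ℝ, 0 ≤ t → t < ε → riemannZeta (z₀ + t) ∈ U := by
    have h1 : ∀ᶠ t : ℝ in 𝓝 (0 : ℝ), riemannZeta (z₀ + (t : ℂ)) ∈ U := by
      apply (hvc 0 le_rfl)
      apply hU.mem_nhds
      simpa using hUz
    obtain ⟨ε, hε, h2⟩ := Metric.eventually_nhds_iff.1 h1
    refine ⟨ε, hε, fun t ht1 ht2 => h2 ?_⟩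
    rw [Real.dist_eq, sub_zero, abs_of_nonneg ht1]
    exact ht2
  have hsmall : ∀ i, ∀ t ∈ Icc (0 : ℝ) (ε / 2), ψ i t = s i (riemannZeta (z₀ + t)) := by
    intro i
    refine uniq (S := Icc 0 (ε / 2)) isPreconnected_Icc ((hc i).mono Icc_subset_Ici_self) ?_ ?_ ?_
      ?_ (t₀ := 0) ⟨le_rfl, by positivity⟩ ?_
    · intro t ht
      have h1 : ContinuousAt (s i) (riemannZeta (z₀ + t)) :=
        ((hB.diff i).differentiableAt (hU.mem_nhds (hball t ht.1 (by linarith [ht.2])))).continuousAt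
      exact (ContinuousAt.comp (f := fun t : ℝ => riemannZeta (z₀ + t)) h1
        (hvc t ht.1)).continuousWithinAt
    · intro t ht
      exact reg_of (hgood t ht.1) (hz i t ht.1).1 (hz i t ht.1).2
    · intro t ht
      have h1 := hball t ht.1 (by linarith [ht.2])
      exact reg_of (hgood t ht.1) (hB.ne_one i _ h1) (hB.zeta i _ h1)
    · intro t ht
      have h1 := hball t ht.1 (by linarith [ht.2])
      rw [hB.zeta i _ h1]
      exact (hz i t ht.1).2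
    · rw [h0 i]
      simp
  have hf : AnalyticOnNhd ℝ (fun t : ℝ => MvPolynomial.eval (fun i => ψ i t) Q) (Ioi 0) := by
    intro t ht
    exact AnalyticAt.aeval_mvPolynomial (f := fun t i => ψ i t) (fun i => ha i t ht) Q
  have hev : (fun t : ℝ => MvPolynomial.eval (fun i => ψ i t) Q) =ᶠ[𝓝 (ε / 4)] 0 := by
    have h1 : Ioo 0 (ε / 2) ∈ 𝓝 (ε / 4) := Ioo_mem_nhds (by positivity) (by linarith)
    filter_upwards [h1] with t ht
    have h2 : (fun i => ψ i t) = fun i => s i (riemannZeta (z₀ + t)) := by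
      funext i
      exact hsmall i t ⟨ht.1.le, ht.2.le⟩
    rw [h2]
    exact hQ _ (hball t ht.1.le (by linarith [ht.2]))
  have hzero := hf.eqOn_zero_of_preconnected_of_eventuallyEq_zero isPreconnected_Ioi
    (show ε / 4 ∈ Ioi (0 : ℝ) from by
      rw [mem_Ioi]
      positivity) hev
  intro t ht
  exact hzero ht

/-- the first alternative of `LiftEnd` -/
def TType (Λ J : ℂ → ℂ) (z₀ : ℂ) (ψ : ℝ → ℂ) : Prop :=
  ∃ (n : ℤ) (t₁ : ℝ), ∀ t : ℝ, t₁ ≤ t → ψ t = J (Λ (z₀ + t) + τ * n)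

/-- the second alternative of `LiftEnd` -/
def RType (Λ : ℂ → ℂ) (z₀ : ℂ) (ψ : ℝ → ℂ) : Prop :=
  ∃ (k : ℕ) (Y t₁ : ℝ) (R : ℂ → ℂ), 1 ≤ k ∧ DifferentiableOn ℂ R {z | Y < z.re} ∧
    (∀ z : ℂ, Y < z.re → R (z + τ * k) = R z ∧ R z ≠ 1 ∧ riemannZeta (R z) = 1 + (2 : ℂ) ^ (-z)) ∧
    ∀ t : ℝ, t₁ ≤ t → Y < (Λ (z₀ + t)).re ∧ ψ t = R (Λ (z₀ + t))

theorem main_step (h3 : Final) {m : ℕ} (ih : ∀ q < m, ThmAat q) {X : ℝ} {Λ J : ℂ → ℂ}
    (hT : Tract X Λ J) {z₀ : ℂ} {ψ : Fin m → ℝ → ℂ} {Q : MvPolynomial (Fin m) ℂ}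
    (hd : ∀ i j, i ≠ j → ∀ t : ℝ, 0 < t → ψ i t ≠ ψ j t)
    (hrel : ∀ t : ℝ, 0 < t → MvPolynomial.eval (fun i => ψ i t) Q = 0)
    (hTR : ∀ i, TType Λ J z₀ (ψ i) ∨ RType Λ z₀ (ψ i)) (i₀ : Fin m)
    (hi₀ : TType Λ J z₀ (ψ i₀)) : Q = 0 := by
  classical
  let P : Fin m → Prop := fun i => TType Λ J z₀ (ψ i)
  have hR : ∀ i : {i // ¬ P i}, RType Λ z₀ (ψ i) := fun i => (hTR i).resolve_left i.2
  have hTT : ∀ i : {i // P i}, TType Λ J z₀ (ψ i) := fun i => i.2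
  choose n tT hn using hTT
  choose k Y tR R hk hRd hRp hRt using hR
  let eT := Fintype.equivFin {i // P i}
  let eR := Fintype.equivFin {i // ¬ P i}
  set r := Fintype.card {i // P i}
  set q := Fintype.card {i // ¬ P i}
  have hq : q < m := by
    have h1 : q < Fintype.card (Fin m) := Fintype.card_subtype_lt (x := i₀) (by
      simpa [P] using hi₀)
    simpa using h1
  let e : Fin r ⊕ Fin q ≃ Fin m := (Equiv.sumCongr eT.symm eR.symm).trans (Equiv.sumCompl P)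
  have heT : ∀ i, e (Sum.inl i) = (eT.symm i : Fin m) := fun i => rfl
  have heR : ∀ j, e (Sum.inr j) = (eR.symm j : Fin m) := fun j => rfl
  obtain ⟨B₁, hB₁⟩ := (Set.finite_range tT).bddAbove
  obtain ⟨B₂, hB₂⟩ := (Set.finite_range tR).bddAbove
  obtain ⟨B₃, hB₃⟩ := (Set.finite_range Y).bddAbove
  set t₁ := max (max B₁ B₂) 1 with ht₁
  have ht1 : ∀ i, tT i ≤ t₁ := fun i => (hB₁ ⟨i, rfl⟩).trans ((le_max_left _ _).trans (le_max_left _ _))
  have ht2 : ∀ i, tR i ≤ t₁ := fun i => (hB₂ ⟨i, rfl⟩).trans ((le_max_right _ _).trans (le_max_left _ _))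
  have ht3 : 0 < t₁ := lt_of_lt_of_le one_pos (le_max_right _ _)
  have hY : ∀ j, Y j ≤ B₃ := fun j => hB₃ ⟨j, rfl⟩
  have hinj : Function.Injective (fun i : Fin r => n (eT.symm i)) := by
    intro a b hab
    by_contra hne
    have h1 : (eT.symm a : Fin m) ≠ (eT.symm b : Fin m) := by
      intro h2
      exact hne (eT.symm.injective (Subtype.ext h2))
    apply hd _ _ h1 t₁ ht3
    rw [hn (eT.symm a) t₁ (ht1 _), hn (eT.symm b) t₁ (ht1 _)]
    have h3 : n (eT.symm a) = n (eT.symm b) := hab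
    rw [h3]
  have hval : ∀ t : ℝ, t₁ ≤ t → (fun x => ψ (e x) t) =
      Sum.elim (fun i : Fin r => J (Λ (z₀ + t) + τ * (n (eT.symm i) : ℂ)))
        (fun j : Fin q => R (eR.symm j) (Λ (z₀ + t))) := by
    intro t ht
    funext x
    rcases x with i | j
    · rw [heT]
      exact hn (eT.symm i) t ((ht1 _).trans ht)
    · rw [heR]
      exact (hRt (eR.symm j) t ((ht2 _).trans ht)).2
  have hQ' : MvPolynomial.rename e.symm Q = 0 := by
    refine h3 X Λ J hT r q (fun i => n (eT.symm i)) hinj (ih q hq) (fun j => k (eR.symm j)) B₃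
      (fun j => R (eR.symm j)) (fun j => hk _) ?_ ?_ z₀ t₁ _ ?_ ?_
    · intro j
      exact (hRd (eR.symm j)).mono fun z hz => lt_of_le_of_lt (hY _) hz
    · intro j z hz
      exact hRp (eR.symm j) z (lt_of_le_of_lt (hY _) hz)
    · intro t ht a b hab
      by_contra hne
      have h1 : (eR.symm a : Fin m) ≠ (eR.symm b : Fin m) := by
        intro h2
        exact hne (eR.symm.injective (Subtype.ext h2))
      apply hd _ _ h1 t (ht3.trans_le ht)
      rw [(hRt (eR.symm a) t ((ht2 _).trans ht)).2, (hRt (eR.symm b) t ((ht2 _).trans ht)).2]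
      exact hab
    · intro t ht
      rw [← hval t ht, MvPolynomial.eval_rename]
      have h5 : (fun x => ψ (e x) t) ∘ e.symm = fun i => ψ i t := by
        funext i
        simp
      rw [h5]
      exact hrel t (ht3.trans_le ht)
  exact (MvPolynomial.rename_injective e.symm e.symm.injective) (by rw [hQ', map_zero])

theorem thmAat (h1 : LiftExists) (h2 : LiftEnd) (h3 : Final) (h4 : TractExists) :
    ∀ m, ThmAat m := by
  intro m
  induction m using Nat.strong_induction_on with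
  | _ m ih =>
  intro U s Q hU hne hB hQ
  rcases Nat.eq_zero_or_pos m with rfl | hm
  · obtain ⟨a, ha⟩ := hne
    have h5 := hQ a ha
    rw [MvPolynomial.eq_C_of_isEmpty Q, MvPolynomial.eval_C] at h5
    rw [MvPolynomial.eq_C_of_isEmpty Q, h5, map_zero]
  · obtain ⟨X, Λ, J, hT⟩ := h4
    let i₀ : Fin m := ⟨0, hm⟩
    obtain ⟨a₀, ha₀, hgood⟩ := exists_good hU hne hB i₀
    set z₀ := s i₀ a₀ with hz₀
    have hζ : riemannZeta z₀ = a₀ := hB.zeta i₀ a₀ ha₀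
    have hg : ∀ t : ℝ, 0 ≤ t → z₀ + t ∉ Bad := fun t _ => good_line hgood t
    have hlift : ∀ i : Fin m, ∃ ψ : ℝ → ℂ, ψ 0 = s i a₀ ∧ ContinuousOn ψ (Ici 0) ∧
        (∀ t : ℝ, 0 < t → AnalyticAt ℝ ψ t) ∧
        ∀ t : ℝ, 0 ≤ t → ψ t ≠ 1 ∧ riemannZeta (ψ t) = riemannZeta (z₀ + t) := by
      intro i
      refine h1 z₀ (s i a₀) hg (hB.ne_one i a₀ ha₀) ?_
      rw [hζ, hB.zeta i a₀ ha₀]
    choose ψ hψ0 hψc hψa hψz using hlift
    have hreg : ∀ i, ∀ t ∈ Ici (0 : ℝ), ψ i t ∈ Reg := fun i t ht =>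
      reg_of (hg t ht) (hψz i t ht).1 (hψz i t ht).2
    have hrel := relation_all (ψ := ψ) hU hB hQ (z₀ := z₀) (by rw [hζ]; exact ha₀) hg
      (fun i => by rw [hψ0 i, hζ]) hψc hψa hψz
    have hd : ∀ i j, i ≠ j → ∀ t : ℝ, 0 < t → ψ i t ≠ ψ j t := by
      intro i j hij t ht heq
      have h5 := uniq isPreconnected_Ici (hψc i) (hψc j) (hreg i) (hreg j)
        (fun u hu => by rw [(hψz i u hu).2, (hψz j u hu).2]) (t₀ := t) ht.le heq 0 self_mem_Ici
      rw [hψ0 i, hψ0 j] at h5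
      exact hij (hB.inj a₀ ha₀ h5)
    refine main_step h3 ih hT hd hrel (fun i => h2 X Λ J hT z₀ (ψ i) (hψc i) (hψa i) (hψz i)) i₀ ?_
    refine ⟨0, max 0 (X + 2 - z₀.re), ?_⟩
    intro t ht
    have ht0 : 0 ≤ t := (le_max_left _ _).trans ht
    have ht1 : X + 2 - z₀.re ≤ t := (le_max_right _ _).trans ht
    have h6 : ψ i₀ t = z₀ + t := by
      refine uniq isPreconnected_Ici (hψc i₀) (φ := fun t : ℝ => z₀ + t)
        (by fun_prop) (hreg i₀) ?_ ?_ (t₀ := 0) self_mem_Ici ?_ t ht0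
      · intro u hu
        exact reg_of (hg u hu) (fun h => hg u hu (Or.inl h)) rfl
      · intro u hu
        exact (hψz i₀ u hu).2
      · rw [hψ0 i₀, ← hz₀]
        simp
    have h7 : X + 1 < (z₀ + (t : ℂ)).re := by
      rw [Complex.add_re, Complex.ofReal_re]
      linarith
    rw [h6]
    rw [Int.cast_zero, mul_zero, add_zero, hT.JΛ _ h7]

theorem thmA (h1 : LiftExists) (h2 : LiftEnd) (h3 : Final) (h4 : TractExists) : ThmA :=
  fun m => thmAat h1 h2 h3 h4 m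

end Pool.Agent.K4H52.AP
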