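import Mathlib
import Pool.Agent.K4H52.AP.ThmA
import Pool.Agent.K4H52.AP.Final2

/-!
# Theorem A with the value itself: `a, s 1 a, …, s m a` are algebraically independent over `ℂ`
-/

set_option autoImplicit false

open Complex Filter Topology Set

namespace Pool.Agent.K4H52.AP

theorem relation_all2 {m : ℕ} {U : Set ℂ} {s : Fin m → ℂ → ℂ}
    {Q : MvPolynomial (Option (Fin m)) ℂ} (hU : IsOpen U) (hB : Branches U s)
    (hQ : ∀ a ∈ U, MvPolynomial.eval
      (fun o : Option (Fin m) => o.elim a (fun i => s i a)) Q = 0)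
    {z₀ : ℂ} (hUz : riemannZeta z₀ ∈ U) (hgood : ∀ t : ℝ, 0 ≤ t → z₀ + t ∉ Bad)
    {ψ : Fin m → ℝ → ℂ} (h0 : ∀ i, ψ i 0 = s i (riemannZeta z₀))
    (hc : ∀ i, ContinuousOn (ψ i) (Ici 0))
    (ha : ∀ i, ∀ t : ℝ, 0 < t → AnalyticAt ℝ (ψ i) t)
    (hz : ∀ i, ∀ t : ℝ, 0 ≤ t → ψ i t ≠ 1 ∧ riemannZeta (ψ i t) = riemannZeta (z₀ + t)) :
    ∀ t : ℝ, 0 < t → MvPolynomial.eval (fun o : Option (Fin m) =>
      o.elim (riemannZeta (z₀ + t)) (fun i => ψ i t)) Q = 0 := by
  have hne : ∀ t : ℝ, 0 ≤ t → z₀ + t ≠ 1 := fun t ht h1 => hgood t ht (Or.inl h1)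
  have hvc : ∀ t : ℝ, 0 ≤ t → ContinuousAt (fun t : ℝ => riemannZeta (z₀ + t)) t := by
    intro t ht
    have h1 : ContinuousAt riemannZeta (z₀ + t) := (an_zeta (hne t ht)).continuousAt
    have h2 : ContinuousAt (fun t : ℝ => z₀ + t) t := by fun_prop
    exact ContinuousAt.comp (f := fun t : ℝ => z₀ + t) h1 h2
  obtain ⟨ε, hε, hball⟩ : ∃ ε : ℝ, 0 < ε ∧ ∀ t : ℝ, 0 ≤ t → t < ε → riemannZeta (z₀ + t) ∈ U := by
    have h1 : ∀ᶠ t : ℝ in 𝓝 (0 : ℝ), riemannZeta (z₀ + (t : ℂ)) ∈ U := by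
      apply (hvc 0 le_rfl)
      apply hU.mem_nhds
      simpa using hUz
    obtain ⟨ε, hε, h2⟩ := Metric.eventually_nhds_iff.1 h1
    refine ⟨ε, hε, fun t ht1 ht2 => h2 ?_⟩
    rw [Real.dist_eq, sub_zero, abs_of_nonneg ht1]
    exact ht2
  have hsmall : ∀ i, ∀ t ∈ Icc (0 : ℝ) (ε / 2), ψ i t = s i (riemannZeta (z₀ + t)) := by
    intro i
    refine uniq (S := Icc 0 (ε / 2)) isPreconnected_Icc ((hc i).mono Icc_subset_Ici_self) ?_ ?_ ?_
      ?_ (t₀ := 0) ⟨le_rfl, by positivity⟩ ?_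
    · intro t ht
      have h1 : ContinuousAt (s i) (riemannZeta (z₀ + t)) :=
        ((hB.diff i).differentiableAt (hU.mem_nhds (hball t ht.1 (by linarith [ht.2])))).continuousAt
      exact (ContinuousAt.comp (f := fun t : ℝ => riemannZeta (z₀ + t)) h1
        (hvc t ht.1)).continuousWithinAt
    · intro t ht
      exact reg_of (hgood t ht.1) (hz i t ht.1).1 (hz i t ht.1).2
    · intro t ht
      have h1 := hball t ht.1 (by linarith [ht.2])
      exact reg_of (hgood t ht.1) (hB.ne_one i _ h1) (hB.zeta i _ h1)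
    · intro t ht
      have h1 := hball t ht.1 (by linarith [ht.2])
      rw [hB.zeta i _ h1]
      exact (hz i t ht.1).2
    · rw [h0 i]
      simp
  have hf : AnalyticOnNhd ℝ (fun t : ℝ => MvPolynomial.eval (fun o : Option (Fin m) =>
      o.elim (riemannZeta (z₀ + t)) (fun i => ψ i t)) Q) (Ioi 0) := by
    intro t ht
    refine AnalyticAt.aeval_mvPolynomial (f := fun (t : ℝ) (o : Option (Fin m)) =>
      o.elim (riemannZeta (z₀ + t)) (fun i => ψ i t)) ?_ Q
    rintro (_ | i)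
    · have h1 : AnalyticAt ℝ riemannZeta (z₀ + t) :=
        (an_zeta (hne t (le_of_lt ht))).restrictScalars
      have h2 : AnalyticAt ℝ (fun t : ℝ => z₀ + (t : ℂ)) t := by
        have : AnalyticAt ℝ (fun t : ℝ => (t : ℂ)) t := Complex.ofRealCLM.analyticAt t
        exact analyticAt_const.add this
      exact AnalyticAt.comp (f := fun t : ℝ => z₀ + (t : ℂ)) h1 h2
    · exact ha i t ht
  have hev : (fun t : ℝ => MvPolynomial.eval (fun o : Option (Fin m) =>
      o.elim (riemannZeta (z₀ + t)) (fun i => ψ i t)) Q) =ᶠ[𝓝 (ε / 4)] 0 := by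
    have h1 : Ioo 0 (ε / 2) ∈ 𝓝 (ε / 4) := Ioo_mem_nhds (by positivity) (by linarith)
    filter_upwards [h1] with t ht
    have h2 : (fun o : Option (Fin m) => o.elim (riemannZeta (z₀ + t)) (fun i => ψ i t)) =
        fun o => o.elim (riemannZeta (z₀ + t)) (fun i => s i (riemannZeta (z₀ + t))) := by
      funext o
      rcases o with _ | i
      · rfl
      · exact hsmall i t ⟨ht.1.le, ht.2.le⟩
    rw [h2]
    exact hQ _ (hball t ht.1.le (by linarith [ht.2]))
  have hzero := hf.eqOn_zero_of_preconnected_of_eventuallyEq_zero isPreconnected_Ioi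
    (show ε / 4 ∈ Ioi (0 : ℝ) from by
      rw [mem_Ioi]
      positivity) hev
  intro t ht
  exact hzero ht

/-- reindexing -/
def optE (α β : Type) : Option (α ⊕ β) ≃ α ⊕ Option β where
  toFun := fun o => match o with
    | none => Sum.inr none
    | some (Sum.inl i) => Sum.inl i
    | some (Sum.inr j) => Sum.inr (some j)
  invFun := fun x => match x with
    | Sum.inl i => some (Sum.inl i)
    | Sum.inr none => none
    | Sum.inr (some j) => some (Sum.inr j)
  left_inv := by rintro (_ | _ | _) <;> rfl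
  right_inv := by rintro (_ | _ | _) <;> rfl

theorem main_step2 (hD : Dense) {m : ℕ} (ih : ∀ q < m, ThmA2at q) {X : ℝ} {Λ J : ℂ → ℂ}
    (hT : Tract X Λ J) {z₀ : ℂ} {ψ : Fin m → ℝ → ℂ} {Q : MvPolynomial (Option (Fin m)) ℂ}
    (hd : ∀ i j, i ≠ j → ∀ t : ℝ, 0 < t → ψ i t ≠ ψ j t)
    (hrel : ∀ t : ℝ, 0 < t → MvPolynomial.eval (fun o : Option (Fin m) =>
      o.elim (riemannZeta (z₀ + t)) (fun i => ψ i t)) Q = 0)
    (hTR : ∀ i, TType Λ J z₀ (ψ i) ∨ RType Λ z₀ (ψ i)) (i₀ : Fin m)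
    (hi₀ : TType Λ J z₀ (ψ i₀)) : Q = 0 := by
  classical
  let P : Fin m → Prop := fun i => TType Λ J z₀ (ψ i)
  have hR : ∀ i : {i // ¬ P i}, RType Λ z₀ (ψ i) := fun i => (hTR i).resolve_left i.2
  have hTT : ∀ i : {i // P i}, TType Λ J z₀ (ψ i) := fun i => i.2
  choose n tT hn using hTT
  choose k Y tR R hk hRd hRp hRt using hR
  let eT := Fintype.equivFin {i // P i}
  let eR := Fintype.equivFin {i // ¬ P i}
  set r := Fintype.card {i // P i}
  set q := Fintype.card {i // ¬ P i}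
  have hq : q < m := by
    have h1 : q < Fintype.card (Fin m) := Fintype.card_subtype_lt (x := i₀) (by
      simpa [P] using hi₀)
    simpa using h1
  let e : Fin r ⊕ Fin q ≃ Fin m := (Equiv.sumCongr eT.symm eR.symm).trans (Equiv.sumCompl P)
  have heT : ∀ i, e (Sum.inl i) = (eT.symm i : Fin m) := fun i => rfl
  have heR : ∀ j, e (Sum.inr j) = (eR.symm j : Fin m) := fun j => rfl
  let e' : Option (Fin m) ≃ Fin r ⊕ Option (Fin q) :=
    (Equiv.optionCongr e.symm).trans (optE (Fin r) (Fin q))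
  obtain ⟨B₁, hB₁⟩ := (Set.finite_range tT).bddAbove
  obtain ⟨B₂, hB₂⟩ := (Set.finite_range tR).bddAbove
  obtain ⟨B₃, hB₃⟩ := (Set.finite_range Y).bddAbove
  set t₁ := max (max B₁ B₂) (max 1 (X + 1 - z₀.re)) with ht₁
  have ht1 : ∀ i, tT i ≤ t₁ := fun i => (hB₁ ⟨i, rfl⟩).trans ((le_max_left _ _).trans (le_max_left _ _))
  have ht2 : ∀ i, tR i ≤ t₁ := fun i => (hB₂ ⟨i, rfl⟩).trans ((le_max_right _ _).trans (le_max_left _ _))
  have ht3 : 0 < t₁ :=
    lt_of_lt_of_le one_pos ((le_max_left 1 (X + 1 - z₀.re)).trans (le_max_right _ _))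
  have ht4 : X + 1 - z₀.re ≤ t₁ := (le_max_right 1 (X + 1 - z₀.re)).trans (le_max_right _ _)
  have hY : ∀ j, Y j ≤ B₃ := fun j => hB₃ ⟨j, rfl⟩
  have hinj : Function.Injective (fun i : Fin r => n (eT.symm i)) := by
    intro a b hab
    by_contra hne
    have h1 : (eT.symm a : Fin m) ≠ (eT.symm b : Fin m) := by
      intro h2
      exact hne (eT.symm.injective (Subtype.ext h2))
    apply hd _ _ h1 t₁ ht3
    rw [hn (eT.symm a) t₁ (ht1 _), hn (eT.symm b) t₁ (ht1 _)]
    have h3 : n (eT.symm a) = n (eT.symm b) := hab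
    rw [h3]
  have hval : ∀ t : ℝ, t₁ ≤ t → (Sum.elim (fun i : Fin r => J (Λ (z₀ + t) + τ * (n (eT.symm i) : ℂ)))
        (fun o => RR (fun j : Fin q => R (eR.symm j)) o (Λ (z₀ + t)))) ∘ e' =
      fun o : Option (Fin m) => o.elim (riemannZeta (z₀ + t)) (fun i => ψ i t) := by
    intro t ht
    have hsur : ∀ o : Option (Fin m), ∃ x, o = e'.symm x := fun o => ⟨e' o, by simp⟩
    funext o
    obtain ⟨x, rfl⟩ := hsur o
    rw [Function.comp_apply, Equiv.apply_symm_apply]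
    rcases x with i | _ | j
    · have h1 : e'.symm (Sum.inl i) = some (e (Sum.inl i)) := rfl
      rw [h1, heT]
      exact (hn (eT.symm i) t ((ht1 _).trans ht)).symm
    · have h1 : e'.symm (Sum.inr none) = none := rfl
      rw [h1]
      change 1 + (2 : ℂ) ^ (-(Λ (z₀ + t))) = riemannZeta (z₀ + t)
      rw [hT.Λ_eq _ (by
        rw [Complex.add_re, Complex.ofReal_re]
        linarith)]
      ring
    · have h1 : e'.symm (Sum.inr (some j)) = some (e (Sum.inr j)) := rfl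
      rw [h1, heR]
      exact (hRt (eR.symm j) t ((ht2 _).trans ht)).2.symm
  have hQ' : MvPolynomial.rename e' Q = 0 := by
    refine final2 hD hT hinj (ih q hq) (k := fun j => k (eR.symm j)) (Y := B₃)
      (R := fun j => R (eR.symm j)) (fun j => hk _) ?_ ?_ (z₀ := z₀) (t₁ := t₁) ?_ ?_
    · intro j
      exact (hRd (eR.symm j)).mono fun z hz => lt_of_le_of_lt (hY _) hz
    · intro j z hz
      exact hRp (eR.symm j) z (lt_of_le_of_lt (hY _) hz)
    · intro t ht a b hab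
      by_contra hne
      have h1 : (eR.symm a : Fin m) ≠ (eR.symm b : Fin m) := by
        intro h2
        exact hne (eR.symm.injective (Subtype.ext h2))
      apply hd _ _ h1 t (ht3.trans_le ht)
      rw [(hRt (eR.symm a) t ((ht2 _).trans ht)).2, (hRt (eR.symm b) t ((ht2 _).trans ht)).2]
      exact hab
    · intro t ht
      rw [MvPolynomial.eval_rename, hval t ht]
      exact hrel t (ht3.trans_le ht)
  exact (MvPolynomial.rename_injective e' e'.injective) (by rw [hQ', map_zero])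

theorem thmA2at (h1 : LiftExists) (h2 : LiftEnd) (hD : Dense) (h4 : TractExists) :
    ∀ m, ThmA2at m := by
  intro m
  induction m using Nat.strong_induction_on with
  | _ m ih =>
  intro U s Q hU hne hB hQ
  rcases Nat.eq_zero_or_pos m with rfl | hm
  · -- no branches
    obtain ⟨a₀, ha₀⟩ := hne
    have h5 : ∀ a ∈ U, MvPolynomial.eval (fun _ : Option (Fin 0) => a) Q = 0 := by
      intro a ha
      rw [← hQ a ha]
      congr 2
      funext o
      rcases o with _ | i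
      · rfl
      · exact i.elim0
    have hinf : U.Infinite := (infinite_of_mem_nhds a₀ (hU.mem_nhds ha₀))
    refine MvPolynomial.funext_set (fun _ => U) (fun _ => hinf) ?_
    intro x hx
    have h6 : x = fun _ : Option (Fin 0) => x none := by
      funext o
      rcases o with _ | i
      · rfl
      · exact i.elim0
    rw [map_zero, h6]
    exact h5 _ (hx none (mem_univ _))
  · obtain ⟨X, Λ, J, hT⟩ := h4
    let i₀ : Fin m := ⟨0, hm⟩
    obtain ⟨a₀, ha₀, hgood⟩ := exists_good hU hne hB i₀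
    set z₀ := s i₀ a₀ with hz₀
    have hζ : riemannZeta z₀ = a₀ := hB.zeta i₀ a₀ ha₀
    have hg : ∀ t : ℝ, 0 ≤ t → z₀ + t ∉ Bad := fun t _ => good_line hgood t
    have hlift : ∀ i : Fin m, ∃ ψ : ℝ → ℂ, ψ 0 = s i a₀ ∧ ContinuousOn ψ (Ici 0) ∧
        (∀ t : ℝ, 0 < t → AnalyticAt ℝ ψ t) ∧
        ∀ t : ℝ, 0 ≤ t → ψ t ≠ 1 ∧ riemannZeta (ψ t) = riemannZeta (z₀ + t) := by
      intro i
      refine h1 z₀ (s i a₀) hg (hB.ne_one i a₀ ha₀) ?_
      rw [hζ, hB.zeta i a₀ ha₀]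
    choose ψ hψ0 hψc hψa hψz using hlift
    have hreg : ∀ i, ∀ t ∈ Ici (0 : ℝ), ψ i t ∈ Reg := fun i t ht =>
      reg_of (hg t ht) (hψz i t ht).1 (hψz i t ht).2
    have hrel := relation_all2 (ψ := ψ) hU hB hQ (z₀ := z₀) (by rw [hζ]; exact ha₀) hg
      (fun i => by rw [hψ0 i, hζ]) hψc hψa hψz
    have hd : ∀ i j, i ≠ j → ∀ t : ℝ, 0 < t → ψ i t ≠ ψ j t := by
      intro i j hij t ht heq
      have h5 := uniq isPreconnected_Ici (hψc i) (hψc j) (hreg i) (hreg j)
        (fun u hu => by rw [(hψz i u hu).2, (hψz j u hu).2]) (t₀ := t) ht.le heq 0 self_mem_Ici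
      rw [hψ0 i, hψ0 j] at h5
      exact hij (hB.inj a₀ ha₀ h5)
    refine main_step2 hD ih hT hd hrel
      (fun i => h2 X Λ J hT z₀ (ψ i) (hψc i) (hψa i) (hψz i)) i₀ ?_
    refine ⟨0, max 0 (X + 2 - z₀.re), ?_⟩
    intro t ht
    have ht0 : 0 ≤ t := (le_max_left _ _).trans ht
    have ht1 : X + 2 - z₀.re ≤ t := (le_max_right _ _).trans ht
    have h6 : ψ i₀ t = z₀ + t := by
      refine uniq isPreconnected_Ici (hψc i₀) (φ := fun t : ℝ => z₀ + t)
        (by fun_prop) (hreg i₀) ?_ ?_ (t₀ := 0) self_mem_Ici ?_ t ht0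
      · intro u hu
        exact reg_of (hg u hu) (fun h => hg u hu (Or.inl h)) rfl
      · intro u hu
        exact (hψz i₀ u hu).2
      · rw [hψ0 i₀, ← hz₀]
        simp
    have h7 : X + 1 < (z₀ + (t : ℂ)).re := by
      rw [Complex.add_re, Complex.ofReal_re]
      linarith
    rw [h6]
    rw [Int.cast_zero, mul_zero, add_zero, hT.JΛ _ h7]

end Pool.Agent.K4H52.AP
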